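import Pool.Agent.Work.MP_e76ef6d3_pr.Defs2

/-!
Module H2: there are `2 h` trisections.
-/

namespace Pool.Agent.Syst

open Equiv Filter Topology

variable {N : ℕ}

namespace TriAux

/-- The down-step condition in terms of `a`. -/
lemma mem_DT_iff {n : ℕ} {a : Perm (Fin (n + 1))} (ha : IsGluing a) (x : Fin (n + 1)) :
    x ∈ DT a ↔ x < a x ∨ x = a 0 := by
  classical
  unfold DT
  rw [Finset.mem_filter]
  simp only [Finset.mem_univ, true_and]
  set y := (sig a)⁻¹ x with hy
  have h1 : sig a y = x := by rw [hy]; simp
  have h2 : finRotate (n + 1) y = a x := by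
    unfold sig at h1
    rw [Perm.mul_apply] at h1
    rw [← h1, (ha _).1]
  by_cases hl : y = Fin.last n
  · rw [hl, finRotate_last] at h2
    have h3 : x = a 0 := by rw [h2, (ha x).1]
    constructor
    · intro _
      exact Or.inr h3
    · intro _
      rw [hl]
      exact Fin.le_last x
  · have h3 : (a x).val = y.val + 1 := by
      rw [← h2]
      exact coe_finRotate_of_ne_last hl
    constructor
    · intro h
      left
      rw [Fin.lt_def, h3]
      rw [Fin.le_def] at h
      omega
    · rintro (h | h)
      · rw [Fin.lt_def, h3] at h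
        rw [Fin.le_def]
        omega
      · exfalso
        rw [h, (ha 0).1] at h3
        simp at h3

lemma card_lt {n : ℕ} {a : Perm (Fin n)} (ha : IsGluing a) :
    2 * (Finset.univ.filter (fun x => x < a x)).card = n := by
  classical
  have h1 : (Finset.univ.filter (fun x => a x < x)).card =
      (Finset.univ.filter (fun x => x < a x)).card := by
    apply Finset.card_bij (fun x _ => a x)
    · intro x hx
      simp only [Finset.mem_filter, Finset.mem_univ, true_and] at hx ⊢
      rwa [(ha x).1]
    · intro x _ y _ h
      exact a.injective h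
    · intro y hy
      simp only [Finset.mem_filter, Finset.mem_univ, true_and] at hy
      refine ⟨a y, ?_, (ha y).1⟩
      simp only [Finset.mem_filter, Finset.mem_univ, true_and]
      rwa [(ha y).1]
  have h2 : (Finset.univ.filter (fun x => x < a x)).card +
      (Finset.univ.filter (fun x => ¬ x < a x)).card = n := by
    rw [Finset.card_filter_add_card_filter_not]
    simp
  have h3 : (Finset.univ.filter (fun x => ¬ x < a x)) =
      (Finset.univ.filter (fun x => a x < x)) := by
    apply Finset.filter_congr
    intro x _
    have := (ha x).2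
    constructor
    · intro h
      exact lt_of_le_of_ne (not_lt.1 h) this
    · intro h
      exact not_lt.2 h.le
  rw [h3, h1] at h2
  omega

end TriAux

theorem card_DT {a : Perm (Fin N)} (hN : 0 < N) (ha : IsGluing a) :
    (DT a).card = N / 2 + 1 := by
  classical
  obtain ⟨n, rfl⟩ : ∃ n, N = n + 1 := ⟨N - 1, by omega⟩
  have h1 : DT a = insert (a 0) (Finset.univ.filter (fun x => x < a x)) := by
    ext x
    rw [TriAux.mem_DT_iff ha, Finset.mem_insert, Finset.mem_filter]
    simp only [Finset.mem_univ, true_and]
    tauto
  have h2 : a 0 ∉ Finset.univ.filter (fun x => x < a x) := by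
    simp only [Finset.mem_filter, Finset.mem_univ, true_and]
    rw [(ha 0).1]
    exact Fin.not_lt_zero _
  rw [h1, Finset.card_insert_of_notMem h2]
  have := TriAux.card_lt ha
  omega

theorem card_mins (a : Perm (Fin N)) : (mins a).card = ncyc a := by
  classical
  unfold ncyc
  rw [← Fintype.card_coe, ← Nat.card_eq_fintype_card]
  apply Nat.card_eq_of_bijective (fun x : mins a => (Quotient.mk (cyc a) x.1))
  constructor
  · rintro ⟨x, hx⟩ ⟨y, hy⟩ h
    unfold mins at hx hy
    simp only [Finset.mem_filter, Finset.mem_univ, true_and] at hx hy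
    have h1 : (sig a).SameCycle x y := Quotient.exact h
    exact Subtype.ext (le_antisymm (hx y h1) (hy x h1.symm))
  · intro q
    obtain ⟨z, rfl⟩ := Quotient.exists_rep q
    obtain ⟨x, hx, hmin⟩ := Finset.exists_min_image
      (Finset.univ.filter (fun y => (sig a).SameCycle z y)) id
      ⟨z, by simp only [Finset.mem_filter, Finset.mem_univ, true_and]; exact Perm.SameCycle.refl _ _⟩
    simp only [Finset.mem_filter, Finset.mem_univ, true_and, id] at hx hmin
    refine ⟨⟨x, ?_⟩, ?_⟩
    · unfold mins
      simp only [Finset.mem_filter, Finset.mem_univ, true_and]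
      intro y hy
      exact hmin y (hx.trans hy)
    · apply Quotient.sound
      exact hx.symm

theorem mins_subset_DT (a : Perm (Fin N)) : mins a ⊆ DT a := by
  classical
  intro x hx
  unfold mins at hx
  unfold DT
  simp only [Finset.mem_filter, Finset.mem_univ, true_and] at hx ⊢
  apply hx
  exact ⟨-1, by simp⟩

theorem card_TT {a : Perm (Fin N)} (hN : 0 < N) {h : ℕ} (ha : a ∈ Uni N h) :
    (TT a).card = 2 * h := by
  classical
  unfold Uni at ha
  simp only [Finset.mem_filter, Finset.mem_univ, true_and] at ha
  unfold TT
  rw [Finset.card_sdiff_of_subset (mins_subset_DT a), card_DT hN ha.1, card_mins]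
  omega

end Pool.Agent.Syst
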