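import Pool.Agent.Work.MP_e76ef6d3_pr.Step
import Pool.Agent.Work.MP_e76ef6d3_pr.Tri

/-!
# Chapuy's trisection identity (from slicing/gluing and the count of trisections)
-/

namespace Pool.Agent.Syst

open Equiv Filter Topology

section Uni

variable {N : ℕ}

namespace ChapuyAux

theorem papp_inv (f : Perm (Fin N)) (x : Fin N) : f (f⁻¹ x) = x := f.apply_symm_apply x

theorem pinv_app (f : Perm (Fin N)) (x : Fin N) : f⁻¹ (f x) = x := f.symm_apply_apply x

/-! ### `blk` fixes everything up to `x1` and preserves `> x1` -/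

theorem blk_of_le {x1 x2 x3 z : Fin N} (hz : z ≤ x1) : blk x1 x2 x3 z = z := by
  unfold blk
  split_ifs with h
  · apply Fin.ext
    have : z.1 ≤ x1.1 := hz
    simp only [Equiv.coe_fn_mk]
    split_ifs <;> omega
  · rfl

theorem blk_inv_of_le {x1 x2 x3 z : Fin N} (hz : z ≤ x1) : (blk x1 x2 x3)⁻¹ z = z := by
  rw [Equiv.Perm.inv_eq_iff_eq, blk_of_le hz]

theorem lt_blk_of_lt {x1 x2 x3 z : Fin N} (hz : x1 < z) : x1 < blk x1 x2 x3 z := by
  by_contra hc
  rw [not_lt] at hc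
  have h1 : blk x1 x2 x3 (blk x1 x2 x3 z) = blk x1 x2 x3 z := blk_of_le hc
  have h2 := (blk x1 x2 x3).injective h1
  rw [h2] at hc
  exact absurd hz (not_lt.mpr hc)

theorem lt_blk_inv_of_lt {x1 x2 x3 z : Fin N} (hz : x1 < z) : x1 < (blk x1 x2 x3)⁻¹ z := by
  by_contra hc
  rw [not_lt] at hc
  have h1 : blk x1 x2 x3 ((blk x1 x2 x3)⁻¹ z) = (blk x1 x2 x3)⁻¹ z := blk_of_le hc
  rw [papp_inv] at h1
  rw [← h1] at hc
  exact absurd hz (not_lt.mpr hc)

theorem sameCycle_iff_cyc {b : Perm (Fin N)} {x y : Fin N} :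
    (sig b).SameCycle x y ↔ cyc b x y := Iff.rfl

/-- Description of the vertices after gluing. -/
theorem same_glue {a : Perm (Fin N)} {x1 x2 x3 : Fin N} (h : GlueOK a x1 x2 x3) {z w : Fin N} :
    (sig (blk x1 x2 x3 * a * (blk x1 x2 x3)⁻¹)).SameCycle z w ↔
      mergeS a {x1, x2, x3} ((blk x1 x2 x3)⁻¹ z) ((blk x1 x2 x3)⁻¹ w) := by
  rw [sameCycle_iff_cyc, (glue_step h).2.2.1]
  rfl

theorem mergeS_apply {a : Perm (Fin N)} {S : Finset (Fin N)} {x y : Fin N} :
    mergeS a S x y ↔ (sig a).SameCycle x y ∨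
      ((∃ s ∈ S, (sig a).SameCycle s x) ∧ ∃ t ∈ S, (sig a).SameCycle t y) := Iff.rfl

theorem mergeS_singleton (a : Perm (Fin N)) (x : Fin N) : mergeS a {x} = cyc a := by
  ext y z
  rw [mergeS_apply]
  constructor
  · rintro (h | ⟨⟨s, hs, h1⟩, t, ht, h2⟩)
    · exact h
    · rw [Finset.mem_singleton] at hs ht
      subst hs; subst ht
      exact h1.symm.trans h2
  · intro h
    exact Or.inl h

theorem mem_mins {a : Perm (Fin N)} {x : Fin N} :
    x ∈ mins a ↔ ∀ y, (sig a).SameCycle x y → x ≤ y := by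
  unfold mins
  rw [Finset.mem_filter]
  exact ⟨fun h => h.2, fun h => ⟨Finset.mem_univ _, h⟩⟩

theorem mem_uni {a : Perm (Fin N)} {h : ℕ} :
    a ∈ Uni N h ↔ IsGluing a ∧ ncyc a + 2 * h = N / 2 + 1 := by
  classical
  unfold Uni
  simp only [Finset.mem_filter, Finset.mem_univ, true_and]

/-- Minima below `x1` are not changed by gluing. -/
theorem mins_glue {a : Perm (Fin N)} {x1 x2 x3 : Fin N} (h : GlueOK a x1 x2 x3) {w : Fin N}
    (hw : w < x1) :
    w ∈ mins (blk x1 x2 x3 * a * (blk x1 x2 x3)⁻¹) ↔ w ∈ mins a := by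
  rw [mem_mins, mem_mins]
  constructor
  · intro hb y hy
    have h1 : (sig (blk x1 x2 x3 * a * (blk x1 x2 x3)⁻¹)).SameCycle w (blk x1 x2 x3 y) := by
      rw [same_glue h, blk_inv_of_le hw.le, pinv_app]
      exact Or.inl hy
    have h2 := hb _ h1
    rcases le_or_gt y x1 with h3 | h3
    · rwa [blk_of_le h3] at h2
    · exact (hw.trans h3).le
  · intro ha y hy
    rw [same_glue h, blk_inv_of_le hw.le] at hy
    rcases le_or_gt y x1 with h3 | h3
    swap
    · exact (hw.trans h3).le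
    rw [blk_inv_of_le h3] at hy
    rcases hy with hy | ⟨⟨s, hs, h1⟩, _⟩
    · exact ha y hy
    · exfalso
      obtain ⟨_, hx1, hx2, hx3, h12, h3'⟩ := h
      rw [mem_mins] at hx1 hx2
      simp only [Finset.mem_insert, Finset.mem_singleton] at hs
      rcases hs with rfl | rfl | rfl
      · exact absurd (hx1 _ h1) (not_le.mpr hw)
      · exact absurd (hx2 _ h1) (not_le.mpr (hw.trans h12))
      · exact absurd (h3' _ h1) (not_lt.mpr (hw.trans h12).le)

/-- The merged partitions correspond. -/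
theorem merge_glue {a : Perm (Fin N)} {x1 x2 x3 : Fin N} (h : GlueOK a x1 x2 x3)
    {W : Finset (Fin N)} (hW : ∀ w ∈ W, w < x1) :
    mergeS (blk x1 x2 x3 * a * (blk x1 x2 x3)⁻¹) (insert (blk x1 x2 x3 x3) W) =
      (mergeS a (insert x3 (insert x1 (insert x2 W)))).comap (⇑(blk x1 x2 x3)⁻¹) := by
  ext z w
  have key : ∀ z : Fin N, (∃ s ∈ insert (blk x1 x2 x3 x3) W,
      (sig (blk x1 x2 x3 * a * (blk x1 x2 x3)⁻¹)).SameCycle s z) ↔
      ∃ s ∈ insert x3 (insert x1 (insert x2 W)), (sig a).SameCycle s ((blk x1 x2 x3)⁻¹ z) := by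
    intro z
    constructor
    · rintro ⟨s, hs, h1⟩
      rw [same_glue h] at h1
      rw [Finset.mem_insert] at hs
      rcases h1 with h1 | ⟨_, t, ht, h2⟩
      · rcases hs with rfl | hs
        · rw [pinv_app] at h1
          exact ⟨x3, by simp, h1⟩
        · rw [blk_inv_of_le (hW s hs).le] at h1
          exact ⟨s, by simp [hs], h1⟩
      · simp only [Finset.mem_insert, Finset.mem_singleton] at ht
        refine ⟨t, ?_, h2⟩
        simp only [Finset.mem_insert]
        tauto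
    · rintro ⟨s, hs, h1⟩
      simp only [Finset.mem_insert] at hs
      by_cases hsW : s ∈ W
      · refine ⟨s, by simp [hsW], ?_⟩
        rw [same_glue h, blk_inv_of_le (hW s hsW).le]
        exact Or.inl h1
      · refine ⟨blk x1 x2 x3 x3, by simp, ?_⟩
        rw [same_glue h, pinv_app]
        refine Or.inr ⟨⟨x3, by simp, Perm.SameCycle.refl _ _⟩, s, ?_, h1⟩
        simp only [Finset.mem_insert, Finset.mem_singleton]
        tauto
  rw [mergeS_apply, Setoid.comap_rel, mergeS_apply, key z, key w, same_glue h, mergeS_apply]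
  constructor
  · rintro ((h1 | ⟨⟨s, hs, h1⟩, t, ht, h2⟩) | h1)
    · exact Or.inl h1
    · refine Or.inr ⟨⟨s, ?_, h1⟩, t, ?_, h2⟩
      · simp only [Finset.mem_insert, Finset.mem_singleton] at hs ⊢
        tauto
      · simp only [Finset.mem_insert, Finset.mem_singleton] at ht ⊢
        tauto
    · exact Or.inr h1
  · rintro (h1 | h1)
    · exact Or.inl (Or.inl h1)
    · exact Or.inr h1

/-! ### Index sets -/

/-- `(a, x, W)`: a one-face map of genus `h`, a target `x` of a down-step, `2 j` minima below the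
cycle of `x`. -/
def ZP (N j h : ℕ) (t : Perm (Fin N) × Fin N × Finset (Fin N)) : Prop :=
  t.1 ∈ Uni N h ∧ t.2.1 ∈ DT t.1 ∧ t.2.2 ⊆ mins t.1 ∧ t.2.2.card = 2 * j ∧
    ∀ w ∈ t.2.2, ∀ y, (sig t.1).SameCycle t.2.1 y → w < y

open Classical in
noncomputable def ZS (N j h : ℕ) : Finset (Perm (Fin N) × Fin N × Finset (Fin N)) :=
  Finset.univ.filter (ZP N j h)

open Classical in
noncomputable def ZTS (N j h : ℕ) : Finset (Perm (Fin N) × Fin N × Finset (Fin N)) :=
  Finset.univ.filter (fun t => ZP N j h t ∧ t.2.1 ∉ mins t.1)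

open Classical in
noncomputable def ZMS (N j h : ℕ) : Finset (Perm (Fin N) × Fin N × Finset (Fin N)) :=
  Finset.univ.filter (fun t => ZP N j h t ∧ t.2.1 ∈ mins t.1)

/-- `(a, x1, x2, x3, W)`. -/
def QP (N j h : ℕ) (t : Perm (Fin N) × Fin N × Fin N × Fin N × Finset (Fin N)) : Prop :=
  t.1 ∈ Uni N h ∧ GlueOK t.1 t.2.1 t.2.2.1 t.2.2.2.1 ∧ t.2.2.2.2 ⊆ mins t.1 ∧
    t.2.2.2.2.card = 2 * j ∧ ∀ w ∈ t.2.2.2.2, w < t.2.1

open Classical in
noncomputable def QS (N j h : ℕ) :
    Finset (Perm (Fin N) × Fin N × Fin N × Fin N × Finset (Fin N)) :=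
  Finset.univ.filter (QP N j h)

/-- The value of a triple. -/
def val (Fn : Perm (Fin N) → Setoid (Fin N) → ℝ) (t : Perm (Fin N) × Fin N × Finset (Fin N)) :
    ℝ := Fn t.1 (mergeS t.1 (insert t.2.1 t.2.2))

theorem mem_TT {a : Perm (Fin N)} {x : Fin N} : x ∈ TT a ↔ x ∈ DT a ∧ x ∉ mins a := by
  unfold TT
  rw [Finset.mem_sdiff]

theorem sum_Q_ZT (j h : ℕ) (Fn : Perm (Fin N) → Setoid (Fin N) → ℝ)
    (hinv : ∀ (x1 x2 x3 : Fin N) a s, Fn (blk x1 x2 x3 * a * (blk x1 x2 x3)⁻¹)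
      (s.comap (⇑(blk x1 x2 x3)⁻¹)) = Fn a s) :
    ∑ t ∈ QS N j h,
        Fn t.1 (mergeS t.1 (insert t.2.2.2.1 (insert t.2.1 (insert t.2.2.1 t.2.2.2.2)))) =
      ∑ t ∈ ZTS N j (h + 1), val Fn t := by
  classical
  refine Finset.sum_bij (fun t _ => (blk t.2.1 t.2.2.1 t.2.2.2.1 * t.1 *
      (blk t.2.1 t.2.2.1 t.2.2.2.1)⁻¹, blk t.2.1 t.2.2.1 t.2.2.2.1 t.2.2.2.1, t.2.2.2.2))
    ?_ ?_ ?_ ?_
  · rintro ⟨a, x1, x2, x3, W⟩ ht
    unfold QS at ht
    rw [Finset.mem_filter] at ht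
    obtain ⟨_, ha, hg, hW, hc, hlt⟩ := ht
    dsimp only at ha hg hW hc hlt ⊢
    obtain ⟨g1, g2, g3, g4, g5, g6⟩ := glue_step hg
    rw [mem_TT] at g2
    rw [mem_uni] at ha
    unfold ZTS
    rw [Finset.mem_filter]
    refine ⟨Finset.mem_univ _, ⟨?_, g2.1, ?_, hc, ?_⟩, g2.2⟩
    · rw [mem_uni]
      exact ⟨g1, by dsimp only; omega⟩
    · intro w hw
      rw [mins_glue hg (hlt w hw)]
      exact hW hw
    · intro w hw y hy
      exact lt_of_lt_of_le (hlt w hw) (g5 y hy)
  · rintro ⟨a, x1, x2, x3, W⟩ ht ⟨a', x1', x2', x3', W'⟩ ht' heq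
    unfold QS at ht ht'
    rw [Finset.mem_filter] at ht ht'
    obtain ⟨_, ha, hg, hW, hc, hlt⟩ := ht
    obtain ⟨_, ha', hg', hW', hc', hlt'⟩ := ht'
    dsimp only at heq hg hg'
    rw [Prod.mk.injEq, Prod.mk.injEq] at heq
    obtain ⟨e1, e2, e3⟩ := heq
    obtain ⟨r1, r2, r3, r4⟩ := glue_inj hg hg' e1 e2
    rw [r1, r2, r3, r4, e3]
  · rintro ⟨b, y, W⟩ ht
    unfold ZTS at ht
    rw [Finset.mem_filter] at ht
    obtain ⟨_, ⟨hb, hy, hW, hc, hlt⟩, hym⟩ := ht
    dsimp only at hb hy hW hc hlt hym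
    rw [mem_uni] at hb
    obtain ⟨a, x1, x2, x3, hg, hbe, hye⟩ := slice_step hb.1 (mem_TT.2 ⟨hy, hym⟩)
    obtain ⟨g1, g2, g3, g4, g5, g6⟩ := glue_step hg
    subst hbe
    subst hye
    have hltx : ∀ w ∈ W, w < x1 := fun w hw => hlt w hw x1 g6
    refine ⟨(a, x1, x2, x3, W), ?_, rfl⟩
    unfold QS
    rw [Finset.mem_filter]
    refine ⟨Finset.mem_univ _, ?_, hg, ?_, hc, hltx⟩
    · rw [mem_uni]
      exact ⟨hg.1, by dsimp only; omega⟩
    · intro w hw
      have := hW hw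
      rwa [mins_glue hg (hltx w hw)] at this
  · rintro ⟨a, x1, x2, x3, W⟩ ht
    unfold QS at ht
    rw [Finset.mem_filter] at ht
    obtain ⟨_, ha, hg, hW, hc, hlt⟩ := ht
    dsimp only at ha hg hW hc hlt ⊢
    unfold val
    dsimp only
    rw [merge_glue hg hlt, hinv]

theorem sum_Q_Z (j h : ℕ) (Fn : Perm (Fin N) → Setoid (Fin N) → ℝ) :
    ∑ t ∈ QS N j h,
        Fn t.1 (mergeS t.1 (insert t.2.2.2.1 (insert t.2.1 (insert t.2.2.1 t.2.2.2.2)))) =
      ∑ t ∈ ZS N (j + 1) h, val Fn t := by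
  classical
  refine Finset.sum_bij (fun t _ => (t.1, t.2.2.2.1, insert t.2.1 (insert t.2.2.1 t.2.2.2.2)))
    ?_ ?_ ?_ ?_
  · rintro ⟨a, x1, x2, x3, W⟩ ht
    unfold QS at ht
    rw [Finset.mem_filter] at ht
    obtain ⟨_, ha, ⟨hg1, hg2, hg3, hg4, hg5, hg6⟩, hW, hc, hlt⟩ := ht
    dsimp only at *
    unfold ZS
    rw [Finset.mem_filter]
    refine ⟨Finset.mem_univ _, ha, hg4, ?_, ?_, ?_⟩
    · intro w hw
      simp only [Finset.mem_insert] at hw
      rcases hw with rfl | rfl | hw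
      · exact hg2
      · exact hg3
      · exact hW hw
    · have n2 : x2 ∉ W := fun hx => absurd (hlt _ hx) (not_lt.mpr hg5.le)
      have n1 : x1 ∉ insert x2 W := by
        rw [Finset.mem_insert]
        rintro (h1 | h1)
        · exact absurd h1 hg5.ne
        · exact lt_irrefl _ (hlt _ h1)
      dsimp only
      rw [Finset.card_insert_of_notMem n1, Finset.card_insert_of_notMem n2, hc]
      ring
    · intro w hw y hy
      have := hg6 y hy
      simp only [Finset.mem_insert] at hw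
      rcases hw with rfl | rfl | hw
      · exact hg5.trans this
      · exact this
      · exact (hlt _ hw).trans (hg5.trans this)
  · rintro ⟨a, x1, x2, x3, W⟩ ht ⟨a', x1', x2', x3', W'⟩ ht' heq
    unfold QS at ht ht'
    rw [Finset.mem_filter] at ht ht'
    obtain ⟨_, ha, ⟨hg1, hg2, hg3, hg4, hg5, hg6⟩, hW, hc, hlt⟩ := ht
    obtain ⟨_, ha', ⟨hg1', hg2', hg3', hg4', hg5', hg6'⟩, hW', hc', hlt'⟩ := ht'
    dsimp only at *
    rw [Prod.mk.injEq, Prod.mk.injEq] at heq
    obtain ⟨e1, e2, e3⟩ := heq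
    have mem : ∀ w, (w = x1 ∨ w = x2 ∨ w ∈ W) ↔ (w = x1' ∨ w = x2' ∨ w ∈ W') := by
      intro w
      have := Finset.ext_iff.1 e3 w
      simpa only [Finset.mem_insert] using this
    have hx2 : x2 = x2' := by
      apply le_antisymm
      · rcases (mem x2).1 (Or.inr (Or.inl rfl)) with h1 | h1 | h1
        · rw [h1]; exact hg5'.le
        · exact h1.le
        · exact ((hlt' _ h1).trans hg5').le
      · rcases (mem x2').2 (Or.inr (Or.inl rfl)) with h1 | h1 | h1
        · rw [h1]; exact hg5.le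
        · exact h1.le
        · exact ((hlt _ h1).trans hg5).le
    subst hx2
    have hx1 : x1 = x1' := by
      apply le_antisymm
      · rcases (mem x1).1 (Or.inl rfl) with h1 | h1 | h1
        · exact h1.le
        · exact absurd h1 hg5.ne
        · exact (hlt' _ h1).le
      · rcases (mem x1').2 (Or.inl rfl) with h1 | h1 | h1
        · exact h1.le
        · exact absurd h1 hg5'.ne
        · exact (hlt _ h1).le
    subst hx1
    have hWW : W = W' := by
      ext w
      constructor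
      · intro hw
        rcases (mem w).1 (Or.inr (Or.inr hw)) with h1 | h1 | h1
        · exact absurd (hlt _ hw) (by rw [h1]; exact lt_irrefl _)
        · exact absurd (hlt _ hw) (by rw [h1]; exact not_lt.mpr hg5.le)
        · exact h1
      · intro hw
        rcases (mem w).2 (Or.inr (Or.inr hw)) with h1 | h1 | h1
        · exact absurd (hlt' _ hw) (by rw [h1]; exact lt_irrefl _)
        · exact absurd (hlt' _ hw) (by rw [h1]; exact not_lt.mpr hg5.le)
        · exact h1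
    rw [e1, e2, hWW]
  · rintro ⟨a, x3, V⟩ ht
    unfold ZS at ht
    rw [Finset.mem_filter] at ht
    obtain ⟨_, ha, hx3, hV, hc, hlt⟩ := ht
    dsimp only at *
    have hne : V.Nonempty := by
      rw [← Finset.card_pos]; omega
    set x2 := V.max' hne with hx2
    have hx2V : x2 ∈ V := V.max'_mem hne
    have hne1 : (V.erase x2).Nonempty := by
      rw [← Finset.card_pos, Finset.card_erase_of_mem hx2V]; omega
    set x1 := (V.erase x2).max' hne1 with hx1
    have hx1V : x1 ∈ V.erase x2 := (V.erase x2).max'_mem hne1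
    have h12 : x1 < x2 := by
      have h1 := Finset.le_max' V x1 (Finset.mem_of_mem_erase hx1V)
      exact lt_of_le_of_ne h1 (Finset.ne_of_mem_erase hx1V)
    refine ⟨(a, x1, x2, x3, (V.erase x2).erase x1), ?_, ?_⟩
    · unfold QS
      rw [Finset.mem_filter]
      rw [mem_uni] at ha
      refine ⟨Finset.mem_univ _, mem_uni.2 ha, ⟨ha.1, hV (Finset.mem_of_mem_erase hx1V), hV hx2V,
        hx3, h12, fun y hy => hlt x2 hx2V y hy⟩, ?_, ?_, ?_⟩
      · intro w hw
        exact hV (Finset.mem_of_mem_erase (Finset.mem_of_mem_erase hw))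
      · dsimp only
        rw [Finset.card_erase_of_mem hx1V, Finset.card_erase_of_mem hx2V, hc]
        omega
      · intro w hw
        dsimp only at hw ⊢
        have h1 := Finset.le_max' (V.erase x2) w (Finset.mem_of_mem_erase hw)
        exact lt_of_le_of_ne h1 (Finset.ne_of_mem_erase hw)
    · dsimp only
      rw [Prod.mk.injEq, Prod.mk.injEq]
      refine ⟨rfl, rfl, ?_⟩
      ext w
      simp only [Finset.mem_insert, Finset.mem_erase, ne_eq]
      constructor
      · rintro (rfl | rfl | h1)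
        · exact Finset.mem_of_mem_erase hx1V
        · exact hx2V
        · exact h1.2.2
      · intro hw
        by_cases h1 : w = x1
        · exact Or.inl h1
        by_cases h2 : w = x2
        · exact Or.inr (Or.inl h2)
        exact Or.inr (Or.inr ⟨h1, h2, hw⟩)
  · rintro ⟨a, x1, x2, x3, W⟩ ht
    rfl

theorem sum_split (j h : ℕ) (Fn : Perm (Fin N) → Setoid (Fin N) → ℝ) :
    ∑ t ∈ ZS N j h, val Fn t = ∑ t ∈ ZTS N j h, val Fn t + ∑ t ∈ ZMS N j h, val Fn t := by
  classical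
  rw [add_comm, ← Finset.sum_filter_add_sum_filter_not (ZS N j h) (fun t => t.2.1 ∈ mins t.1)]
  congr 1
  · apply Finset.sum_congr _ (fun _ _ => rfl)
    unfold ZS ZMS
    rw [Finset.filter_filter]
  · apply Finset.sum_congr _ (fun _ _ => rfl)
    unfold ZS ZTS
    rw [Finset.filter_filter]

theorem sum_ZM (j h : ℕ) (Fn : Perm (Fin N) → Setoid (Fin N) → ℝ) :
    ∑ t ∈ ZMS N j h, val Fn t =
      ∑ a ∈ Uni N h, ∑ S ∈ (mins a).powersetCard (2 * j + 1), Fn a (mergeS a S) := by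
  classical
  rw [Finset.sum_sigma']
  refine Finset.sum_bij (fun t _ => ⟨t.1, insert t.2.1 t.2.2⟩) ?_ ?_ ?_ ?_
  · rintro ⟨a, x, W⟩ ht
    unfold ZMS at ht
    rw [Finset.mem_filter] at ht
    obtain ⟨_, ⟨ha, hx, hW, hc, hlt⟩, hxm⟩ := ht
    dsimp only at *
    rw [Finset.mem_sigma, Finset.mem_powersetCard]
    refine ⟨ha, ?_, ?_⟩
    · intro w hw
      rw [Finset.mem_insert] at hw
      rcases hw with rfl | hw
      · exact hxm
      · exact hW hw
    · dsimp only
      rw [Finset.card_insert_of_notMem, hc]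
      intro hx'
      exact lt_irrefl _ (hlt x hx' x (Perm.SameCycle.refl _ _))
  · rintro ⟨a, x, W⟩ ht ⟨a', x', W'⟩ ht' heq
    unfold ZMS at ht ht'
    rw [Finset.mem_filter] at ht ht'
    obtain ⟨_, ⟨ha, hx, hW, hc, hlt⟩, hxm⟩ := ht
    obtain ⟨_, ⟨ha', hx', hW', hc', hlt'⟩, hxm'⟩ := ht'
    dsimp only at *
    rw [Sigma.mk.injEq] at heq
    obtain ⟨e1, e2⟩ := heq
    subst e1
    have e2 := eq_of_heq e2
    have l1 : ∀ w ∈ W, w < x := fun w hw => hlt w hw x (Perm.SameCycle.refl _ _)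
    have l2 : ∀ w ∈ W', w < x' := fun w hw => hlt' w hw x' (Perm.SameCycle.refl _ _)
    have mem : ∀ w, (w = x ∨ w ∈ W) ↔ (w = x' ∨ w ∈ W') := by
      intro w
      have := Finset.ext_iff.1 e2 w
      simpa only [Finset.mem_insert] using this
    have hxx : x = x' := by
      apply le_antisymm
      · rcases (mem x).1 (Or.inl rfl) with h1 | h1
        · exact h1.le
        · exact (l2 _ h1).le
      · rcases (mem x').2 (Or.inl rfl) with h1 | h1
        · exact h1.le
        · exact (l1 _ h1).le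
    subst hxx
    have hWW : W = W' := by
      ext w
      constructor
      · intro hw
        rcases (mem w).1 (Or.inr hw) with h1 | h1
        · exact absurd (l1 _ hw) (by rw [h1]; exact lt_irrefl _)
        · exact h1
      · intro hw
        rcases (mem w).2 (Or.inr hw) with h1 | h1
        · exact absurd (l2 _ hw) (by rw [h1]; exact lt_irrefl _)
        · exact h1
    rw [hWW]
  · rintro ⟨a, S⟩ ht
    rw [Finset.mem_sigma, Finset.mem_powersetCard] at ht
    obtain ⟨ha, hS, hc⟩ := ht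
    dsimp only at *
    have hne : S.Nonempty := by
      rw [← Finset.card_pos]; omega
    have hxS := S.max'_mem hne
    refine ⟨(a, S.max' hne, S.erase (S.max' hne)), ?_, ?_⟩
    · unfold ZMS
      rw [Finset.mem_filter]
      refine ⟨Finset.mem_univ _, ⟨ha, mins_subset_DT a (hS hxS), ?_, ?_, ?_⟩, hS hxS⟩
      · intro w hw
        exact hS (Finset.mem_of_mem_erase hw)
      · dsimp only
        rw [Finset.card_erase_of_mem hxS, hc]
        omega
      · intro w hw y hy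
        dsimp only at hw hy
        have h1 := Finset.le_max' S w (Finset.mem_of_mem_erase hw)
        have h2 := lt_of_le_of_ne h1 (Finset.ne_of_mem_erase hw)
        exact lt_of_lt_of_le h2 (mem_mins.1 (hS hxS) y hy)
    · dsimp only
      rw [Finset.insert_erase hxS]
  · rintro ⟨a, x, W⟩ ht
    rfl

theorem sum_ZT_zero_genus [NeZero N] (j : ℕ) (Fn : Perm (Fin N) → Setoid (Fin N) → ℝ) :
    ∑ t ∈ ZTS N j 0, val Fn t = 0 := by
  classical
  apply Finset.sum_eq_zero
  rintro ⟨a, x, W⟩ ht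
  exfalso
  unfold ZTS at ht
  rw [Finset.mem_filter] at ht
  obtain ⟨_, ⟨ha, hx, hW, hc, hlt⟩, hxm⟩ := ht
  have h1 := card_TT (Nat.pos_of_ne_zero (NeZero.ne N)) ha
  rw [mul_zero, Finset.card_eq_zero] at h1
  have h2 : x ∈ TT a := mem_TT.2 ⟨hx, hxm⟩
  dsimp only at h1
  rw [h1] at h2
  exact absurd h2 (Finset.notMem_empty _)

theorem sum_ZT_first [NeZero N] (h : ℕ) (Fn : Perm (Fin N) → Setoid (Fin N) → ℝ) :
    ∑ t ∈ ZTS N 0 h, val Fn t = (2 * h : ℝ) * ∑ a ∈ Uni N h, Fn a (cyc a) := by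
  classical
  have h1 : ∑ t ∈ ZTS N 0 h, val Fn t = ∑ a ∈ Uni N h, ∑ x ∈ TT a, Fn a (mergeS a {x}) := by
    rw [Finset.sum_sigma']
    refine Finset.sum_bij (fun t _ => ⟨t.1, t.2.1⟩) ?_ ?_ ?_ ?_
    · rintro ⟨a, x, W⟩ ht
      unfold ZTS at ht
      rw [Finset.mem_filter] at ht
      obtain ⟨_, ⟨ha, hx, hW, hc, hlt⟩, hxm⟩ := ht
      rw [Finset.mem_sigma]
      exact ⟨ha, mem_TT.2 ⟨hx, hxm⟩⟩
    · rintro ⟨a, x, W⟩ ht ⟨a', x', W'⟩ ht' heq
      unfold ZTS at ht ht'
      rw [Finset.mem_filter] at ht ht'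
      obtain ⟨_, ⟨ha, hx, hW, hc, hlt⟩, hxm⟩ := ht
      obtain ⟨_, ⟨ha', hx', hW', hc', hlt'⟩, hxm'⟩ := ht'
      dsimp only at *
      rw [Sigma.mk.injEq] at heq
      obtain ⟨e1, e2⟩ := heq
      subst e1
      have e2 := eq_of_heq e2
      subst e2
      rw [mul_zero, Finset.card_eq_zero] at hc hc'
      rw [hc, hc']
    · rintro ⟨a, x⟩ ht
      rw [Finset.mem_sigma] at ht
      obtain ⟨ha, hx⟩ := ht
      rw [mem_TT] at hx
      refine ⟨(a, x, ∅), ?_, rfl⟩
      unfold ZTS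
      rw [Finset.mem_filter]
      exact ⟨Finset.mem_univ _, ⟨ha, hx.1, Finset.empty_subset _, rfl,
        fun w hw => absurd hw (Finset.notMem_empty _)⟩, hx.2⟩
    · rintro ⟨a, x, W⟩ ht
      unfold ZTS at ht
      rw [Finset.mem_filter] at ht
      obtain ⟨_, ⟨ha, hx, hW, hc, hlt⟩, hxm⟩ := ht
      dsimp only at hc
      rw [mul_zero, Finset.card_eq_zero] at hc
      unfold val
      dsimp only
      rw [hc]
      rfl
  rw [h1, Finset.mul_sum]
  apply Finset.sum_congr rfl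
  intro a ha
  have h2 : ∀ x ∈ TT a, Fn a (mergeS a {x}) = Fn a (cyc a) := by
    intro x _
    rw [mergeS_singleton]
  rw [Finset.sum_congr rfl h2, Finset.sum_const,
    card_TT (Nat.pos_of_ne_zero (NeZero.ne N)) ha, nsmul_eq_mul]
  push_cast
  ring

theorem chain [NeZero N] (Fn : Perm (Fin N) → Setoid (Fin N) → ℝ)
    (hinv : ∀ (x1 x2 x3 : Fin N) a s, Fn (blk x1 x2 x3 * a * (blk x1 x2 x3)⁻¹)
      (s.comap (⇑(blk x1 x2 x3)⁻¹)) = Fn a s) (h : ℕ) :
    ∀ j : ℕ, ∑ t ∈ ZTS N j h, val Fn t =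
      ∑ p ∈ Finset.Icc 1 h, ∑ t ∈ ZMS N (j + p) (h - p), val Fn t := by
  induction h with
  | zero =>
    intro j
    rw [sum_ZT_zero_genus]
    simp
  | succ h ih =>
    intro j
    rw [← sum_Q_ZT j h Fn hinv, sum_Q_Z, sum_split, ih (j + 1), add_comm]
    have h1 : Finset.Icc 1 (h + 1) = insert 1 ((Finset.Icc 1 h).image (fun p => p + 1)) := by
      ext p
      simp only [Finset.mem_Icc, Finset.mem_insert, Finset.mem_image]
      constructor
      · intro hp
        by_cases h2 : p = 1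
        · exact Or.inl h2
        · exact Or.inr ⟨p - 1, by omega, by omega⟩
      · rintro (rfl | ⟨q, hq, rfl⟩) <;> omega
    rw [h1, Finset.sum_insert, Finset.sum_image]
    · congr 1
      apply Finset.sum_congr rfl
      intro p hp
      have e1 : j + 1 + p = j + (p + 1) := by ring
      have e2 : h + 1 - (p + 1) = h - p := by omega
      rw [e1, e2]
    · intro p _ q _ hpq
      exact Nat.succ_injective hpq
    · simp only [Finset.mem_image, not_exists, not_and]
      intro p hp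
      rw [Finset.mem_Icc] at hp
      omega

end ChapuyAux

open ChapuyAux in
theorem chapuy [NeZero N] (h : ℕ) (Fn : Perm (Fin N) → Setoid (Fin N) → ℝ)
    (hinv : ∀ ω : Perm (Fin N), ω 0 = 0 → ∀ a s,
      Fn (ω * a * ω⁻¹) (s.comap (⇑ω⁻¹)) = Fn a s) :
    (2 * h : ℝ) * ∑ a ∈ Uni N h, Fn a (cyc a) =
      ∑ p ∈ Finset.Icc 1 h, ∑ a ∈ Uni N (h - p),
        ∑ S ∈ (mins a).powersetCard (2 * p + 1), Fn a (mergeS a S) := by
  have hinv' : ∀ (x1 x2 x3 : Fin N) a s, Fn (blk x1 x2 x3 * a * (blk x1 x2 x3)⁻¹)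
      (s.comap (⇑(blk x1 x2 x3)⁻¹)) = Fn a s := by
    intro x1 x2 x3 a s
    apply hinv
    exact blk_of_le (by rw [Fin.le_def]; simp)
  rw [← sum_ZT_first, chain Fn hinv' h 0]
  apply Finset.sum_congr rfl
  intro p _
  rw [sum_ZM, zero_add]

end Uni

end Pool.Agent.Syst
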