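import Pool.Agent.Work.MP_e76ef6d3_pr.Defs2

/-!
Module C1a: existence, uniqueness and contour of the closure of a labelled one-face map.
-/

namespace Pool.Agent.Syst

open Equiv Filter Topology

namespace CmsCloseAux

variable {n : ℕ} {a : Perm (Fin (2 * n))} {ℓ : Fin (2 * n) → ℤ}

theorem inv_app {β : Type*} (f : Perm β) (x : β) : f⁻¹ (f x) = x := f.symm_apply_apply x

theorem app_inv {β : Type*} (f : Perm β) (x : β) : f (f⁻¹ x) = x := f.apply_symm_apply x

theorem pow_succ_apply' (γ : Perm (Fin (2 * n))) (t : ℕ) (x : Fin (2 * n)) :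
    (γ ^ (t + 1)) x = γ ((γ ^ t) x) := by
  rw [pow_succ', Perm.mul_apply]

theorem pow_succ_apply (γ : Perm (Fin (2 * n))) (t : ℕ) (x : Fin (2 * n)) :
    (γ ^ (t + 1)) x = (γ ^ t) (γ x) := by
  rw [pow_succ, Perm.mul_apply]

theorem exists_period (γ : Perm (Fin (2 * n))) : ∃ m : ℕ, 1 ≤ m ∧ γ ^ m = 1 :=
  ⟨orderOf γ, orderOf_pos γ, pow_orderOf_eq_one γ⟩

theorem step_cases (h : IsLU n a ℓ) (k : Fin (2 * n)) :
    ℓ (finRotate (2 * n) k) = ℓ k ∨ ℓ (finRotate (2 * n) k) = ℓ k + 1 ∨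
      ℓ (finRotate (2 * n) k) = ℓ k - 1 := by
  have := h.step k
  rw [abs_le] at this
  omega

/-- matching forward -/
theorem exists_match_up (h : IsLU n a ℓ) {j : Fin (2 * n)}
    (hj : ℓ (finRotate (2 * n) j) = ℓ j + 1) : ∃ i, IsMatch n ℓ j i := by
  classical
  set γ := finRotate (2 * n) with hγ
  obtain ⟨m, hm1, hm⟩ := exists_period γ
  have hex : ∃ s : ℕ, 1 ≤ s ∧ ℓ ((γ ^ s) j) ≤ ℓ j := ⟨m, hm1, by rw [hm]; simp⟩
  have hs := Nat.find_spec hex
  have hmin := fun s' (hs' : s' < Nat.find hex) => Nat.find_min hex hs'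
  set s := Nat.find hex with hsdef
  have hmin' : ∀ s', 1 ≤ s' → s' < s → ℓ j + 1 ≤ ℓ ((γ ^ s') j) := by
    intro s' h1 h2
    by_contra hcon
    exact hmin s' h2 ⟨h1, by omega⟩
  have hs2 : 2 ≤ s := by
    by_contra hcon
    have : s = 1 := by omega
    rw [this, pow_one, hj] at hs
    omega
  obtain ⟨t, ht⟩ : ∃ t, s = t + 1 := ⟨s - 1, by omega⟩
  refine ⟨(γ ^ t) j, t, by omega, rfl, ?_, fun s' h1 h2 => hmin' s' h1 (by omega)⟩
  have h3 := hmin' t (by omega) (by omega)
  have h4 := hs.2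
  rw [ht, pow_succ_apply'] at h4
  have h5 := step_cases h ((γ ^ t) j)
  rw [← hγ] at h5 ⊢
  omega

/-- matching backward -/
theorem exists_match_down (h : IsLU n a ℓ) {i : Fin (2 * n)}
    (hi : ℓ (finRotate (2 * n) i) = ℓ i - 1) : ∃ j, IsMatch n ℓ j i := by
  classical
  set γ := finRotate (2 * n) with hγ
  obtain ⟨m, hm1, hm⟩ := exists_period γ
  have hm' : γ⁻¹ ^ m = 1 := by rw [inv_pow, hm, inv_one]
  -- `g s = ℓ (γ^{-s} (γ i))`
  have hex : ∃ s : ℕ, 1 ≤ s ∧ ℓ ((γ⁻¹ ^ s) (γ i)) ≤ ℓ (γ i) := ⟨m, hm1, by rw [hm']; simp⟩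
  have hs := Nat.find_spec hex
  have hmin := fun s' (hs' : s' < Nat.find hex) => Nat.find_min hex hs'
  set s := Nat.find hex with hsdef
  have hmin' : ∀ s', 1 ≤ s' → s' < s → ℓ (γ i) + 1 ≤ ℓ ((γ⁻¹ ^ s') (γ i)) := by
    intro s' h1 h2
    by_contra hcon
    exact hmin s' h2 ⟨h1, by omega⟩
  have hs2 : 2 ≤ s := by
    by_contra hcon
    have : s = 1 := by omega
    rw [this, pow_one, inv_app] at hs
    omega
  obtain ⟨t, ht⟩ : ∃ t, s = t + 1 := ⟨s - 1, by omega⟩
  set j := (γ⁻¹ ^ s) (γ i) with hj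
  have hpos : ∀ r ≤ s, (γ ^ r) j = (γ⁻¹ ^ (s - r)) (γ i) := by
    intro r hr
    have : γ⁻¹ ^ s = (γ ^ r)⁻¹ * γ⁻¹ ^ (s - r) := by
      rw [← inv_pow, ← pow_add]; congr 1; omega
    rw [hj, this, Perm.mul_apply, app_inv]
  have hji : (γ ^ t) j = i := by
    rw [hpos t (by omega)]
    have : s - t = 1 := by omega
    rw [this, pow_one, inv_app]
  have hlj : ℓ j = ℓ (γ i) := by
    have h3 := hmin' t (by omega) (by omega)
    have h4 := hs.2
    have h5 : (γ⁻¹ ^ t) (γ i) = γ j := by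
      have := hpos 1 (by omega)
      rw [pow_one] at this
      rw [this]; congr 2
      omega
    rw [h5] at h3
    have h6 := step_cases h j
    rw [← hγ] at h6
    omega
  refine ⟨j, t, by omega, hji, hlj.symm, fun r h1 h2 => ?_⟩
  rw [hlj]
  change _ ≤ ℓ ((γ ^ r) j)
  rw [hpos r (by omega)]
  exact hmin' _ (by omega) (by omega)

theorem match_unique_right {j i i' : Fin (2 * n)} (h : IsMatch n ℓ j i)
    (h' : IsMatch n ℓ j i') : i = i' := by
  obtain ⟨t, ht, hji, hl, hs⟩ := h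
  obtain ⟨t', ht', hji', hl', hs'⟩ := h'
  have h1 : ¬ t < t' := by
    intro hlt
    have := hs' (t + 1) (by omega) (by omega)
    rw [pow_succ_apply', hji, hl] at this
    omega
  have h2 : ¬ t' < t := by
    intro hlt
    have := hs (t' + 1) (by omega) (by omega)
    rw [pow_succ_apply', hji', hl'] at this
    omega
  have : t = t' := by omega
  rw [← hji, ← hji', this]

theorem match_unique_left_aux {j j' i : Fin (2 * n)} {t t' : ℕ}
    (hji : ((finRotate (2 * n)) ^ t) j = i) (hl : ℓ (finRotate (2 * n) i) = ℓ j)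
    (hji' : ((finRotate (2 * n)) ^ t') j' = i) (hl' : ℓ (finRotate (2 * n) i) = ℓ j')
    (hs' : ∀ s : ℕ, 1 ≤ s → s ≤ t' → ℓ j' + 1 ≤ ℓ (((finRotate (2 * n)) ^ s) j')) :
    ¬ t < t' := by
  intro hlt
  have h1 : ((finRotate (2 * n)) ^ (t' - t)) j' = j := by
    have : ((finRotate (2 * n)) ^ t) (((finRotate (2 * n)) ^ (t' - t)) j') =
        ((finRotate (2 * n)) ^ t) j := by
      rw [← Perm.mul_apply, ← pow_add, hji, ← hji']
      congr 2
      omega
    exact ((finRotate (2 * n)) ^ t).injective this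
  have h2 := hs' (t' - t) (by omega) (by omega)
  rw [h1] at h2
  omega

theorem match_unique_left {j j' i : Fin (2 * n)} (h : IsMatch n ℓ j i)
    (h' : IsMatch n ℓ j' i) : j = j' := by
  obtain ⟨t, ht, hji, hl, hs⟩ := h
  obtain ⟨t', ht', hji', hl', hs'⟩ := h'
  have h1 := match_unique_left_aux hji hl hji' hl' hs'
  have h2 := match_unique_left_aux hji' hl' hji hl hs
  have : t = t' := by omega
  subst this
  exact ((finRotate (2 * n)) ^ t).injective (hji.trans hji'.symm)

theorem match_up (h : IsLU n a ℓ) {j i : Fin (2 * n)} (hm : IsMatch n ℓ j i) :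
    ℓ (finRotate (2 * n) j) = ℓ j + 1 := by
  obtain ⟨t, ht, hji, hl, hs⟩ := hm
  have h1 := hs 1 le_rfl ht
  rw [pow_one] at h1
  have := step_cases h j
  omega

theorem match_down (h : IsLU n a ℓ) {j i : Fin (2 * n)} (hm : IsMatch n ℓ j i) :
    ℓ (finRotate (2 * n) i) = ℓ i - 1 := by
  obtain ⟨t, ht, hji, hl, hs⟩ := hm
  have h1 := hs t ht le_rfl
  rw [hji] at h1
  have := step_cases h i
  omega

open Classical in
/-- the face permutation as a function -/
noncomputable def cf (n : ℕ) (a : Perm (Fin (2 * n))) (ℓ : Fin (2 * n) → ℤ) :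
    Fin (2 * n) ⊕ Fin (2 * n) → Fin (2 * n) ⊕ Fin (2 * n)
  | Sum.inl y =>
    let i := (finRotate (2 * n)).symm y
    if ℓ (finRotate (2 * n) i) = ℓ i then Sum.inr i
    else if ℓ (finRotate (2 * n) i) = ℓ i + 1 then Sum.inl (finRotate (2 * n) (a i))
    else if hm : ∃ j, IsMatch n ℓ j i then Sum.inr hm.choose else Sum.inl y
  | Sum.inr i =>
    if ℓ (finRotate (2 * n) i) = ℓ i + 1 then
      if hm : ∃ i', IsMatch n ℓ i i' then Sum.inr hm.choose else Sum.inr i
    else Sum.inl (finRotate (2 * n) (a i))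

theorem cf_inl_flat {i : Fin (2 * n)} (hi : ℓ (finRotate (2 * n) i) = ℓ i) :
    cf n a ℓ (Sum.inl (finRotate (2 * n) i)) = Sum.inr i := by
  simp only [cf, Equiv.symm_apply_apply]
  rw [if_pos hi]

theorem cf_inl_up {i : Fin (2 * n)} (hi : ℓ (finRotate (2 * n) i) = ℓ i + 1) :
    cf n a ℓ (Sum.inl (finRotate (2 * n) i)) = Sum.inl (finRotate (2 * n) (a i)) := by
  simp only [cf, Equiv.symm_apply_apply]
  rw [if_neg (by omega), if_pos hi]

theorem cf_inl_down (h : IsLU n a ℓ) {j i : Fin (2 * n)} (hm : IsMatch n ℓ j i) :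
    cf n a ℓ (Sum.inl (finRotate (2 * n) i)) = Sum.inr j := by
  have hd := match_down h hm
  simp only [cf]
  have hex : ∃ j, IsMatch n ℓ j ((finRotate (2 * n)).symm (finRotate (2 * n) i)) :=
    ⟨j, by rwa [Equiv.symm_apply_apply]⟩
  rw [if_neg (by rw [Equiv.symm_apply_apply]; omega), if_neg (by rw [Equiv.symm_apply_apply]; omega)]
  rw [dif_pos hex]
  have := hex.choose_spec
  conv at this => arg 4; rw [Equiv.symm_apply_apply]
  exact congrArg Sum.inr (match_unique_left this hm)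

theorem cf_inr_ne {i : Fin (2 * n)} (hi : ℓ (finRotate (2 * n) i) ≠ ℓ i + 1) :
    cf n a ℓ (Sum.inr i) = Sum.inl (finRotate (2 * n) (a i)) := by
  simp only [cf]
  rw [if_neg hi]

theorem cf_inr_up (h : IsLU n a ℓ) {j i : Fin (2 * n)} (hm : IsMatch n ℓ j i) :
    cf n a ℓ (Sum.inr j) = Sum.inr i := by
  have hd := match_up h hm
  simp only [cf]
  have hex : ∃ i, IsMatch n ℓ j i := ⟨i, hm⟩
  rw [if_pos hd, dif_pos hex]
  exact congrArg Sum.inr (match_unique_right hex.choose_spec hm)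

theorem cf_surj (h : IsLU n a ℓ) : Function.Surjective (cf n a ℓ) := by
  rintro (y | x)
  · -- `y = γ (a i)`
    set i := a.symm ((finRotate (2 * n)).symm y) with hi
    have hy : y = finRotate (2 * n) (a i) := by
      rw [hi, Equiv.apply_symm_apply, Equiv.apply_symm_apply]
    rw [hy]
    by_cases hu : ℓ (finRotate (2 * n) i) = ℓ i + 1
    · exact ⟨_, cf_inl_up hu⟩
    · exact ⟨_, cf_inr_ne hu⟩
  · rcases step_cases h x with hx | hx | hx
    · exact ⟨_, cf_inl_flat hx⟩
    · obtain ⟨i, hm⟩ := exists_match_up h hx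
      exact ⟨_, cf_inl_down h hm⟩
    · obtain ⟨j, hm⟩ := exists_match_down h hx
      exact ⟨_, cf_inr_up h hm⟩

end CmsCloseAux

open CmsCloseAux

theorem closing_exists {n : ℕ} {a : Perm (Fin (2 * n))} {ℓ : Fin (2 * n) → ℤ}
    (h : IsLU n a ℓ) : ∃ φ, IsClosing n a ℓ φ := by
  have hb : Function.Bijective (cf n a ℓ) :=
    ⟨Finite.injective_iff_surjective.2 (cf_surj h), cf_surj h⟩
  refine ⟨Equiv.ofBijective _ hb, ?_, ?_, ?_, ?_⟩
  · intro i hi
    exact ⟨cf_inl_flat hi, cf_inr_ne (by omega)⟩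
  · intro i hi
    exact cf_inl_up hi
  · intro i hi
    exact cf_inr_ne (by omega)
  · intro j i hm
    exact ⟨cf_inl_down h hm, cf_inr_up h hm⟩

theorem closing_unique {n : ℕ} {a : Perm (Fin (2 * n))} {ℓ : Fin (2 * n) → ℤ}
    (h : IsLU n a ℓ) {φ ψ : Perm (Fin (2 * n) ⊕ Fin (2 * n))}
    (hφ : IsClosing n a ℓ φ) (hψ : IsClosing n a ℓ ψ) : φ = ψ := by
  apply Equiv.ext
  intro x
  rcases x with y | i
  · obtain ⟨i, rfl⟩ := (finRotate (2 * n)).surjective y
    rcases step_cases h i with hi | hi | hi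
    · rw [(hφ.flat i hi).1, (hψ.flat i hi).1]
    · rw [hφ.up i hi, hψ.up i hi]
    · obtain ⟨j, hm⟩ := exists_match_down h hi
      rw [(hφ.mtch j i hm).1, (hψ.mtch j i hm).1]
  · rcases step_cases h i with hi | hi | hi
    · rw [(hφ.flat i hi).2, (hψ.flat i hi).2]
    · obtain ⟨j, hm⟩ := exists_match_up h hi
      rw [(hφ.mtch i j hm).2, (hψ.mtch i j hm).2]
    · rw [hφ.down i hi, hψ.down i hi]

namespace CmsCloseAux

variable {n : ℕ} {a : Perm (Fin (2 * n))} {ℓ : Fin (2 * n) → ℤ}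

/-- the rotation from an ascending arc arriving at the vertex of the corner `k` -/
theorem first_return (h : IsLU n a ℓ) {φ : Perm (Fin (2 * n) ⊕ Fin (2 * n))}
    (hφ : IsClosing n a ℓ φ) (k : Fin (2 * n)) (hk : ℓ (finRotate (2 * n) k) = ℓ k + 1) :
    ∀ s : ℕ, 1 ≤ s → (∀ s', 1 ≤ s' → s' ≤ s → ℓ k + 1 ≤ ℓ (((finRotate (2 * n)) ^ s') k)) →
      ℓ (((finRotate (2 * n)) ^ s) k) = ℓ k + 1 →
      ∃ t : ℕ, ((rot φ (swp n)) ^ (t + 1)) (Sum.inr (((finRotate (2 * n)) ^ s) k)) =
          Sum.inl (finRotate (2 * n) (a k)) ∧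
        ∀ r, 1 ≤ r → r ≤ t → ∃ j, ((rot φ (swp n)) ^ r)
          (Sum.inr (((finRotate (2 * n)) ^ s) k)) = Sum.inr j := by
  set γ := finRotate (2 * n) with hγ
  intro s
  induction s using Nat.strong_induction_on with
  | _ s ih =>
    intro hs1 hs2 hs3
    have hrot : rot φ (swp n) (Sum.inr ((γ ^ s) k)) = φ (Sum.inl ((γ ^ s) k)) := rfl
    obtain ⟨s0, rfl⟩ : ∃ s0, s = s0 + 1 := ⟨s - 1, by omega⟩
    -- i1 = γ^{s0} k
    set i1 := (γ ^ s0) k with hi1
    have hγi1 : (γ ^ (s0 + 1)) k = γ i1 := pow_succ_apply' γ s0 k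
    rcases Nat.eq_zero_or_pos s0 with h0 | h0
    · subst h0
      have hik : i1 = k := by rw [hi1]; simp
      refine ⟨0, ?_, fun r h1 h2 => by omega⟩
      rw [zero_add, pow_one, hrot]
      rw [zero_add, pow_one]
      exact hφ.up k hk
    · have hl1 := hs2 s0 h0 (by omega)
      rw [← hi1] at hl1
      rw [hγi1] at hs3 hrot ⊢
      rcases step_cases h i1 with hc | hc | hc
      · -- flat
        rw [← hγ] at hc
        have hφ1 : φ (Sum.inl (γ i1)) = Sum.inr i1 := (hφ.flat i1 hc).1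
        obtain ⟨t, ht1, ht2⟩ := ih s0 (by omega) h0 (fun s' h1 h2 => hs2 s' h1 (by omega))
          (by rw [← hi1]; omega)
        rw [← hi1] at ht1 ht2
        refine ⟨t + 1, ?_, ?_⟩
        · rw [pow_succ, Perm.mul_apply, hrot, hφ1]
          exact ht1
        · intro r h1 h2
          obtain ⟨r0, rfl⟩ : ∃ r0, r = r0 + 1 := ⟨r - 1, by omega⟩
          rw [pow_succ, Perm.mul_apply, hrot, hφ1]
          rcases Nat.eq_zero_or_pos r0 with hr | hr
          · subst hr
            exact ⟨i1, by simp⟩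
          · exact ht2 r0 hr (by omega)
      · -- up is impossible
        rw [← hγ] at hc
        omega
      · -- down
        rw [← hγ] at hc
        obtain ⟨j, hm⟩ := exists_match_down h hc
        have hφ1 : φ (Sum.inl (γ i1)) = Sum.inr j := (hφ.mtch j i1 hm).1
        obtain ⟨u, hu1, hju, hlj, hus⟩ := hm
        -- `j = γ^{s0 - u} k`, with `1 ≤ s0 - u`
        have hu2 : u < s0 := by
          by_contra hcon
          -- position of `γ k`
          have h1 : (γ ^ (u - s0 + 1)) j = γ k := by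
            have : (γ ^ (s0 - 1)) ((γ ^ (u - s0 + 1)) j) = (γ ^ (s0 - 1)) (γ k) := by
              rw [← Perm.mul_apply, ← pow_add, ← pow_succ_apply]
              have e1 : s0 - 1 + (u - s0 + 1) = u := by omega
              have e2 : s0 - 1 + 1 = s0 := by omega
              rw [e1, e2, ← hi1]
              exact hju
            exact (γ ^ (s0 - 1)).injective this
          have h2 := hus (u - s0 + 1) (by omega) (by omega)
          rw [← hγ, h1, hk] at h2
          rw [← hγ] at hlj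
          omega
        have hjk : j = (γ ^ (s0 - u)) k := by
          have : (γ ^ u) j = (γ ^ u) ((γ ^ (s0 - u)) k) := by
            rw [← Perm.mul_apply, ← pow_add]
            have e1 : u + (s0 - u) = s0 := by omega
            rw [e1, ← hi1]
            exact hju
          exact (γ ^ u).injective this
        obtain ⟨t, ht1, ht2⟩ := ih (s0 - u) (by omega) (by omega)
          (fun s' h1 h2 => hs2 s' h1 (by omega))
          (by rw [← hjk]; rw [← hγ] at hlj; omega)
        rw [← hjk] at ht1 ht2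
        refine ⟨t + 1, ?_, ?_⟩
        · rw [pow_succ, Perm.mul_apply, hrot, hφ1]
          exact ht1
        · intro r h1 h2
          obtain ⟨r0, rfl⟩ : ∃ r0, r = r0 + 1 := ⟨r - 1, by omega⟩
          rw [pow_succ, Perm.mul_apply, hrot, hφ1]
          rcases Nat.eq_zero_or_pos r0 with hr | hr
          · subst hr
            exact ⟨j, by simp⟩
          · exact ht2 r0 hr (by omega)

theorem lab_end (h : IsLU n a ℓ) (k : Fin (2 * n)) : ℓ (a k) = ℓ (finRotate (2 * n) k) := by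
  have := h.lab (a k)
  rw [(h.gluing k).1] at this
  exact this.symm

end CmsCloseAux

/-- `φ, α, ℓ` determine the contour: first return `r` of the rotation to the `inl`'s after
`inl k` is `inl (finRotate (a k))`, and the other `inl` in the face of `r` is
`inl (finRotate k)`. Relational form, used to recover the bijection `e` in `cms_ge`. -/
theorem closing_contour {n : ℕ} {a : Perm (Fin (2 * n))} {ℓ : Fin (2 * n) → ℤ}
    (h : IsLU n a ℓ) {φ : Perm (Fin (2 * n) ⊕ Fin (2 * n))} (hφ : IsClosing n a ℓ φ)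
    (k : Fin (2 * n)) :
    (∃ t : ℕ, ((rot φ (swp n)) ^ (t + 1)) (Sum.inl k) = Sum.inl (finRotate (2 * n) (a k)) ∧
      ∀ s, 1 ≤ s → s ≤ t → ∃ j, ((rot φ (swp n)) ^ s) (Sum.inl k) = Sum.inr j) ∧
    (∃ t : ℕ, 1 ≤ t ∧ t ≤ 3 ∧
      (φ ^ t) (Sum.inl (finRotate (2 * n) (a k))) = Sum.inl (finRotate (2 * n) k) ∧
      ∀ s, 1 ≤ s → s < t → ∃ j, (φ ^ s) (Sum.inl (finRotate (2 * n) (a k))) = Sum.inr j) := by
  have hrot : rot φ (swp n) (Sum.inl k) = φ (Sum.inr k) := rfl
  have haa : a (a k) = k := (h.gluing k).1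
  have hl1 : ℓ (a k) = ℓ (finRotate (2 * n) k) := lab_end h k
  have hl2 : ℓ (finRotate (2 * n) (a k)) = ℓ k := h.lab k
  constructor
  · rcases step_cases h k with hc | hc | hc
    · exact ⟨0, by rw [zero_add, pow_one, hrot]; exact (hφ.flat k hc).2, fun s h1 h2 => by omega⟩
    · obtain ⟨i, hm⟩ := exists_match_up h hc
      have hφ1 := (hφ.mtch k i hm).2
      have hdn := match_down h hm
      obtain ⟨u, hu1, hju, hlj, hus⟩ := hm
      obtain ⟨t, ht1, ht2⟩ := first_return h hφ k hc u hu1 hus (by rw [hju]; omega)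
      rw [hju] at ht1 ht2
      refine ⟨t + 1, ?_, ?_⟩
      · rw [pow_succ, Perm.mul_apply, hrot, hφ1]
        exact ht1
      · intro r h1 h2
        obtain ⟨r0, rfl⟩ : ∃ r0, r = r0 + 1 := ⟨r - 1, by omega⟩
        rw [pow_succ, Perm.mul_apply, hrot, hφ1]
        rcases Nat.eq_zero_or_pos r0 with hr | hr
        · subst hr
          exact ⟨i, by simp⟩
        · exact ht2 r0 hr (by omega)
    · exact ⟨0, by rw [zero_add, pow_one, hrot]; exact hφ.down k hc, fun s h1 h2 => by omega⟩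
  · rcases step_cases h k with hc | hc | hc
    · have hf := hφ.flat (a k) (by rw [hl2, hl1, hc])
      refine ⟨2, by omega, by omega, ?_, ?_⟩
      · rw [pow_succ, pow_one, Perm.mul_apply, hf.1, hf.2, haa]
      · intro s h1 h2
        have : s = 1 := by omega
        subst this
        exact ⟨a k, by rw [pow_one]; exact hf.1⟩
    · have hdn : ℓ (finRotate (2 * n) (a k)) = ℓ (a k) - 1 := by omega
      obtain ⟨j, hm⟩ := exists_match_down h hdn
      have hf := hφ.mtch j (a k) hm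
      have hd := hφ.down (a k) hdn
      refine ⟨3, by omega, by omega, ?_, ?_⟩
      · rw [pow_succ, pow_succ, pow_one, Perm.mul_apply, Perm.mul_apply, hf.1, hf.2, hd, haa]
      · intro s h1 h2
        have : s = 1 ∨ s = 2 := by omega
        rcases this with rfl | rfl
        · exact ⟨j, by rw [pow_one]; exact hf.1⟩
        · exact ⟨a k, by rw [pow_succ, pow_one, Perm.mul_apply, hf.1, hf.2]⟩
    · have hup : ℓ (finRotate (2 * n) (a k)) = ℓ (a k) + 1 := by omega
      refine ⟨1, le_rfl, by omega, ?_, fun s h1 h2 => by omega⟩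
      rw [pow_one, hφ.up (a k) hup, haa]

end Pool.Agent.Syst
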