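import Pool.Agent.Work.MP_e76ef6d3_pr.Defs2

/-!
# Opening a labelled pointed quadrangulation (CMS bijection)
-/

set_option autoImplicit false

namespace Pool.Agent.Syst

open Equiv Filter Topology

namespace OpenAux

section Generic

variable {D : Type} {φ α : Perm D} {ℓ : D → ℤ}

/-- Descending darts. -/
def Desc (φ : Perm D) (ℓ : D → ℤ) (d : D) : Prop := ℓ (φ d) = ℓ d - 1

lemma aa (hp : IsPL φ α ℓ) (d : D) : α (α d) = d := (hp.gluing d).1

lemma lab_pa (hp : IsPL φ α ℓ) (d : D) : ℓ (φ (α d)) = ℓ d := hp.lab d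

lemma lab_alpha (hp : IsPL φ α ℓ) (d : D) : ℓ (α d) = ℓ (φ d) := by
  have h := lab_pa hp (α d)
  rw [aa hp] at h
  exact h.symm

lemma asc_iff (hp : IsPL φ α ℓ) (d : D) : ¬ Desc φ ℓ d ↔ ℓ (φ d) = ℓ d + 1 := by
  unfold Desc
  have := hp.step d
  omega

lemma desc_alpha (hp : IsPL φ α ℓ) (d : D) : Desc φ ℓ (α d) ↔ ¬ Desc φ ℓ d := by
  rw [asc_iff hp]
  unfold Desc
  rw [lab_pa hp, lab_alpha hp]
  omega

lemma desc_alpha_lab (hp : IsPL φ α ℓ) {d : D} (h : ¬ Desc φ ℓ d) : ℓ (α d) = ℓ d + 1 := by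
  rw [lab_alpha hp]; exact (asc_iff hp d).mp h

lemma phi4 (hp : IsPL φ α ℓ) (d : D) : φ (φ (φ (φ d))) = d := (hp.squares d).1

open Classical in
/-- The other descending dart of the face. -/
noncomputable def beta (φ : Perm D) (ℓ : D → ℤ) (d : D) : D :=
  if Desc φ ℓ (φ d) then φ d else if Desc φ ℓ (φ (φ d)) then φ (φ d) else φ (φ (φ d))

lemma beta_cases (hp : IsPL φ α ℓ) {d : D} (hd : Desc φ ℓ d) :
    (beta φ ℓ d = φ d ∧ Desc φ ℓ (φ d) ∧ ¬ Desc φ ℓ (φ (φ d)) ∧ ¬ Desc φ ℓ (φ (φ (φ d)))) ∨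
    (beta φ ℓ d = φ (φ d) ∧ ¬ Desc φ ℓ (φ d) ∧ Desc φ ℓ (φ (φ d)) ∧
      ¬ Desc φ ℓ (φ (φ (φ d)))) ∨
    (beta φ ℓ d = φ (φ (φ d)) ∧ ¬ Desc φ ℓ (φ d) ∧ ¬ Desc φ ℓ (φ (φ d)) ∧
      Desc φ ℓ (φ (φ (φ d)))) := by
  have h0 : ℓ (φ d) = ℓ d - 1 := hd
  have h1 := hp.step (φ d)
  have h2 := hp.step (φ (φ d))
  have h3 := hp.step (φ (φ (φ d)))
  rw [phi4 hp] at h3
  by_cases c1 : Desc φ ℓ (φ d)
  · left
    refine ⟨by simp [beta, c1], c1, ?_, ?_⟩
    · unfold Desc at c1 ⊢; omega
    · unfold Desc at c1 ⊢; rw [phi4 hp]; omega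
  · by_cases c2 : Desc φ ℓ (φ (φ d))
    · right; left
      refine ⟨by simp [beta, c1, c2], c1, c2, ?_⟩
      unfold Desc at c1 c2 ⊢; rw [phi4 hp]; omega
    · right; right
      refine ⟨by simp [beta, c1, c2], c1, c2, ?_⟩
      unfold Desc at c1 c2 ⊢; rw [phi4 hp]; omega

lemma beta_desc (hp : IsPL φ α ℓ) {d : D} (hd : Desc φ ℓ d) : Desc φ ℓ (beta φ ℓ d) := by
  rcases beta_cases hp hd with h | h | h
  · rw [h.1]; exact h.2.1
  · rw [h.1]; exact h.2.2.1
  · rw [h.1]; exact h.2.2.2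

lemma beta_beta (hp : IsPL φ α ℓ) {d : D} (hd : Desc φ ℓ d) : beta φ ℓ (beta φ ℓ d) = d := by
  have e4 := phi4 hp d
  rcases beta_cases hp hd with h | h | h
  · rw [h.1]
    rcases beta_cases hp h.2.1 with h' | h' | h'
    · exact absurd h'.2.1 h.2.2.1
    · exact absurd h'.2.2.1 h.2.2.2
    · rw [h'.1, e4]
  · rw [h.1]
    rcases beta_cases hp h.2.2.1 with h' | h' | h'
    · exact absurd h'.2.1 h.2.2.2
    · rw [h'.1, e4]
    · exact absurd (by rw [e4]; exact hd) h'.2.2.1
  · rw [h.1]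
    rcases beta_cases hp h.2.2.2 with h' | h' | h'
    · rw [h'.1, e4]
    · exact absurd (by rw [e4]; exact hd) h'.2.1
    · exact absurd (by rw [e4]; exact hd) h'.2.1

lemma beta_ne (hp : IsPL φ α ℓ) {d : D} (hd : Desc φ ℓ d) : beta φ ℓ d ≠ d := by
  have e2 := (hp.squares d).2
  have e4 := phi4 hp d
  rcases beta_cases hp hd with h | h | h
  · rw [h.1]; intro e; exact e2 (by rw [e, e])
  · rw [h.1]; exact e2
  · rw [h.1]; intro e
    have : φ d = d := by
      have := congrArg φ e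
      rw [e4] at this
      exact this.symm
    exact e2 (by rw [this, this])

/-! ### First return -/

noncomputable def ret (φ α : Perm D) (ℓ : D → ℤ) (d : D) : ℕ :=
  sInf {t | Desc φ ℓ ((rot φ α ^ (t + 1)) d)}

noncomputable def rho (φ α : Perm D) (ℓ : D → ℤ) (d : D) : D := (rot φ α ^ (ret φ α ℓ d + 1)) d

lemma rho_desc [Finite D] {d : D} (hd : Desc φ ℓ d) : Desc φ ℓ (rho φ α ℓ d) := by
  have : ({t | Desc φ ℓ ((rot φ α ^ (t + 1)) d)} : Set ℕ).Nonempty := by
    refine ⟨orderOf (rot φ α) - 1, ?_⟩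
    have h1 : 0 < orderOf (rot φ α) := orderOf_pos _
    change Desc φ ℓ ((rot φ α ^ (orderOf (rot φ α) - 1 + 1)) d)
    rw [Nat.sub_add_cancel h1, pow_orderOf_eq_one]
    exact hd
  exact Nat.sInf_mem this

lemma ret_min {d : D} {s : ℕ} (h1 : 1 ≤ s) (h2 : s ≤ ret φ α ℓ d) :
    ¬ Desc φ ℓ ((rot φ α ^ s) d) := by
  have := Nat.notMem_of_lt_sInf (m := s - 1) (s := {t | Desc φ ℓ ((rot φ α ^ (t + 1)) d)})
    (by unfold ret at h2; omega)
  simpa [Nat.sub_add_cancel h1] using this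

lemma rho_inj {d e : D} (hd : Desc φ ℓ d) (he : Desc φ ℓ e)
    (h : rho φ α ℓ d = rho φ α ℓ e) : d = e := by
  wlog hle : ret φ α ℓ d ≤ ret φ α ℓ e generalizing d e
  · exact (this he hd h.symm (by omega)).symm
  unfold rho at h
  set t := ret φ α ℓ d
  set u := ret φ α ℓ e with hu
  have h1 : (rot φ α ^ (u + 1)) e = (rot φ α ^ (t + 1)) ((rot φ α ^ (u - t)) e) := by
    rw [← Perm.mul_apply, ← pow_add]
    congr 2
    omega
  rw [h1] at h
  have h2 := (rot φ α ^ (t + 1)).injective h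
  rcases Nat.eq_zero_or_pos (u - t) with h3 | h3
  · rw [h2, h3]; rfl
  · exact absurd (h2 ▸ hd) (ret_min (φ := φ) (α := α) (ℓ := ℓ) (d := e) h3 (by omega))

lemma lab_pow (hp : IsPL φ α ℓ) (s : ℕ) (d : D) : ℓ ((rot φ α ^ s) d) = ℓ d := by
  induction s with
  | zero => rfl
  | succ s ih => rw [pow_succ', Perm.mul_apply, hp.lab, ih]

lemma lab_rho (hp : IsPL φ α ℓ) (d : D) : ℓ (rho φ α ℓ d) = ℓ d := lab_pow hp _ d

/-- The contour step. -/
noncomputable def nx (φ α : Perm D) (ℓ : D → ℤ) (d : D) : D := beta φ ℓ (rho φ α ℓ d)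

/-- The three kinds of contour steps. -/
lemma nx_cases [Finite D] (hp : IsPL φ α ℓ) {h : D} (hh : Desc φ ℓ h) :
    (φ (α h) = rho φ α ℓ h ∧ nx φ α ℓ h = φ (rho φ α ℓ h) ∧ ℓ (nx φ α ℓ h) = ℓ h - 1 ∧
      ¬ Desc φ ℓ (φ (nx φ α ℓ h)) ∧ φ (φ (nx φ α ℓ h)) = α h) ∨
    (φ (α h) = rho φ α ℓ h ∧ φ (nx φ α ℓ h) = α h ∧ ℓ (nx φ α ℓ h) = ℓ h) ∨
    (φ (nx φ α ℓ h) = rho φ α ℓ h ∧ ℓ (nx φ α ℓ h) = ℓ h + 1 ∧ 1 ≤ ret φ α ℓ h ∧
      nx φ α ℓ h = α ((rot φ α ^ (ret φ α ℓ h)) h)) := by
  have hr := rho_desc (α := α) hh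
  have hl := lab_rho hp h
  rcases Nat.eq_zero_or_pos (ret φ α ℓ h) with h0 | h0
  · have h1 : φ (α h) = rho φ α ℓ h := by unfold rho; rw [h0]; rfl
    have h3 : φ (φ (φ (rho φ α ℓ h))) = α h := by
      apply φ.injective
      rw [phi4 hp, h1]
    have hna : ¬ Desc φ ℓ (α h) := by rw [desc_alpha hp]; exact not_not.mpr hh
    rcases beta_cases hp hr with h' | h' | h'
    · left
      refine ⟨h1, h'.1, ?_, ?_, ?_⟩
      · change ℓ (beta φ ℓ _) = _
        rw [h'.1, ← hl]; exact hr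
      · change ¬ Desc φ ℓ (φ (beta φ ℓ _))
        rw [h'.1]; exact h'.2.2.1
      · change φ (φ (beta φ ℓ _)) = _
        rw [h'.1]; exact h3
    · right; left
      refine ⟨h1, ?_, ?_⟩
      · change φ (beta φ ℓ _) = _
        rw [h'.1]; exact h3
      · change ℓ (beta φ ℓ _) = _
        rw [h'.1]
        have e1 : ℓ (φ (rho φ α ℓ h)) = ℓ (rho φ α ℓ h) - 1 := hr
        have e2 := (asc_iff hp _).mp h'.2.1
        omega
    · exact absurd (h3 ▸ h'.2.2.2) hna
  · right; right
    set u := (rot φ α ^ (ret φ α ℓ h)) h with hu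
    have hun : ¬ Desc φ ℓ u := ret_min h0 le_rfl
    have h1 : φ (α u) = rho φ α ℓ h := by
      unfold rho; rw [pow_succ', Perm.mul_apply]; rfl
    have h3 : φ (φ (φ (rho φ α ℓ h))) = α u := by
      apply φ.injective
      rw [phi4 hp, h1]
    have hda : Desc φ ℓ (α u) := by rw [desc_alpha hp]; exact hun
    have h4 : nx φ α ℓ h = α u := by
      change beta φ ℓ _ = _
      rcases beta_cases hp hr with h' | h' | h'
      · exact absurd (h3 ▸ hda) h'.2.2.2
      · exact absurd (h3 ▸ hda) h'.2.2.2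
      · rw [h'.1, h3]
    refine ⟨?_, ?_, h0, h4⟩
    · rw [h4, h1]
    · rw [h4, desc_alpha_lab hp hun, lab_pow hp]

lemma nx_desc [Finite D] (hp : IsPL φ α ℓ) {h : D} (hh : Desc φ ℓ h) :
    Desc φ ℓ (nx φ α ℓ h) := beta_desc hp (rho_desc hh)

/-- `g` reaches `k` through labels at least `λ + 1`. -/
def Reach (φ α : Perm D) (ℓ : D → ℤ) (g k : D) (c : ℤ) : Prop :=
  ∃ m : ℕ, 1 ≤ m ∧ (nx φ α ℓ)^[m] g = k ∧ ∀ s, 1 ≤ s → s ≤ m → c ≤ ℓ ((nx φ α ℓ)^[s] g)

lemma Reach.trans {g k j : D} {c : ℤ} (h1 : Reach φ α ℓ g k c) (h2 : Reach φ α ℓ k j c) :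
    Reach φ α ℓ g j c := by
  obtain ⟨m, hm, e1, f1⟩ := h1
  obtain ⟨p, hq, e2, f2⟩ := h2
  refine ⟨p + m, by omega, by rw [Function.iterate_add_apply, e1, e2], fun s hs hs' => ?_⟩
  rcases le_or_gt s m with h | h
  · exact f1 s hs h
  · have : s = (s - m) + m := by omega
    rw [this, Function.iterate_add_apply, e1]
    exact f2 _ (by omega) (by omega)

lemma Reach.mono {g k : D} {c c' : ℤ} (h1 : Reach φ α ℓ g k c) (h : c' ≤ c) :
    Reach φ α ℓ g k c' := by
  obtain ⟨m, hm, e1, f1⟩ := h1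
  exact ⟨m, hm, e1, fun s hs hs' => h.trans (f1 s hs hs')⟩

lemma Reach.single {g k : D} {c : ℤ} (h : nx φ α ℓ g = k) (hc : c ≤ ℓ k) :
    Reach φ α ℓ g k c := by
  refine ⟨1, le_rfl, h, fun s hs hs' => ?_⟩
  have : s = 1 := by omega
  subst this
  change c ≤ ℓ (nx φ α ℓ g)
  rw [h]; exact hc

/-- One step between consecutive darts pointing to the same vertex. `k` and `j` are descending,
`φ j = α k` (so the ascending darts `α j`, `α k` are consecutive at the lower vertex). -/
lemma reach_pred [Finite D] (hp : IsPL φ α ℓ) (c : ℤ)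
    (ih : ∀ g, Desc φ ℓ g → ℓ g = c → ∀ s, 1 ≤ s → s ≤ ret φ α ℓ g →
      Reach φ α ℓ g (α ((rot φ α ^ s) g)) (c + 1))
    {j k : D} (hj : Desc φ ℓ j) (hk : Desc φ ℓ k) (hjk : φ j = α k) (hc : ℓ k = c) :
    Reach φ α ℓ k j c := by
  have hjl : ℓ j = c := by
    have h1 : ℓ (φ j) = ℓ j - 1 := hj
    have h2 : ℓ (α k) = ℓ k - 1 := by rw [lab_alpha hp]; exact hk
    rw [hjk] at h1
    omega
  rcases nx_cases hp hk with h | h | h
  · exfalso
    -- down: φ (φ (nx k)) = α k = φ j, so φ (nx k) = j, but φ (nx k) is ascending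
    have : φ (nx φ α ℓ k) = j := φ.injective (by rw [h.2.2.2.2, hjk])
    exact h.2.2.2.1 (this ▸ hj)
  · have : nx φ α ℓ k = j := φ.injective (by rw [h.2.1, hjk])
    exact Reach.single this (by omega)
  · -- up: the rotation successor of k is ascending
    have h1 := ih k hk hc 1 le_rfl h.2.2.1
    rw [pow_one] at h1
    set x := rot φ α k with hx
    have hxa : ¬ Desc φ ℓ x := by
      have := ret_min (φ := φ) (α := α) (ℓ := ℓ) (d := k) le_rfl h.2.2.1
      rwa [pow_one] at this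
    have hax : Desc φ ℓ (α x) := by rw [desc_alpha hp]; exact hxa
    -- the face is j, α k, x, φ x
    have hx1 : φ (α k) = x := rfl
    have hx2 : φ (φ x) = j := by
      have := phi4 hp j
      rw [hjk, hx1] at this
      exact this
    have hx3 : Desc φ ℓ (φ x) := by
      have h3 := hp.step (φ x)
      have h4 := hp.step x
      have h5 : ℓ x = c := by rw [hx, hp.lab, hc]
      have h6 := (asc_iff hp x).mp hxa
      unfold Desc
      rw [hx2] at h3 ⊢
      omega
    have hrho : rho φ α ℓ (α x) = φ x := by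
      have h0 : ret φ α ℓ (α x) = 0 := by
        by_contra hne
        have := ret_min (φ := φ) (α := α) (ℓ := ℓ) (d := α x) le_rfl (by omega)
        rw [pow_one] at this
        apply this
        change Desc φ ℓ (φ (α (α x)))
        rw [aa hp]; exact hx3
      unfold rho
      rw [h0]
      change φ (α (α x)) = φ x
      rw [aa hp]
    have hnx : nx φ α ℓ (α x) = j := by
      change beta φ ℓ (rho φ α ℓ (α x)) = j
      rw [hrho]
      rcases beta_cases hp hx3 with h' | h' | h'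
      · rw [h'.1, hx2]
      · exact absurd (hx2 ▸ hj) h'.2.1
      · exact absurd (hx2 ▸ hj) h'.2.1
    exact (h1.mono (by omega)).trans (Reach.single hnx (by omega))

lemma reach_all [Finite D] (hp : IsPL φ α ℓ) (B : ℤ) (hB : ∀ d, ℓ d ≤ B) :
    ∀ (r : ℕ) (g : D), Desc φ ℓ g → B - r ≤ ℓ g → ∀ s, 1 ≤ s → s ≤ ret φ α ℓ g →
      Reach φ α ℓ g (α ((rot φ α ^ s) g)) (ℓ g + 1) := by
  intro r
  induction r with
  | zero =>
    intro g hg hl s hs hs'
    exfalso
    have h1 := ret_min hs hs'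
    have h2 := (asc_iff hp _).mp h1
    have h3 := hB (φ ((rot φ α ^ s) g))
    rw [lab_pow hp] at h2
    have h4 := hB g
    push_cast at hl
    omega
  | succ r ih =>
    intro g hg hl
    -- downward induction on s
    have key : ∀ (v s : ℕ), 1 ≤ s → s + v = ret φ α ℓ g →
        Reach φ α ℓ g (α ((rot φ α ^ s) g)) (ℓ g + 1) := by
      intro v
      induction v with
      | zero =>
        intro s hs hsv
        rcases nx_cases hp hg with h | h | h
        · exfalso
          have h1 := ret_min (φ := φ) (α := α) (ℓ := ℓ) (d := g) le_rfl (by omega)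
          rw [pow_one] at h1
          exact h1 (by change Desc φ ℓ (φ (α g)); rw [h.1]; exact rho_desc hg)
        · exfalso
          have h1 := ret_min (φ := φ) (α := α) (ℓ := ℓ) (d := g) le_rfl (by omega)
          rw [pow_one] at h1
          exact h1 (by change Desc φ ℓ (φ (α g)); rw [h.1]; exact rho_desc hg)
        · have e : s = ret φ α ℓ g := by omega
          rw [e]
          refine Reach.single h.2.2.2 ?_
          rw [← h.2.2.2]
          exact h.2.1.ge
      | succ v ihv =>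
        intro s hs hsv
        have h1 := ihv (s + 1) (by omega) (by omega)
        have hn1 := ret_min (φ := φ) (α := α) (ℓ := ℓ) (d := g) hs (by omega)
        have hn2 := ret_min (φ := φ) (α := α) (ℓ := ℓ) (d := g) (s := s + 1) (by omega) (by omega)
        refine h1.trans ?_
        refine reach_pred hp (ℓ g + 1) ?_ (j := α ((rot φ α ^ s) g))
          (k := α ((rot φ α ^ (s + 1)) g)) ?_ ?_ ?_ ?_
        · intro g' hg' hl' s' hs1 hs2
          have := ih g' hg' (by push_cast at hl; omega) s' hs1 hs2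
          rwa [hl'] at this
        · rw [desc_alpha hp]; exact hn1
        · rw [desc_alpha hp]; exact hn2
        · rw [aa hp, pow_succ', Perm.mul_apply]; rfl
        · rw [desc_alpha_lab hp hn2, lab_pow hp]
    intro s hs hs'
    exact key (ret φ α ℓ g - s) s hs (by omega)

/-! ### Labels are nonnegative, zero exactly at the root vertex -/

lemma lab_same [Finite D] (hp : IsPL φ α ℓ) {d e : D} (h : SameVertex φ α d e) : ℓ e = ℓ d := by
  obtain ⟨i, hi⟩ := Perm.SameCycle.exists_nat_pow_eq h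
  rw [← hi, lab_pow hp]

lemma lab_nonneg [Finite D] (hp : IsPL φ α ℓ) : (∀ d, 0 ≤ ℓ d) ∧
    ∃ d0, ℓ d0 = 0 ∧ (∀ d, SameVertex φ α d0 d → ¬ Desc φ ℓ d) ∧
      (∀ d, ℓ d = 0 → SameVertex φ α d0 d) ∧
      ∀ d, ¬ SameVertex φ α d0 d → ∃ e, SameVertex φ α d e ∧ Desc φ ℓ e := by
  obtain ⟨d0, h0, h1, h2⟩ := hp.root
  have : Nonempty D := ⟨d0⟩
  obtain ⟨m, hm⟩ := Finite.exists_min ℓ
  have hmin : ℓ m = 0 := by
    by_contra hne
    have h3 : ¬ SameVertex φ α d0 m := fun h => hne (by rw [lab_same hp h, h0])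
    obtain ⟨e, he, he'⟩ := h2 m h3
    have h4 := hm (φ e)
    have h5 := lab_same hp he
    omega
  have hnn : ∀ d, 0 ≤ ℓ d := fun d => hmin ▸ hm d
  refine ⟨hnn, d0, h0, ?_, ?_, ?_⟩
  · intro d hd
    rw [asc_iff hp]; exact h1 d hd
  · intro d hd
    by_contra h3
    obtain ⟨e, he, he'⟩ := h2 d h3
    have h4 := hnn (φ e)
    have h5 := lab_same hp he
    omega
  · intro d hd
    obtain ⟨e, he, he'⟩ := h2 d hd
    exact ⟨e, he, he'⟩

lemma le_ret [Finite D] {g : D} (hg : Desc φ ℓ g) {s : ℕ}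
    (h : ∀ s', 1 ≤ s' → s' ≤ s → ¬ Desc φ ℓ ((rot φ α ^ s') g)) : s ≤ ret φ α ℓ g := by
  by_contra hlt
  exact h (ret φ α ℓ g + 1) (by omega) (by omega) (rho_desc hg)

/-- The last descending dart before an ascending one. -/
lemma exists_before [Finite D] {e x : D} (he : Desc φ ℓ e) (hs : SameVertex φ α e x)
    (hx : ¬ Desc φ ℓ x) :
    ∃ g s, Desc φ ℓ g ∧ 1 ≤ s ∧ s ≤ ret φ α ℓ g ∧ (rot φ α ^ s) g = x := by
  classical
  obtain ⟨i, hi⟩ := Perm.SameCycle.exists_nat_pow_eq hs
  -- least `s` such that rot^(i - s) e is descending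
  have hex : ∃ s, s ≤ i ∧ Desc φ ℓ ((rot φ α ^ (i - s)) e) := ⟨i, le_rfl, by simpa using he⟩
  obtain ⟨hs1, hs2⟩ := Nat.find_spec hex
  set s := Nat.find hex with hsdef
  have hpos : 1 ≤ s := by
    rcases Nat.eq_zero_or_pos s with h | h
    · rw [h, Nat.sub_zero, hi] at hs2
      exact absurd hs2 hx
    · exact h
  refine ⟨(rot φ α ^ (i - s)) e, s, hs2, hpos, le_ret hs2 ?_, ?_⟩
  · intro s' h1 h2
    rw [← Perm.mul_apply, ← pow_add]
    have h3 := Nat.find_min hex (m := s - s') (by omega)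
    intro h4
    apply h3
    refine ⟨by omega, ?_⟩
    have : i - (s - s') = s' + (i - s) := by omega
    rw [this]; exact h4
  · rw [← Perm.mul_apply, ← pow_add]
    have : s + (i - s) = i := by omega
    rw [this, hi]

/-- The contour permutation of the descending darts. -/
noncomputable def nxP [Finite D] (hp : IsPL φ α ℓ) : Perm {d // Desc φ ℓ d} :=
  (Equiv.ofBijective (fun d : {d // Desc φ ℓ d} =>
      (⟨rho φ α ℓ d.1, rho_desc d.2⟩ : {d // Desc φ ℓ d}))
    (Finite.injective_iff_bijective.mp (by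
      intro d e h
      exact Subtype.ext (rho_inj d.2 e.2 (congrArg Subtype.val h))))).trans
  (Function.Involutive.toPerm (fun d : {d // Desc φ ℓ d} =>
      (⟨beta φ ℓ d.1, beta_desc hp d.2⟩ : {d // Desc φ ℓ d}))
    (by intro d; exact Subtype.ext (beta_beta hp d.2)))

lemma nxP_coe [Finite D] (hp : IsPL φ α ℓ) (x : {d // Desc φ ℓ d}) :
    (nxP hp x).1 = nx φ α ℓ x.1 := rfl

lemma nxP_pow [Finite D] (hp : IsPL φ α ℓ) (m : ℕ) (x : {d // Desc φ ℓ d}) :
    ((nxP hp ^ m) x).1 = (nx φ α ℓ)^[m] x.1 := by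
  induction m with
  | zero => rfl
  | succ m ih => rw [pow_succ', Perm.mul_apply, nxP_coe, ih, Function.iterate_succ_apply']

lemma Reach.same [Finite D] (hp : IsPL φ α ℓ) {g k : {d // Desc φ ℓ d}} {c : ℤ}
    (h : Reach φ α ℓ g.1 k.1 c) : (nxP hp).SameCycle g k := by
  obtain ⟨m, -, h1, -⟩ := h
  refine ⟨m, Subtype.ext ?_⟩
  rw [zpow_natCast, nxP_pow, h1]

lemma exists_bound [Finite D] (ℓ : D → ℤ) : ∃ B, ∀ d, ℓ d ≤ B := by
  rcases isEmpty_or_nonempty D with h | h
  · exact ⟨0, fun d => h.elim d⟩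
  · obtain ⟨m, hm⟩ := Finite.exists_max ℓ
    exact ⟨ℓ m, hm⟩

lemma reach_ret [Finite D] (hp : IsPL φ α ℓ) {g : D} (hg : Desc φ ℓ g) {s : ℕ} (hs : 1 ≤ s)
    (hs' : s ≤ ret φ α ℓ g) : Reach φ α ℓ g (α ((rot φ α ^ s) g)) (ℓ g + 1) := by
  obtain ⟨B, hB⟩ := exists_bound ℓ
  exact reach_all hp B hB (B - ℓ g).toNat g hg (by omega) s hs hs'

/-- The contour is a single cycle. -/
lemma nxP_single [Finite D] (hp : IsPL φ α ℓ) (x y : {d // Desc φ ℓ d}) :
    (nxP hp).SameCycle x y := by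
  obtain ⟨hnn, d0, h0, h1, h2, h3⟩ := lab_nonneg hp
  -- descend to the darts pointing to the root vertex
  have down : ∀ (r : ℕ) (h : {d // Desc φ ℓ d}), ℓ h.1 = r + 1 →
      ∃ g : {d // Desc φ ℓ d}, ℓ g.1 = 1 ∧ (nxP hp).SameCycle h g := by
    intro r
    induction r with
    | zero => intro h hh; exact ⟨h, by simpa using hh, Perm.SameCycle.refl _ _⟩
    | succ r ih =>
      intro h hh
      have ha : ¬ Desc φ ℓ (α h.1) := by rw [desc_alpha hp]; exact not_not.mpr h.2
      have hl : ℓ (α h.1) = ℓ h.1 - 1 := by rw [lab_alpha hp]; exact h.2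
      have hnr : ¬ SameVertex φ α d0 (α h.1) := by
        intro hs
        have := lab_same hp hs
        push_cast at hh
        omega
      obtain ⟨e, he, he'⟩ := h3 _ hnr
      obtain ⟨g, s, hg, hs1, hs2, hs3⟩ := exists_before he' (Perm.SameCycle.symm he) ha
      have hr := reach_ret hp hg hs1 hs2
      rw [hs3, aa hp] at hr
      have hlg : ℓ g = ℓ h.1 - 1 := by
        rw [← hl, ← hs3, lab_pow hp]
      obtain ⟨k, hk1, hk2⟩ := ih ⟨g, hg⟩ (by change ℓ g = _; push_cast at hh; omega)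
      refine ⟨k, hk1, ?_⟩
      have h4 : (nxP hp).SameCycle ⟨g, hg⟩ h := Reach.same hp hr
      exact h4.symm.trans hk2
  -- the darts pointing to the root vertex
  have hroot : ∀ z, SameVertex φ α d0 z → Desc φ ℓ (α z) := by
    intro z hz
    rw [desc_alpha hp]; exact h1 z hz
  have hstep : ∀ z (hz : SameVertex φ α d0 z) (hz' : SameVertex φ α d0 (rot φ α z)),
      (nxP hp).SameCycle ⟨α (rot φ α z), hroot _ hz'⟩ ⟨α z, hroot _ hz⟩ := by
    intro z hz hz'
    have hlz : ℓ z = 0 := by rw [lab_same hp hz, h0]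
    refine Reach.same hp (c := 1) (reach_pred hp 1 ?_ (hroot _ hz) (hroot _ hz') ?_ ?_)
    · intro g hg hgl s hs hs'
      have := reach_ret hp hg hs hs'
      rwa [hgl] at this
    · rw [aa hp]; rfl
    · rw [desc_alpha_lab hp (h1 _ hz'), lab_same hp hz', h0]; rfl
  have hpow : ∀ (m : ℕ) z (hz : SameVertex φ α d0 z)
      (hz' : SameVertex φ α d0 ((rot φ α ^ m) z)),
      (nxP hp).SameCycle ⟨α z, hroot _ hz⟩ ⟨α ((rot φ α ^ m) z), hroot _ hz'⟩ := by
    intro m
    induction m with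
    | zero => intro z hz hz'; exact Perm.SameCycle.refl _ _
    | succ m ih =>
      intro z hz hz'
      have hz'' : SameVertex φ α d0 ((rot φ α ^ m) z) :=
        hz.trans (Perm.sameCycle_pow_right.mpr (Perm.SameCycle.refl _ _))
      have e : (rot φ α ^ (m + 1)) z = rot φ α ((rot φ α ^ m) z) := by
        rw [pow_succ', Perm.mul_apply]
      refine (ih z hz hz'').trans ?_
      have h5 := hstep ((rot φ α ^ m) z) hz'' (by rw [← e]; exact hz')
      have h6 := h5.symm
      convert h6 using 3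
  have hone : ∀ g g' : {d // Desc φ ℓ d}, ℓ g.1 = 1 → ℓ g'.1 = 1 →
      (nxP hp).SameCycle g g' := by
    intro g g' hg hg'
    have a1 : ℓ (α g.1) = 0 := by
      have : ℓ (φ g.1) = ℓ g.1 - 1 := g.2
      rw [lab_alpha hp]; omega
    have a2 : ℓ (α g'.1) = 0 := by
      have : ℓ (φ g'.1) = ℓ g'.1 - 1 := g'.2
      rw [lab_alpha hp]; omega
    have b1 := h2 _ a1
    have b2 := h2 _ a2
    obtain ⟨m, hm⟩ := Perm.SameCycle.exists_nat_pow_eq (b1.symm.trans b2)
    have h5 := hpow m _ b1 (by rw [hm]; exact b2)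
    convert h5 using 1
    · exact Subtype.ext (aa hp _).symm
    · exact Subtype.ext (by simp only [hm, aa hp])
  have hex : ∀ h : {d // Desc φ ℓ d}, ∃ g : {d // Desc φ ℓ d}, ℓ g.1 = 1 ∧
      (nxP hp).SameCycle h g := by
    intro h
    have h5 := hnn (φ h.1)
    have h6 : ℓ (φ h.1) = ℓ h.1 - 1 := h.2
    exact down (ℓ h.1 - 1).toNat h (by omega)
  obtain ⟨g, hg, hg'⟩ := hex x
  obtain ⟨k, hk, hk'⟩ := hex y
  exact hg'.trans ((hone g k hg hk).trans hk'.symm)

/-- A transitive permutation of a finite set is a rotation of `Fin N`. -/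
lemma exists_enum {H : Type} [Fintype H] (f : Perm H) (hf : ∀ x y, f.SameCycle x y) {N : ℕ}
    (hN : Fintype.card H = N) (h : H) :
    ∃ E : Fin N ≃ H, (∀ hN0 : 0 < N, E ⟨0, hN0⟩ = h) ∧ ∀ k, E (finRotate N k) = f (E k) := by
  classical
  have hcyc : f.IsCycleOn ((Finset.univ : Finset H) : Set H) := by
    refine ⟨?_, fun x _ y _ => hf x y⟩
    simp
  have hpN : (f ^ N) h = h := by
    have := hcyc.pow_card_apply (Finset.mem_univ h)
    rwa [Finset.card_univ, hN] at this
  have hsurj : Function.Surjective (fun k : Fin N => (f ^ k.1) h) := by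
    intro y
    obtain ⟨m, hm, hm'⟩ := hcyc.exists_pow_eq (Finset.mem_univ h) (Finset.mem_univ y)
    rw [Finset.card_univ, hN] at hm
    exact ⟨⟨m, hm⟩, hm'⟩
  have hbij : Function.Bijective (fun k : Fin N => (f ^ k.1) h) :=
    (Fintype.bijective_iff_surjective_and_card _).mpr ⟨hsurj, by simp [hN]⟩
  refine ⟨Equiv.ofBijective _ hbij, fun hN0 => rfl, fun k => ?_⟩
  change (f ^ (finRotate N k).1) h = f ((f ^ k.1) h)
  rw [← Perm.mul_apply, ← pow_succ']
  obtain ⟨M, rfl⟩ : ∃ M, N = M + 1 := ⟨N - 1, by have := k.2; omega⟩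
  rcases Nat.lt_or_ge k.1 M with hk | hk
  · have : finRotate (M + 1) k = ⟨k.1 + 1, by omega⟩ := finRotate_of_lt hk
    rw [this]
  · have hk' : k = ⟨M, by omega⟩ := Fin.ext (by have := k.2; simp only; omega)
    rw [hk', finRotate_last']
    simp only [pow_zero, Perm.one_apply]
    exact hpN.symm

/-- Darts are descending darts or their reversals. -/
noncomputable def sumD (hp : IsPL φ α ℓ) : {d // Desc φ ℓ d} ⊕ {d // Desc φ ℓ d} ≃ D :=
  Equiv.ofBijective (Sum.elim (fun x => x.1) (fun x => α x.1)) (by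
    constructor
    · rintro (x | x) (y | y) h
      · exact congrArg Sum.inl (Subtype.ext h)
      · exfalso
        have h1 : x.1 = α y.1 := h
        have h2 := (desc_alpha hp y.1).mp (h1 ▸ x.2)
        exact h2 y.2
      · exfalso
        have h1 : α x.1 = y.1 := h
        have h2 := (desc_alpha hp x.1).mp (h1 ▸ y.2)
        exact h2 x.2
      · exact congrArg Sum.inr (Subtype.ext (α.injective h))
    · intro d
      by_cases hd : Desc φ ℓ d
      · exact ⟨Sum.inl ⟨d, hd⟩, rfl⟩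
      · exact ⟨Sum.inr ⟨α d, (desc_alpha hp d).mpr hd⟩, aa hp d⟩)

end Generic

end OpenAux

open OpenAux in
theorem cms_open {n : ℕ} (hn : 0 < n) {φ α : Perm (Fin (4 * n))} {ℓ : Fin (4 * n) → ℤ}
    (hp : IsPL φ α ℓ) (h : Fin (4 * n)) (hd : ℓ (φ h) = ℓ h - 1) :
    ∃ (a : Perm (Fin (2 * n))) (ℓ' : Fin (2 * n) → ℤ)
      (e : Fin (2 * n) ⊕ Fin (2 * n) ≃ Fin (4 * n)) (ψ : Perm (Fin (2 * n) ⊕ Fin (2 * n))),
      IsLU n a ℓ' ∧ IsClosing n a ℓ' ψ ∧ (∀ x, φ (e x) = e (ψ x)) ∧
      (∀ x, α (e x) = e (swp n x)) ∧ (∀ x, ℓ (e x) = slab n ℓ' x) ∧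
      e (Sum.inl ⟨0, by omega⟩) = h := by
  classical
  have hcard : Fintype.card {d // Desc φ ℓ d} = 2 * n := by
    have h1 := Fintype.card_congr (sumD hp)
    rw [Fintype.card_sum, Fintype.card_fin] at h1
    omega
  obtain ⟨E, hE0, hE⟩ := exists_enum (nxP hp) (nxP_single hp) hcard ⟨h, hd⟩
  -- `rho` as a permutation
  set ρ : Perm {d // Desc φ ℓ d} := Equiv.ofBijective (fun d : {d // Desc φ ℓ d} =>
      (⟨rho φ α ℓ d.1, rho_desc d.2⟩ : {d // Desc φ ℓ d}))
    (Finite.injective_iff_bijective.mp (by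
      intro d e h
      exact Subtype.ext (rho_inj d.2 e.2 (congrArg Subtype.val h)))) with hρ
  have hρc : ∀ x, (ρ x).1 = rho φ α ℓ x.1 := fun x => rfl
  set γ := finRotate (2 * n) with hγ
  set a : Perm (Fin (2 * n)) := ((E.trans ρ).trans E.symm).trans γ.symm with ha
  have hEa : ∀ k, E (γ (a k)) = ρ (E k) := by
    intro k
    simp [ha]
  have hEac : ∀ k, (E (γ (a k))).1 = rho φ α ℓ (E k).1 := by
    intro k; rw [hEa, hρc]
  have hEc : ∀ k, (E (γ k)).1 = nx φ α ℓ (E k).1 := by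
    intro k; rw [hE, nxP_coe]
  -- beta exchanges γ k and γ (a k)
  have hbeta : ∀ k, (E (γ k)).1 = beta φ ℓ (E (γ (a k))).1 := by
    intro k; rw [hEc, hEac]; rfl
  have haa : ∀ k, a (a k) = k := by
    intro k
    have h1 := hbeta (a k)
    rw [hbeta (a k)] at h1
    have h2 : (E (γ k)).1 = (E (γ (a (a k)))).1 := by
      have h3 := hbeta k
      have h4 := hbeta (a k)
      rw [h3, h4, beta_beta hp (E _).2]
    exact (γ.injective (E.injective (Subtype.ext h2))).symm
  have hane : ∀ k, a k ≠ k := by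
    intro k hk
    have h1 := hbeta k
    rw [hk] at h1
    exact beta_ne hp (E (γ k)).2 h1.symm
  set ℓ' : Fin (2 * n) → ℤ := fun k => ℓ (E k).1 with hℓ'
  obtain ⟨hnn, d0, h00, hr1, hr2, hr3⟩ := lab_nonneg hp
  have hLU : IsLU n a ℓ' := by
    refine ⟨fun k => ⟨haa k, hane k⟩, ?_, ?_, ?_, ?_⟩
    · intro k
      change ℓ (E (γ (a k))).1 = ℓ (E k).1
      rw [hEac, lab_rho hp]
    · intro k
      change |ℓ (E (γ k)).1 - ℓ (E k).1| ≤ 1
      rw [hEc, abs_le]
      rcases nx_cases hp (E k).2 with h' | h' | h'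
      · rw [h'.2.2.1]; constructor <;> omega
      · rw [h'.2.2]; constructor <;> omega
      · rw [h'.2.1]; constructor <;> omega
    · intro k
      change 1 ≤ ℓ (E k).1
      have h1 := hnn (φ (E k).1)
      have h2 : ℓ (φ (E k).1) = ℓ (E k).1 - 1 := (E k).2
      omega
    · have h1 : ¬ Desc φ ℓ d0 := hr1 d0 (Perm.SameCycle.refl _ _)
      refine ⟨E.symm ⟨α d0, (desc_alpha hp d0).mpr h1⟩, ?_⟩
      change ℓ (E (E.symm _)).1 = 1
      rw [Equiv.apply_symm_apply]
      change ℓ (α d0) = 1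
      rw [desc_alpha_lab hp h1, h00]; rfl
  set e : Fin (2 * n) ⊕ Fin (2 * n) ≃ Fin (4 * n) :=
    (Equiv.sumCongr E E).trans (sumD hp) with he
  have hel : ∀ k, e (Sum.inl k) = (E k).1 := fun k => rfl
  have her : ∀ k, e (Sum.inr k) = α (E k).1 := fun k => rfl
  set ψ : Perm (Fin (2 * n) ⊕ Fin (2 * n)) := (e.trans φ).trans e.symm with hψ
  have hψe : ∀ x, φ (e x) = e (ψ x) := by
    intro x; simp [hψ]
  have hψi : ∀ x y, φ (e x) = e y → ψ x = y := by
    intro x y h'
    apply e.injective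
    rw [← hψe, h']
  have hcases := fun k => nx_cases hp (E k).2
  have hpowE : ∀ (m : ℕ) k, (E ((γ ^ m) k)).1 = (nx φ α ℓ)^[m] (E k).1 := by
    intro m
    induction m with
    | zero => intro k; rfl
    | succ m ih =>
      intro k
      rw [pow_succ', Perm.mul_apply, hEc, ih, Function.iterate_succ_apply']
  have hCl : IsClosing n a ℓ' ψ := by
    refine ⟨?_, ?_, ?_, ?_⟩
    · intro i hi
      have hi' : ℓ (E (γ i)).1 = ℓ (E i).1 := hi
      rw [hEc] at hi'
      rcases hcases i with h' | h' | h'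
      · omega
      · constructor
        · apply hψi
          rw [hel, her, hEc]; exact h'.2.1
        · apply hψi
          rw [hel, her, hEac]; exact h'.1
      · omega
    · intro i hi
      have hi' : ℓ (E (γ i)).1 = ℓ (E i).1 + 1 := hi
      rw [hEc] at hi'
      rcases hcases i with h' | h' | h'
      · omega
      · omega
      · apply hψi
        rw [hel, hel, hEc, hEac]; exact h'.1
    · intro i hi
      have hi' : ℓ (E (γ i)).1 = ℓ (E i).1 - 1 := hi
      rw [hEc] at hi'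
      rcases hcases i with h' | h' | h'
      · apply hψi
        rw [hel, her, hEac]; exact h'.1
      · omega
      · omega
    · rintro j i ⟨t, ht, htj, hl, hs⟩
      have hl' : ℓ (E (γ i)).1 = ℓ (E j).1 := hl
      have hti : (nx φ α ℓ)^[t] (E j).1 = (E i).1 := by
        rw [← hpowE, htj]
      have hsi : ∀ s : ℕ, 1 ≤ s → s ≤ t → ℓ (E j).1 + 1 ≤ ℓ ((nx φ α ℓ)^[s] (E j).1) := by
        intro s h1 h2
        have := hs s h1 h2
        change ℓ (E j).1 + 1 ≤ ℓ (E ((γ ^ s) j)).1 at this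
        rwa [hpowE] at this
      have hit := hsi t ht le_rfl
      rw [hti] at hit
      rw [hEc] at hl'
      rcases hcases i with h' | h' | h'
      · obtain ⟨c1, c2, c3, c4, c5⟩ := h'
        -- the matched dart
        set w := α (φ (nx φ α ℓ (E i).1)) with hw
        have hwd : Desc φ ℓ w := (desc_alpha hp _).mpr c4
        have hwl : ℓ w = ℓ (E j).1 := by
          rw [hw, desc_alpha_lab hp c4]
          have h1 : ℓ (φ (nx φ α ℓ (E i).1)) = ℓ (nx φ α ℓ (E i).1) - 1 := nx_desc hp (E i).2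
          omega
        have hRw : rot φ α w = α (E i).1 := by
          change φ (α w) = _
          rw [hw, aa hp, c5]
        have hna : ¬ Desc φ ℓ (α (E i).1) := by
          rw [desc_alpha hp]; exact not_not.mpr (E i).2
        have hret : 1 ≤ ret φ α ℓ w := by
          refine le_ret hwd ?_
          intro s' h1 h2
          have : s' = 1 := by omega
          rw [this, pow_one, hRw]
          exact hna
        have hR := reach_ret hp hwd le_rfl hret
        rw [pow_one, hRw, aa hp] at hR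
        obtain ⟨m, hm, hm1, hm2⟩ := hR
        -- compare with `E j`
        have hwj : w = (E j).1 := by
          obtain ⟨w', hw'⟩ : ∃ w' : Fin (2 * n), (E w').1 = w :=
            ⟨E.symm ⟨w, hwd⟩, by rw [Equiv.apply_symm_apply]⟩
          have hm1' : (γ ^ m) w' = i := by
            apply E.injective
            apply Subtype.ext
            rw [hpowE, hw', hm1]
          have hww : w' = j := by
            rcases lt_trichotomy m t with hlt | heq | hgt
            · exfalso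
              have h1 : (γ ^ (t - m)) j = w' := by
                apply (γ ^ m).injective
                rw [← Perm.mul_apply, ← pow_add, hm1', ← htj]
                congr 2
                omega
              have h2 := hsi (t - m) (by omega) (by omega)
              rw [← hpowE, h1, hw', hwl] at h2
              omega
            · apply (γ ^ m).injective
              rw [hm1', heq, htj]
            · exfalso
              have h1 : (γ ^ (m - t)) w' = j := by
                apply (γ ^ t).injective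
                rw [← Perm.mul_apply, ← pow_add, htj, ← hm1']
                congr 2
                omega
              have h2 := hm2 (m - t) (by omega) (by omega)
              rw [← hw', ← hpowE, h1, hw', hwl] at h2
              omega
          rw [← hw', hww]
        constructor
        · apply hψi
          rw [hel, her, hEc, ← hwj, hw, aa hp]
        · apply hψi
          rw [her, her, ← hwj]
          exact hRw
      · omega
      · omega
  refine ⟨a, ℓ', e, ψ, hLU, hCl, hψe, ?_, ?_, ?_⟩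
  · rintro (k | k)
    · rfl
    · change α (α (E k).1) = (E k).1
      exact aa hp _
  · rintro (k | k)
    · rfl
    · change ℓ (α (E k).1) = ℓ (E k).1 - 1
      rw [lab_alpha hp]
      exact (E k).2
  · rw [hel, hE0 (by omega)]

end Pool.Agent.Syst
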