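import Pool.Agent.Work.MP_e76ef6d3_pr.Defs2

/-!
# The closure of a labelled one-face map is a labelled pointed quadrangulation
-/

namespace Pool.Agent.Syst

open Equiv Filter Topology

namespace CmsPLAux

variable {n : ℕ} {a : Perm (Fin (2 * n))} {ℓ : Fin (2 * n) → ℤ}


theorem trans_rot (x y : Fin (2 * n)) : ∃ s : ℕ, ((finRotate (2 * n)) ^ s) x = y := by
  have hn : 2 ≤ 2 * n := by
    have := x.2
    omega
  have hc := isCycle_finRotate_of_le hn
  have hs := support_finRotate_of_le hn
  have hx : (finRotate (2 * n)) x ≠ x := by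
    rw [← Perm.mem_support, hs]
    exact Finset.mem_univ _
  have hy : (finRotate (2 * n)) y ≠ y := by
    rw [← Perm.mem_support, hs]
    exact Finset.mem_univ _
  obtain ⟨i, _, _, hi⟩ := (hc.sameCycle hx hy).exists_pow_eq (f := finRotate (2 * n))
  exact ⟨i, hi⟩

theorem step_cases (h : IsLU n a ℓ) (i : Fin (2 * n)) :
    ℓ ((finRotate (2 * n)) i) = ℓ i + 1 ∨ ℓ ((finRotate (2 * n)) i) = ℓ i ∨ ℓ ((finRotate (2 * n)) i) = ℓ i - 1 := by
  have := h.step i
  rw [abs_le] at this
  omega

theorem lab' (h : IsLU n a ℓ) (i : Fin (2 * n)) : ℓ ((finRotate (2 * n)) i) = ℓ (a i) := by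
  have := h.lab (a i)
  rw [(h.gluing i).1] at this
  exact this

theorem exists_order : ∃ m : ℕ, 0 < m ∧ (finRotate (2 * n)) ^ m = 1 :=
  ⟨orderOf (finRotate (2 * n)), orderOf_pos _, pow_orderOf_eq_one _⟩

/-- Every up-step is matched. -/
theorem match_up (h : IsLU n a ℓ) {j : Fin (2 * n)} (hj : ℓ ((finRotate (2 * n)) j) = ℓ j + 1) :
    ∃ i, IsMatch n ℓ j i := by
  classical
  obtain ⟨m, hm, hm1⟩ := exists_order (n := n)
  have hex : ∃ u : ℕ, 1 ≤ u ∧ ℓ (((finRotate (2 * n)) ^ u) j) ≤ ℓ j := ⟨m, hm, by rw [hm1]; simp⟩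
  set u := Nat.find hex with hu
  have hu1 := (Nat.find_spec hex).1
  have hu2 := (Nat.find_spec hex).2
  rw [← hu] at hu1 hu2
  have hmin : ∀ s, 1 ≤ s → s < u → ℓ j + 1 ≤ ℓ (((finRotate (2 * n)) ^ s) j) := by
    intro s hs1 hs2
    have := Nat.find_min hex (m := s) (by rw [← hu]; exact hs2)
    push Not at this
    have := this hs1
    omega
  have hne : u ≠ 1 := by
    intro h1
    rw [h1, pow_one] at hu2
    omega
  obtain ⟨t, ht⟩ : ∃ t, u = t + 1 := ⟨u - 1, by omega⟩
  refine ⟨((finRotate (2 * n)) ^ t) j, t, by omega, rfl, ?_, ?_⟩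
  · have e1 : (finRotate (2 * n)) (((finRotate (2 * n)) ^ t) j) = ((finRotate (2 * n)) ^ u) j := by
      rw [ht, pow_succ', Perm.mul_apply]
    have e2 := hmin t (by omega) (by omega)
    have e3 := step_cases h (((finRotate (2 * n)) ^ t) j)
    rw [e1] at e3 ⊢
    omega
  · intro s hs1 hs2
    exact hmin s hs1 (by omega)

/-- Every down-step is matched. -/
theorem match_down (h : IsLU n a ℓ) {i : Fin (2 * n)} (hi : ℓ ((finRotate (2 * n)) i) = ℓ i - 1) :
    ∃ j, IsMatch n ℓ j i := by
  classical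
  obtain ⟨m, hm, hm1⟩ := exists_order (n := n)
  have hm2 : m ≠ 1 := by
    intro h1
    rw [h1, pow_one] at hm1
    rw [hm1] at hi
    simp only [Perm.coe_one, id_eq] at hi
    omega
  have hinv : ∀ s t : ℕ, s + t = m → (((finRotate (2 * n))⁻¹) ^ t) i = ((finRotate (2 * n)) ^ s) i := by
    intro s t hst
    have : ((finRotate (2 * n))⁻¹) ^ t = (finRotate (2 * n)) ^ s := by
      rw [inv_pow, inv_eq_iff_mul_eq_one, ← pow_add, add_comm, hst, hm1]
    rw [this]
  have hex : ∃ t : ℕ, 1 ≤ t ∧ ℓ ((((finRotate (2 * n))⁻¹) ^ t) i) ≤ ℓ i - 1 := by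
    refine ⟨m - 1, by omega, ?_⟩
    rw [hinv 1 (m - 1) (by omega), pow_one, hi]
  set t := Nat.find hex with ht
  have ht1 := (Nat.find_spec hex).1
  have ht2 := (Nat.find_spec hex).2
  rw [← ht] at ht1 ht2
  have hmin : ∀ s, s < t → ℓ i ≤ ℓ ((((finRotate (2 * n))⁻¹) ^ s) i) := by
    intro s hs2
    rcases Nat.eq_zero_or_pos s with h0 | h0
    · rw [h0]; simp
    · have := Nat.find_min hex (m := s) (by rw [← ht]; exact hs2)
      push Not at this
      have := this h0
      omega
  have hback : ∀ s r : ℕ, s + r = t → ((finRotate (2 * n)) ^ s) ((((finRotate (2 * n))⁻¹) ^ t) i) = (((finRotate (2 * n))⁻¹) ^ r) i := by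
    intro s r hsr
    rw [← hsr, pow_add, Perm.mul_apply, inv_pow _ s]
    exact Equiv.apply_symm_apply ((finRotate (2 * n)) ^ s) _
  have hj : ℓ ((((finRotate (2 * n))⁻¹) ^ t) i) = ℓ i - 1 := by
    have e1 : (finRotate (2 * n)) ((((finRotate (2 * n))⁻¹) ^ t) i) = (((finRotate (2 * n))⁻¹) ^ (t - 1)) i := by
      have := hback 1 (t - 1) (by omega)
      rwa [pow_one] at this
    have e2 := step_cases h ((((finRotate (2 * n))⁻¹) ^ t) i)
    rw [e1] at e2
    have e3 := hmin (t - 1) (by omega)
    omega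
  refine ⟨(((finRotate (2 * n))⁻¹) ^ t) i, t, ht1, ?_, ?_, ?_⟩
  · exact hback t 0 (by omega)
  · omega
  · intro s hs1 hs2
    rw [hback s (t - s) (by omega), hj]
    have := hmin (t - s) (by omega)
    omega

theorem match_isDown (h : IsLU n a ℓ) {j i : Fin (2 * n)} (hm : IsMatch n ℓ j i) :
    ℓ ((finRotate (2 * n)) i) = ℓ i - 1 ∧ ℓ i = ℓ j + 1 := by
  obtain ⟨t, ht1, ht2, ht3, ht4⟩ := hm
  have h1 := ht4 t ht1 le_rfl
  rw [ht2] at h1
  have h2 := step_cases h i
  constructor <;> omega

theorem match_isUp (h : IsLU n a ℓ) {j i : Fin (2 * n)} (hm : IsMatch n ℓ j i) :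
    ℓ ((finRotate (2 * n)) j) = ℓ j + 1 := by
  obtain ⟨t, ht1, ht2, ht3, ht4⟩ := hm
  have h1 := ht4 1 le_rfl ht1
  rw [pow_one] at h1
  have h2 := step_cases h j
  omega

section Closing

variable {φ : Perm (Fin (2 * n) ⊕ Fin (2 * n))}

theorem slab_phi_inl (h : IsLU n a ℓ) (hφ : IsClosing n a ℓ φ) (k : Fin (2 * n)) :
    slab n ℓ (φ (Sum.inl k)) = ℓ k - 1 := by
  obtain ⟨i, rfl⟩ := ((finRotate (2 * n))).surjective k
  rcases step_cases h i with hi | hi | hi
  · rw [hφ.up i hi]
    simp only [slab, Sum.elim_inl]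
    rw [h.lab i, hi]
    ring
  · rw [(hφ.flat i hi).1]
    simp only [slab, Sum.elim_inr]
    rw [hi]
  · obtain ⟨j, hj⟩ := match_down h hi
    rw [(hφ.mtch j i hj).1]
    simp only [slab, Sum.elim_inr]
    obtain ⟨t, _, _, e, _⟩ := hj
    rw [e]

theorem slab_phi_inr (h : IsLU n a ℓ) (hφ : IsClosing n a ℓ φ) (i : Fin (2 * n)) :
    slab n ℓ (φ (Sum.inr i)) = ℓ i := by
  rcases step_cases h i with hi | hi | hi
  · obtain ⟨i', hj⟩ := match_up h hi
    rw [(hφ.mtch i i' hj).2]
    simp only [slab, Sum.elim_inr]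
    have := (match_isDown h hj).2
    omega
  · rw [(hφ.flat i hi).2]
    simp only [slab, Sum.elim_inl]
    rw [h.lab i]
  · rw [hφ.down i hi]
    simp only [slab, Sum.elim_inl]
    rw [h.lab i]

theorem squares (h : IsLU n a ℓ) (hφ : IsClosing n a ℓ φ) : IsSquares φ := by
  have haa : ∀ i, a (a i) = i := fun i => (h.gluing i).1
  have hne : ∀ i, a i ≠ i := fun i => (h.gluing i).2
  have hup : ∀ i, ℓ ((finRotate (2 * n)) i) = ℓ i + 1 → ℓ ((finRotate (2 * n)) (a i)) = ℓ (a i) - 1 := by
    intro i hi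
    have := h.lab i
    have := lab' h i
    omega
  have hdn : ∀ i, ℓ ((finRotate (2 * n)) i) = ℓ i - 1 → ℓ ((finRotate (2 * n)) (a i)) = ℓ (a i) + 1 := by
    intro i hi
    have := h.lab i
    have := lab' h i
    omega
  have hfl : ∀ i, ℓ ((finRotate (2 * n)) i) = ℓ i → ℓ ((finRotate (2 * n)) (a i)) = ℓ (a i) := by
    intro i hi
    have := h.lab i
    have := lab' h i
    omega
  intro d
  rcases d with k | i
  · obtain ⟨i, rfl⟩ := ((finRotate (2 * n))).surjective k
    rcases step_cases h i with hi | hi | hi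
    · obtain ⟨j, hj⟩ := match_down h (hup i hi)
      rw [hφ.up i hi, (hφ.mtch j (a i) hj).1, (hφ.mtch j (a i) hj).2, hφ.down (a i) (hup i hi),
        haa]
      exact ⟨rfl, by simp⟩
    · rw [(hφ.flat i hi).1, (hφ.flat i hi).2, (hφ.flat (a i) (hfl i hi)).1,
        (hφ.flat (a i) (hfl i hi)).2, haa]
      refine ⟨rfl, ?_⟩
      intro hc
      have := Sum.inl_injective hc
      exact hne i (((finRotate (2 * n))).injective this)
    · obtain ⟨j, hj⟩ := match_down h hi
      rw [(hφ.mtch j i hj).1, (hφ.mtch j i hj).2, hφ.down i hi, hφ.up (a i) (hdn i hi), haa]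
      exact ⟨rfl, by simp⟩
  · rcases step_cases h i with hi | hi | hi
    · obtain ⟨i', hj⟩ := match_up h hi
      have hd := (match_isDown h hj).1
      rw [(hφ.mtch i i' hj).2, hφ.down i' hd, hφ.up (a i') (hdn i' hd), haa,
        (hφ.mtch i i' hj).1]
      exact ⟨rfl, by simp⟩
    · rw [(hφ.flat i hi).2, (hφ.flat (a i) (hfl i hi)).1,
        (hφ.flat (a i) (hfl i hi)).2, haa, (hφ.flat i hi).1]
      refine ⟨rfl, ?_⟩
      intro hc
      exact hne i (Sum.inr_injective hc)
    · obtain ⟨j, hj⟩ := match_down h hi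
      rw [hφ.down i hi, hφ.up (a i) (hdn i hi), haa, (hφ.mtch j i hj).1, (hφ.mtch j i hj).2]
      exact ⟨rfl, by simp⟩

theorem rot_inl (k : Fin (2 * n)) : rot φ (swp n) (Sum.inl k) = φ (Sum.inr k) := rfl

theorem rot_inr (k : Fin (2 * n)) : rot φ (swp n) (Sum.inr k) = φ (Sum.inl k) := rfl

/-- Going back along the arcs from corners of equal label. -/
theorem go_back (h : IsLU n a ℓ) (hφ : IsClosing n a ℓ φ) (u : ℕ) :
    ∀ (k m : Fin (2 * n)), ((finRotate (2 * n)) ^ u) m = k → ℓ m < ℓ k →
      ∃ t v : ℕ, v < u ∧ ℓ (((finRotate (2 * n)) ^ (v + 1)) m) = ℓ (((finRotate (2 * n)) ^ v) m) + 1 ∧ ℓ (((finRotate (2 * n)) ^ (v + 1)) m) = ℓ k ∧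
        ((rot φ (swp n)) ^ t) (Sum.inr k) = Sum.inr (((finRotate (2 * n)) ^ (v + 1)) m) ∧
        ∀ s ≤ t, ∃ j, ((rot φ (swp n)) ^ s) (Sum.inr k) = Sum.inr j := by
  induction u using Nat.strong_induction_on with
  | _ u ih =>
    intro k m hk hlt
    have hu : u ≠ 0 := by
      rintro rfl
      rw [pow_zero, Perm.one_apply] at hk
      rw [hk] at hlt
      exact lt_irrefl _ hlt
    obtain ⟨u', rfl⟩ : ∃ u', u = u' + 1 := ⟨u - 1, by omega⟩
    have hki : (finRotate (2 * n)) (((finRotate (2 * n)) ^ u') m) = k := by rw [← hk, pow_succ', Perm.mul_apply]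
    set i := ((finRotate (2 * n)) ^ u') m with hi_def
    -- one step
    have key : ∀ (k' : Fin (2 * n)) (w : ℕ), w < u' + 1 → ((finRotate (2 * n)) ^ w) m = k' → ℓ k' = ℓ k →
        rot φ (swp n) (Sum.inr k) = Sum.inr k' →
        ∃ t v : ℕ, v < u' + 1 ∧ ℓ (((finRotate (2 * n)) ^ (v + 1)) m) = ℓ (((finRotate (2 * n)) ^ v) m) + 1 ∧
          ℓ (((finRotate (2 * n)) ^ (v + 1)) m) = ℓ k ∧
        ((rot φ (swp n)) ^ t) (Sum.inr k) = Sum.inr (((finRotate (2 * n)) ^ (v + 1)) m) ∧
        ∀ s ≤ t, ∃ j, ((rot φ (swp n)) ^ s) (Sum.inr k) = Sum.inr j := by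
      intro k' w hw hwk hlk hr
      obtain ⟨t, v, hv, h1, h2, h3, h4⟩ := ih w hw k' m hwk (by omega)
      refine ⟨t + 1, v, by omega, h1, by omega, ?_, ?_⟩
      · rw [pow_succ, Perm.mul_apply, hr, h3]
      · intro s hs
        rcases Nat.eq_zero_or_pos s with h0 | h0
        · exact ⟨k, by rw [h0]; rfl⟩
        · obtain ⟨s', rfl⟩ : ∃ s', s = s' + 1 := ⟨s - 1, by omega⟩
          obtain ⟨j, hj⟩ := h4 s' (by omega)
          exact ⟨j, by rw [pow_succ, Perm.mul_apply, hr, hj]⟩
    rcases step_cases h i with hi | hi | hi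
    · -- up
      refine ⟨0, u', by omega, ?_, ?_, ?_, ?_⟩
      · rw [hk, ← hki, ← hi_def, hi]
      · rw [hk]
      · rw [hk]; rfl
      · intro s hs
        obtain rfl : s = 0 := by omega
        exact ⟨k, rfl⟩
    · -- flat
      refine key i u' (by omega) rfl (by rw [← hki, hi]) ?_
      rw [rot_inr, ← hki]
      exact (hφ.flat i hi).1
    · -- down
      obtain ⟨j, hj⟩ := match_down h hi
      have hr : rot φ (swp n) (Sum.inr k) = Sum.inr j := by
        rw [rot_inr, ← hki]
        exact (hφ.mtch j i hj).1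
      obtain ⟨t, ht1, ht2, ht3, ht4⟩ := hj
      rw [hki] at ht3
      rcases le_or_gt t u' with htu | htu
      · refine key j (u' - t) (by omega) ?_ ht3.symm hr
        have : ((finRotate (2 * n)) ^ t) (((finRotate (2 * n)) ^ (u' - t)) m) = ((finRotate (2 * n)) ^ t) j := by
          rw [ht2, ← Perm.mul_apply, ← pow_add, hi_def]
          congr 2
          omega
        exact ((finRotate (2 * n)) ^ t).injective this
      · exfalso
        have : ((finRotate (2 * n)) ^ u') (((finRotate (2 * n)) ^ (t - u')) j) = ((finRotate (2 * n)) ^ u') m := by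
          rw [← hi_def, ← ht2, ← Perm.mul_apply, ← pow_add]
          congr 2
          omega
        have := ((finRotate (2 * n)) ^ u').injective this
        have h5 := ht4 (t - u') (by omega) (by omega)
        rw [this] at h5
        omega

/-- First return of the rotation to the `inl`'s. -/
theorem first_return (h : IsLU n a ℓ) (hφ : IsClosing n a ℓ φ) (k : Fin (2 * n)) :
    ∃ t : ℕ, ((rot φ (swp n)) ^ (t + 1)) (Sum.inl k) = Sum.inl ((finRotate (2 * n)) (a k)) ∧
      ∀ s, 1 ≤ s → s ≤ t → ∃ j, ((rot φ (swp n)) ^ s) (Sum.inl k) = Sum.inr j := by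
  rcases step_cases h k with hk | hk | hk
  · obtain ⟨i', hm⟩ := match_up h hk
    have hr : rot φ (swp n) (Sum.inl k) = Sum.inr i' := by
      rw [rot_inl]; exact (hφ.mtch k i' hm).2
    have hi' := (match_isDown h hm).2
    obtain ⟨T, hT1, hT2, hT3, hT4⟩ := hm
    obtain ⟨t, v, hv, h1, h2, h3, h4⟩ := go_back h hφ T i' k hT2 (by omega)
    have hv0 : v = 0 := by
      by_contra hv0
      have := hT4 v (by omega) (by omega)
      omega
    subst hv0
    rw [zero_add, pow_one] at h3
    refine ⟨t + 1, ?_, ?_⟩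
    · have e : ((rot φ (swp n)) ^ (t + 1 + 1)) (Sum.inl k) =
          rot φ (swp n) (((rot φ (swp n)) ^ t) (rot φ (swp n) (Sum.inl k))) := by
        rw [pow_succ', pow_succ, Perm.mul_apply, Perm.mul_apply]
      rw [e, hr, h3, rot_inr]
      exact hφ.up k hk
    · intro s hs1 hs2
      obtain ⟨s', rfl⟩ : ∃ s', s = s' + 1 := ⟨s - 1, by omega⟩
      obtain ⟨j, hj⟩ := h4 s' (by omega)
      exact ⟨j, by rw [pow_succ, Perm.mul_apply, hr, hj]⟩
  · refine ⟨0, ?_, by intro s hs1 hs2; omega⟩
    rw [zero_add, pow_one, rot_inl]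
    exact (hφ.flat k hk).2
  · refine ⟨0, ?_, by intro s hs1 hs2; omega⟩
    rw [zero_add, pow_one, rot_inl]
    exact hφ.down k hk

/-- The arcs to the root vertex form one cycle of the rotation. -/
theorem root_cycle (h : IsLU n a ℓ) (hφ : IsClosing n a ℓ φ) {k0 : Fin (2 * n)}
    (hk0 : ℓ k0 = 1) (s : ℕ) : ∀ k, ((finRotate (2 * n)) ^ s) k0 = k → ℓ k = 1 →
      (rot φ (swp n)).SameCycle (Sum.inr k0) (Sum.inr k) := by
  induction s using Nat.strong_induction_on with
  | _ s ih =>
    intro k hk hlk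
    rcases Nat.eq_zero_or_pos s with h0 | h0
    · rw [h0, pow_zero, Perm.one_apply] at hk
      rw [hk]
    · obtain ⟨u', rfl⟩ : ∃ s', s = s' + 1 := ⟨s - 1, by omega⟩
      have hki : (finRotate (2 * n)) (((finRotate (2 * n)) ^ u') k0) = k := by rw [← hk, pow_succ', Perm.mul_apply]
      set i := ((finRotate (2 * n)) ^ u') k0 with hi_def
      have key : ∀ (k' : Fin (2 * n)) (w : ℕ), w < u' + 1 → ((finRotate (2 * n)) ^ w) k0 = k' → ℓ k' = ℓ k →
          rot φ (swp n) (Sum.inr k) = Sum.inr k' →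
          (rot φ (swp n)).SameCycle (Sum.inr k0) (Sum.inr k) := by
        intro k' w hw hwk hlk' hr
        have h1 := ih w hw k' hwk (by omega)
        rw [← hr, Perm.sameCycle_apply_right] at h1
        exact h1
      rcases step_cases h i with hi | hi | hi
      · exfalso
        have := h.pos i
        rw [hki] at hi
        omega
      · refine key i u' (by omega) rfl (by rw [← hki, hi]) ?_
        rw [rot_inr, ← hki]
        exact (hφ.flat i hi).1
      · obtain ⟨j, hj⟩ := match_down h hi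
        have hr : rot φ (swp n) (Sum.inr k) = Sum.inr j := by
          rw [rot_inr, ← hki]
          exact (hφ.mtch j i hj).1
        obtain ⟨t, ht1, ht2, ht3, ht4⟩ := hj
        rw [hki] at ht3
        rcases le_or_gt t u' with htu | htu
        · refine key j (u' - t) (by omega) ?_ ht3.symm hr
          have : ((finRotate (2 * n)) ^ t) (((finRotate (2 * n)) ^ (u' - t)) k0) = ((finRotate (2 * n)) ^ t) j := by
            rw [ht2, ← Perm.mul_apply, ← pow_add, hi_def]
            congr 2
            omega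
          exact ((finRotate (2 * n)) ^ t).injective this
        · exfalso
          have : ((finRotate (2 * n)) ^ u') (((finRotate (2 * n)) ^ (t - u')) j) = ((finRotate (2 * n)) ^ u') k0 := by
            rw [← hi_def, ← ht2, ← Perm.mul_apply, ← pow_add]
            congr 2
            omega
          have := ((finRotate (2 * n)) ^ u').injective this
          have h5 := ht4 (t - u') (by omega) (by omega)
          rw [this] at h5
          omega

theorem root_invariant (h : IsLU n a ℓ) (hφ : IsClosing n a ℓ φ) {k : Fin (2 * n)}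
    (hk : ℓ k = 1) : ∃ k', ℓ k' = 1 ∧ rot φ (swp n) (Sum.inr k) = Sum.inr k' := by
  obtain ⟨i, rfl⟩ := ((finRotate (2 * n))).surjective k
  rw [rot_inr]
  rcases step_cases h i with hi | hi | hi
  · exfalso
    have := h.pos i
    omega
  · exact ⟨i, by omega, (hφ.flat i hi).1⟩
  · obtain ⟨j, hj⟩ := match_down h hi
    refine ⟨j, ?_, (hφ.mtch j i hj).1⟩
    obtain ⟨t, _, _, e, _⟩ := hj
    omega

theorem root_same (h : IsLU n a ℓ) (hφ : IsClosing n a ℓ φ) {k0 : Fin (2 * n)}
    (hk0 : ℓ k0 = 1) (d : Fin (2 * n) ⊕ Fin (2 * n)) :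
    (rot φ (swp n)).SameCycle (Sum.inr k0) d ↔ ∃ k, ℓ k = 1 ∧ d = Sum.inr k := by
  constructor
  · intro hs
    obtain ⟨i, -, hi⟩ := hs.exists_pow_eq'
    have : ∀ i : ℕ, ∃ k, ℓ k = 1 ∧ ((rot φ (swp n)) ^ i) (Sum.inr k0) = Sum.inr k := by
      intro i
      induction i with
      | zero => exact ⟨k0, hk0, rfl⟩
      | succ i ih =>
        obtain ⟨k, hk, e⟩ := ih
        obtain ⟨k', hk', e'⟩ := root_invariant h hφ hk
        exact ⟨k', hk', by rw [pow_succ', Perm.mul_apply, e, e']⟩
    obtain ⟨k, hk, e⟩ := this i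
    exact ⟨k, hk, by rw [← hi, e]⟩
  · rintro ⟨k, hk, rfl⟩
    obtain ⟨s, hs⟩ := trans_rot k0 k
    exact root_cycle h hφ hk0 s k hs hk

/-- Every other vertex contains an `inl`. -/
theorem exists_inl (h : IsLU n a ℓ) (hφ : IsClosing n a ℓ φ)
    (d : Fin (2 * n) ⊕ Fin (2 * n)) (hd : ∀ k, ℓ k = 1 → d ≠ Sum.inr k) :
    ∃ k, (rot φ (swp n)).SameCycle d (Sum.inl k) := by
  rcases d with k | k
  · exact ⟨k, Perm.SameCycle.refl _ _⟩
  · have hk1 : ℓ k ≠ 1 := fun hk => hd k hk rfl
    have hk2 := h.pos k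
    obtain ⟨k1, hk1'⟩ := h.one
    obtain ⟨u, hu⟩ := trans_rot k1 k
    obtain ⟨t, v, hv, h1, h2, h3, h4⟩ := go_back h hφ u k k1 hu (by omega)
    refine ⟨(finRotate (2 * n)) (a (((finRotate (2 * n)) ^ v) k1)), ((t + 1 : ℕ) : ℤ), ?_⟩
    rw [zpow_natCast, pow_succ', Perm.mul_apply, h3, rot_inr, pow_succ', Perm.mul_apply]
    refine hφ.up _ ?_
    rw [pow_succ', Perm.mul_apply] at h1
    exact h1

theorem slab_nonneg (h : IsLU n a ℓ) (d : Fin (2 * n) ⊕ Fin (2 * n)) : 0 ≤ slab n ℓ d := by
  rcases d with k | k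
  · have := h.pos k
    simp only [slab, Sum.elim_inl]; omega
  · have := h.pos k
    simp only [slab, Sum.elim_inr]; omega

theorem slab_rot (h : IsLU n a ℓ) (hφ : IsClosing n a ℓ φ)
    (d : Fin (2 * n) ⊕ Fin (2 * n)) : slab n ℓ (rot φ (swp n) d) = slab n ℓ d := by
  rcases d with k | k
  · rw [rot_inl, slab_phi_inr h hφ]; rfl
  · rw [rot_inr, slab_phi_inl h hφ]; rfl

theorem slab_same (h : IsLU n a ℓ) (hφ : IsClosing n a ℓ φ)
    {d e : Fin (2 * n) ⊕ Fin (2 * n)} (hde : (rot φ (swp n)).SameCycle d e) :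
    slab n ℓ e = slab n ℓ d := by
  obtain ⟨i, -, hi⟩ := hde.exists_pow_eq'
  rw [← hi]
  clear hi
  induction i with
  | zero => rfl
  | succ i ih =>
    rw [pow_succ', Perm.mul_apply, slab_rot h hφ, ih]

end Closing

/-- The reachability relation. -/
abbrev Rch {D : Type} (φ α : Perm D) (d e : D) : Prop :=
  Relation.ReflTransGen (fun x y => y = φ x ∨ y = α x) d e

theorem rch_phi {D : Type} (φ α : Perm D) (d : D) : Rch φ α d (φ d) :=
  Relation.ReflTransGen.single (Or.inl rfl)

theorem rch_alpha {D : Type} (φ α : Perm D) (d : D) : Rch φ α d (α d) :=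
  Relation.ReflTransGen.single (Or.inr rfl)

theorem rch_rot {D : Type} (φ α : Perm D) (d : D) : Rch φ α d (rot φ α d) :=
  (rch_alpha φ α d).trans (rch_phi φ α _)

theorem rch_same {D : Type} [Finite D] (φ α : Perm D) {d e : D}
    (h : (rot φ α).SameCycle d e) : Rch φ α d e := by
  have := Fintype.ofFinite D
  classical
  obtain ⟨i, -, hi⟩ := h.exists_pow_eq'
  rw [← hi]
  clear hi
  induction i with
  | zero => exact Relation.ReflTransGen.refl
  | succ i ih =>
    rw [pow_succ', Perm.mul_apply]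
    exact ih.trans (rch_rot φ α _)

theorem rch_symm {D : Type} {φ α : Perm D} (hφ : IsSquares φ) (hα : IsGluing α) {d e : D}
    (h : Rch φ α d e) : Rch φ α e d := by
  induction h with
  | refl => exact Relation.ReflTransGen.refl
  | @tail b c _ hbc ih =>
    refine Relation.ReflTransGen.trans ?_ ih
    rcases hbc with rfl | rfl
    · have h1 : Rch φ α (φ b) (φ (φ (φ (φ b)))) :=
        ((rch_phi φ α _).trans (rch_phi φ α _)).trans (rch_phi φ α _)
      rwa [(hφ b).1] at h1
    · have h1 : Rch φ α (α b) (α (α b)) := rch_alpha φ α _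
      rwa [(hα b).1] at h1

theorem swp_gluing (n : ℕ) : IsGluing (swp n) := by
  intro d
  rcases d with k | k
  · exact ⟨rfl, by simp [swp]⟩
  · exact ⟨rfl, by simp [swp]⟩

theorem conn {φ : Perm (Fin (2 * n) ⊕ Fin (2 * n))} (h : IsLU n a ℓ)
    (hφ : IsClosing n a ℓ φ) : Conn φ (swp n) := by
  obtain ⟨k0, hk0⟩ := h.one
  have key : ∀ (v : ℕ) (d : Fin (2 * n) ⊕ Fin (2 * n)), slab n ℓ d = v →
      Rch φ (swp n) d (Sum.inr k0) := by
    intro v
    induction v with
    | zero =>
      intro d hd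
      refine rch_same φ (swp n) (Perm.SameCycle.symm ?_)
      rw [root_same h hφ hk0]
      rcases d with k | k
      · exfalso
        have := h.pos k
        simp only [slab, Sum.elim_inl] at hd
        push_cast at hd
        omega
      · refine ⟨k, ?_, rfl⟩
        simp only [slab, Sum.elim_inr] at hd
        push_cast at hd
        omega
    | succ v ih =>
      intro d hd
      obtain ⟨k, hk⟩ := exists_inl h hφ d (by
        rintro k hk rfl
        simp only [slab, Sum.elim_inr] at hd
        push_cast at hd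
        omega)
      have h1 := slab_same h hφ hk
      refine (rch_same φ (swp n) hk).trans (Relation.ReflTransGen.head (Or.inl rfl) (ih _ ?_))
      rw [slab_phi_inl h hφ]
      simp only [slab, Sum.elim_inl] at h1
      change ℓ k = slab n ℓ d at h1
      rw [hd] at h1
      push_cast at h1
      omega
  intro d e
  have hd := key (slab n ℓ d).toNat d (by rw [Int.toNat_of_nonneg (slab_nonneg h d)])
  have he := key (slab n ℓ e).toNat e (by rw [Int.toNat_of_nonneg (slab_nonneg h e)])
  exact hd.trans (rch_symm (squares h hφ) (swp_gluing n) he)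

end CmsPLAux

open CmsPLAux in
theorem closing_isPL {n : ℕ} {a : Perm (Fin (2 * n))} {ℓ : Fin (2 * n) → ℤ}
    (h : IsLU n a ℓ) {φ : Perm (Fin (2 * n) ⊕ Fin (2 * n))} (hφ : IsClosing n a ℓ φ) :
    IsPL φ (swp n) (slab n ℓ) where
  squares := squares h hφ
  gluing := swp_gluing n
  conn := conn h hφ
  lab := slab_rot h hφ
  step := by
    intro d
    rcases d with k | k
    · right; rw [slab_phi_inl h hφ]; rfl
    · left; rw [slab_phi_inr h hφ]; simp only [slab, Sum.elim_inr]; ring
  root := by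
    obtain ⟨k0, hk0⟩ := h.one
    refine ⟨Sum.inr k0, by simp only [slab, Sum.elim_inr]; omega, ?_, ?_⟩
    · intro d hd
      rw [SameVertex, root_same h hφ hk0] at hd
      obtain ⟨k, hk, rfl⟩ := hd
      rw [slab_phi_inr h hφ]; simp only [slab, Sum.elim_inr]; ring
    · intro d hd
      rw [SameVertex, root_same h hφ hk0] at hd
      push Not at hd
      obtain ⟨k, hk⟩ := exists_inl h hφ d hd
      refine ⟨Sum.inl k, hk, ?_⟩
      rw [slab_phi_inl h hφ]; rfl

open CmsPLAux in
theorem closing_numVertices {n : ℕ} {a : Perm (Fin (2 * n))} {ℓ : Fin (2 * n) → ℤ}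
    (h : IsLU n a ℓ) {φ : Perm (Fin (2 * n) ⊕ Fin (2 * n))} (hφ : IsClosing n a ℓ φ) :
    numVertices φ (swp n) = ncyc a + 1 := by
  classical
  obtain ⟨k0, hk0⟩ := h.one
  set R := rot φ (swp n) with hR
  set g := finRotate (2 * n) with hg
  -- conjugation
  have hconj : ∀ x y, (g * a).SameCycle (g x) (g y) ↔ (sig a).SameCycle x y := by
    intro x y
    have : g * a = g * (sig a) * g⁻¹ := by
      rw [sig, ← hg]; group
    rw [this, Perm.sameCycle_conj]
    simp
  -- corners of the same vertex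
  have h1 : ∀ k, R.SameCycle (Sum.inl k) (Sum.inl ((g * a) k)) := by
    intro k
    obtain ⟨t, ht, _⟩ := first_return h hφ k
    exact ⟨((t + 1 : ℕ) : ℤ), by rw [zpow_natCast]; exact ht⟩
  have h2 : ∀ k k', (g * a).SameCycle k k' → R.SameCycle (Sum.inl k) (Sum.inl k') := by
    intro k k' hkk
    obtain ⟨i, -, hi⟩ := hkk.exists_pow_eq'
    rw [← hi]
    clear hi
    induction i with
    | zero => exact Perm.SameCycle.refl _ _
    | succ i ih =>
      rw [pow_succ', Perm.mul_apply]
      exact ih.trans (h1 _)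
  have h3 : ∀ (m : ℕ) (k k' : Fin (2 * n)), (R ^ m) (Sum.inl k) = Sum.inl k' →
      (g * a).SameCycle k k' := by
    intro m
    induction m using Nat.strong_induction_on with
    | _ m ih =>
      intro k k' hm
      rcases Nat.eq_zero_or_pos m with h0 | h0
      · rw [h0, pow_zero, Perm.one_apply] at hm
        rw [Sum.inl_injective hm]
      · obtain ⟨t, ht1, ht2⟩ := first_return h hφ k
        have hmt : t + 1 ≤ m := by
          by_contra hc
          obtain ⟨j, hj⟩ := ht2 m h0 (by omega)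
          rw [← hR, hm] at hj
          exact Sum.inl_ne_inr hj
        obtain ⟨r, rfl⟩ : ∃ r, m = r + (t + 1) := ⟨m - (t + 1), by omega⟩
        rw [pow_add, Perm.mul_apply] at hm
        rw [← hR] at ht1
        rw [ht1] at hm
        have := ih r (by omega) _ _ hm
        have h4 : (g * a).SameCycle k (g (a k)) := ⟨1, by simp⟩
        exact h4.trans this
  have h3' : ∀ k k' : Fin (2 * n), R.SameCycle (Sum.inl k) (Sum.inl k') ↔
      (g * a).SameCycle k k' := by
    intro k k'
    constructor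
    · intro hs
      obtain ⟨i, -, hi⟩ := hs.exists_pow_eq'
      exact h3 i k k' hi
    · exact h2 k k'
  -- the bijection
  let F : Option (Quotient (cyc a)) → Quotient (vertexSetoid φ (swp n)) := fun o =>
    match o with
    | none => Quotient.mk _ (Sum.inr k0)
    | some c => Quotient.lift (fun x => Quotient.mk (vertexSetoid φ (swp n)) (Sum.inl (g x)))
        (by
          intro x y hxy
          apply Quotient.sound
          change (rot φ (swp n)).SameCycle _ _
          rw [← hR, h3', hconj]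
          exact hxy) c
  have hF : Function.Bijective F := by
    constructor
    · rintro (_ | c) (_ | c') he
      · rfl
      · exfalso
        induction c' using Quotient.inductionOn with
        | _ x =>
          have : R.SameCycle (Sum.inr k0) (Sum.inl (g x)) := Quotient.exact he
          rw [hR, root_same h hφ hk0] at this
          obtain ⟨k, _, hk⟩ := this
          exact Sum.inl_ne_inr hk
      · exfalso
        induction c using Quotient.inductionOn with
        | _ x =>
          have : R.SameCycle (Sum.inl (g x)) (Sum.inr k0) := Quotient.exact he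
          have := this.symm
          rw [hR, root_same h hφ hk0] at this
          obtain ⟨k, _, hk⟩ := this
          exact Sum.inl_ne_inr hk
      · induction c using Quotient.inductionOn with
        | _ x =>
          induction c' using Quotient.inductionOn with
          | _ y =>
            have : R.SameCycle (Sum.inl (g x)) (Sum.inl (g y)) := Quotient.exact he
            rw [h3', hconj] at this
            congr 1
            exact Quotient.sound this
    · intro q
      induction q using Quotient.inductionOn with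
      | _ d =>
        by_cases hd : R.SameCycle (Sum.inr k0) d
        · exact ⟨none, Quotient.sound hd⟩
        · rw [hR, root_same h hφ hk0] at hd
          push Not at hd
          obtain ⟨k, hk⟩ := exists_inl h hφ d hd
          obtain ⟨x, rfl⟩ := g.surjective k
          exact ⟨some (Quotient.mk _ x), Quotient.sound hk.symm⟩
  rw [numVertices, ncyc, ← Nat.card_congr (Equiv.ofBijective F hF), Finite.card_option]

end Pool.Agent.Syst
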