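import Pool.Agent.Work.MP_e76ef6d3_pr.Defs2

/-!
# Relabelling invariance and counting of isomorphism classes (module R)
-/

namespace Pool.Agent.Syst

open Equiv Filter Topology

section Relabel

variable {D D' : Type}

theorem rot_relabel (e : D ≃ D') (φ α : Perm D) (φ' α' : Perm D')
    (hφ : ∀ d, φ' (e d) = e (φ d)) (hα : ∀ d, α' (e d) = e (α d)) (d : D) :
    rot φ' α' (e d) = e (rot φ α d) := by
  simp only [rot, Perm.mul_apply, hφ, hα]

theorem sameVertex_relabel (e : D ≃ D') (φ α : Perm D) (φ' α' : Perm D')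
    (hφ : ∀ d, φ' (e d) = e (φ d)) (hα : ∀ d, α' (e d) = e (α d)) (x y : D) :
    SameVertex φ' α' (e x) (e y) ↔ SameVertex φ α x y := by
  have h : rot φ' α' = e.permCongrHom (rot φ α) := by
    ext z
    obtain ⟨d, rfl⟩ := e.surjective z
    rw [rot_relabel e φ α φ' α' hφ hα d]
    simp [Equiv.permCongrHom]
  have h2 : ∀ i : ℤ, ((rot φ' α') ^ i) (e x) = e (((rot φ α) ^ i) x) := by
    intro i
    rw [h, ← map_zpow]
    simp [Equiv.permCongrHom]
  unfold SameVertex Perm.SameCycle
  constructor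
  · rintro ⟨i, hi⟩
    exact ⟨i, e.injective (by rw [← h2, hi])⟩
  · rintro ⟨i, hi⟩
    exact ⟨i, by rw [h2, hi]⟩

theorem symm_comm (e : D ≃ D') (φ : Perm D) (φ' : Perm D')
    (hφ : ∀ d, φ' (e d) = e (φ d)) (d : D') : φ (e.symm d) = e.symm (φ' d) := by
  obtain ⟨x, rfl⟩ := e.surjective d
  rw [hφ, e.symm_apply_apply, e.symm_apply_apply]

theorem isClosedWalk_relabel (e : D ≃ D') (φ α : Perm D) (φ' α' : Perm D')
    (hφ : ∀ d, φ' (e d) = e (φ d)) (hα : ∀ d, α' (e d) = e (α d)) (w : Cycle D) :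
    IsClosedWalk φ' α' (w.map e) ↔ IsClosedWalk φ α w := by
  unfold IsClosedWalk
  rw [Cycle.chain_map]
  have : (fun a b => SameVertex φ' α' (φ' (e a)) (e b)) =
      fun d d' => SameVertex φ α (φ d) d' := by
    funext a b
    rw [hφ, sameVertex_relabel e φ α φ' α' hφ hα]
  rw [this]

theorem elemMove_relabel (e : D ≃ D') (φ α : Perm D) (φ' α' : Perm D')
    (hφ : ∀ d, φ' (e d) = e (φ d)) (hα : ∀ d, α' (e d) = e (α d)) (w w' : Cycle D)
    (h : ElemMove φ α w w') : ElemMove φ' α' (w.map e) (w'.map e) := by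
  obtain ⟨h1, h2, l, d, hl, h3⟩ := h
  refine ⟨(isClosedWalk_relabel e φ α φ' α' hφ hα w).2 h1,
    (isClosedWalk_relabel e φ α φ' α' hφ hα w').2 h2, l.map e, e d, ?_, ?_⟩
  · rw [hl]; rfl
  · rcases h3 with h3 | h3
    · left
      rw [h3]
      simp [Cycle.map_coe, hα]
    · right
      rw [h3]
      simp [Cycle.map_coe, hφ]

theorem contractible_relabel_mp (e : D ≃ D') (φ α : Perm D) (φ' α' : Perm D')
    (hφ : ∀ d, φ' (e d) = e (φ d)) (hα : ∀ d, α' (e d) = e (α d)) (w : Cycle D)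
    (h : Contractible φ α w) : Contractible φ' α' (w.map e) := by
  unfold Contractible at *
  have key : ∀ w w' : Cycle D, Relation.EqvGen (ElemMove φ α) w w' →
      Relation.EqvGen (ElemMove φ' α') (w.map e) (w'.map e) := by
    intro w w' h
    induction h with
    | rel x y h => exact Relation.EqvGen.rel _ _ (elemMove_relabel e φ α φ' α' hφ hα x y h)
    | refl x => exact Relation.EqvGen.refl _
    | symm x y _ ih => exact Relation.EqvGen.symm _ _ ih
    | trans x y z _ _ ih1 ih2 => exact Relation.EqvGen.trans _ _ _ ih1 ih2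
  simpa using key w Cycle.nil h

theorem map_map_symm (e : D ≃ D') (w : Cycle D) : (w.map e).map e.symm = w := by
  induction w using Quotient.inductionOn' with
  | h l =>
    show ((l : Cycle D).map e).map e.symm = (l : Cycle D)
    simp [Cycle.map_coe]

theorem contractible_relabel {D D' : Type} (e : D ≃ D') (φ α : Perm D) (φ' α' : Perm D')
    (hφ : ∀ d, φ' (e d) = e (φ d)) (hα : ∀ d, α' (e d) = e (α d)) (w : Cycle D) :
    Contractible φ' α' (w.map e) ↔ Contractible φ α w := by
  constructor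
  · intro h
    have := contractible_relabel_mp e.symm φ' α' φ α (symm_comm e φ φ' hφ)
      (symm_comm e α α' hα) _ h
    rwa [map_map_symm] at this
  · exact contractible_relabel_mp e φ α φ' α' hφ hα w

theorem isCycle_relabel_mp (e : D ≃ D') (φ α : Perm D) (φ' α' : Perm D')
    (hφ : ∀ d, φ' (e d) = e (φ d)) (hα : ∀ d, α' (e d) = e (α d)) (w : List D)
    (h : IsCycle φ α w) : IsCycle φ' α' (w.map e) where
  ne := by simpa using h.ne
  closed := (isClosedWalk_relabel e φ α φ' α' hφ hα (w : Cycle D)).2 h.closed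
  simple := by
    rw [List.pairwise_map]
    refine h.simple.imp ?_
    intro a b hab hs
    exact hab ((sameVertex_relabel e φ α φ' α' hφ hα a b).1 hs)
  noback := by
    intro d hd hd'
    obtain ⟨x, hx, rfl⟩ := List.mem_map.1 hd
    obtain ⟨y, hy, hy'⟩ := List.mem_map.1 hd'
    rw [hα] at hy'
    have := e.injective hy'
    subst this
    exact h.noback x hx hy

theorem isCycle_relabel {D D' : Type} (e : D ≃ D') (φ α : Perm D) (φ' α' : Perm D')
    (hφ : ∀ d, φ' (e d) = e (φ d)) (hα : ∀ d, α' (e d) = e (α d)) (w : List D) :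
    IsCycle φ' α' (w.map e) ↔ IsCycle φ α w := by
  constructor
  · intro h
    have := isCycle_relabel_mp e.symm φ' α' φ α (symm_comm e φ φ' hφ)
      (symm_comm e α α' hα) _ h
    simpa using this
  · exact isCycle_relabel_mp e φ α φ' α' hφ hα w

theorem syst_relabel_le {D D' : Type} (e : D ≃ D') (φ α : Perm D) (φ' α' : Perm D')
    (hφ : ∀ d, φ' (e d) = e (φ d)) (hα : ∀ d, α' (e d) = e (α d)) :
    syst φ' α' ≤ syst φ α := by
  unfold syst
  refine le_iInf fun w => ?_
  refine (iInf_le _ (⟨w.1.map e, (isCycle_relabel e φ α φ' α' hφ hα w.1).2 w.2.1, fun h =>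
    w.2.2 ((contractible_relabel e φ α φ' α' hφ hα (w.1 : Cycle D)).1 h)⟩ :
      {w : List D' // IsCycle φ' α' w ∧ ¬ Contractible φ' α' (w : Cycle D')})).trans ?_
  simp

theorem syst_relabel {D D' : Type} (e : D ≃ D') (φ α : Perm D) (φ' α' : Perm D')
    (hφ : ∀ d, φ' (e d) = e (φ d)) (hα : ∀ d, α' (e d) = e (α d)) :
    syst φ' α' = syst φ α :=
  le_antisymm (syst_relabel_le e φ α φ' α' hφ hα)
    (syst_relabel_le e.symm φ' α' φ α (symm_comm e φ φ' hφ) (symm_comm e α α' hα))

theorem numVertices_relabel {D D' : Type} (e : D ≃ D') (φ α : Perm D) (φ' α' : Perm D')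
    (hφ : ∀ d, φ' (e d) = e (φ d)) (hα : ∀ d, α' (e d) = e (α d)) :
    numVertices φ' α' = numVertices φ α := by
  unfold numVertices
  refine Nat.card_congr (Quotient.congr e ?_).symm
  intro a b
  exact (sameVertex_relabel e φ α φ' α' hφ hα a b).symm

end Relabel

/-! ### isomorphism classes -/

theorem isBipQuad_conj {n g : ℕ} {φ α : Perm (Fin (4 * n))} (h : IsBipQuad n g φ α)
    (π : Perm (Fin (4 * n))) : IsBipQuad n g (π * φ * π⁻¹) (π * α * π⁻¹) := by
  have hφ : ∀ d, (π * φ * π⁻¹) (π d) = π (φ d) := by intro d; simp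
  have hα : ∀ d, (π * α * π⁻¹) (π d) = π (α d) := by intro d; simp
  refine ⟨?_, ?_, ?_, ?_, ?_⟩
  · intro d
    obtain ⟨d, rfl⟩ := π.surjective d
    simp only [hφ]
    exact ⟨by rw [(h.squares d).1], fun h' => (h.squares d).2 (π.injective h')⟩
  · intro d
    obtain ⟨d, rfl⟩ := π.surjective d
    simp only [hα]
    exact ⟨by rw [(h.gluing d).1], fun h' => (h.gluing d).2 (π.injective h')⟩
  · intro d e
    obtain ⟨d, rfl⟩ := π.surjective d
    obtain ⟨e, rfl⟩ := π.surjective e
    have hc := h.conn d e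
    induction hc with
    | refl => exact Relation.ReflTransGen.refl
    | tail _ hbc ih =>
      refine ih.tail ?_
      rcases hbc with hab | hab
      · left; rw [hφ, hab]
      · right; rw [hα, hab]
  · obtain ⟨c, hc1, hc2⟩ := h.bip
    refine ⟨fun d => c (π⁻¹ d), ?_, ?_⟩
    · intro d
      obtain ⟨d, rfl⟩ := π.surjective d
      have : rot (π * φ * π⁻¹) (π * α * π⁻¹) (π d) = π (rot φ α d) :=
        rot_relabel π φ α _ _ hφ hα d
      simp only [this]
      have h2 : ∀ z, π⁻¹ (π z) = z := fun z => by simp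
      rw [h2, h2]
      exact hc1 d
    · intro d
      obtain ⟨d, rfl⟩ := π.surjective d
      rw [hφ]
      have h2 : ∀ z, π⁻¹ (π z) = z := fun z => by simp
      show c (π⁻¹ (π (φ d))) ≠ c (π⁻¹ (π d))
      rw [h2, h2]
      exact hc2 d
  · rw [numVertices_relabel π φ α _ _ hφ hα]
    exact h.genus

/-- relabelling -/
def act {n g : ℕ} (π : Perm (Fin (4 * n))) (x : Lab n g) : Lab n g :=
  ⟨(π * x.1.1 * π⁻¹, π * x.1.2.1 * π⁻¹, π x.1.2.2), isBipQuad_conj x.2 π⟩

/-- the same distinguished edge with the other orientation -/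
def flip {n g : ℕ} (x : Lab n g) : Lab n g :=
  ⟨(x.1.1, x.1.2.1, x.1.2.1 x.1.2.2), x.2⟩

theorem labIso_equivalence (n g : ℕ) : Equivalence (@LabIso n g) := by
  refine ⟨?_, ?_, ?_⟩
  · intro x
    exact ⟨1, by simp, by simp, Or.inl (by simp)⟩
  · rintro x y ⟨π, h1, h2, h3⟩
    refine ⟨π⁻¹, by rw [h1]; group, by rw [h2]; group, ?_⟩
    rcases h3 with h3 | h3
    · left; rw [← h3]; simp
    · right
      have : y.1.2.2 = y.1.2.1 (π x.1.2.2) := by rw [h3, (y.2.gluing _).1]
      rw [this, h2]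
      simp
  · rintro x y z ⟨π, h1, h2, h3⟩ ⟨ρ, k1, k2, k3⟩
    refine ⟨ρ * π, by rw [k1, h1]; group, by rw [k2, h2]; group, ?_⟩
    have hρ : ∀ d, z.1.2.1 (ρ d) = ρ (y.1.2.1 d) := by intro d; rw [k2]; simp
    rw [Perm.mul_apply]
    rcases h3 with h3 | h3 <;> rcases k3 with k3 | k3
    · left; rw [h3, k3]
    · right; rw [h3, k3]
    · right; rw [h3, ← k3, hρ]
    · left; rw [h3, ← hρ, k3, (z.2.gluing _).1]

def labSetoid (n g : ℕ) : Setoid (Lab n g) := ⟨LabIso, labIso_equivalence n g⟩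

/-- Rooted bipartite quadrangulations of genus `g` with `n` faces. -/
def RootedMaps (n g : ℕ) : Type := Quotient (labSetoid n g)

theorem syst_labIso {n g : ℕ} (x y : Lab n g) (h : LabIso x y) :
    syst x.1.1 x.1.2.1 = syst y.1.1 y.1.2.1 := by
  obtain ⟨π, h1, h2, -⟩ := h
  exact (syst_relabel π x.1.1 x.1.2.1 y.1.1 y.1.2.1 (fun d => by rw [h1]; simp)
    (fun d => by rw [h2]; simp)).symm

/-- The systole of a rooted map. -/
noncomputable def RootedMaps.syst {n g : ℕ} (q : RootedMaps n g) : ℕ∞ :=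
  Quotient.lift (fun x : Lab n g => Syst.syst x.1.1 x.1.2.1) (fun x y h => syst_labIso x y h) q

theorem act_injective {n g : ℕ} (x : Lab n g) : Function.Injective (fun π => act π x) := by
  intro π ρ h
  have h0 := congrArg Subtype.val h
  have h1 : π * x.1.1 * π⁻¹ = ρ * x.1.1 * ρ⁻¹ := congrArg Prod.fst h0
  have h2 : π * x.1.2.1 * π⁻¹ = ρ * x.1.2.1 * ρ⁻¹ := congrArg (fun z => z.2.1) h0
  have h3 : π x.1.2.2 = ρ x.1.2.2 := congrArg (fun z => z.2.2) h0
  have hi : ∀ (σ : Perm (Fin (4 * n))) z, σ⁻¹ (σ z) = z := fun σ z => by simp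
  have key : ∀ d, π d = ρ d := by
    intro d
    have hc := x.2.conn x.1.2.2 d
    induction hc with
    | refl => exact h3
    | @tail b c _ hbc ih =>
      rcases hbc with rfl | rfl
      · have := congrArg (fun f : Perm (Fin (4 * n)) => f (π b)) h1
        simp only [Perm.mul_apply] at this
        rw [hi, ih, hi] at this
        exact this
      · have := congrArg (fun f : Perm (Fin (4 * n)) => f (π b)) h2
        simp only [Perm.mul_apply] at this
        rw [hi, ih, hi] at this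
        exact this
  exact Equiv.ext key

theorem labIso_act {n g : ℕ} (π : Perm (Fin (4 * n))) (x : Lab n g) : LabIso x (act π x) :=
  ⟨π, rfl, rfl, Or.inl rfl⟩

instance instFiniteLab (n g : ℕ) : Finite (Lab n g) := by
  unfold Lab
  infer_instance

instance instFiniteRootedMaps (n g : ℕ) : Finite (RootedMaps n g) := by
  unfold RootedMaps
  infer_instance

theorem exists_act {n g : ℕ} (x y : Lab n g) (h : LabIso x y) :
    ∃ π, y = act π x ∨ y = act π (flip x) := by
  obtain ⟨π, h1, h2, h3⟩ := h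
  refine ⟨π, ?_⟩
  rcases h3 with h3 | h3
  · left
    apply Subtype.ext
    exact Prod.ext h1 (Prod.ext h2 h3.symm)
  · right
    apply Subtype.ext
    refine Prod.ext h1 (Prod.ext h2 ?_)
    show y.1.2.2 = π (x.1.2.1 x.1.2.2)
    have : y.1.2.2 = y.1.2.1 (π x.1.2.2) := by rw [h3, (y.2.gluing _).1]
    rw [this, h2]
    simp

theorem card_lab_le (n g : ℕ) :
    Nat.card (Lab n g) ≤ 2 * ((4 * n).factorial * Nat.card (RootedMaps n g)) := by
  classical
  have hs : Function.Surjective (fun z : Bool × Perm (Fin (4 * n)) × RootedMaps n g =>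
      act z.2.1 (if z.1 then Quotient.out z.2.2 else flip (Quotient.out z.2.2))) := by
    intro y
    have h : LabIso (Quotient.out (Quotient.mk (labSetoid n g) y)) y :=
      Quotient.exact (s := labSetoid n g) (Quotient.out_eq _)
    obtain ⟨π, hπ | hπ⟩ := exists_act _ _ h
    · exact ⟨(true, π, Quotient.mk (labSetoid n g) y), by simpa using hπ.symm⟩
    · exact ⟨(false, π, Quotient.mk (labSetoid n g) y), by simpa using hπ.symm⟩
  have := Nat.card_le_card_of_surjective _ hs
  rw [Nat.card_prod, Nat.card_prod, Nat.card_perm] at this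
  simpa using this

theorem card_rooted_le (n g M : ℕ) :
    (4 * n).factorial * Nat.card {q : RootedMaps n g // (M : ℕ∞) < q.syst} ≤
      Nat.card {x : Lab n g // (M : ℕ∞) < syst x.1.1 x.1.2.1} := by
  have hs : ∀ (π : Perm (Fin (4 * n))) (q : RootedMaps n g),
      Quotient.mk (labSetoid n g) (act π (Quotient.out q)) = q := by
    intro π q
    have h : LabIso (Quotient.out q) (act π (Quotient.out q)) := labIso_act π _
    have h2 := Quotient.sound (s := labSetoid n g) h
    rw [← h2]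
    exact Quotient.out_eq q
  have hM : ∀ (π : Perm (Fin (4 * n))) (q : RootedMaps n g), (M : ℕ∞) < q.syst →
      (M : ℕ∞) < syst (act π (Quotient.out q)).1.1 (act π (Quotient.out q)).1.2.1 := by
    intro π q hq
    rw [← hs π q] at hq
    exact hq
  let f : Perm (Fin (4 * n)) × {q : RootedMaps n g // (M : ℕ∞) < q.syst} →
      {x : Lab n g // (M : ℕ∞) < syst x.1.1 x.1.2.1} :=
    fun z => ⟨act z.1 (Quotient.out z.2.1), hM z.1 z.2.1 z.2.2⟩
  have hf : Function.Injective f := by
    rintro ⟨π, q, hq⟩ ⟨ρ, q', hq'⟩ h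
    simp only [f, Subtype.mk.injEq] at h
    have h1 : q = q' := by
      rw [← hs π q, h, hs ρ q']
    subst h1
    have h2 := act_injective _ h
    subst h2
    rfl
  have := Nat.card_le_card_of_injective f hf
  rwa [Nat.card_prod, Nat.card_perm, Nat.card_eq_fintype_card, Fintype.card_fin] at this

theorem class_count (n g M : ℕ) (hn : 0 < n) (ε : ℝ) (hε : 0 ≤ ε)
    (h : (Nat.card {x : Perm (Fin (4 * n)) × Perm (Fin (4 * n)) //
        IsBipQuad n g x.1 x.2 ∧ (M : ℕ∞) < syst x.1 x.2} : ℝ) ≤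
      ε * Nat.card {x : Perm (Fin (4 * n)) × Perm (Fin (4 * n)) // IsBipQuad n g x.1 x.2}) :
    (Nat.card {q : RootedMaps n g // (M : ℕ∞) < q.syst} : ℝ) ≤
      2 * ε * Nat.card (RootedMaps n g) := by
  have h1 : Nat.card {x : Lab n g // (M : ℕ∞) < syst x.1.1 x.1.2.1} =
      Nat.card {x : Perm (Fin (4 * n)) × Perm (Fin (4 * n)) //
        IsBipQuad n g x.1 x.2 ∧ (M : ℕ∞) < syst x.1 x.2} * (4 * n) := by
    have e : {x : Lab n g // (M : ℕ∞) < syst x.1.1 x.1.2.1} ≃
        {x : Perm (Fin (4 * n)) × Perm (Fin (4 * n)) //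
          IsBipQuad n g x.1 x.2 ∧ (M : ℕ∞) < syst x.1 x.2} × Fin (4 * n) :=
      { toFun := fun x => (⟨(x.1.1.1, x.1.1.2.1), x.1.2, x.2⟩, x.1.1.2.2)
        invFun := fun y => ⟨⟨(y.1.1.1, y.1.1.2, y.2), y.1.2.1⟩, y.1.2.2⟩
        left_inv := fun x => rfl
        right_inv := fun y => rfl }
    rw [Nat.card_congr e, Nat.card_prod, Nat.card_eq_fintype_card (α := Fin (4 * n)),
      Fintype.card_fin]
  have h2 : Nat.card (Lab n g) =
      Nat.card {x : Perm (Fin (4 * n)) × Perm (Fin (4 * n)) //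
        IsBipQuad n g x.1 x.2} * (4 * n) := by
    have e : Lab n g ≃ {x : Perm (Fin (4 * n)) × Perm (Fin (4 * n)) //
          IsBipQuad n g x.1 x.2} × Fin (4 * n) :=
      { toFun := fun x => (⟨(x.1.1, x.1.2.1), x.2⟩, x.1.2.2)
        invFun := fun y => ⟨(y.1.1.1, y.1.1.2, y.2), y.1.2⟩
        left_inv := fun x => rfl
        right_inv := fun y => rfl }
    rw [Nat.card_congr e, Nat.card_prod, Nat.card_eq_fintype_card (α := Fin (4 * n)),
      Fintype.card_fin]
  have h3 := card_lab_le n g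
  have h4 := card_rooted_le n g M
  have h3' : (Nat.card (Lab n g) : ℝ) ≤
      2 * (((4 * n).factorial : ℝ) * Nat.card (RootedMaps n g)) := by exact_mod_cast h3
  have h4' : ((4 * n).factorial : ℝ) * Nat.card {q : RootedMaps n g // (M : ℕ∞) < q.syst} ≤
      (Nat.card {x : Lab n g // (M : ℕ∞) < syst x.1.1 x.1.2.1} : ℝ) := by exact_mod_cast h4
  have h1' : (Nat.card {x : Lab n g // (M : ℕ∞) < syst x.1.1 x.1.2.1} : ℝ) =
      (Nat.card {x : Perm (Fin (4 * n)) × Perm (Fin (4 * n)) //
        IsBipQuad n g x.1 x.2 ∧ (M : ℕ∞) < syst x.1 x.2} : ℝ) * (4 * n) := by exact_mod_cast h1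
  have h2' : (Nat.card (Lab n g) : ℝ) =
      (Nat.card {x : Perm (Fin (4 * n)) × Perm (Fin (4 * n)) //
        IsBipQuad n g x.1 x.2} : ℝ) * (4 * n) := by exact_mod_cast h2
  have hf : (0 : ℝ) < ((4 * n).factorial : ℝ) := by exact_mod_cast Nat.factorial_pos _
  have hn' : (0 : ℝ) < 4 * n := by positivity
  have h5 : ((4 * n).factorial : ℝ) * Nat.card {q : RootedMaps n g // (M : ℕ∞) < q.syst} ≤
      ((4 * n).factorial : ℝ) * (2 * ε * Nat.card (RootedMaps n g)) := by
    calc _ ≤ _ := h4'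
      _ = _ := h1'
      _ ≤ (ε * Nat.card {x : Perm (Fin (4 * n)) × Perm (Fin (4 * n)) //
        IsBipQuad n g x.1 x.2}) * (4 * n) := mul_le_mul_of_nonneg_right h hn'.le
      _ = ε * Nat.card (Lab n g) := by rw [h2']; ring
      _ ≤ ε * (2 * (((4 * n).factorial : ℝ) * Nat.card (RootedMaps n g))) :=
        mul_le_mul_of_nonneg_left h3' hε
      _ = _ := by ring
  exact le_of_mul_le_mul_left h5 hf

end Pool.Agent.Syst
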