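import Pool.Agent.Work.MP_e76ef6d3_pr.CmsClose
import Pool.Agent.Work.MP_e76ef6d3_pr.CmsPL
import Pool.Agent.Work.MP_e76ef6d3_pr.CmsOpen
import Pool.Agent.Work.MP_e76ef6d3_pr.Relabel

/-!
Module C3: counting consequences of the Chapuy-Marcus-Schaeffer bijection.
-/

namespace Pool.Agent.Syst

open Equiv Filter Topology

namespace CmsCountAux

/-! ### descending darts -/

theorem desc_alpha {D : Type} {φ α : Perm D} {ℓ : D → ℤ} (hp : IsPL φ α ℓ) (d : D) :
    ℓ (φ (α d)) - ℓ (α d) = ℓ d - ℓ (φ d) := by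
  have h1 : ℓ (φ (α d)) = ℓ d := hp.lab d
  have h2 : ℓ (φ (α (α d))) = ℓ (α d) := hp.lab (α d)
  rw [(hp.gluing d).1] at h2
  omega

open Classical in
theorem desc_card {n : ℕ} {φ α : Perm (Fin (4 * n))} {ℓ : Fin (4 * n) → ℤ}
    (hp : IsPL φ α ℓ) : Nat.card {h : Fin (4 * n) // ℓ (φ h) = ℓ h - 1} = 2 * n := by
  set H : Finset (Fin (4 * n)) := Finset.univ.filter (fun h => ℓ (φ h) = ℓ h - 1) with hH
  have h1 : H.image α = Hᶜ := by
    ext d
    simp only [Finset.mem_image, Finset.mem_compl, hH, Finset.mem_filter, Finset.mem_univ,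
      true_and]
    constructor
    · rintro ⟨h, hh, rfl⟩
      have := desc_alpha hp h
      omega
    · intro hd
      refine ⟨α d, ?_, (hp.gluing d).1⟩
      have h2 := desc_alpha hp d
      have h3 := hp.step d
      omega
  have h2 : H.card = (Hᶜ).card := by
    rw [← h1, Finset.card_image_of_injective _ α.injective]
  have h3 : H.card + (Hᶜ).card = 4 * n := by
    rw [Finset.card_add_card_compl, Fintype.card_fin]
  rw [Nat.card_eq_fintype_card, Fintype.card_subtype]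
  have : (Finset.univ.filter (fun h => ℓ (φ h) = ℓ h - 1)).card = H.card := rfl
  rw [this]
  omega

/-! ### finiteness of the set of labelled one-face maps -/

theorem finRotate_pow_zero {N : ℕ} (hN : 0 < N) (t : ℕ) (ht : t < N) :
    ((finRotate N) ^ t) ⟨0, hN⟩ = ⟨t, ht⟩ := by
  obtain ⟨m, rfl⟩ : ∃ m, N = m + 1 := ⟨N - 1, by omega⟩
  induction t with
  | zero => simp
  | succ t ih =>
    rw [pow_succ', Perm.mul_apply, ih (by omega)]
    exact finRotate_of_lt (by omega)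

theorem label_bound {n : ℕ} {a : Perm (Fin (2 * n))} {ℓ : Fin (2 * n) → ℤ} (h : IsLU n a ℓ)
    (k : Fin (2 * n)) : ℓ k ≤ 4 * n + 1 := by
  have hN : 0 < 2 * n := by have := k.2; omega
  set z : Fin (2 * n) := ⟨0, hN⟩ with hz
  set γ := finRotate (2 * n) with hγ
  have hstep : ∀ (t : ℕ) (x : Fin (2 * n)), |ℓ ((γ ^ t) x) - ℓ x| ≤ t := by
    intro t
    induction t with
    | zero => intro x; simp
    | succ t ih =>
      intro x
      have h1 := ih x
      have h2 := h.step ((γ ^ t) x)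
      rw [← hγ] at h2
      rw [pow_succ', Perm.mul_apply, Nat.cast_succ]
      rw [abs_le] at h1 h2 ⊢
      constructor <;> linarith [h1.1, h1.2, h2.1, h2.2]
  obtain ⟨k0, hk0⟩ := h.one
  have h1 := hstep k.1 z
  have h2 := hstep k0.1 z
  rw [finRotate_pow_zero hN k.1 k.2] at h1
  rw [finRotate_pow_zero hN k0.1 k0.2] at h2
  have h3 : (⟨k0.1, k0.2⟩ : Fin (2 * n)) = k0 := rfl
  rw [h3, hk0] at h2
  have h4 : (⟨k.1, k.2⟩ : Fin (2 * n)) = k := rfl
  rw [h4] at h1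
  have := k.2
  have := k0.2
  rw [abs_le] at h1 h2
  have e1 : (k.1 : ℤ) < 2 * n := by exact_mod_cast k.2
  have e2 : (k0.1 : ℤ) < 2 * n := by exact_mod_cast k0.2
  linarith [h1.2, h2.1]

theorem finite_LU (n : ℕ) (Q : Perm (Fin (2 * n)) → Prop) :
    Finite {x : Perm (Fin (2 * n)) × (Fin (2 * n) → ℤ) // IsLU n x.1 x.2 ∧ Q x.1} := by
  classical
  have h1 : ({x : Perm (Fin (2 * n)) × (Fin (2 * n) → ℤ) | IsLU n x.1 x.2 ∧ Q x.1}).Finite := by
    apply Set.Finite.subset (s := ((Finset.univ : Finset (Perm (Fin (2 * n)))) ×ˢ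
      (Fintype.piFinset (fun _ : Fin (2 * n) => Finset.Icc (1 : ℤ) (4 * n + 1))) : Finset _))
    · exact Finset.finite_toSet _
    · rintro ⟨a, ℓ⟩ ⟨h, -⟩
      simp only [Finset.coe_product, Set.mem_prod, Finset.mem_coe, Finset.mem_univ, true_and,
        Fintype.mem_piFinset, Finset.mem_Icc]
      exact fun k => ⟨h.pos k, label_bound h k⟩
  exact h1

/-! ### descending darts of the closure are the `inl`'s -/

theorem closing_inl {n : ℕ} {a : Perm (Fin (2 * n))} {ℓ : Fin (2 * n) → ℤ}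
    (h : IsLU n a ℓ) {φ : Perm (Fin (2 * n) ⊕ Fin (2 * n))} (hφ : IsClosing n a ℓ φ)
    (y : Fin (2 * n)) : slab n ℓ (φ (Sum.inl y)) = slab n ℓ (Sum.inl y) - 1 := by
  obtain ⟨i, rfl⟩ := (finRotate (2 * n)).surjective y
  rcases CmsCloseAux.step_cases h i with hi | hi | hi
  · rw [(hφ.flat i hi).1]
    simp only [slab, Sum.elim_inl, Sum.elim_inr]
    omega
  · rw [hφ.up i hi]
    simp only [slab, Sum.elim_inl]
    rw [h.lab i]
    omega
  · obtain ⟨j, hm⟩ := CmsCloseAux.exists_match_down h hi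
    rw [(hφ.mtch j i hm).1]
    obtain ⟨t, -, -, hl, -⟩ := hm
    simp only [slab, Sum.elim_inl, Sum.elim_inr]
    omega

theorem closing_inr {n : ℕ} {a : Perm (Fin (2 * n))} {ℓ : Fin (2 * n) → ℤ}
    (h : IsLU n a ℓ) {φ : Perm (Fin (2 * n) ⊕ Fin (2 * n))} (hφ : IsClosing n a ℓ φ)
    (i : Fin (2 * n)) : slab n ℓ (φ (Sum.inr i)) = slab n ℓ (Sum.inr i) + 1 := by
  rcases CmsCloseAux.step_cases h i with hi | hi | hi
  · rw [(hφ.flat i hi).2]
    simp only [slab, Sum.elim_inl, Sum.elim_inr]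
    rw [h.lab i]
    omega
  · obtain ⟨j, hm⟩ := CmsCloseAux.exists_match_up h hi
    rw [(hφ.mtch i j hm).2]
    have hd := CmsCloseAux.match_down h hm
    obtain ⟨t, -, -, hl, -⟩ := hm
    simp only [slab, Sum.elim_inr]
    omega
  · rw [hφ.down i hi]
    simp only [slab, Sum.elim_inl, Sum.elim_inr]
    rw [h.lab i]
    omega

/-! ### the opening map -/

/-- pointed labelled quadrangulations with a descending dart -/
abbrev PLD (n : ℕ) (E : Perm (Fin (4 * n)) → Perm (Fin (4 * n)) → Prop) :=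
  Σ x : {x : Perm (Fin (4 * n)) × Perm (Fin (4 * n)) × (Fin (4 * n) → ℤ) //
    IsPL x.1 x.2.1 x.2.2 ∧ E x.1 x.2.1}, {h : Fin (4 * n) // x.1.2.2 (x.1.1 h) = x.1.2.2 h - 1}

theorem exists_open {n : ℕ} (hn : 0 < n) (E : Perm (Fin (4 * n)) → Perm (Fin (4 * n)) → Prop)
    (x : PLD n E) : ∃ (e : Fin (2 * n) ⊕ Fin (2 * n) ≃ Fin (4 * n))
      (y : Perm (Fin (2 * n)) × (Fin (2 * n) → ℤ)) (ψ : Perm (Fin (2 * n) ⊕ Fin (2 * n))),
      IsLU n y.1 y.2 ∧ IsClosing n y.1 y.2 ψ ∧ (∀ d, x.1.1.1 (e d) = e (ψ d)) ∧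
      (∀ d, x.1.1.2.1 (e d) = e (swp n d)) ∧ (∀ d, x.1.1.2.2 (e d) = slab n y.2 d) ∧
      e (Sum.inl ⟨0, by omega⟩) = x.2.1 := by
  obtain ⟨a, ℓ', e, ψ, h⟩ := cms_open hn x.1.2.1 x.2.1 x.2.2
  exact ⟨e, (a, ℓ'), ψ, h⟩

/-- the opening map -/
noncomputable def opn {n : ℕ} (hn : 0 < n)
    (E : Perm (Fin (4 * n)) → Perm (Fin (4 * n)) → Prop) (x : PLD n E) :
    (Fin (2 * n) ⊕ Fin (2 * n) ≃ Fin (4 * n)) × (Perm (Fin (2 * n)) × (Fin (2 * n) → ℤ)) :=
  ((exists_open hn E x).choose, (exists_open hn E x).choose_spec.choose)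

theorem opn_spec {n : ℕ} (hn : 0 < n)
    (E : Perm (Fin (4 * n)) → Perm (Fin (4 * n)) → Prop) (x : PLD n E) :
    ∃ (ψ : Perm (Fin (2 * n) ⊕ Fin (2 * n))),
      IsLU n (opn hn E x).2.1 (opn hn E x).2.2 ∧
      IsClosing n (opn hn E x).2.1 (opn hn E x).2.2 ψ ∧
      (∀ d, x.1.1.1 ((opn hn E x).1 d) = (opn hn E x).1 (ψ d)) ∧
      (∀ d, x.1.1.2.1 ((opn hn E x).1 d) = (opn hn E x).1 (swp n d)) ∧
      (∀ d, x.1.1.2.2 ((opn hn E x).1 d) = slab n (opn hn E x).2.2 d) ∧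
      (opn hn E x).1 (Sum.inl ⟨0, by omega⟩) = x.2.1 :=
  (exists_open hn E x).choose_spec.choose_spec

theorem opn_injective {n : ℕ} (hn : 0 < n)
    (E : Perm (Fin (4 * n)) → Perm (Fin (4 * n)) → Prop) : Function.Injective (opn hn E) := by
  intro x x' hxx
  obtain ⟨ψ, hLU, hψ, h1, h2, h3, h4⟩ := opn_spec hn E x
  obtain ⟨ψ', hLU', hψ', h1', h2', h3', h4'⟩ := opn_spec hn E x'
  rw [← hxx] at hLU' hψ' h1' h2' h3' h4'
  have hψψ : ψ = ψ' := closing_unique hLU hψ hψ'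
  subst hψψ
  obtain ⟨⟨⟨φ, α, ℓ⟩, hx⟩, ⟨h, hh⟩⟩ := x
  obtain ⟨⟨⟨φ', α', ℓ'⟩, hx'⟩, ⟨h', hh'⟩⟩ := x'
  dsimp only at h1 h2 h3 h4 h1' h2' h3' h4'
  generalize opn hn E ⟨⟨⟨φ, α, ℓ⟩, hx⟩, ⟨h, hh⟩⟩ = o at *
  have e1 : φ = φ' := by
    ext d
    obtain ⟨c, rfl⟩ := o.1.surjective d
    rw [h1, h1']
  have e2 : α = α' := by
    ext d
    obtain ⟨c, rfl⟩ := o.1.surjective d
    rw [h2, h2']
  have e3 : ℓ = ℓ' := by
    funext d
    obtain ⟨c, rfl⟩ := o.1.surjective d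
    rw [h3, h3']
  have e4 : h = h' := by rw [← h4, ← h4']
  subst e1 e2 e3 e4
  rfl

theorem card_equiv_sum (n : ℕ) :
    Nat.card (Fin (2 * n) ⊕ Fin (2 * n) ≃ Fin (4 * n)) = (4 * n).factorial := by
  classical
  have e : Fin (2 * n) ⊕ Fin (2 * n) ≃ Fin (4 * n) :=
    Fintype.equivOfCardEq (by simp; omega)
  rw [Nat.card_eq_fintype_card, Fintype.card_equiv e]
  congr 1
  simp
  omega

theorem finite_PLD {n : ℕ} (hn : 0 < n)
    (E : Perm (Fin (4 * n)) → Perm (Fin (4 * n)) → Prop) : Finite (PLD n E) := by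
  have := finite_LU n (fun _ => True)
  let f : PLD n E → (Fin (2 * n) ⊕ Fin (2 * n) ≃ Fin (4 * n)) ×
      {x : Perm (Fin (2 * n)) × (Fin (2 * n) → ℤ) // IsLU n x.1 x.2 ∧ True} :=
    fun x => ((opn hn E x).1, ⟨(opn hn E x).2, by
      obtain ⟨ψ, h, -⟩ := opn_spec hn E x
      exact ⟨h, trivial⟩⟩)
  apply Finite.of_injective f
  intro x x' hxx
  apply opn_injective hn E
  simp only [f, Prod.mk.injEq, Subtype.mk.injEq] at hxx
  exact Prod.ext hxx.1 hxx.2

theorem card_PLD {n : ℕ} (hn : 0 < n) (E : Perm (Fin (4 * n)) → Perm (Fin (4 * n)) → Prop) :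
    Nat.card (PLD n E) =
      Nat.card {x : Perm (Fin (4 * n)) × Perm (Fin (4 * n)) × (Fin (4 * n) → ℤ) //
        IsPL x.1 x.2.1 x.2.2 ∧ E x.1 x.2.1} * (2 * n) := by
  classical
  have hfin := finite_PLD hn E
  have hA : Finite {x : Perm (Fin (4 * n)) × Perm (Fin (4 * n)) × (Fin (4 * n) → ℤ) //
        IsPL x.1 x.2.1 x.2.2 ∧ E x.1 x.2.1} := by
    apply Finite.of_surjective (fun x : PLD n E => x.1)
    intro x
    have h1 := desc_card x.2.1
    have h2 : Nonempty {h : Fin (4 * n) // x.1.2.2 (x.1.1 h) = x.1.2.2 h - 1} := by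
      apply (Nat.card_pos_iff.1 (by rw [h1]; omega)).1
    obtain ⟨h⟩ := h2
    exact ⟨⟨x, h⟩, rfl⟩
  have := Fintype.ofFinite {x : Perm (Fin (4 * n)) × Perm (Fin (4 * n)) × (Fin (4 * n) → ℤ) //
        IsPL x.1 x.2.1 x.2.2 ∧ E x.1 x.2.1}
  rw [Nat.card_sigma]
  rw [Finset.sum_congr rfl (fun x _ => desc_card x.2.1)]
  rw [Finset.sum_const, Finset.card_univ, smul_eq_mul, Nat.card_eq_fintype_card]

/-! ### the closing map -/

theorem isPL_relabel {D D' : Type} (e : D ≃ D') {φ α : Perm D} {φ' α' : Perm D'} {ℓ : D → ℤ}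
    {ℓ' : D' → ℤ}
    (hφ : ∀ d, φ' (e d) = e (φ d)) (hα : ∀ d, α' (e d) = e (α d)) (hℓ : ∀ d, ℓ' (e d) = ℓ d)
    (h : IsPL φ α ℓ) : IsPL φ' α' ℓ' := by
  have hrot : ∀ d, rot φ' α' (e d) = e (rot φ α d) := by
    intro d
    simp only [rot, Perm.mul_apply]
    rw [hα, hφ]
  have hSV : ∀ d d', SameVertex φ' α' (e d) (e d') ↔ SameVertex φ α d d' := by
    have hconj : rot φ' α' = (e.symm.trans (rot φ α)).trans e := by
      ext d'
      obtain ⟨d, rfl⟩ := e.surjective d'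
      rw [hrot]
      simp
    have hzpow : ∀ (i : ℤ) (d : D), ((rot φ' α') ^ i) (e d) = e (((rot φ α) ^ i) d) := by
      intro i d
      have h1 : rot φ' α' = e.permCongr (rot φ α) := by
        rw [hconj]; rfl
      rw [h1]
      have h2 : (e.permCongr (rot φ α)) ^ i = e.permCongr ((rot φ α) ^ i) := by
        have := map_zpow (e.permCongrHom) (rot φ α) i
        exact this.symm
      rw [h2, Equiv.permCongr_apply, Equiv.symm_apply_apply]
    intro d d'
    constructor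
    · rintro ⟨i, hi⟩
      exact ⟨i, e.injective (by rw [← hzpow]; exact hi)⟩
    · rintro ⟨i, hi⟩
      exact ⟨i, by rw [hzpow, hi]⟩
  refine ⟨?_, ?_, ?_, ?_, ?_, ?_⟩
  · intro d'
    obtain ⟨d, rfl⟩ := e.surjective d'
    rw [hφ, hφ, hφ, hφ]
    exact ⟨congrArg e (h.squares d).1, fun hh => (h.squares d).2 (e.injective hh)⟩
  · intro d'
    obtain ⟨d, rfl⟩ := e.surjective d'
    rw [hα, hα]
    exact ⟨congrArg e (h.gluing d).1, fun hh => (h.gluing d).2 (e.injective hh)⟩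
  · intro d' d2'
    obtain ⟨d, rfl⟩ := e.surjective d'
    obtain ⟨d2, rfl⟩ := e.surjective d2'
    have h1 := h.conn d d2
    refine Relation.ReflTransGen.lift e ?_ _ _ h1
    rintro x y (rfl | rfl)
    · exact Or.inl (hφ x).symm
    · exact Or.inr (hα x).symm
  · intro d'
    obtain ⟨d, rfl⟩ := e.surjective d'
    rw [hrot, hℓ, hℓ]
    exact h.lab d
  · intro d'
    obtain ⟨d, rfl⟩ := e.surjective d'
    rw [hφ, hℓ, hℓ]
    exact h.step d
  · obtain ⟨d0, h0, h1, h2⟩ := h.root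
    refine ⟨e d0, by rw [hℓ, h0], ?_, ?_⟩
    · intro d'
      obtain ⟨d, rfl⟩ := e.surjective d'
      intro hsv
      rw [hφ, hℓ, hℓ]
      exact h1 d ((hSV _ _).1 hsv)
    · intro d'
      obtain ⟨d, rfl⟩ := e.surjective d'
      intro hsv
      obtain ⟨c, hc1, hc2⟩ := h2 d (fun hh => hsv ((hSV _ _).2 hh))
      exact ⟨e c, (hSV _ _).2 hc1, by rw [hφ, hℓ, hℓ]; exact hc2⟩

/-- two first returns coincide -/
theorem first_return_unique {D : Type*} (f : Perm D) (P : D → Prop) (d : D) {t t' : ℕ}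
    (h1 : P ((f ^ (t + 1)) d)) (h2 : ∀ s, 1 ≤ s → s ≤ t → ¬ P ((f ^ s) d))
    (h1' : P ((f ^ (t' + 1)) d)) (h2' : ∀ s, 1 ≤ s → s ≤ t' → ¬ P ((f ^ s) d)) : t = t' := by
  rcases lt_trichotomy t t' with h | h | h
  · exact absurd h1 (h2' (t + 1) (by omega) (by omega))
  · exact h
  · exact absurd h1' (h2 (t' + 1) (by omega) (by omega))

theorem close_injective {n : ℕ} (hn : 0 < n)
    {a a' : Perm (Fin (2 * n))} {ℓ ℓ' : Fin (2 * n) → ℤ} (h : IsLU n a ℓ) (h' : IsLU n a' ℓ')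
    {ψ ψ' : Perm (Fin (2 * n) ⊕ Fin (2 * n))} (hψ : IsClosing n a ℓ ψ)
    (hψ' : IsClosing n a' ℓ' ψ') {e e' : Fin (2 * n) ⊕ Fin (2 * n) ≃ Fin (4 * n)}
    {φ α : Perm (Fin (4 * n))} {lab : Fin (4 * n) → ℤ}
    (h1 : ∀ d, φ (e d) = e (ψ d)) (h2 : ∀ d, α (e d) = e (swp n d))
    (h3 : ∀ d, lab (e d) = slab n ℓ d)
    (h1' : ∀ d, φ (e' d) = e' (ψ' d)) (h2' : ∀ d, α (e' d) = e' (swp n d))
    (h3' : ∀ d, lab (e' d) = slab n ℓ' d)
    (h0 : e (Sum.inl ⟨0, by omega⟩) = e' (Sum.inl ⟨0, by omega⟩)) :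
    e = e' ∧ a = a' ∧ ℓ = ℓ' := by
  -- powers
  have hpow : ∀ (t : ℕ) d, (φ ^ t) (e d) = e ((ψ ^ t) d) := by
    intro t
    induction t with
    | zero => intro d; simp
    | succ t ih =>
      intro d
      rw [pow_succ', Perm.mul_apply, ih, h1, pow_succ', Perm.mul_apply]
  have hpow' : ∀ (t : ℕ) d, (φ ^ t) (e' d) = e' ((ψ' ^ t) d) := by
    intro t
    induction t with
    | zero => intro d; simp
    | succ t ih =>
      intro d
      rw [pow_succ', Perm.mul_apply, ih, h1', pow_succ', Perm.mul_apply]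
  have hrot : ∀ d, rot φ α (e d) = e (rot ψ (swp n) d) := by
    intro d
    simp only [rot, Perm.mul_apply]
    rw [h2, h1]
  have hrot' : ∀ d, rot φ α (e' d) = e' (rot ψ' (swp n) d) := by
    intro d
    simp only [rot, Perm.mul_apply]
    rw [h2', h1']
  have hrpow : ∀ (t : ℕ) d, ((rot φ α) ^ t) (e d) = e (((rot ψ (swp n)) ^ t) d) := by
    intro t
    induction t with
    | zero => intro d; simp
    | succ t ih =>
      intro d
      rw [pow_succ', Perm.mul_apply, ih, hrot, pow_succ', Perm.mul_apply]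
  have hrpow' : ∀ (t : ℕ) d, ((rot φ α) ^ t) (e' d) = e' (((rot ψ' (swp n)) ^ t) d) := by
    intro t
    induction t with
    | zero => intro d; simp
    | succ t ih =>
      intro d
      rw [pow_succ', Perm.mul_apply, ih, hrot', pow_succ', Perm.mul_apply]
  -- the descending darts
  set P : Fin (4 * n) → Prop := fun d => lab (φ d) = lab d - 1 with hP
  have hPinl : ∀ y, P (e (Sum.inl y)) := by
    intro y
    simp only [hP]
    rw [h1, h3, h3]
    exact closing_inl h hψ y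
  have hPinr : ∀ y, ¬ P (e (Sum.inr y)) := by
    intro y
    simp only [hP]
    rw [h1, h3, h3, closing_inr h hψ y]
    omega
  have hPinl' : ∀ y, P (e' (Sum.inl y)) := by
    intro y
    simp only [hP]
    rw [h1', h3', h3']
    exact closing_inl h' hψ' y
  have hPinr' : ∀ y, ¬ P (e' (Sum.inr y)) := by
    intro y
    simp only [hP]
    rw [h1', h3', h3', closing_inr h' hψ' y]
    omega
  -- one step
  have key : ∀ k, e (Sum.inl k) = e' (Sum.inl k) →
      e (Sum.inl (finRotate (2 * n) (a k))) = e' (Sum.inl (finRotate (2 * n) (a' k))) ∧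
      e (Sum.inl (finRotate (2 * n) k)) = e' (Sum.inl (finRotate (2 * n) k)) := by
    intro k hk
    obtain ⟨⟨t, ht1, ht2⟩, ⟨u, hu1, hu3, hu4, hu5⟩⟩ := closing_contour h hψ k
    obtain ⟨⟨t', ht1', ht2'⟩, ⟨u', hu1', hu3', hu4', hu5'⟩⟩ := closing_contour h' hψ' k
    have ht : t = t' := by
      apply first_return_unique (rot φ α) P (e (Sum.inl k))
      · rw [hrpow, ht1]; exact hPinl _
      · intro s hs1 hs2
        obtain ⟨j, hj⟩ := ht2 s hs1 hs2
        rw [hrpow, hj]; exact hPinr _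
      · rw [hk, hrpow', ht1']; exact hPinl' _
      · intro s hs1 hs2
        obtain ⟨j, hj⟩ := ht2' s hs1 hs2
        rw [hk, hrpow', hj]; exact hPinr' _
    have e1 : e (Sum.inl (finRotate (2 * n) (a k))) = e' (Sum.inl (finRotate (2 * n) (a' k))) := by
      rw [← ht1, ← hrpow, hk, ht, hrpow', ht1']
    refine ⟨e1, ?_⟩
    obtain ⟨v, rfl⟩ : ∃ v, u = v + 1 := ⟨u - 1, by omega⟩
    obtain ⟨v', rfl⟩ : ∃ v', u' = v' + 1 := ⟨u' - 1, by omega⟩
    have hv : v = v' := by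
      apply first_return_unique φ P (e (Sum.inl (finRotate (2 * n) (a k))))
      · rw [hpow, hu4]; exact hPinl _
      · intro s hs1 hs2
        obtain ⟨j, hj⟩ := hu5 s hs1 (by omega)
        rw [hpow, hj]; exact hPinr _
      · rw [e1, hpow', hu4']; exact hPinl' _
      · intro s hs1 hs2
        obtain ⟨j, hj⟩ := hu5' s hs1 (by omega)
        rw [e1, hpow', hj]; exact hPinr' _
    have e2 := hpow (v + 1) (Sum.inl (finRotate (2 * n) (a k)))
    have e3 := hpow' (v' + 1) (Sum.inl (finRotate (2 * n) (a' k)))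
    rw [hu4] at e2
    rw [hu4'] at e3
    rw [← e2, ← e3, e1, hv]
  have hall : ∀ (t : ℕ) (ht : t < 2 * n), e (Sum.inl ⟨t, ht⟩) = e' (Sum.inl ⟨t, ht⟩) := by
    intro t
    induction t with
    | zero => intro _; exact h0
    | succ t ih =>
      intro ht
      have h4 := (key ⟨t, by omega⟩ (ih (by omega))).2
      have h5 : finRotate (2 * n) ⟨t, by omega⟩ = ⟨t + 1, ht⟩ := by
        have e1 := finRotate_pow_zero (N := 2 * n) (by omega) t (by omega)
        have e2 := finRotate_pow_zero (N := 2 * n) (by omega) (t + 1) ht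
        rw [pow_succ', Perm.mul_apply, e1] at e2
        exact e2
      rw [h5] at h4
      exact h4
  have hinl : ∀ k, e (Sum.inl k) = e' (Sum.inl k) := fun k => hall k.1 k.2
  have hinr : ∀ k, e (Sum.inr k) = e' (Sum.inr k) := by
    intro k
    have e1 := h2 (Sum.inl k)
    have e2 := h2' (Sum.inl k)
    have e3 : swp n (Sum.inl k) = Sum.inr k := rfl
    rw [e3] at e1 e2
    rw [← e1, ← e2, hinl]
  have hee : e = e' := by
    apply Equiv.ext
    rintro (k | k)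
    · exact hinl k
    · exact hinr k
  subst hee
  refine ⟨rfl, ?_, ?_⟩
  · apply Equiv.ext
    intro k
    have := (key k rfl).1
    have h5 := e.injective this
    exact (finRotate (2 * n)).injective (Sum.inl.inj h5)
  · funext k
    have e1 := h3 (Sum.inl k)
    have e2 := h3' (Sum.inl k)
    rw [e1] at e2
    exact e2

end CmsCountAux

open CmsCountAux

theorem cms_le {n g : ℕ} (hn : 0 < n) (E : Perm (Fin (4 * n)) → Perm (Fin (4 * n)) → Prop)
    (E' : Perm (Fin (2 * n)) → Prop)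
    (hE : ∀ (a : Perm (Fin (2 * n))) (ℓ : Fin (2 * n) → ℤ)
      (ψ : Perm (Fin (2 * n) ⊕ Fin (2 * n))) (e : Fin (2 * n) ⊕ Fin (2 * n) ≃ Fin (4 * n))
      (φ α : Perm (Fin (4 * n))), IsLU n a ℓ → IsClosing n a ℓ ψ →
      (∀ x, φ (e x) = e (ψ x)) → (∀ x, α (e x) = e (swp n x)) → E φ α → E' a) :
    Nat.card {x : Perm (Fin (4 * n)) × Perm (Fin (4 * n)) × (Fin (4 * n) → ℤ) //
        IsPL x.1 x.2.1 x.2.2 ∧ numVertices x.1 x.2.1 + 2 * g = n + 2 ∧ E x.1 x.2.1} * (2 * n) ≤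
      (4 * n).factorial * Nat.card {x : Perm (Fin (2 * n)) × (Fin (2 * n) → ℤ) //
        IsLU n x.1 x.2 ∧ ncyc x.1 + 2 * g = n + 1 ∧ E' x.1} := by
  set E1 : Perm (Fin (4 * n)) → Perm (Fin (4 * n)) → Prop :=
    fun φ α => numVertices φ α + 2 * g = n + 2 ∧ E φ α with hE1
  rw [← card_equiv_sum n, ← Nat.card_prod]
  have h1 := card_PLD hn E1
  rw [← h1]
  have := finite_LU n (fun a => ncyc a + 2 * g = n + 1 ∧ E' a)
  let f : PLD n E1 → (Fin (2 * n) ⊕ Fin (2 * n) ≃ Fin (4 * n)) ×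
      {x : Perm (Fin (2 * n)) × (Fin (2 * n) → ℤ) //
        IsLU n x.1 x.2 ∧ ncyc x.1 + 2 * g = n + 1 ∧ E' x.1} :=
    fun x => ((opn hn E1 x).1, ⟨(opn hn E1 x).2, by
      obtain ⟨ψ, hLU, hψ, hφ, hα, -, -⟩ := opn_spec hn E1 x
      have hx := x.1.2.2
      refine ⟨hLU, ?_, ?_⟩
      · have h2 := numVertices_relabel _ _ _ _ _ hφ hα
        rw [closing_numVertices hLU hψ] at h2
        have h3 := hx.1
        omega
      · exact hE _ _ ψ _ _ _ hLU hψ hφ hα hx.2⟩)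
  apply Nat.card_le_card_of_injective f
  intro x x' hxx
  apply opn_injective hn E1
  simp only [f, Prod.mk.injEq, Subtype.mk.injEq] at hxx
  exact Prod.ext hxx.1 hxx.2

theorem cms_ge {n g : ℕ} (hn : 0 < n) :
    (4 * n).factorial * Nat.card {x : Perm (Fin (2 * n)) × (Fin (2 * n) → ℤ) //
        IsLU n x.1 x.2 ∧ ncyc x.1 + 2 * g = n + 1} ≤
    Nat.card {x : Perm (Fin (4 * n)) × Perm (Fin (4 * n)) × (Fin (4 * n) → ℤ) //
        IsPL x.1 x.2.1 x.2.2 ∧ numVertices x.1 x.2.1 + 2 * g = n + 2} * (2 * n) := by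
  set E1 : Perm (Fin (4 * n)) → Perm (Fin (4 * n)) → Prop :=
    fun φ α => numVertices φ α + 2 * g = n + 2 with hE1
  rw [← card_equiv_sum n, ← Nat.card_prod]
  have h1 := card_PLD hn E1
  rw [← h1]
  have hfin := finite_PLD hn E1
  -- the map
  let psi : {x : Perm (Fin (2 * n)) × (Fin (2 * n) → ℤ) //
        IsLU n x.1 x.2 ∧ ncyc x.1 + 2 * g = n + 1} → Perm (Fin (2 * n) ⊕ Fin (2 * n)) :=
    fun y => (closing_exists y.2.1).choose
  have hpsi : ∀ y, IsClosing n y.1.1 y.1.2 (psi y) := fun y => (closing_exists y.2.1).choose_spec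
  let f : (Fin (2 * n) ⊕ Fin (2 * n) ≃ Fin (4 * n)) ×
      {x : Perm (Fin (2 * n)) × (Fin (2 * n) → ℤ) //
        IsLU n x.1 x.2 ∧ ncyc x.1 + 2 * g = n + 1} → PLD n E1 :=
    fun z => ⟨⟨(z.1.permCongr (psi z.2), z.1.permCongr (swp n),
      fun d => slab n z.2.1.2 (z.1.symm d)), by
        have hφ : ∀ d, z.1.permCongr (psi z.2) (z.1 d) = z.1 (psi z.2 d) := fun d => by simp
        have hα : ∀ d, z.1.permCongr (swp n) (z.1 d) = z.1 (swp n d) := fun d => by simp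
        have hℓ : ∀ d, (fun d => slab n z.2.1.2 (z.1.symm d)) (z.1 d) = slab n z.2.1.2 d :=
          fun d => by simp
        refine ⟨isPL_relabel z.1 hφ hα hℓ (closing_isPL z.2.2.1 (hpsi z.2)), ?_⟩
        simp only [hE1]
        rw [numVertices_relabel z.1 _ _ _ _ hφ hα, closing_numVertices z.2.2.1 (hpsi z.2)]
        have := z.2.2.2
        omega⟩, ⟨z.1 (Sum.inl ⟨0, by omega⟩), by
        dsimp only
        rw [Equiv.permCongr_apply, Equiv.symm_apply_apply, Equiv.symm_apply_apply]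
        exact closing_inl z.2.2.1 (hpsi z.2) _⟩⟩
  apply Nat.card_le_card_of_injective f
  rintro ⟨e, y⟩ ⟨e', y'⟩ hzz
  simp only [f] at hzz
  have hz1 := congrArg (fun x : PLD n E1 => x.1.1.1) hzz
  have hz2 := congrArg (fun x : PLD n E1 => x.1.1.2.1) hzz
  have hz3 := congrArg (fun x : PLD n E1 => x.1.1.2.2) hzz
  have hz4 := congrArg (fun x : PLD n E1 => x.2.1) hzz
  dsimp only at hz1 hz2 hz3 hz4
  obtain ⟨r1, r2, r3⟩ := close_injective hn (e := e) (e' := e') y.2.1 y'.2.1 (hpsi y) (hpsi y')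
    (φ := e.permCongr (psi y)) (α := e.permCongr (swp n))
    (lab := fun d => slab n y.1.2 (e.symm d))
    (fun d => by simp) (fun d => by simp) (fun d => by simp)
    (fun d => by rw [hz1]; simp) (fun d => by rw [hz2]; simp)
    (fun d => by
      have := congrFun hz3 (e' d)
      rw [this]; simp)
    hz4
  subst r1
  obtain ⟨⟨ya, yl⟩, hy⟩ := y
  obtain ⟨⟨ya', yl'⟩, hy'⟩ := y'
  dsimp only at r2 r3
  subst r2 r3
  rfl

end Pool.Agent.Syst
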