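import Pool.Agent.Work.MP_e76ef6d3_pr.Defs2

/-!
# Corner version and half-edge version of labelled one-face maps
-/

namespace Pool.Agent.Syst

open Equiv Filter Topology

namespace CornerAux

/-- Going around the polygon. -/
theorem rot_pow_val {N : ℕ} [NeZero N] (k : Fin N) :
    ((finRotate N) ^ (k.1)) 0 = k := by
  obtain ⟨m, rfl⟩ : ∃ m, N = m + 1 := ⟨N - 1, by have := NeZero.pos N; omega⟩
  have : ∀ j : ℕ, (hj : j < m + 1) → ((finRotate (m + 1)) ^ j) 0 = ⟨j, hj⟩ := by
    intro j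
    induction j with
    | zero => intro hj; rfl
    | succ j ih =>
      intro hj
      rw [pow_succ', Perm.mul_apply, ih (by omega)]
      apply Fin.ext
      rw [finRotate_apply]
      rw [Fin.val_add_one_of_lt]
      show j < m
      omega
  exact this k.1 k.2

/-- Labels stay in the box. -/
theorem box_of_step {N : ℕ} [NeZero N] (μ : Fin N → ℤ) (h0 : μ 0 = 0)
    (hs : ∀ k, |μ (finRotate N k) - μ k| ≤ 1) : μ ∈ Box N := by
  have key : ∀ j : ℕ, |μ (((finRotate N) ^ j) 0)| ≤ j := by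
    intro j
    induction j with
    | zero => simp [h0]
    | succ j ih =>
      rw [pow_succ', Perm.mul_apply]
      have h1 := hs (((finRotate N) ^ j) 0)
      have h2 := abs_sub_abs_le_abs_sub (μ (finRotate N (((finRotate N) ^ j) 0)))
        (μ (((finRotate N) ^ j) 0))
      have h3 : ((j + 1 : ℕ) : ℤ) = (j : ℤ) + 1 := by push_cast; ring
      rw [h3]
      linarith
  unfold Box
  rw [Fintype.mem_piFinset]
  intro k
  have h1 := key k.1
  rw [rot_pow_val] at h1
  have h2 : (k.1 : ℤ) ≤ N := by exact_mod_cast k.2.le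
  rw [Finset.mem_Icc]
  exact abs_le.1 (h1.trans h2)

variable {n : ℕ}

/-- From corner labels to half-edge labels. -/
theorem isLab_of_isLU [NeZero (2 * n)] {a : Perm (Fin (2 * n))} {ℓ : Fin (2 * n) → ℤ}
    (h : IsLU n a ℓ) :
    IsLab a (cyc a) (fun i => ℓ (finRotate (2 * n) i) - ℓ (finRotate (2 * n) 0)) := by
  have hσ : ∀ x, ℓ (finRotate (2 * n) (sig a x)) = ℓ (finRotate (2 * n) x) := by
    intro x
    exact h.lab (finRotate (2 * n) x)
  refine ⟨?_, ?_, ?_⟩
  · rintro x y ⟨k, hk⟩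
    have key : ∀ k : ℕ, ∀ x, ℓ (finRotate (2 * n) (((sig a) ^ k) x)) =
        ℓ (finRotate (2 * n) x) := by
      intro k
      induction k with
      | zero => intro x; rfl
      | succ k ih => intro x; rw [pow_succ', Perm.mul_apply, hσ, ih]
    obtain ⟨m, hm⟩ : ∃ m : ℕ, ((sig a) ^ m) x = y := by
      have : (sig a).SameCycle x y := ⟨k, hk⟩
      obtain ⟨m, _, hm⟩ := this.exists_pow_eq'
      exact ⟨m, hm⟩
    show ℓ (finRotate (2 * n) x) - _ = ℓ (finRotate (2 * n) y) - _
    rw [← hm, key]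
  · intro i
    show |ℓ (finRotate (2 * n) i) - ℓ (finRotate (2 * n) 0) -
      (ℓ (finRotate (2 * n) (a i)) - ℓ (finRotate (2 * n) 0))| ≤ 1
    rw [h.lab i]
    have := h.step i
    simpa using this
  · show ℓ (finRotate (2 * n) 0) - ℓ (finRotate (2 * n) 0) = 0
    ring

/-- A half-edge labelling has steps at most one around the polygon. -/
theorem step_of_isLab {N : ℕ} [NeZero N] {a : Perm (Fin N)} {μ : Fin N → ℤ}
    (h : IsLab a (cyc a) μ) (k : Fin N) : |μ (finRotate N k) - μ k| ≤ 1 := by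
  have h1 : μ k = μ (a (finRotate N k)) := by
    apply h.1
    exact ⟨1, by simp [sig]⟩
  have h2 := h.2.1 (finRotate N k)
  rw [h1]
  exact h2

theorem isLU_of_isLab [NeZero (2 * n)] {a : Perm (Fin (2 * n))} (ha : IsGluing a)
    {μ : Fin (2 * n) → ℤ} (h : IsLab a (cyc a) μ) {C : ℤ} (hC : ∀ k, 1 ≤ μ k + C)
    (hC1 : ∃ k, μ k + C = 1) :
    IsLU n a (fun k => μ ((finRotate (2 * n)).symm k) + C) where
  gluing := ha
  lab := by
    intro k
    show μ ((finRotate (2 * n)).symm (finRotate (2 * n) (a k))) + C =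
      μ ((finRotate (2 * n)).symm k) + C
    rw [Equiv.symm_apply_apply]
    congr 1
    symm
    apply h.1
    refine ⟨1, ?_⟩
    simp [sig]
  step := by
    intro k
    show |μ ((finRotate (2 * n)).symm (finRotate (2 * n) k)) + C -
      (μ ((finRotate (2 * n)).symm k) + C)| ≤ 1
    rw [Equiv.symm_apply_apply]
    have := step_of_isLab h ((finRotate (2 * n)).symm k)
    rw [Equiv.apply_symm_apply] at this
    simpa using this
  pos := fun k => hC _
  one := by
    obtain ⟨k, hk⟩ := hC1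
    exact ⟨finRotate (2 * n) k, by simpa using hk⟩

/-- The two kinds of labellings of a gluing correspond. -/
theorem equiv_lab [NeZero (2 * n)] {a : Perm (Fin (2 * n))} (ha : IsGluing a) :
    Nonempty ({ℓ : Fin (2 * n) → ℤ // IsLU n a ℓ} ≃
      {μ : Fin (2 * n) → ℤ // μ ∈ Box (2 * n) ∧ IsLab a (cyc a) μ}) := by
  refine ⟨Equiv.ofBijective
    (fun ℓ => ⟨fun i => ℓ.1 (finRotate (2 * n) i) - ℓ.1 (finRotate (2 * n) 0),
      box_of_step _ (isLab_of_isLU ℓ.2).2.2 (step_of_isLab (isLab_of_isLU ℓ.2)),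
      isLab_of_isLU ℓ.2⟩) ⟨?_, ?_⟩⟩
  · rintro ⟨ℓ, hℓ⟩ ⟨ℓ', hℓ'⟩ h
    have h1 : ∀ k, ℓ k - ℓ (finRotate (2 * n) 0) = ℓ' k - ℓ' (finRotate (2 * n) 0) := by
      intro k
      have := congrFun (congrArg Subtype.val h) ((finRotate (2 * n)).symm k)
      simpa using this
    obtain ⟨k, hk⟩ := hℓ.one
    obtain ⟨k', hk'⟩ := hℓ'.one
    have e1 := h1 k
    have e2 := h1 k'
    have p1 := hℓ.pos k'
    have p2 := hℓ'.pos k
    apply Subtype.ext
    funext j
    have := h1 j
    show ℓ j = ℓ' j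
    omega
  · rintro ⟨μ, hμB, hμ⟩
    obtain ⟨k0, _, hk0⟩ := Finset.exists_min_image Finset.univ μ ⟨0, Finset.mem_univ _⟩
    refine ⟨⟨_, isLU_of_isLab ha hμ (C := 1 - μ k0) ?_ ⟨k0, by ring⟩⟩, ?_⟩
    · intro k
      have := hk0 k (Finset.mem_univ _)
      omega
    · apply Subtype.ext
      funext i
      show μ ((finRotate (2 * n)).symm (finRotate (2 * n) i)) + (1 - μ k0) -
        (μ ((finRotate (2 * n)).symm (finRotate (2 * n) 0)) + (1 - μ k0)) = μ i
      rw [Equiv.symm_apply_apply, Equiv.symm_apply_apply, hμ.2.2]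
      ring

theorem oddWalk_corner {a : Perm (Fin (2 * n))} (ha : IsGluing a) (M : ℕ) :
    OddWalkC n a M ↔ OddWalk a (cyc a) M := by
  have hconj : ∀ x y, (finRotate (2 * n) * a).SameCycle (finRotate (2 * n) x) y ↔
      (sig a).SameCycle x (a y) := by
    intro x y
    have h1 : (finRotate (2 * n)) * a =
        (finRotate (2 * n)) * sig a * (finRotate (2 * n))⁻¹ := by
      unfold sig; group
    rw [h1, Perm.sameCycle_conj]
    have h2 : (sig a) ((finRotate (2 * n))⁻¹ y) = a y := by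
      show a (finRotate (2 * n) ((finRotate (2 * n)).symm y)) = a y
      rw [Equiv.apply_symm_apply]
    have h3 : (finRotate (2 * n))⁻¹ (finRotate (2 * n) x) = x :=
      (finRotate (2 * n)).symm_apply_apply x
    rw [h3, ← h2, Perm.sameCycle_apply_right]
  have hmap : ∀ (w : List (Fin (2 * n))) (e : Fin (2 * n)),
      (w.map a).countP (fun i => decide (i = e ∨ i = a e)) =
        w.countP (fun i => decide (i = e ∨ i = a e)) := by
    intro w e
    rw [List.countP_map]
    congr 1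
    funext i
    simp only [Function.comp]
    apply decide_eq_decide.2
    constructor
    · rintro (h | h)
      · right; rw [← h, (ha i).1]
      · left; exact a.injective h
    · rintro (h | h)
      · right; rw [h]
      · left; rw [h, (ha e).1]
  constructor
  · rintro ⟨w, hl, hc, e, he⟩
    refine ⟨w.map a, by simpa using hl, ?_, e, by rw [hmap]; exact he⟩
    rw [← Cycle.map_coe, Cycle.chain_map]
    refine hc.imp ?_
    intro i j hij
    show (sig a).SameCycle (a (a i)) (a j)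
    rw [(ha i).1]
    exact (hconj i j).1 hij
  · rintro ⟨w, hl, hc, e, he⟩
    refine ⟨w.map a, by simpa using hl, ?_, e, by rw [hmap]; exact he⟩
    rw [← Cycle.map_coe, Cycle.chain_map]
    refine hc.imp ?_
    intro i j hij
    rw [hconj, (ha j).1]
    exact hij

open Classical in
theorem card_pairs [NeZero (2 * n)] (g : ℕ) (P : Perm (Fin (2 * n)) → Prop) :
    Nat.card {x : Perm (Fin (2 * n)) × (Fin (2 * n) → ℤ) //
        IsLU n x.1 x.2 ∧ ncyc x.1 + 2 * g = n + 1 ∧ P x.1} =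
      ∑ a ∈ (Uni (2 * n) g).filter P, ((Box (2 * n)).filter (IsLab a (cyc a))).card := by
  have hmem : ∀ a, a ∈ (Uni (2 * n) g).filter P ↔
      (IsGluing a ∧ ncyc a + 2 * g = n + 1) ∧ P a := by
    intro a
    unfold Uni
    rw [Finset.mem_filter, Finset.mem_filter]
    have : 2 * n / 2 = n := by omega
    rw [this]
    simp
  have e : {x : Perm (Fin (2 * n)) × (Fin (2 * n) → ℤ) //
        IsLU n x.1 x.2 ∧ ncyc x.1 + 2 * g = n + 1 ∧ P x.1} ≃
      Σ a : {a : Perm (Fin (2 * n)) // a ∈ (Uni (2 * n) g).filter P},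
        {ℓ : Fin (2 * n) → ℤ // IsLU n a.1 ℓ} :=
    { toFun := fun x => ⟨⟨x.1.1, (hmem _).2 ⟨⟨x.2.1.gluing, x.2.2.1⟩, x.2.2.2⟩⟩, ⟨x.1.2, x.2.1⟩⟩
      invFun := fun y => ⟨(y.1.1, y.2.1), y.2.2, ((hmem _).1 y.1.2).1.2, ((hmem _).1 y.1.2).2⟩
      left_inv := fun x => rfl
      right_inv := fun y => rfl }
  have hc : ∀ a : {a : Perm (Fin (2 * n)) // a ∈ (Uni (2 * n) g).filter P},
      Nat.card {ℓ : Fin (2 * n) → ℤ // IsLU n a.1 ℓ} =
        ((Box (2 * n)).filter (IsLab a.1 (cyc a.1))).card := by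
    intro a
    obtain ⟨e'⟩ := equiv_lab ((hmem _).1 a.2).1.1
    rw [Nat.card_congr e', ← Nat.card_eq_finsetCard]
    exact Nat.card_congr (Equiv.subtypeEquivRight (fun μ => by rw [Finset.mem_filter]))
  have hfin : ∀ a : {a : Perm (Fin (2 * n)) // a ∈ (Uni (2 * n) g).filter P},
      Finite {ℓ : Fin (2 * n) → ℤ // IsLU n a.1 ℓ} := by
    intro a
    obtain ⟨e'⟩ := equiv_lab ((hmem _).1 a.2).1.1
    have : Finite {μ : Fin (2 * n) → ℤ // μ ∈ Box (2 * n) ∧ IsLab a.1 (cyc a.1) μ} :=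
      ((Box (2 * n)).finite_toSet.subset (fun μ hμ => hμ.1)).to_subtype
    exact Finite.of_equiv _ e'.symm
  rw [Nat.card_congr e, Nat.card_sigma]
  rw [← Finset.sum_coe_sort ((Uni (2 * n) g).filter P)
    (fun a => ((Box (2 * n)).filter (IsLab a (cyc a))).card)]
  exact Finset.sum_congr rfl (fun a _ => hc a)

end CornerAux

open CornerAux

theorem LL_corner (n g : ℕ) (hn : 0 < n) [NeZero (2 * n)] :
    (Nat.card {x : Perm (Fin (2 * n)) × (Fin (2 * n) → ℤ) //
        IsLU n x.1 x.2 ∧ ncyc x.1 + 2 * g = n + 1} : ℝ) = LL (2 * n) g (fun _ => 1) := by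
  classical
  have h := card_pairs (n := n) g (fun _ => True)
  have e : {x : Perm (Fin (2 * n)) × (Fin (2 * n) → ℤ) //
        IsLU n x.1 x.2 ∧ ncyc x.1 + 2 * g = n + 1} ≃
      {x : Perm (Fin (2 * n)) × (Fin (2 * n) → ℤ) //
        IsLU n x.1 x.2 ∧ ncyc x.1 + 2 * g = n + 1 ∧ True} :=
    Equiv.subtypeEquivRight (fun x => by simp)
  rw [Nat.card_congr e, h, Finset.filter_true]
  unfold LL
  push_cast
  refine Finset.sum_congr rfl (fun a _ => ?_)
  rw [Finset.sum_const, nsmul_eq_mul, mul_one]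

theorem GG_corner (n g M : ℕ) (hn : 0 < n) [NeZero (2 * n)] :
    (Nat.card {x : Perm (Fin (2 * n)) × (Fin (2 * n) → ℤ) //
        IsLU n x.1 x.2 ∧ ncyc x.1 + 2 * g = n + 1 ∧ ¬ OddWalkC n x.1 M} : ℝ) =
      GG (2 * n) M g (fun _ => 1) := by
  classical
  rw [card_pairs (n := n) g (fun a => ¬ OddWalkC n a M)]
  unfold GG
  rw [Finset.sum_filter]
  push_cast
  refine Finset.sum_congr rfl (fun a ha => ?_)
  have hg : IsGluing a := by
    unfold Uni at ha
    exact (Finset.mem_filter.1 ha).2.1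
  rw [Finset.sum_const, nsmul_eq_mul]
  by_cases ho : OddWalk a (cyc a) M
  · rw [if_neg (by rw [oddWalk_corner hg]; exact fun h => h ho), if_pos ho, mul_zero]
  · rw [if_pos (by rw [oddWalk_corner hg]; exact ho), if_neg ho, mul_one]

end Pool.Agent.Syst
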