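import Mathlib

/-!
# Systole of high genus quadrangulations: definitions

A map all of whose faces are squares is given by its set `D` of sides of squares, the permutation
`φ` (`φ d` is the side following `d` on the same oriented square) and the fixed point free
involution `α` (`α d` is the side glued to `d`, with the opposite orientation).
A side `d` is regarded as an oriented edge of the map, from its origin to its end; the origin of
`φ d` is the end of `d`, the origin of `α d` is the end of `d`, and `d` and `φ (α d)` have the same
origin.
-/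

namespace Pool.Agent.Syst

open Equiv Filter Topology

section Maps

variable {D : Type}

/-- All cycles of `φ` have length exactly four. -/
def IsSquares (φ : Perm D) : Prop := ∀ d, φ (φ (φ (φ d))) = d ∧ φ (φ d) ≠ d

/-- `α` is a fixed point free involution. -/
def IsGluing (α : Perm D) : Prop := ∀ d, α (α d) = d ∧ α d ≠ d

/-- The glued surface is connected. -/
def Conn (φ α : Perm D) : Prop :=
  ∀ d e, Relation.ReflTransGen (fun x y => y = φ x ∨ y = α x) d e

/-- The rotation about the origin of an oriented edge. -/
def rot (φ α : Perm D) : Perm D := φ * α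

/-- The oriented edges `d` and `e` have the same origin. -/
def SameVertex (φ α : Perm D) (d e : D) : Prop := (rot φ α).SameCycle d e

/-- Vertices are the cycles of the rotation. -/
def vertexSetoid (φ α : Perm D) : Setoid D := Perm.SameCycle.setoid (rot φ α)

/-- The number of vertices. -/
noncomputable def numVertices (φ α : Perm D) : ℕ := Nat.card (Quotient (vertexSetoid φ α))

/-- The vertices have a proper colouring with two colours; `c d` is the colour of the origin of
`d`. -/
def Bipartite (φ α : Perm D) : Prop :=
  ∃ c : D → Bool, (∀ d, c (rot φ α d) = c d) ∧ ∀ d, c (φ d) ≠ c d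

/-- A closed walk of the map, up to rotation: a cyclic sequence of oriented edges, each starting
where the previous one ends. -/
def IsClosedWalk (φ α : Perm D) (w : Cycle D) : Prop :=
  w.Chain (fun d e => SameVertex φ α (φ d) e)

/-- Elementary homotopy of closed walks: insertion of a spur `d, α d`, or of the boundary
`d, φ d, φ (φ d), φ (φ (φ d))` of a face. -/
def ElemMove (φ α : Perm D) (w w' : Cycle D) : Prop :=
  IsClosedWalk φ α w ∧ IsClosedWalk φ α w' ∧ ∃ (l : List D) (d : D), w = (l : Cycle D) ∧
    (w' = ((l ++ [d, α d] : List D) : Cycle D) ∨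
      w' = ((l ++ [d, φ d, φ (φ d), φ (φ (φ d))] : List D) : Cycle D))

/-- A closed walk is contractible if it can be deformed to the constant walk. -/
def Contractible (φ α : Perm D) (w : Cycle D) : Prop :=
  Relation.EqvGen (ElemMove φ α) w Cycle.nil

/-- The cycles of the map (simple closed curves): closed walks with pairwise distinct vertices
which use no edge in both directions. -/
structure IsCycle (φ α : Perm D) (w : List D) : Prop where
  ne : w ≠ []
  closed : IsClosedWalk φ α (w : Cycle D)
  simple : w.Pairwise (fun d e => ¬ SameVertex φ α d e)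
  noback : ∀ d ∈ w, α d ∉ w

/-- The systole: the least number of edges of a non-contractible cycle (`⊤` if there is none). -/
noncomputable def syst (φ α : Perm D) : ℕ∞ :=
  ⨅ w : {w : List D // IsCycle φ α w ∧ ¬ Contractible φ α (w : Cycle D)}, (w.1.length : ℕ∞)

end Maps

/-- `(φ, α)` is a bipartite quadrangulation of genus `g` with `n` faces
(on the `4 n` labelled sides `Fin (4 * n)`). Euler: `V - 2 n + n = 2 - 2 g`. -/
structure IsBipQuad (n g : ℕ) (φ α : Perm (Fin (4 * n))) : Prop where
  squares : IsSquares φ
  gluing : IsGluing α
  conn : Conn φ α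
  bip : Bipartite φ α
  genus : numVertices φ α + 2 * g = n + 2

/-- Labelled rooted quadrangulations: `(φ, α, r)`, the distinguished edge is `{r, α r}`. -/
def Lab (n g : ℕ) : Type :=
  {x : Perm (Fin (4 * n)) × Perm (Fin (4 * n)) × Fin (4 * n) // IsBipQuad n g x.1 x.2.1}

/-- Two labelled rooted quadrangulations are isomorphic if some relabelling of the sides carries
one onto the other and the distinguished edge onto the distinguished edge. -/
def LabIso {n g : ℕ} (x y : Lab n g) : Prop :=
  ∃ π : Perm (Fin (4 * n)), y.1.1 = π * x.1.1 * π⁻¹ ∧ y.1.2.1 = π * x.1.2.1 * π⁻¹ ∧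
    (π x.1.2.2 = y.1.2.2 ∨ π x.1.2.2 = y.1.2.1 y.1.2.2)

/-! ## Unicellular maps -/

section Uni

variable {N : ℕ}

/-- `a` is a gluing of the sides of an `N`-gon; the vertices of the resulting one-face map are the
cycles of `sig a`. -/
def sig (a : Perm (Fin N)) : Perm (Fin N) := a * finRotate N

/-- Half-edges with the same vertex. -/
def cyc (a : Perm (Fin N)) : Setoid (Fin N) := Perm.SameCycle.setoid (sig a)

noncomputable def ncyc (a : Perm (Fin N)) : ℕ := Nat.card (Quotient (cyc a))

open Classical in
/-- Unicellular maps with `N / 2` edges and genus `h`. -/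
noncomputable def Uni (N h : ℕ) : Finset (Perm (Fin N)) :=
  Finset.univ.filter (fun a => IsGluing a ∧ ncyc a + 2 * h = N / 2 + 1)

open Classical in
/-- The minimal half-edges of the vertices. -/
noncomputable def mins (a : Perm (Fin N)) : Finset (Fin N) :=
  Finset.univ.filter (fun x => ∀ y, (sig a).SameCycle x y → x ≤ y)

/-- Identify all vertices containing a half-edge of `S`. -/
def mergeS (a : Perm (Fin N)) (S : Finset (Fin N)) : Setoid (Fin N) where
  r x y := (sig a).SameCycle x y ∨
    ((∃ s ∈ S, (sig a).SameCycle s x) ∧ ∃ t ∈ S, (sig a).SameCycle t y)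
  iseqv := by
    refine ⟨fun x => Or.inl (Perm.SameCycle.refl _ _), ?_, ?_⟩
    · rintro x y (h | ⟨h1, h2⟩)
      · exact Or.inl h.symm
      · exact Or.inr ⟨h2, h1⟩
    · rintro x y z (h | ⟨h1, h2⟩) (h' | ⟨h1', h2'⟩)
      · exact Or.inl (h.trans h')
      · obtain ⟨s, hs, hs'⟩ := h1'
        exact Or.inr ⟨⟨s, hs, hs'.trans h.symm⟩, h2'⟩
      · obtain ⟨s, hs, hs'⟩ := h2
        exact Or.inr ⟨h1, ⟨s, hs, hs'.trans h'⟩⟩
      · exact Or.inr ⟨h1, h2'⟩

/-- The graph with half-edges `Fin N`, edges `{i, a i}` and vertices the classes of `s` has a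
closed walk with at most `M` steps which uses some edge an odd number of times. (A half-edge `i`
in a walk is a step from the class of `i` to the class of `a i`.) -/
def OddWalk (a : Perm (Fin N)) (s : Setoid (Fin N)) (M : ℕ) : Prop :=
  ∃ w : List (Fin N), w.length ≤ M ∧ (w : Cycle (Fin N)).Chain (fun i j => s (a i) j) ∧
    ∃ e : Fin N, Odd (w.countP (fun i => decide (i = e ∨ i = a e)))

end Uni

end Pool.Agent.Syst
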