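import Pool.Agent.Work.MP_e76ef6d3_pr.Defs

/-!
# Further common definitions (labels, corners, slicing, functionals)
-/

namespace Pool.Agent.Syst

open Equiv Filter Topology

/-! ## Labelled (pointed) quadrangulations -/

/-- `ℓ` is the labelling of a connected quadrangulation by the distances to a vertex:
`ℓ d` is the label of the origin of `d`. -/
structure IsPL {D : Type} (φ α : Perm D) (ℓ : D → ℤ) : Prop where
  squares : IsSquares φ
  gluing : IsGluing α
  conn : Conn φ α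
  lab : ∀ d, ℓ (rot φ α d) = ℓ d
  step : ∀ d, ℓ (φ d) = ℓ d + 1 ∨ ℓ (φ d) = ℓ d - 1
  root : ∃ d0, ℓ d0 = 0 ∧ (∀ d, SameVertex φ α d0 d → ℓ (φ d) = ℓ d + 1) ∧
    ∀ d, ¬ SameVertex φ α d0 d → ∃ e, SameVertex φ α d e ∧ ℓ (φ e) = ℓ e - 1

/-! ## Labelled one-face maps, corner version -/

/-- Corner version: the side `k` of the `2 n`-gon goes from corner `k` to corner
`finRotate (2 * n) k`, and is glued to the side `a k` (reversed); `ℓ k` is the label of the
corner `k`. -/
structure IsLU (n : ℕ) (a : Perm (Fin (2 * n))) (ℓ : Fin (2 * n) → ℤ) : Prop where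
  gluing : IsGluing a
  lab : ∀ k, ℓ (finRotate (2 * n) (a k)) = ℓ k
  step : ∀ k, |ℓ (finRotate (2 * n) k) - ℓ k| ≤ 1
  pos : ∀ k, 1 ≤ ℓ k
  one : ∃ k, ℓ k = 1

/-- The up-step (side) `j` is matched with the down-step (side) `i`: all corners strictly after
`j` up to `i` have labels `> ℓ j`, and the corner after `i` has label `ℓ j`. -/
def IsMatch (n : ℕ) (ℓ : Fin (2 * n) → ℤ) (j i : Fin (2 * n)) : Prop :=
  ∃ t : ℕ, 1 ≤ t ∧ ((finRotate (2 * n)) ^ t) j = i ∧ ℓ (finRotate (2 * n) i) = ℓ j ∧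
    ∀ s : ℕ, 1 ≤ s → s ≤ t → ℓ j + 1 ≤ ℓ (((finRotate (2 * n)) ^ s) j)

/-- `φ` is the face permutation of the closure of the labelled one-face map `(a, ℓ)`.
`inl k` is the arc from corner `k` (label `ℓ k`) down to its successor, `inr k` is its reversal. -/
structure IsClosing (n : ℕ) (a : Perm (Fin (2 * n))) (ℓ : Fin (2 * n) → ℤ)
    (φ : Perm (Fin (2 * n) ⊕ Fin (2 * n))) : Prop where
  flat : ∀ i, ℓ (finRotate (2 * n) i) = ℓ i →
    φ (Sum.inl (finRotate (2 * n) i)) = Sum.inr i ∧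
    φ (Sum.inr i) = Sum.inl (finRotate (2 * n) (a i))
  up : ∀ i, ℓ (finRotate (2 * n) i) = ℓ i + 1 →
    φ (Sum.inl (finRotate (2 * n) i)) = Sum.inl (finRotate (2 * n) (a i))
  down : ∀ i, ℓ (finRotate (2 * n) i) = ℓ i - 1 →
    φ (Sum.inr i) = Sum.inl (finRotate (2 * n) (a i))
  mtch : ∀ j i, IsMatch n ℓ j i →
    φ (Sum.inl (finRotate (2 * n) i)) = Sum.inr j ∧ φ (Sum.inr j) = Sum.inr i

/-- Exchange of an arc and its reversal. -/
def swp (n : ℕ) : Perm (Fin (2 * n) ⊕ Fin (2 * n)) := Equiv.sumComm _ _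

/-- Labels of the closure. -/
def slab (n : ℕ) (ℓ : Fin (2 * n) → ℤ) : Fin (2 * n) ⊕ Fin (2 * n) → ℤ :=
  Sum.elim ℓ (fun k => ℓ k - 1)

/-- Corner version of `OddWalk a (cyc a) M`: a closed walk which traverses sides (`i` is a step
from corner `i` to corner `finRotate (2 * n) i`). Vertices are the cycles of
`finRotate (2 * n) * a`. -/
def OddWalkC (n : ℕ) (a : Perm (Fin (2 * n))) (M : ℕ) : Prop :=
  ∃ w : List (Fin (2 * n)), w.length ≤ M ∧
    (w : Cycle (Fin (2 * n))).Chain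
      (fun i j => (finRotate (2 * n) * a).SameCycle (finRotate (2 * n) i) j) ∧
    ∃ e : Fin (2 * n), Odd (w.countP (fun i => decide (i = e ∨ i = a e)))

/-! ## Trisections -/

section Uni

variable {N : ℕ}

open Classical in
/-- Targets of down-steps. -/
noncomputable def DT (a : Perm (Fin N)) : Finset (Fin N) :=
  Finset.univ.filter (fun x => x ≤ (sig a)⁻¹ x)

open Classical in
/-- Targets of trisections. -/
noncomputable def TT (a : Perm (Fin N)) : Finset (Fin N) := DT a \ mins a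

/-- Exchange of the blocks `(x1, x2]` and `(x2, x3]`. -/
def blk (x1 x2 x3 : Fin N) : Perm (Fin N) :=
  if h : x1.1 < x2.1 ∧ x2.1 < x3.1 then
    { toFun := fun z =>
        ⟨if x2.1 < z.1 ∧ z.1 ≤ x3.1 then z.1 - (x2.1 - x1.1)
          else if x1.1 < z.1 ∧ z.1 ≤ x2.1 then z.1 + (x3.1 - x2.1) else z.1, by
          have := x3.2; have := z.2; split_ifs <;> omega⟩
      invFun := fun z =>
        ⟨if x1.1 < z.1 ∧ z.1 ≤ x1.1 + (x3.1 - x2.1) then z.1 + (x2.1 - x1.1)
          else if x1.1 + (x3.1 - x2.1) < z.1 ∧ z.1 ≤ x3.1 then z.1 - (x3.1 - x2.1) else z.1, by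
          have := x3.2; have := z.2; split_ifs <;> omega⟩
      left_inv := by
        intro z
        apply Fin.ext
        dsimp only
        split_ifs <;> omega
      right_inv := by
        intro z
        apply Fin.ext
        dsimp only
        split_ifs <;> omega }
  else 1

/-- Data for gluing three vertices: `x1 < x2` are the minima of two vertices, `x3` is the target of
a down-step of a third vertex, whose minimum is larger than `x2`. -/
def GlueOK (a : Perm (Fin N)) (x1 x2 x3 : Fin N) : Prop :=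
  IsGluing a ∧ x1 ∈ mins a ∧ x2 ∈ mins a ∧ x3 ∈ DT a ∧ x1 < x2 ∧
    ∀ y, (sig a).SameCycle x3 y → x2 < y

/-! ## Walk distance in a one-face map -/

/-- The vertices of `x` and `y` are at distance at most `r`. -/
def Near (a : Perm (Fin N)) : ℕ → Fin N → Fin N → Prop
  | 0, x, y => (sig a).SameCycle x y
  | r + 1, x, y => Near a r x y ∨ ∃ i, (sig a).SameCycle x i ∧ Near a r (a i) y

/-! ## Labelled one-face maps, half-edge version, and functionals of the label profile -/

/-- Box of labels. -/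
noncomputable def Box (N : ℕ) : Finset (Fin N → ℤ) :=
  Fintype.piFinset (fun _ => Finset.Icc (-(N : ℤ)) N)

/-- `μ` is a labelling of the graph with edges `{i, a i}` and vertices the classes of `s`, with
variation at most one along edges, normalised at `0`. -/
def IsLab [NeZero N] (a : Perm (Fin N)) (s : Setoid (Fin N)) (μ : Fin N → ℤ) : Prop :=
  (∀ x y, s x y → μ x = μ y) ∧ (∀ i, |μ i - μ (a i)| ≤ 1) ∧ μ 0 = 0

/-- Label profile: the number of vertices (classes of `s`) of each label. -/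
noncomputable def prof (s : Setoid (Fin N)) (μ : Fin N → ℤ) : ℤ → ℕ := fun b =>
  Nat.card {c : Quotient s // ∃ x, Quotient.mk s x = c ∧ μ x = b}

open Classical in
noncomputable def LL (N : ℕ) [NeZero N] (h : ℕ) (f : (ℤ → ℕ) → ℝ) : ℝ :=
  ∑ a ∈ Uni N h, ∑ μ ∈ (Box N).filter (IsLab a (cyc a)), f (prof (cyc a) μ)

open Classical in
noncomputable def GG (N : ℕ) [NeZero N] (M h : ℕ) (f : (ℤ → ℕ) → ℝ) : ℝ :=
  ∑ a ∈ Uni N h, ∑ μ ∈ (Box N).filter (IsLab a (cyc a)),
    if OddWalk a (cyc a) M then 0 else f (prof (cyc a) μ)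

/-- Transfer operator: glue `2 p + 1` vertices of equal label, with weight `q`. -/
noncomputable def Tr (N p : ℕ) (q : ℕ → ℝ) (f : (ℤ → ℕ) → ℝ) : (ℤ → ℕ) → ℝ := fun ν =>
  ∑ b ∈ Finset.Icc (-(N : ℤ)) N,
    q (ν b) * ((ν b).choose (2 * p + 1) : ℝ) * f (fun c => if c = b then ν c - 2 * p else ν c)

open Classical in
/-- The weight `1 - K0 / (2 m)`, `m = N / 2 + 1`, on large label classes. -/
noncomputable def qG (N K0 : ℕ) : ℕ → ℝ := fun k =>
  if 2 * (N / 2 + 1) ≤ K0 * k then 1 - (K0 : ℝ) / (2 * ((N / 2 + 1 : ℕ) : ℝ)) else 1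

open Classical in
/-- The weight `x` on good steps. -/
noncomputable def qY (N K0 P0 p : ℕ) (x : ℝ) : ℕ → ℝ := fun k =>
  if p ≤ P0 ∧ 2 * (N / 2 + 1) ≤ K0 * k then x else 1

/-- The weighted functionals. -/
noncomputable def YY (N : ℕ) [NeZero N] (K0 P0 : ℕ) (x : ℝ) : ℕ → ((ℤ → ℕ) → ℝ) → ℝ
  | 0 => fun f => LL N 0 f
  | h + 1 => fun f => (1 / (2 * ((h : ℝ) + 1))) *
      ∑ p : Fin (h + 1), YY N K0 P0 x (h - p.1) (Tr N (p.1 + 1) (qY N K0 P0 (p.1 + 1) x) f)
termination_by h => h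
decreasing_by omega

end Uni

end Pool.Agent.Syst
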