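import Pool.Agent.Work.MP_e76ef6d3_pr.Chapuy

/-! # Lower bound for unicellular maps, comparison of labelled and unlabelled maps -/

namespace Pool.Agent.Syst

open Equiv Filter Topology

section Uni

variable {N : ℕ}

namespace LowerAux

theorem uni_rec [NeZero N] (h : ℕ) :
    (2 * (h + 1 : ℕ) : ℝ) * ((Uni N (h + 1)).card : ℝ) ≥
      ((N / 2 + 1 - 2 * h).choose 3 : ℝ) * ((Uni N h).card : ℝ) := by
  have h1 := chapuy (N := N) (h + 1) (fun _ _ => 1) (fun _ _ _ _ => rfl)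
  simp only [Finset.sum_const, nsmul_eq_mul, mul_one, Finset.card_powersetCard] at h1
  rw [ge_iff_le, h1]
  have h2 : ∀ p ∈ Finset.Icc 1 (h + 1), (0 : ℝ) ≤
      ∑ a ∈ Uni N (h + 1 - p), (((mins a).card.choose (2 * p + 1) : ℕ) : ℝ) := by
    intro p _
    positivity
  refine le_trans ?_ (Finset.single_le_sum h2 (Finset.mem_Icc.2 ⟨le_rfl, by omega⟩))
  have h3 : ∀ a ∈ Uni N h, (((mins a).card.choose (2 * 1 + 1) : ℕ) : ℝ) =
      ((N / 2 + 1 - 2 * h).choose 3 : ℝ) := by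
    intro a ha
    have ha' : ncyc a + 2 * h = N / 2 + 1 := by
      simp only [Uni, Finset.mem_filter] at ha
      exact ha.2.2
    rw [card_mins]
    have : ncyc a = N / 2 + 1 - 2 * h := by omega
    rw [this]
  rw [show h + 1 - 1 = h from rfl, Finset.sum_congr rfl h3, Finset.sum_const, nsmul_eq_mul,
    mul_comm]

theorem choose_three (V : ℕ) (hV : 2 ≤ V) : (((V - 2 : ℕ) : ℝ)) ^ 3 / 6 ≤ (V.choose 3 : ℝ) := by
  obtain ⟨k, rfl⟩ : ∃ k, V = k + 2 := ⟨V - 2, by omega⟩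
  have h1 : (k + 2).choose 3 * 6 = (k + 2) * (k + 1) * k := by
    have h2 := Nat.descFactorial_eq_factorial_mul_choose (k + 2) 3
    have h3 : (k + 2).descFactorial 3 = (k + 2) * (k + 1) * k := by
      simp [Nat.descFactorial]
      ring
    rw [h3] at h2
    rw [h2]
    simp [Nat.factorial]
    ring
  have h2 : (((k + 2).choose 3 : ℕ) : ℝ) * 6 = (k + 2) * (k + 1) * k := by exact_mod_cast h1
  have hk : (0 : ℝ) ≤ k := by positivity
  rw [div_le_iff₀ (by norm_num), h2]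
  simp only [Nat.add_sub_cancel]
  nlinarith [mul_nonneg hk hk]

end LowerAux

open LowerAux

theorem uni_lower [NeZero N] (h : ℕ) {δ : ℝ} (hδ0 : 0 < δ)
    (hδ : δ * ((N / 2 + 1 : ℕ) : ℝ) ≤ ((N / 2 + 1 : ℕ) : ℝ) - 2 * h) :
    (δ ^ 3 / 12 * ((N / 2 + 1 : ℕ) : ℝ) ^ 3) ^ h / (h.factorial : ℝ) * ((Uni N 0).card : ℝ) ≤
      ((Uni N h).card : ℝ) := by
  induction h with
  | zero => simp
  | succ h ih =>
    have hm0 : (0 : ℝ) < ((N / 2 + 1 : ℕ) : ℝ) := by positivity
    set m : ℝ := ((N / 2 + 1 : ℕ) : ℝ) with hm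
    push_cast at hδ
    have ih' := ih (by linarith)
    have h1 := uni_rec (N := N) h
    have h2 : (2 * h + 2 : ℝ) ≤ m := by nlinarith [mul_pos hδ0 hm0]
    have h2' : 2 * h + 2 ≤ N / 2 + 1 := by
      have : ((2 * h + 2 : ℕ) : ℝ) ≤ ((N / 2 + 1 : ℕ) : ℝ) := by push_cast; rw [hm] at h2; exact_mod_cast h2
      exact_mod_cast this
    have h3 := choose_three (N / 2 + 1 - 2 * h) (by omega)
    have h4 : (((N / 2 + 1 - 2 * h - 2 : ℕ)) : ℝ) = m - 2 * (h + 1) := by
      rw [hm, show N / 2 + 1 - 2 * h - 2 = (N / 2 + 1) - 2 * (h + 1) by omega,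
        Nat.cast_sub (by omega)]
      push_cast
      ring
    rw [h4] at h3
    have h5 : (δ * m) ^ 3 ≤ (m - 2 * (h + 1)) ^ 3 := pow_le_pow_left₀ (by positivity) (by linarith) 3
    have h6 : (δ ^ 3 / 12 * m ^ 3) * ((Uni N h).card : ℝ) ≤ (h + 1) * ((Uni N (h + 1)).card : ℝ) := by
      have h7 : (δ * m) ^ 3 / 6 * ((Uni N h).card : ℝ) ≤
          ((N / 2 + 1 - 2 * h).choose 3 : ℝ) * ((Uni N h).card : ℝ) :=
        mul_le_mul_of_nonneg_right (by linarith) (by positivity)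
      have h8 := h7.trans h1
      push_cast at h8
      have h9 : (δ * m) ^ 3 / 6 = 2 * (δ ^ 3 / 12 * m ^ 3) := by ring
      rw [h9] at h8
      linarith
    have hf : (((h + 1).factorial : ℕ) : ℝ) = (h + 1) * (h.factorial : ℝ) := by
      rw [Nat.factorial_succ]; push_cast; ring
    have hf0 : (0 : ℝ) < (h.factorial : ℝ) := by positivity
    have hh0 : (0 : ℝ) < (h : ℝ) + 1 := by positivity
    rw [hf, pow_succ]
    have h10 : (δ ^ 3 / 12 * m ^ 3) ^ h * (δ ^ 3 / 12 * m ^ 3) / ((h + 1) * (h.factorial : ℝ)) *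
        ((Uni N 0).card : ℝ) = (δ ^ 3 / 12 * m ^ 3) / (h + 1) *
          ((δ ^ 3 / 12 * m ^ 3) ^ h / (h.factorial : ℝ) * ((Uni N 0).card : ℝ)) := by
      field_simp
    rw [h10]
    calc (δ ^ 3 / 12 * m ^ 3) / (h + 1) *
          ((δ ^ 3 / 12 * m ^ 3) ^ h / (h.factorial : ℝ) * ((Uni N 0).card : ℝ))
        ≤ (δ ^ 3 / 12 * m ^ 3) / (h + 1) * ((Uni N h).card : ℝ) :=
          mul_le_mul_of_nonneg_left ih' (by positivity)
      _ = (δ ^ 3 / 12 * m ^ 3) * ((Uni N h).card : ℝ) / (h + 1) := by ring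
      _ ≤ ((Uni N (h + 1)).card : ℝ) := by
          rw [div_le_iff₀ hh0]
          linarith

theorem LL_lower [NeZero N] (h : ℕ) : ((Uni N h).card : ℝ) ≤ LL N h (fun _ => 1) := by
  classical
  unfold LL
  rw [Finset.card_eq_sum_ones]
  push_cast
  refine Finset.sum_le_sum fun a _ => ?_
  rw [Finset.sum_const, nsmul_eq_mul, mul_one]
  have h1 : (fun _ => 0 : Fin N → ℤ) ∈ (Box N).filter (IsLab a (cyc a)) := by
    rw [Finset.mem_filter]
    refine ⟨?_, fun _ _ _ => rfl, fun i => by simp, rfl⟩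
    simp [Box]
  have h2 : 0 < ((Box N).filter (IsLab a (cyc a))).card := Finset.card_pos.2 ⟨_, h1⟩
  exact_mod_cast h2

theorem LL_zero_upper [NeZero N] :
    LL N 0 (fun _ => 1) ≤ 3 ^ N * ((Uni N 0).card : ℝ) := by
  classical
  unfold LL
  rw [mul_comm, ← nsmul_eq_mul, ← Finset.sum_const]
  refine Finset.sum_le_sum fun a _ => ?_
  rw [Finset.sum_const, nsmul_eq_mul, mul_one]
  -- a labelling is determined by its increments
  let F : (Fin N → ℤ) → (Fin N → ℤ) := fun μ i => μ (finRotate N i) - μ i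
  have hmaps : ∀ μ ∈ (Box N).filter (IsLab a (cyc a)),
      F μ ∈ Fintype.piFinset (fun _ : Fin N => Finset.Icc (-1 : ℤ) 1) := by
    intro μ hμ
    rw [Finset.mem_filter] at hμ
    obtain ⟨_, h1, h2, _⟩ := hμ
    rw [Fintype.mem_piFinset]
    intro i
    have h3 : μ (sig a i) = μ i := by
      apply h1
      exact ⟨-1, by simp⟩
    have h4 := h2 (finRotate N i)
    have h5 : a (finRotate N i) = sig a i := rfl
    rw [h5, h3] at h4
    rw [Finset.mem_Icc]
    exact abs_le.1 h4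
  have hinj : Set.InjOn F ((Box N).filter (IsLab a (cyc a)) : Set (Fin N → ℤ)) := by
    intro μ hμ ν hν hF
    rw [Finset.mem_coe, Finset.mem_filter] at hμ hν
    have h0 : μ 0 = ν 0 := by rw [hμ.2.2.2, hν.2.2.2]
    have h1 : ∀ i : Fin N, μ (finRotate N i) - μ i = ν (finRotate N i) - ν i := fun i =>
      congrFun hF i
    have h2 : ∀ k : ℕ, ∀ hk : k < N, μ ⟨k, hk⟩ = ν ⟨k, hk⟩ := by
      intro k
      induction k with
      | zero => intro hk; exact h0
      | succ k ih =>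
        intro hk
        have h3 := h1 ⟨k, by omega⟩
        have h4 : finRotate N ⟨k, by omega⟩ = ⟨k + 1, hk⟩ := by
          obtain ⟨N', rfl⟩ : ∃ N', N = N' + 1 := ⟨N - 1, by omega⟩
          rw [finRotate_of_lt (by omega)]
        rw [h4, ih (by omega)] at h3
        linarith
    funext i
    exact h2 i.1 i.2
  have hcard := Finset.card_le_card_of_injOn F hmaps hinj
  rw [Fintype.card_piFinset] at hcard
  simp only [Int.card_Icc, Finset.prod_const, Finset.card_univ, Fintype.card_fin] at hcard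
  have h3 : ((1 : ℤ) + 1 - (-1)).toNat = 3 := rfl
  rw [h3] at hcard
  exact_mod_cast hcard

end Uni

end Pool.Agent.Syst
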