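import Pool.Agent.Work.MP_e76ef6d3_pr.Induct
import Pool.Agent.Work.MP_e76ef6d3_pr.Lower

/-! # Choice of the constants -/

namespace Pool.Agent.Syst

open Equiv Filter Topology

namespace NumericAux

/-- Constants `y`, `P0`, `x`. -/
theorem exists_P0 {y : ℝ} (hy : 0 < y) :
    ∃ P0 : ℕ, ∀ p : ℕ, P0 < p → (2 : ℝ) ^ p ≤ y ^ p * ((2 * p + 1).factorial : ℝ) := by
  have h := FloorSemiring.tendsto_pow_div_factorial_atTop (2 / y)
  have h1 : ∀ᶠ n : ℕ in atTop, (2 / y) ^ n / (n.factorial : ℝ) < 1 :=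
    h.eventually (gt_mem_nhds (by norm_num))
  obtain ⟨P0, hP0⟩ := eventually_atTop.1 h1
  refine ⟨P0, fun p hp => ?_⟩
  have h2 := hP0 p hp.le
  have hfac : (0 : ℝ) < (p.factorial : ℝ) := by positivity
  rw [div_lt_one hfac, div_pow, div_lt_iff₀ (by positivity)] at h2
  have h3 : (p.factorial : ℝ) ≤ ((2 * p + 1).factorial : ℝ) := by
    exact_mod_cast Nat.factorial_le (by omega)
  have h4 : (0 : ℝ) < y ^ p := by positivity
  nlinarith

theorem exp_bound {K0 J n : ℕ} (hJ : 1 ≤ J) (hn : 2 * J ≤ n) (hK0n : K0 ≤ 2 * (n + 1)) :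
    (1 - (K0 : ℝ) / (2 * ((n + 1 : ℕ) : ℝ))) ^ (n / J) ≤ Real.exp (-((K0 : ℝ) / (8 * J))) := by
  have hn0 : (0 : ℝ) < ((n + 1 : ℕ) : ℝ) := by positivity
  have hJ0 : (0 : ℝ) < (J : ℝ) := by exact_mod_cast hJ
  have h0 : 0 ≤ 1 - (K0 : ℝ) / (2 * ((n + 1 : ℕ) : ℝ)) := by
    have : (K0 : ℝ) / (2 * ((n + 1 : ℕ) : ℝ)) ≤ 1 := by
      rw [div_le_one (by positivity)]
      exact_mod_cast hK0n
    linarith
  have h1 : 1 - (K0 : ℝ) / (2 * ((n + 1 : ℕ) : ℝ)) ≤
      Real.exp (-((K0 : ℝ) / (2 * ((n + 1 : ℕ) : ℝ)))) := by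
    have := Real.add_one_le_exp (-((K0 : ℝ) / (2 * ((n + 1 : ℕ) : ℝ))))
    linarith
  have h2 : (1 - (K0 : ℝ) / (2 * ((n + 1 : ℕ) : ℝ))) ^ (n / J) ≤
      Real.exp (-((K0 : ℝ) / (2 * ((n + 1 : ℕ) : ℝ)))) ^ (n / J) := pow_le_pow_left₀ h0 h1 _
  refine h2.trans ?_
  rw [← Real.exp_nat_mul]
  have h3 : ((n + 1 : ℕ) : ℝ) ≤ 4 * J * ((n / J : ℕ) : ℝ) := by
    have h4 : n + 1 ≤ 4 * J * (n / J) := by
      have h5 : n < J * (n / J) + J := by
        have := Nat.div_add_mod n J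
        have := Nat.mod_lt n (show 0 < J by omega)
        omega
      have h6 : 2 ≤ n / J := by
        rw [Nat.le_div_iff_mul_le (by omega)]
        exact hn
      have h7 : J * 2 ≤ J * (n / J) := Nat.mul_le_mul_left _ h6
      have h8 : 4 * J * (n / J) = J * (n / J) + 3 * (J * (n / J)) := by ring
      omega
    exact_mod_cast h4
  have hK0' : (0 : ℝ) ≤ K0 := by positivity
  have h10 : (K0 : ℝ) / (8 * J) ≤
      ((n / J : ℕ) : ℝ) * ((K0 : ℝ) / (2 * ((n + 1 : ℕ) : ℝ))) := by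
    rw [← mul_div_assoc, div_le_div_iff₀ (by positivity) (by positivity)]
    nlinarith [mul_le_mul_of_nonneg_left h3 hK0']
  apply Real.exp_le_exp.2
  linarith

/-- The basic estimate. -/
theorem core (θ δ : ℝ) (hθ : 0 < θ) (hδ : 0 < δ) :
    ∃ J K1 : ℕ, 1 ≤ J ∧ 1 ≤ K1 ∧ ∀ n K0 M g : ℕ, 2 * J ≤ n → K1 ≤ K0 → K0 ≤ M / 2 + 1 →
      K0 + 2 * g ≤ n + 1 → θ * n ≤ g → δ * n ≤ n - 2 * g → ∀ [NeZero (2 * n)],
      GG (2 * n) M g (fun _ => 1) ≤
        (Real.exp (-((K0 : ℝ) / (8 * J))) + (1 / 2 : ℝ) ^ n) * LL (2 * n) g (fun _ => 1) := by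
  obtain ⟨L, hL⟩ := exists_nat_ge (1 / θ)
  set δ' : ℝ := min δ 1 with hδ'
  have hδ'0 : 0 < δ' := lt_min hδ one_pos
  have hδ'1 : δ' ≤ 1 := min_le_right _ _
  have hδ'δ : δ' ≤ δ := min_le_left _ _
  set c : ℝ := (1 / 36 : ℝ) ^ L with hc
  have hc0 : 0 < c := by positivity
  have hc1 : c ≤ 1 := pow_le_one₀ (by norm_num) (by norm_num)
  set y : ℝ := δ' ^ 3 / 12 * c with hy
  have hy0 : 0 < y := by positivity
  have hy1 : y ≤ 1 := by
    have h1 : δ' ^ 3 ≤ 1 := pow_le_one₀ hδ'0.le hδ'1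
    have h2 : δ' ^ 3 / 12 ≤ 1 := by linarith
    exact mul_le_one₀ h2 hc0.le hc1
  obtain ⟨P0, hP0⟩ := exists_P0 hy0
  set x : ℝ := y ^ P0 with hx
  have hx0 : 0 < x := by positivity
  have hx1 : x ≤ 1 := pow_le_one₀ hy0.le hy1
  obtain ⟨J, hJ⟩ : ∃ J : ℕ, 1 ≤ J ∧ x⁻¹ ≤ 2 ^ J := by
    obtain ⟨J, hJ⟩ := pow_unbounded_of_one_lt (x⁻¹) (show (1 : ℝ) < 2 by norm_num)
    refine ⟨J + 1, by omega, hJ.le.trans ?_⟩
    exact pow_le_pow_right₀ (by norm_num) (by omega)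
  obtain ⟨K1, hK1⟩ : ∃ K1 : ℕ, 1 ≤ K1 ∧ 4 / y ≤ K1 := by
    obtain ⟨k, hk⟩ := exists_nat_ge (4 / y)
    refine ⟨k + 1, by omega, ?_⟩
    push_cast; linarith
  obtain ⟨hK11, hK12⟩ := hK1
  refine ⟨J, K1, hJ.1, hK11, fun n K0 M g hn hK1 hKM hV hg1 hg2 hne => ?_⟩
  have hK01 : 1 ≤ K0 := hK11.trans hK1
  have hK02 : 4 / y ≤ K0 := hK12.trans (by exact_mod_cast hK1)
  have hNn : 2 * n / 2 + 1 = n + 1 := by omega
  have hn0 : (0 : ℝ) < n := by
    have : 0 < n := by omega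
    exact_mod_cast this
  have hV : K0 + 2 * g ≤ 2 * n / 2 + 1 := by
    rw [hNn]
    exact hV
  have hgn : g ≤ 2 * n / 2 + 1 := by omega
  have hLg : n ≤ L * g := by
    have h1 : (n : ℝ) ≤ L * g := by
      have h2 : 1 ≤ L * θ := by
        rw [div_le_iff₀ hθ] at hL
        exact hL
      calc (n : ℝ) = 1 * n := by ring
        _ ≤ L * θ * n := mul_le_mul_of_nonneg_right h2 hn0.le
        _ = L * (θ * n) := by ring
        _ ≤ L * g := mul_le_mul_of_nonneg_left hg1 (by positivity)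
    exact_mod_cast h1
  -- the bound on `YY`
  have hYY : YY (2 * n) K0 P0 x g (fun _ => 1) ≤
      (1 / 4 : ℝ) ^ n * LL (2 * n) g (fun _ => 1) := by
    have h1 := YY_bound (N := 2 * n) (K0 := K0) (P0 := P0) hx0 hx1 hy0 hy1 hK01 le_rfl
      (by
        rw [div_le_iff₀ hy0] at hK02
        have h3 : (1 : ℝ) ≤ K0 := by exact_mod_cast hK01
        nlinarith) hP0 g hgn
    rw [hNn] at h1
    refine h1.trans ?_
    have h2 := LL_zero_upper (N := 2 * n)
    have h3 := uni_lower (N := 2 * n) g hδ'0 (by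
      rw [hNn]
      push_cast
      nlinarith)
    rw [hNn] at h3
    have h4 := LL_lower (N := 2 * n) g
    have hm0 : (0 : ℝ) < ((n + 1 : ℕ) : ℝ) := by positivity
    set m : ℝ := ((n + 1 : ℕ) : ℝ) with hm
    have hU0 : (0 : ℝ) ≤ ((Uni (2 * n) 0).card : ℝ) := by positivity
    have h5 : (y * m ^ 3) ^ g = c ^ g * (δ' ^ 3 / 12 * m ^ 3) ^ g := by
      rw [← mul_pow]; congr 1; rw [hy]; ring
    have h6 : c ^ g ≤ (1 / 36 : ℝ) ^ n := by
      rw [hc, ← pow_mul]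
      exact pow_le_pow_of_le_one (by norm_num) (by norm_num) hLg
    calc LL (2 * n) 0 (fun _ => 1) * (y * m ^ 3) ^ g / (g.factorial : ℝ)
        ≤ (3 ^ (2 * n) * ((Uni (2 * n) 0).card : ℝ)) * (y * m ^ 3) ^ g / (g.factorial : ℝ) := by
          gcongr
      _ = (9 : ℝ) ^ n * c ^ g * ((δ' ^ 3 / 12 * m ^ 3) ^ g / (g.factorial : ℝ) *
            ((Uni (2 * n) 0).card : ℝ)) := by
          rw [h5, pow_mul]; norm_num; ring
      _ ≤ (9 : ℝ) ^ n * (1 / 36 : ℝ) ^ n * LL (2 * n) g (fun _ => 1) := by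
          have h7 : (δ' ^ 3 / 12 * m ^ 3) ^ g / (g.factorial : ℝ) *
            ((Uni (2 * n) 0).card : ℝ) ≤ LL (2 * n) g (fun _ => 1) := h3.trans h4
          have h8 : 0 ≤ (δ' ^ 3 / 12 * m ^ 3) ^ g / (g.factorial : ℝ) *
            ((Uni (2 * n) 0).card : ℝ) := by positivity
          have h9 : (9 : ℝ) ^ n * c ^ g ≤ (9 : ℝ) ^ n * (1 / 36 : ℝ) ^ n := by gcongr
          exact mul_le_mul h9 h7 h8 (by positivity)
      _ = (1 / 4 : ℝ) ^ n * LL (2 * n) g (fun _ => 1) := by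
          rw [← mul_pow]; norm_num
  -- the main inequality
  have hLL0 : 0 ≤ LL (2 * n) g (fun _ => 1) := le_trans (by positivity) (LL_lower (N := 2 * n) g)
  have hmain := main_ineq (N := 2 * n) (K0 := K0) (P0 := P0) (M := M) hx0 hx1 hK01
    (by omega) (by omega) (n / J) g hV (fun _ => (1 : ℝ)) (fun _ => zero_le_one)
  rw [hNn] at hmain
  have h1 := exp_bound (K0 := K0) (J := J) (n := n) hJ.1 hn (by omega)
  have h2 : x⁻¹ ^ (n / J) ≤ 2 ^ n := by
    calc x⁻¹ ^ (n / J) ≤ (2 ^ J : ℝ) ^ (n / J) := pow_le_pow_left₀ (by positivity) hJ.2 _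
      _ = 2 ^ (J * (n / J)) := by rw [pow_mul]
      _ ≤ 2 ^ n := pow_le_pow_right₀ (by norm_num) (Nat.mul_div_le n J)
  calc GG (2 * n) M g (fun _ => 1)
      ≤ (1 - (K0 : ℝ) / (2 * ((n + 1 : ℕ) : ℝ))) ^ (n / J) * LL (2 * n) g (fun _ => 1) +
        x⁻¹ ^ (n / J) * YY (2 * n) K0 P0 x g (fun _ => 1) := hmain
    _ ≤ Real.exp (-((K0 : ℝ) / (8 * J))) * LL (2 * n) g (fun _ => 1) +
        2 ^ n * ((1 / 4 : ℝ) ^ n * LL (2 * n) g (fun _ => 1)) := by
        refine add_le_add (mul_le_mul_of_nonneg_right h1 hLL0) ?_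
        refine mul_le_mul_of_nonneg_left hYY (by positivity) |>.trans ?_
        exact mul_le_mul_of_nonneg_right h2 (by positivity)
    _ = (Real.exp (-((K0 : ℝ) / (8 * J))) + (1 / 2 : ℝ) ^ n) * LL (2 * n) g (fun _ => 1) := by
        rw [← mul_assoc, ← mul_pow]; norm_num; ring

end NumericAux

open NumericAux

/-- Exponential tail of the girth of labelled one-face maps of large genus. -/
theorem girth_tail (θ δ : ℝ) (hθ : 0 < θ) (hδ : 0 < δ) :
    ∃ C c : ℝ, 0 < C ∧ 0 < c ∧ ∀ n : ℕ, 1 ≤ n → ∀ [NeZero (2 * n)], ∀ g M : ℕ,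
      θ * n ≤ g → δ * n ≤ n - 2 * g →
      GG (2 * n) M g (fun _ => 1) ≤
        C * Real.exp (-(c * min (M : ℝ) n)) * LL (2 * n) g (fun _ => 1) := by
  obtain ⟨J, K1, hJ, hK1, h⟩ := core θ δ hθ hδ
  have hJ0 : (0 : ℝ) < J := by exact_mod_cast hJ
  set δ' : ℝ := min δ (1 / 2) with hδ'
  have hδ'0 : 0 < δ' := lt_min hδ (by norm_num)
  have hδ'1 : δ' ≤ 1 / 2 := min_le_right _ _
  have hδ'δ : δ' ≤ δ := min_le_left _ _
  -- below the threshold `B` there is nothing to prove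
  obtain ⟨B, hB⟩ := exists_nat_ge (((K1 : ℝ) + 1) / δ' + 2 * K1 + 2 * J)
  have hlog : 0 < Real.log 2 := Real.log_pos (by norm_num)
  set c : ℝ := min (δ' / (8 * J)) (Real.log 2) with hc
  have hc0 : 0 < c := lt_min (by positivity) hlog
  have hc1 : c ≤ δ' / (8 * J) := min_le_left _ _
  have hc2 : c ≤ Real.log 2 := min_le_right _ _
  refine ⟨Real.exp (c * B) + Real.exp (1 / (8 * J)) + 1, c, by positivity, hc0,
    fun n hn hne g M hg1 hg2 => ?_⟩
  have hLL0 : 0 ≤ LL (2 * n) g (fun _ => 1) := le_trans (by positivity) (LL_lower (N := 2 * n) g)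
  have hn0 : (0 : ℝ) < n := by exact_mod_cast hn
  have hM0 : (0 : ℝ) ≤ M := by positivity
  by_cases hsmall : min (M : ℝ) n ≤ B
  · have h1 := InductAux.GG_le_LL (N := 2 * n) M g (f := fun _ => (1 : ℝ)) (fun _ => zero_le_one)
    refine h1.trans ?_
    have h2 : 1 ≤ (Real.exp (c * B) + Real.exp (1 / (8 * J)) + 1) *
        Real.exp (-(c * min (M : ℝ) n)) := by
      have h3 : 1 ≤ Real.exp (c * B) * Real.exp (-(c * min (M : ℝ) n)) := by
        rw [← Real.exp_add]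
        apply Real.one_le_exp
        nlinarith
      have h4 : 0 < Real.exp (1 / (8 * J) : ℝ) * Real.exp (-(c * min (M : ℝ) n)) := by positivity
      have h5 : 0 < Real.exp (-(c * min (M : ℝ) n)) := by positivity
      linarith
    nlinarith
  · push Not at hsmall
    have hMB : (B : ℝ) < M := lt_of_lt_of_le hsmall (min_le_left _ _)
    have hnB : (B : ℝ) < n := lt_of_lt_of_le hsmall (min_le_right _ _)
    have hK1' : (0 : ℝ) < ((K1 : ℝ) + 1) / δ' := by positivity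
    have hnJ : 2 * J ≤ n := by
      have : (2 * J : ℝ) ≤ n := by
        have : (0 : ℝ) ≤ K1 := by positivity
        linarith
      exact_mod_cast this
    have hMK : 2 * K1 ≤ M := by
      have : (2 * K1 : ℝ) ≤ M := by
        have : (0 : ℝ) ≤ J := by positivity
        linarith
      exact_mod_cast this
    have hnK : (K1 : ℝ) + 1 ≤ δ' * n := by
      have h1 : ((K1 : ℝ) + 1) / δ' ≤ n := by
        have h2 : (0 : ℝ) ≤ K1 := by positivity
        linarith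
      rw [div_le_iff₀ hδ'0] at h1
      linarith
    set K0 : ℕ := min (M / 2 + 1) ⌊δ' * n⌋₊ with hK0
    have hK01 : K1 ≤ K0 := by
      rw [hK0, le_min_iff]
      refine ⟨by omega, Nat.le_floor (by linarith)⟩
    have hK02 : K0 ≤ M / 2 + 1 := min_le_left _ _
    have hfl : (⌊δ' * n⌋₊ : ℝ) ≤ δ' * n := Nat.floor_le (by positivity)
    have hK03 : K0 + 2 * g ≤ n + 1 := by
      have h1 : (K0 : ℝ) ≤ (⌊δ' * n⌋₊ : ℝ) := by exact_mod_cast min_le_right _ _
      have h2 : (K0 : ℝ) + 2 * g ≤ n + 1 := by nlinarith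
      exact_mod_cast h2
    have hmain := h n K0 M g hnJ hK01 hK02 hK03 hg1 hg2
    refine hmain.trans (mul_le_mul_of_nonneg_right ?_ hLL0)
    have hK04 : δ' * min (M : ℝ) n - 1 ≤ K0 := by
      have hfl2 : δ' * n < (⌊δ' * n⌋₊ : ℝ) + 1 := Nat.lt_floor_add_one _
      have hM2 : (M : ℝ) < 2 * ((M / 2 + 1 : ℕ) : ℝ) := by
        have : M < 2 * (M / 2 + 1) := by omega
        exact_mod_cast this
      have h1 : min (M : ℝ) n ≤ M := min_le_left _ _
      have h2 : min (M : ℝ) n ≤ n := min_le_right _ _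
      have h0 : 0 ≤ min (M : ℝ) n := le_min hM0 hn0.le
      rcases min_choice (M / 2 + 1) ⌊δ' * n⌋₊ with h3 | h3
      · rw [← hK0] at h3
        rw [h3]
        nlinarith
      · rw [← hK0] at h3
        rw [h3]
        nlinarith
    have h0 : 0 ≤ min (M : ℝ) n := le_min hM0 hn0.le
    have hA : Real.exp (-((K0 : ℝ) / (8 * J))) ≤
        Real.exp (1 / (8 * J)) * Real.exp (-(c * min (M : ℝ) n)) := by
      rw [← Real.exp_add]
      apply Real.exp_le_exp.2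
      have h1 : c * min (M : ℝ) n ≤ δ' / (8 * J) * min (M : ℝ) n :=
        mul_le_mul_of_nonneg_right hc1 h0
      have h2 : (δ' * min (M : ℝ) n - 1) / (8 * J) ≤ (K0 : ℝ) / (8 * J) := by gcongr
      have h3 : (δ' * min (M : ℝ) n - 1) / (8 * J) = δ' / (8 * J) * min (M : ℝ) n - 1 / (8 * J) := by
        ring
      linarith
    have hB' : (1 / 2 : ℝ) ^ n ≤ Real.exp (-(c * min (M : ℝ) n)) := by
      have h1 : (1 / 2 : ℝ) ^ n = Real.exp (-(Real.log 2 * n)) := by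
        have h2 : (1 / 2 : ℝ) = Real.exp (-(Real.log 2)) := by
          rw [Real.exp_neg, Real.exp_log (by norm_num)]
          norm_num
        rw [h2, ← Real.exp_nat_mul]
        congr 1
        ring
      rw [h1]
      apply Real.exp_le_exp.2
      have h2 : min (M : ℝ) n ≤ n := min_le_right _ _
      have h3 : c * min (M : ℝ) n ≤ Real.log 2 * n := mul_le_mul hc2 h2 h0 hlog.le
      linarith
    have hC : 0 < Real.exp (c * B) * Real.exp (-(c * min (M : ℝ) n)) := by positivity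
    linarith

end Pool.Agent.Syst
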