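import Pool.Agent.Work.MP_e76ef6d3_pr.Defs2

/-!
# Planar one-face maps exist
-/

namespace Pool.Agent.Syst

open Equiv Filter Topology

namespace PlanarAux

/-- The gluing `i ↔ 2 n - 1 - i`. -/
def rv (n : ℕ) : Perm (Fin (2 * n)) := Fin.revPerm

lemma rv_gluing (n : ℕ) : IsGluing (rv n) := by
  intro d
  refine ⟨?_, ?_⟩
  · simp [rv]
  · intro h
    have := congrArg Fin.val h
    simp only [rv, Fin.revPerm_apply, Fin.val_rev] at this
    omega

lemma sig_rv_val {n : ℕ} (i : Fin (2 * n)) :
    (sig (rv n) i).val = if i.val + 1 = 2 * n then i.val else 2 * n - 2 - i.val := by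
  obtain ⟨m, hm⟩ : ∃ m, 2 * n = m + 1 := ⟨2 * n - 1, by have := i.2; omega⟩
  have key : ∀ (N : ℕ) (hN : N = m + 1) (i : Fin N),
      (((Fin.revPerm : Perm (Fin N)) * finRotate N) i).val =
        if i.val + 1 = N then i.val else N - 2 - i.val := by
    intro N hN
    subst hN
    intro i
    rw [Perm.mul_apply, Fin.revPerm_apply, Fin.val_rev, finRotate_succ_apply]
    by_cases h : i.val + 1 = m + 1
    · have : i = Fin.last m := Fin.ext (by simpa using h)
      subst this
      simp
    · have hlt : i < Fin.last m := by
        rw [Fin.lt_def, Fin.val_last]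
        have := i.2
        omega
      rw [Fin.val_add_one_of_lt hlt, if_neg h]
      have := i.2
      omega
  exact key (2 * n) hm i

lemma sig_rv_invol {n : ℕ} (i : Fin (2 * n)) : sig (rv n) (sig (rv n) i) = i := by
  apply Fin.ext
  have := i.2
  rw [sig_rv_val, sig_rv_val]
  split_ifs <;> omega

lemma sameCycle_rv {n : ℕ} (x y : Fin (2 * n)) :
    (sig (rv n)).SameCycle x y ↔ x = y ∨ sig (rv n) x = y := by
  constructor
  · rintro ⟨k, hk⟩
    have h2 : sig (rv n) * sig (rv n) = 1 := by
      ext z
      simp [sig_rv_invol]
    have hz2 : (sig (rv n)) ^ (2 : ℤ) = 1 := by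
      rw [zpow_ofNat, pow_two, h2]
    rcases Int.even_or_odd' k with ⟨j, hj | hj⟩
    · left
      rw [hj, zpow_mul, hz2, one_zpow] at hk
      simpa using hk
    · right
      rw [hj, zpow_add, zpow_mul, hz2, one_zpow, one_mul, zpow_one] at hk
      exact hk
  · rintro (h | h)
    · exact h ▸ Perm.SameCycle.refl _ _
    · exact ⟨1, by simpa using h⟩

/-- The vertex number. -/
def fv (n : ℕ) (i : Fin (2 * n)) : Fin (n + 1) :=
  ⟨if i.val + 1 = 2 * n then n else if i.val < n then i.val else 2 * n - 2 - i.val, by
    have := i.2
    split_ifs <;> omega⟩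

lemma fv_inv {n : ℕ} (i : Fin (2 * n)) : fv n (sig (rv n) i) = fv n i := by
  apply Fin.ext
  have := i.2
  simp only [fv]
  rw [sig_rv_val]
  split_ifs <;> omega

lemma ncyc_rv {n : ℕ} (hn : 0 < n) : ncyc (rv n) = n + 1 := by
  have e : Quotient (cyc (rv n)) ≃ Fin (n + 1) :=
    { toFun := Quotient.lift (fv n) (by
        intro x y h
        have h' : (sig (rv n)).SameCycle x y := h
        rcases (sameCycle_rv x y).1 h' with h | h
        · rw [h]
        · rw [← h, fv_inv])
      invFun := fun j => Quotient.mk (cyc (rv n))
        ⟨if j.val = n then 2 * n - 1 else j.val, by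
          have := j.2
          split_ifs <;> omega⟩
      left_inv := by
        intro q
        induction q using Quotient.inductionOn with
        | h x =>
          apply Quotient.sound
          change (sig (rv n)).SameCycle _ x
          rw [sameCycle_rv]
          have hx := x.2
          by_cases h1 : x.val + 1 = 2 * n
          · left
            apply Fin.ext
            simp only [Quotient.lift_mk, fv, if_pos h1]
            simp
            omega
          · by_cases h2 : x.val < n
            · left
              apply Fin.ext
              simp only [Quotient.lift_mk, fv, if_neg h1, if_pos h2]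
              split_ifs <;> omega
            · right
              apply Fin.ext
              rw [sig_rv_val]
              simp only [Quotient.lift_mk, fv, if_neg h1, if_neg h2]
              split_ifs <;> omega
      right_inv := by
        intro j
        apply Fin.ext
        have := j.2
        simp only [Quotient.lift_mk, fv]
        split_ifs <;> omega }
  rw [ncyc, Nat.card_congr e, Nat.card_eq_fintype_card, Fintype.card_fin]

end PlanarAux

theorem uni_zero_pos (n : ℕ) (hn : 0 < n) : 0 < (Uni (2 * n) 0).card := by
  classical
  rw [Finset.card_pos]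
  refine ⟨PlanarAux.rv n, ?_⟩
  simp only [Uni, Finset.mem_filter, Finset.mem_univ, true_and]
  refine ⟨PlanarAux.rv_gluing n, ?_⟩
  rw [PlanarAux.ncyc_rv hn]
  omega

end Pool.Agent.Syst
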