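import Pool.Agent.Work.MP_e76ef6d3_pr.Defs2

/-!
Module P: distance labellings correspond to the choice of a vertex.
-/

namespace Pool.Agent.Syst

open Equiv Filter Topology

namespace PointedAux

variable {D : Type} {φ α : Perm D}

lemma sv_refl (d : D) : SameVertex φ α d d := Perm.SameCycle.refl _ _

lemma sv_rot (d : D) : SameVertex φ α d (rot φ α d) := ⟨1, by simp⟩

lemma sv_phi_alpha (hα : IsGluing α) (d : D) : SameVertex φ α (α d) (φ d) := by
  have h1 := sv_rot (φ := φ) (α := α) (α d)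
  have h2 : rot φ α (α d) = φ d := by
    unfold rot
    rw [Perm.mul_apply, (hα d).1]
  rwa [h2] at h1

/-- a function invariant under `rot` is constant on vertices -/
lemma inv_sv {β : Type*} {f : D → β} (hf : ∀ d, f (rot φ α d) = f d) {d e : D}
    (h : SameVertex φ α d e) : f e = f d := by
  obtain ⟨k, hk⟩ := h
  have hn : ∀ (m : ℕ) (x : D), f ((rot φ α ^ m) x) = f x := by
    intro m
    induction m with
    | zero => intro x; simp
    | succ m ih =>
      intro x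
      rw [pow_succ, Perm.mul_apply, ih, hf]
  rcases Int.eq_nat_or_neg k with ⟨m, rfl | rfl⟩
  · rw [← hk, zpow_natCast, hn]
  · have h1 : (rot φ α ^ m) e = d := by
      rw [← hk, zpow_neg, zpow_natCast]
      simp
    rw [← h1, hn]

/-- vertices at distance at most... exactly `k` steps -/
def R (φ α : Perm D) (d0 : D) : ℕ → D → Prop
  | 0, d => SameVertex φ α d0 d
  | k + 1, d => ∃ e, SameVertex φ α d e ∧ R φ α d0 k (φ e)

lemma R_sv {d0 : D} {k : ℕ} {d e : D} (h : SameVertex φ α d e) (hd : R φ α d0 k d) :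
    R φ α d0 k e := by
  cases k with
  | zero => exact Perm.SameCycle.trans hd h
  | succ k =>
    obtain ⟨x, hx, hx'⟩ := hd
    exact ⟨x, Perm.SameCycle.trans (Perm.SameCycle.symm h) hx, hx'⟩

lemma R_phi (hα : IsGluing α) {d0 : D} {k : ℕ} {d : D} (hd : R φ α d0 k d) :
    R φ α d0 (k + 1) (φ d) := by
  refine ⟨α d, (sv_phi_alpha hα d).symm, ?_⟩
  exact R_sv (sv_rot d) hd

lemma R_back {d0 : D} {k : ℕ} {d : D} (hd : R φ α d0 k (φ d)) : R φ α d0 (k + 1) d :=
  ⟨d, sv_refl d, hd⟩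

lemma R_exists (hα : IsGluing α) (hc : Conn φ α) (d0 d : D) : ∃ k, R φ α d0 k d := by
  have h := hc d0 d
  induction h with
  | refl => exact ⟨0, sv_refl d0⟩
  | tail _ hbc ih =>
    obtain ⟨k, hk⟩ := ih
    rcases hbc with rfl | rfl
    · exact ⟨k + 1, R_phi hα hk⟩
    · exact ⟨k + 1, R_sv (sv_phi_alpha hα _).symm (R_phi hα hk)⟩

lemma R_parity {c : D → Bool} (hc1 : ∀ d, c (rot φ α d) = c d) (hc2 : ∀ d, c (φ d) ≠ c d)
    {d0 : D} {k : ℕ} {d : D} (hd : R φ α d0 k d) : (c d = c d0 ↔ Even k) := by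
  induction k generalizing d with
  | zero =>
    have := inv_sv hc1 hd
    simp [this]
  | succ k ih =>
    obtain ⟨e, he, he'⟩ := hd
    have h1 := inv_sv hc1 he
    have h2 := ih he'
    have h3 := hc2 e
    rw [Nat.even_add_one, ← h2, ← h1]
    revert h3
    cases c (φ e) <;> cases c e <;> cases c d0 <;> simp

/-- `IsPL` labellings have minimum `0`, attained exactly at the root vertex. -/
lemma isPL_min [Finite D] {ℓ : D → ℤ} (h : IsPL φ α ℓ) {d0 : D} (h0 : ℓ d0 = 0)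
    (hdown : ∀ d, ¬ SameVertex φ α d0 d → ∃ e, SameVertex φ α d e ∧ ℓ (φ e) = ℓ e - 1) (d : D) :
    0 ≤ ℓ d ∧ (ℓ d = 0 → SameVertex φ α d0 d) := by
  have : Nonempty D := ⟨d0⟩
  obtain ⟨m, hm⟩ := Finite.exists_min ℓ
  have hlab : ∀ x y, SameVertex φ α x y → ℓ y = ℓ x := fun x y hxy => inv_sv h.lab hxy
  have key : ∀ x, (∀ y, ℓ x ≤ ℓ y) → SameVertex φ α d0 x := by
    intro x hx
    by_contra hcon
    obtain ⟨e, he, he'⟩ := hdown x hcon
    have h1 := hlab x e he
    have h2 := hx (φ e)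
    omega
  have hm0 : ℓ m = 0 := by
    have := hlab _ _ (key m hm)
    omega
  constructor
  · have := hm d
    omega
  · intro hd
    apply key
    intro y
    have := hm y
    omega

lemma isPL_le [Finite D] {ℓ ℓ' : D → ℤ} (h : IsPL φ α ℓ) (h' : IsPL φ α ℓ') {d0 d0' : D}
    (h0 : ℓ d0 = 0) (h0' : ℓ' d0' = 0) (hs : SameVertex φ α d0 d0')
    (hdown' : ∀ d, ¬ SameVertex φ α d0' d → ∃ e, SameVertex φ α d e ∧ ℓ' (φ e) = ℓ' e - 1) :
    ∀ (k : ℕ) (d : D), ℓ' d = k → ℓ d ≤ k := by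
  intro k
  induction k with
  | zero =>
    intro d hd
    have h1 := (isPL_min h' h0' hdown' d).2 (by simpa using hd)
    have h2 := inv_sv h.lab (Perm.SameCycle.trans hs h1)
    simp [h2, h0]
  | succ k ih =>
    intro d hd
    have h1 : ¬ SameVertex φ α d0' d := by
      intro hcon
      have := inv_sv h'.lab hcon
      omega
    obtain ⟨e, he, he'⟩ := hdown' d h1
    have h2 := inv_sv h'.lab he
    have h3 := inv_sv h.lab he
    have h4 := ih (φ e) (by push_cast at hd; omega)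
    have h5 := h.step e
    push_cast
    omega

lemma isPL_eq [Finite D] {ℓ ℓ' : D → ℤ} (h : IsPL φ α ℓ) (h' : IsPL φ α ℓ') {d0 d0' : D}
    (h0 : ℓ d0 = 0) (h0' : ℓ' d0' = 0) (hs : SameVertex φ α d0 d0')
    (hdown : ∀ d, ¬ SameVertex φ α d0 d → ∃ e, SameVertex φ α d e ∧ ℓ (φ e) = ℓ e - 1)
    (hdown' : ∀ d, ¬ SameVertex φ α d0' d → ∃ e, SameVertex φ α d e ∧ ℓ' (φ e) = ℓ' e - 1) :
    ℓ = ℓ' := by
  funext d
  have p1 := (isPL_min h h0 hdown d).1
  have p2 := (isPL_min h' h0' hdown' d).1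
  have h1 := isPL_le h h' h0 h0' hs hdown' (ℓ' d).toNat d (by omega)
  have h2 := isPL_le h' h h0' h0 (Perm.SameCycle.symm hs) hdown (ℓ d).toNat d (by omega)
  omega

lemma isPL_bip {ℓ : D → ℤ} (h : IsPL φ α ℓ) : Bipartite φ α := by
  refine ⟨fun d => decide (Even (ℓ d)), fun d => ?_, fun d => ?_⟩
  · simp only [h.lab]
  · intro hcon
    have h1 : Even (ℓ (φ d)) ↔ Even (ℓ d) := by
      rw [← decide_eq_decide]
      exact hcon
    rcases h.step d with h2 | h2
    · rw [h2, Int.even_add_one] at h1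
      exact iff_not_self h1.symm
    · rw [h2, Int.even_sub_one] at h1
      exact iff_not_self h1.symm

open Classical in
/-- The distance labelling. -/
noncomputable def dl (hα : IsGluing α) (hc : Conn φ α) (d0 : D) (d : D) : ℤ :=
  (Nat.find (R_exists hα hc d0 d) : ℤ)

lemma dl_le (hα : IsGluing α) (hc : Conn φ α) {d0 d : D} {k : ℕ} (h : R φ α d0 k d) :
    dl hα hc d0 d ≤ k := by
  classical
  unfold dl
  exact_mod_cast Nat.find_min' _ h

lemma dl_spec (hα : IsGluing α) (hc : Conn φ α) (d0 d : D) :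
    ∃ k : ℕ, dl hα hc d0 d = k ∧ R φ α d0 k d := by
  classical
  unfold dl
  exact ⟨_, rfl, Nat.find_spec (R_exists hα hc d0 d)⟩

lemma dl_isPL (hs : IsSquares φ) (hα : IsGluing α) (hc : Conn φ α) (hb : Bipartite φ α)
    (d0 : D) : IsPL φ α (dl hα hc d0) ∧ dl hα hc d0 d0 = 0 := by
  obtain ⟨c, hc1, hc2⟩ := hb
  have hlab : ∀ d, dl hα hc d0 (rot φ α d) = dl hα hc d0 d := by
    intro d
    obtain ⟨k, hk, hk'⟩ := dl_spec hα hc d0 d
    obtain ⟨m, hm, hm'⟩ := dl_spec hα hc d0 (rot φ α d)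
    have h1 := dl_le hα hc (R_sv (sv_rot d) hk')
    have h2 := dl_le hα hc (R_sv (Perm.SameCycle.symm (sv_rot d)) hm')
    omega
  have h00 : dl hα hc d0 d0 = 0 := by
    obtain ⟨k, hk, _⟩ := dl_spec hα hc d0 d0
    have := dl_le hα hc (d0 := d0) (d := d0) (k := 0) (sv_refl d0)
    omega
  have hnn : ∀ d, 0 ≤ dl hα hc d0 d := by
    intro d
    obtain ⟨k, hk, _⟩ := dl_spec hα hc d0 d
    omega
  have hstep : ∀ d, dl hα hc d0 (φ d) = dl hα hc d0 d + 1 ∨
      dl hα hc d0 (φ d) = dl hα hc d0 d - 1 := by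
    intro d
    obtain ⟨k, hk, hk'⟩ := dl_spec hα hc d0 d
    obtain ⟨m, hm, hm'⟩ := dl_spec hα hc d0 (φ d)
    have h1 := dl_le hα hc (R_phi hα hk')
    have h2 := dl_le hα hc (R_back hm')
    have h3 := R_parity hc1 hc2 hk'
    have h4 := R_parity hc1 hc2 hm'
    have h5 := hc2 d
    have h6 : k ≠ m := by
      rintro rfl
      have h7 : c d = c d0 ↔ c (φ d) = c d0 := h3.trans h4.symm
      revert h5 h7
      cases c (φ d) <;> cases c d <;> cases c d0 <;> simp
    push_cast at h1 h2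
    omega
  refine ⟨⟨hs, hα, hc, hlab, hstep, d0, h00, ?_, ?_⟩, h00⟩
  · intro d hd
    have h1 := dl_le hα hc (k := 0) hd
    have h2 := hnn d
    have h3 := hnn (φ d)
    rcases hstep d with h4 | h4
    · exact h4
    · exfalso
      push_cast at h1
      omega
  · intro d hd
    obtain ⟨k, hk, hk'⟩ := dl_spec hα hc d0 d
    cases k with
    | zero => exact absurd hk' hd
    | succ k =>
      obtain ⟨e, he, he'⟩ := hk'
      refine ⟨e, he, ?_⟩
      have h1 := dl_le hα hc he'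
      have h2 := inv_sv hlab he
      rcases hstep e with h3 | h3
      · exfalso
        push_cast at hk
        omega
      · exact h3

lemma card_PL [Finite D] (hs : IsSquares φ) (hα : IsGluing α) (hc : Conn φ α)
    (hb : Bipartite φ α) : Nat.card {ℓ : D → ℤ // IsPL φ α ℓ} = numVertices φ α := by
  unfold numVertices
  apply Nat.card_eq_of_bijective
    (fun ℓ : {ℓ : D → ℤ // IsPL φ α ℓ} => Quotient.mk (vertexSetoid φ α) ℓ.2.root.choose)
  constructor
  · rintro ⟨ℓ, h⟩ ⟨ℓ', h'⟩ heq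
    have h1 := h.root.choose_spec
    have h2 := h'.root.choose_spec
    have h3 : SameVertex φ α h.root.choose h'.root.choose := Quotient.exact heq
    exact Subtype.ext (isPL_eq h h' h1.1 h2.1 h3 h1.2.2 h2.2.2)
  · intro q
    obtain ⟨d0, rfl⟩ := Quotient.exists_rep q
    obtain ⟨h, h0⟩ := dl_isPL hs hα hc hb d0
    refine ⟨⟨_, h⟩, ?_⟩
    apply Quotient.sound
    have h1 := h.root.choose_spec
    exact (isPL_min h h1.1 h1.2.2 d0).2 h0

end PointedAux

/-- For a bipartite quadrangulation, the labellings `IsPL` correspond to the vertices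
(the vertex of label `0`); `IsPL` implies bipartite (parity of the label). -/
theorem pointed_count (n g : ℕ) (E : Perm (Fin (4 * n)) → Perm (Fin (4 * n)) → Prop) :
    Nat.card {x : Perm (Fin (4 * n)) × Perm (Fin (4 * n)) × (Fin (4 * n) → ℤ) //
        IsPL x.1 x.2.1 x.2.2 ∧ numVertices x.1 x.2.1 + 2 * g = n + 2 ∧ E x.1 x.2.1} =
      (n + 2 - 2 * g) * Nat.card {x : Perm (Fin (4 * n)) × Perm (Fin (4 * n)) //
        IsBipQuad n g x.1 x.2 ∧ E x.1 x.2} := by
  classical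
  let T := {x : Perm (Fin (4 * n)) × Perm (Fin (4 * n)) // IsBipQuad n g x.1 x.2 ∧ E x.1 x.2}
  have e : {x : Perm (Fin (4 * n)) × Perm (Fin (4 * n)) × (Fin (4 * n) → ℤ) //
        IsPL x.1 x.2.1 x.2.2 ∧ numVertices x.1 x.2.1 + 2 * g = n + 2 ∧ E x.1 x.2.1} ≃
      (Σ y : T, {ℓ : Fin (4 * n) → ℤ // IsPL y.1.1 y.1.2 ℓ}) :=
    { toFun := fun x => ⟨⟨(x.1.1, x.1.2.1), ⟨⟨x.2.1.squares, x.2.1.gluing, x.2.1.conn,
        PointedAux.isPL_bip x.2.1, x.2.2.1⟩, x.2.2.2⟩⟩, ⟨x.1.2.2, x.2.1⟩⟩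
      invFun := fun y => ⟨(y.1.1.1, y.1.1.2, y.2.1), y.2.2, y.1.2.1.genus, y.1.2.2⟩
      left_inv := fun x => rfl
      right_inv := fun y => rfl }
  rw [Nat.card_congr e]
  have : Fintype T := Fintype.ofFinite T
  have hcard : ∀ y : T, Nat.card {ℓ : Fin (4 * n) → ℤ // IsPL y.1.1 y.1.2 ℓ} =
      n + 2 - 2 * g := by
    intro y
    rw [PointedAux.card_PL y.2.1.squares y.2.1.gluing y.2.1.conn y.2.1.bip]
    have := y.2.1.genus
    omega
  have hfin : ∀ y : T, Finite {ℓ : Fin (4 * n) → ℤ // IsPL y.1.1 y.1.2 ℓ} := by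
    intro y
    apply Finite.of_injective
      (fun ℓ : {ℓ : Fin (4 * n) → ℤ // IsPL y.1.1 y.1.2 ℓ} => ℓ.2.root.choose)
    rintro ⟨ℓ, h⟩ ⟨ℓ', h'⟩ heq
    have h1 := h.root.choose_spec
    have h2 := h'.root.choose_spec
    apply Subtype.ext
    apply PointedAux.isPL_eq h h' h1.1 h2.1 _ h1.2.2 h2.2.2
    have heq' : h.root.choose = h'.root.choose := heq
    rw [heq']
    exact PointedAux.sv_refl _
  rw [Nat.card_sigma, Finset.sum_congr rfl fun y _ => hcard y, Finset.sum_const,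
    Finset.card_univ, smul_eq_mul, mul_comm, Nat.card_eq_fintype_card]

end Pool.Agent.Syst
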