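import Pool.Agent.Work.MP_e76ef6d3_pr.Defs2

/-!
# A short odd closed walk of a labelled one-face map gives a short non-contractible cycle
of its closure

A one-cocycle with values in `ZMod 2` on the closure is the coboundary-like sum of the contour
potential at a corner and at its successor; it sums to zero on every face, and it is odd on the
closed walk of arcs which replaces an odd closed walk of the one-face map.
-/

namespace Pool.Agent.Syst

open Equiv Filter Topology

namespace TopoAux

/-! ### Paths and shortest closed walks -/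

section Walks

variable {D : Type} (φ α : Perm D)

/-- `l` is a walk from the origin of `x` to the origin of `y`. -/
def Path : List D → D → D → Prop
  | [], x, y => SameVertex φ α x y
  | d :: l, x, y => SameVertex φ α x d ∧ Path l (φ d) y

variable {φ α}

lemma sv_refl (x : D) : SameVertex φ α x x := Perm.SameCycle.refl _ _

lemma sv_symm {x y : D} (h : SameVertex φ α x y) : SameVertex φ α y x := Perm.SameCycle.symm h

lemma sv_trans {x y z : D} (h : SameVertex φ α x y) (h' : SameVertex φ α y z) :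
    SameVertex φ α x z := Perm.SameCycle.trans h h'

lemma path_left {l : List D} {x x' y : D} (h : Path φ α l x y) (hx : SameVertex φ α x x') :
    Path φ α l x' y := by
  cases l with
  | nil => exact sv_trans (sv_symm hx) h
  | cons d l => exact ⟨sv_trans (sv_symm hx) h.1, h.2⟩

lemma path_right {l : List D} {x y y' : D} (h : Path φ α l x y) (hy : SameVertex φ α y y') :
    Path φ α l x y' := by
  induction l generalizing x with
  | nil => exact sv_trans h hy
  | cons d l ih => exact ⟨h.1, ih h.2⟩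

lemma path_append {l l' : List D} {x y z : D} (h : Path φ α l x y) (h' : Path φ α l' y z) :
    Path φ α (l ++ l') x z := by
  induction l generalizing x with
  | nil => exact path_left h' (sv_symm h)
  | cons d l ih => exact ⟨h.1, ih h.2⟩

lemma path_split {l l' : List D} {x z : D} (h : Path φ α (l ++ l') x z) :
    ∃ y, Path φ α l x y ∧ Path φ α l' y z := by
  induction l generalizing x with
  | nil => exact ⟨x, sv_refl x, h⟩
  | cons d l ih =>
    obtain ⟨y, h1, h2⟩ := ih h.2
    exact ⟨y, ⟨h.1, h1⟩, h2⟩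

lemma path_split_cons {l l' : List D} {d x z : D} (h : Path φ α (l ++ d :: l') x z) :
    Path φ α l x d ∧ Path φ α (d :: l') d z := by
  obtain ⟨y, h1, h2⟩ := path_split h
  exact ⟨path_right h1 h2.1, sv_refl d, h2.2⟩

lemma chain_of_path {d : D} {l : List D} {x y e : D} (h : Path φ α (d :: l) x y)
    (he : SameVertex φ α y e) :
    List.IsChain (fun d e => SameVertex φ α (φ d) e) (d :: (l ++ [e])) := by
  induction l generalizing d x with
  | nil => 
    rw [List.nil_append, List.isChain_pair]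
    exact sv_trans h.2 he
  | cons c l ih =>
    rw [List.cons_append, List.isChain_cons_cons]
    exact ⟨h.2.1, ih (x := c) ⟨sv_refl c, h.2.2⟩⟩

lemma closed_of_path {l : List D} {x : D} (h : Path φ α l x x) :
    IsClosedWalk φ α (l : Cycle D) := by
  unfold IsClosedWalk
  cases l with
  | nil => exact Cycle.Chain.nil _
  | cons d l =>
    rw [Cycle.chain_coe_cons]
    exact chain_of_path h h.1

lemma pairwise_of_split {R : D → D → Prop} {l : List D}
    (h : ∀ l1 l2 l3 d e, l = l1 ++ d :: (l2 ++ e :: l3) → R d e) : l.Pairwise R := by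
  induction l with
  | nil => exact List.Pairwise.nil
  | cons a m ih =>
    rw [List.pairwise_cons]
    constructor
    · intro b hb
      obtain ⟨s, t, hst⟩ := List.append_of_mem hb
      exact h [] s t a b (by rw [hst]; rfl)
    · apply ih
      intro l1 l2 l3 d e hl
      exact h (a :: l1) l2 l3 d e (by rw [hl]; rfl)

/-- A closed walk of odd class contains a shorter one unless it is a cycle. -/
lemma shortest (hα : ∀ d, α (α d) = d ∧ α d ≠ d) (z : D → ZMod 2) (hz : ∀ d, z (α d) = z d)
    {l0 : List D} {x0 : D} (h0 : Path φ α l0 x0 x0) (hz0 : (l0.map z).sum = 1) :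
    ∃ l : List D, IsCycle φ α l ∧ l.length ≤ l0.length ∧ (l.map z).sum = 1 := by
  classical
  have hex : ∃ m : ℕ, ∃ l : List D, ∃ x, l.length = m ∧ Path φ α l x x ∧ (l.map z).sum = 1 :=
    ⟨l0.length, l0, x0, rfl, h0, hz0⟩
  obtain ⟨l, x, hlen, hp, hzl⟩ := Nat.find_spec hex
  have hmin : ∀ (l' : List D) (x' : D), Path φ α l' x' x' → (l'.map z).sum = 1 →
      l.length ≤ l'.length := by
    intro l' x' h1 h2
    rw [hlen]
    exact Nat.find_min' hex ⟨l', x', rfl, h1, h2⟩
  have hzero : ∀ (l' : List D) (x' : D), Path φ α l' x' x' → l'.length < l.length →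
      (l'.map z).sum = 0 := by
    intro l' x' h1 h2
    have h3 : (l'.map z).sum ≠ 1 := fun h3 => by
      have := hmin l' x' h1 h3
      omega
    revert h3
    generalize (l'.map z).sum = u
    revert u
    decide
  have hsimple : ∀ (l1 l2 l3 : List D) (d e : D), l = l1 ++ d :: (l2 ++ e :: l3) →
      ¬ SameVertex φ α d e := by
    intro l1 l2 l3 d e hl hde
    rw [hl] at hp
    obtain ⟨h1, h2⟩ := path_split_cons hp
    rw [← List.cons_append] at h2
    obtain ⟨h3, h4⟩ := path_split_cons h2
    have hA : Path φ α (d :: l2) d d := path_right h3 (sv_symm hde)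
    have hB : Path φ α (l1 ++ e :: l3) x x := path_append (path_right h1 hde) h4
    have hA0 := hzero _ _ hA (by rw [hl]; simp; omega)
    have hB0 := hzero _ _ hB (by rw [hl]; simp)
    rw [hl] at hzl
    simp only [List.map_append, List.map_cons, List.sum_append, List.sum_cons] at hzl hA0 hB0
    have : (1 : ZMod 2) = 0 := by
      rw [← hzl]
      linear_combination hA0 + hB0
    exact absurd this (by decide)
  have hback : ∀ (l1 l2 l3 : List D) (d : D), l = l1 ++ d :: (l2 ++ α d :: l3) → False := by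
    intro l1 l2 l3 d hl
    have hl' := hl
    rw [hl] at hp
    obtain ⟨h1, h2⟩ := path_split_cons hp
    rw [← List.cons_append] at h2
    obtain ⟨h3, h4⟩ := path_split_cons h2
    have hr : SameVertex φ α (φ d) (α d) := by
      have h5 : SameVertex φ α (α d) (φ d) := ⟨1, by
        rw [zpow_one]
        show φ (α (α d)) = φ d
        rw [(hα d).1]⟩
      exact sv_symm h5
    have hr2 : SameVertex φ α d (φ (α d)) := ⟨1, by rw [zpow_one]; rfl⟩
    cases l2 with
    | nil =>
      have hC : Path φ α (l1 ++ l3) x x :=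
        path_append (path_right h1 hr2) h4.2
      have hC0 := hzero _ _ hC (by rw [hl']; simp)
      rw [hl'] at hzl
      simp only [List.map_append, List.map_cons, List.sum_append, List.sum_cons, List.nil_append,
        hz] at hzl hC0
      have : (1 : ZMod 2) = 0 := by
        rw [← hzl]
        have h2 : (2 : ZMod 2) = 0 := by decide
        linear_combination hC0 + z d * h2
      exact absurd this (by decide)
    | cons c l2 =>
      have h5 : SameVertex φ α (φ d) c := h3.2.1
      refine hsimple (l1 ++ [d]) l2 l3 c (α d) ?_ (sv_trans (sv_symm h5) hr)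
      rw [hl']
      simp
  refine ⟨l, ⟨?_, closed_of_path hp, ?_, ?_⟩, ?_, hzl⟩
  · rintro rfl
    simp at hzl
  · exact pairwise_of_split (fun l1 l2 l3 d e h => hsimple l1 l2 l3 d e h)
  · intro d hd hd'
    obtain ⟨s, t, hst⟩ := List.append_of_mem hd
    rw [hst, List.mem_append, List.mem_cons] at hd'
    rcases hd' with h | h | h
    · obtain ⟨s1, s2, hs⟩ := List.append_of_mem h
      apply hback s1 s2 t (α d)
      rw [hst, hs, (hα d).1]
      simp
    · exact (hα d).2 h
    · obtain ⟨t1, t2, ht⟩ := List.append_of_mem h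
      apply hback s t1 t2 d
      rw [hst, ht]
  · rw [hlen]
    exact Nat.find_min' hex ⟨l0, x0, rfl, h0, hz0⟩

/-- The class of a cyclic word. -/
noncomputable def cls (z : D → ZMod 2) (w : Cycle D) : ZMod 2 := (w.toMultiset.map z).sum

lemma cls_coe (z : D → ZMod 2) (l : List D) : cls z (l : Cycle D) = (l.map z).sum := by
  unfold cls
  simp

lemma cls_contractible (z : D → ZMod 2) (hz : ∀ d, z (α d) = z d)
    (hf : ∀ d, z d + z (φ d) + z (φ (φ d)) + z (φ (φ (φ d))) = 0) {w : Cycle D}
    (h : Contractible φ α w) : cls z w = 0 := by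
  have key : ∀ w w' : Cycle D, Relation.EqvGen (ElemMove φ α) w w' → cls z w = cls z w' := by
    intro w w' h
    induction h with
    | rel x y h =>
      obtain ⟨-, -, l, d, rfl, h | h⟩ := h
      · rw [h, cls_coe, cls_coe]
        simp only [List.map_append, List.map_cons, List.map_nil, List.sum_append, List.sum_cons,
          List.sum_nil, hz]
        have h2 : (2 : ZMod 2) = 0 := by decide
        linear_combination (-z d) * h2
      · rw [h, cls_coe, cls_coe]
        simp only [List.map_append, List.map_cons, List.map_nil, List.sum_append, List.sum_cons,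
          List.sum_nil]
        linear_combination -(hf d)
    | refl x => rfl
    | symm x y _ ih => exact ih.symm
    | trans x y z _ _ ih1 ih2 => exact ih1.trans ih2
  have := key _ _ h
  rw [this]
  unfold cls
  simp

end Walks

/-! ### Matches and the contour -/

section Contour

variable {n : ℕ} {a : Perm (Fin (2 * n))} {ℓ : Fin (2 * n) → ℤ}

lemma exists_pow_one : ∃ m : ℕ, 2 ≤ m ∧ (finRotate (2 * n)) ^ m = 1 := by
  refine ⟨2 * orderOf (finRotate (2 * n)), ?_, ?_⟩
  · have := orderOf_pos (finRotate (2 * n))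
    omega
  · rw [mul_comm 2 (orderOf _), pow_mul, pow_orderOf_eq_one, one_pow]

lemma step_le (h : IsLU n a ℓ) (k : Fin (2 * n)) :
    ℓ k - 1 ≤ ℓ (finRotate (2 * n) k) ∧ ℓ (finRotate (2 * n) k) ≤ ℓ k + 1 := by
  have := abs_le.1 (h.step k)
  constructor <;> linarith

lemma exists_match_up (h : IsLU n a ℓ) {j : Fin (2 * n)}
    (hj : ℓ (finRotate (2 * n) j) = ℓ j + 1) : ∃ i, IsMatch n ℓ j i := by
  classical
  obtain ⟨m, hm2, hm⟩ := exists_pow_one (n := n)
  have hex : ∃ s, 2 ≤ s ∧ ℓ (((finRotate (2 * n)) ^ s) j) ≤ ℓ j := by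
    refine ⟨m, hm2, ?_⟩
    rw [hm]
    rfl
  obtain ⟨h1, h2⟩ := Nat.find_spec hex
  set t := Nat.find hex with ht
  have hbig : ∀ s, 1 ≤ s → s < t → ℓ j + 1 ≤ ℓ (((finRotate (2 * n)) ^ s) j) := by
    intro s hs hst
    rcases Nat.eq_or_lt_of_le hs with h3 | h3
    · rw [← h3, pow_one, hj]
    · have := Nat.find_min hex hst
      push Not at this
      have := this h3
      omega
  obtain ⟨u, hu⟩ : ∃ u, t = u + 1 := ⟨t - 1, by omega⟩
  refine ⟨((finRotate (2 * n)) ^ u) j, u, by omega, rfl, ?_, ?_⟩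
  · have h3 := hbig u (by omega) (by omega)
    have h4 := step_le h (((finRotate (2 * n)) ^ u) j)
    have h5 : finRotate (2 * n) (((finRotate (2 * n)) ^ u) j) = ((finRotate (2 * n)) ^ t) j := by
      rw [hu, pow_succ']
      rfl
    rw [h5] at h4 ⊢
    omega
  · intro s hs1 hs2
    exact hbig s hs1 (by omega)

lemma exists_match_down (h : IsLU n a ℓ) {i : Fin (2 * n)}
    (hi : ℓ (finRotate (2 * n) i) = ℓ i - 1) : ∃ j, IsMatch n ℓ j i := by
  classical
  obtain ⟨m, hm2, hm⟩ := exists_pow_one (n := n)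
  set γ := finRotate (2 * n) with hγ
  have hback : ∀ s x, (γ⁻¹ ^ (s + 1)) (γ x) = (γ⁻¹ ^ s) x := by
    intro s x
    rw [pow_succ]
    simp
  have hex : ∃ s, 2 ≤ s ∧ ℓ ((γ⁻¹ ^ s) (γ i)) ≤ ℓ (γ i) := by
    refine ⟨m, hm2, ?_⟩
    rw [inv_pow, hm]
    simp
  obtain ⟨h1, h2⟩ := Nat.find_spec hex
  set t := Nat.find hex with ht
  have hbig : ∀ s, 1 ≤ s → s < t → ℓ (γ i) + 1 ≤ ℓ ((γ⁻¹ ^ s) (γ i)) := by
    intro s hs hst
    rcases Nat.eq_or_lt_of_le hs with h3 | h3
    · rw [← h3, hback 0 i]
      simp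
      omega
    · have := Nat.find_min hex hst
      push Not at this
      have := this h3
      omega
  obtain ⟨u, hu⟩ : ∃ u, t = u + 1 := ⟨t - 1, by omega⟩
  have e1 : (γ⁻¹ ^ t) (γ i) = (γ⁻¹ ^ u) i := by rw [hu, hback]
  have hpow : ∀ s, s ≤ u → (γ ^ s) ((γ⁻¹ ^ u) i) = (γ⁻¹ ^ (u - s)) i := by
    intro s hs
    have : γ⁻¹ ^ u = γ⁻¹ ^ s * γ⁻¹ ^ (u - s) := by rw [← pow_add]; congr 1; omega
    rw [this, Perm.mul_apply, inv_pow γ s]
    simp
  have hlab : ℓ ((γ⁻¹ ^ u) i) = ℓ (γ i) := by
    apply le_antisymm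
    · rw [← e1]; exact h2
    · have h3 := hbig u (by omega) (by omega)
      have h4 := step_le h ((γ⁻¹ ^ t) (γ i))
      have h5 : γ ((γ⁻¹ ^ t) (γ i)) = (γ⁻¹ ^ u) (γ i) := by
        rw [hu, pow_succ', Perm.mul_apply]
        simp
      rw [← hγ, h5] at h4
      rw [← e1]
      omega
  refine ⟨(γ⁻¹ ^ u) i, u, by omega, ?_, hlab.symm, ?_⟩
  · rw [← hγ, hpow u le_rfl]
    simp
  · intro s hs1 hs2
    rw [← hγ, hpow s hs2, hlab]
    have := hbig (u - s + 1) (by omega) (by omega)
    rwa [hback] at this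

end Contour

section Closing

variable {n : ℕ} {a : Perm (Fin (2 * n))} {ℓ : Fin (2 * n) → ℤ}
  {φ : Perm (Fin (2 * n) ⊕ Fin (2 * n))}

lemma sv_rot {D : Type} (φ α : Perm D) (d : D) : SameVertex φ α d (φ (α d)) :=
  ⟨1, by rw [zpow_one]; rfl⟩

lemma sv_inl (m : Fin (2 * n)) : SameVertex φ (swp n) (Sum.inl m) (φ (Sum.inr m)) :=
  sv_rot φ (swp n) (Sum.inl m)

lemma sv_inr (m : Fin (2 * n)) : SameVertex φ (swp n) (Sum.inr m) (φ (Sum.inl m)) :=
  sv_rot φ (swp n) (Sum.inr m)

lemma under (h : IsLU n a ℓ) (hφ : IsClosing n a ℓ φ) {k : Fin (2 * n)}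
    (hk : ℓ (finRotate (2 * n) k) = ℓ k + 1) (s : ℕ) :
    1 ≤ s → (∀ s', 1 ≤ s' → s' ≤ s → ℓ k + 1 ≤ ℓ (((finRotate (2 * n)) ^ s') k)) →
    ℓ (((finRotate (2 * n)) ^ s) k) = ℓ k + 1 →
    SameVertex φ (swp n) (Sum.inr (((finRotate (2 * n)) ^ s) k))
      (Sum.inl (finRotate (2 * n) (a k))) := by
  induction s using Nat.strong_induction_on with
  | _ s ih =>
  intro hs hbig hlab
  refine sv_trans (sv_inr _) ?_
  obtain ⟨s0, rfl⟩ : ∃ s0, s = s0 + 1 := ⟨s - 1, by omega⟩
  have e0 : ((finRotate (2 * n)) ^ (s0 + 1)) k =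
      finRotate (2 * n) (((finRotate (2 * n)) ^ s0) k) := by
    rw [pow_succ']
    rfl
  rcases Nat.eq_zero_or_pos s0 with h0 | h0
  · subst h0
    rw [zero_add, pow_one, hφ.up k hk]
    exact sv_refl _
  · have h1 := hbig s0 h0 (by omega)
    have h2 := step_le h (((finRotate (2 * n)) ^ s0) k)
    rw [← e0, hlab] at h2
    rcases Int.lt_or_eq_of_le h1 with h3 | h3
    · -- down step
      have hd : ℓ (finRotate (2 * n) (((finRotate (2 * n)) ^ s0) k)) =
          ℓ (((finRotate (2 * n)) ^ s0) k) - 1 := by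
        rw [← e0, hlab]
        omega
      obtain ⟨j, hj⟩ := exists_match_down h hd
      rw [e0, (hφ.mtch j _ hj).1]
      obtain ⟨t, ht1, ht2, ht3, ht4⟩ := hj
      rw [← e0, hlab] at ht3
      have hts : t < s0 := by
        by_contra hcon
        push Not at hcon
        obtain ⟨c, rfl⟩ := Nat.exists_eq_add_of_le hcon
        rw [pow_add, Perm.mul_apply] at ht2
        have hc := ((finRotate (2 * n)) ^ s0).injective ht2
        rcases Nat.eq_zero_or_pos c with hc0 | hc0
        · rw [hc0, pow_zero, Perm.one_apply] at hc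
          rw [hc] at ht3
          omega
        · have := ht4 c hc0 (by omega)
          rw [hc] at this
          omega
      obtain ⟨c, rfl⟩ := Nat.exists_eq_add_of_lt hts
      have hjk : j = ((finRotate (2 * n)) ^ (c + 1)) k := by
        have e1 : t + c + 1 = t + (c + 1) := by omega
        rw [e1, pow_add, Perm.mul_apply] at ht2
        exact ((finRotate (2 * n)) ^ t).injective ht2
      rw [hjk]
      apply ih (c + 1) (by omega) (by omega)
      · intro s' h1' h2'
        exact hbig s' h1' (by omega)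
      · rw [← hjk, ← ht3]
    · -- flat step
      have hf : ℓ (finRotate (2 * n) (((finRotate (2 * n)) ^ s0) k)) =
          ℓ (((finRotate (2 * n)) ^ s0) k) := by
        rw [← e0, hlab]
        omega
      rw [e0, (hφ.flat _ hf).1]
      exact ih s0 (by omega) h0 (fun s' h1' h2' => hbig s' h1' (by omega)) h3.symm

lemma contour_same (h : IsLU n a ℓ) (hφ : IsClosing n a ℓ φ) (k : Fin (2 * n)) :
    SameVertex φ (swp n) (Sum.inl k) (Sum.inl (finRotate (2 * n) (a k))) := by
  have h2 := step_le h k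
  refine sv_trans (sv_inl k) ?_
  rcases (by omega : ℓ (finRotate (2 * n) k) = ℓ k ∨ ℓ (finRotate (2 * n) k) = ℓ k - 1 ∨
    ℓ (finRotate (2 * n) k) = ℓ k + 1) with h3 | h3 | h3
  · rw [(hφ.flat k h3).2]
    exact sv_refl _
  · rw [hφ.down k h3]
    exact sv_refl _
  · obtain ⟨i, hi⟩ := exists_match_up h h3
    rw [(hφ.mtch k i hi).2]
    obtain ⟨t, ht1, rfl, ht3, ht4⟩ := hi
    have h5 := step_le h (((finRotate (2 * n)) ^ t) k)
    have h6 := ht4 t ht1 le_rfl
    exact under h hφ h3 t ht1 ht4 (by omega)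

lemma sv_of_sameCycle (h : IsLU n a ℓ) (hφ : IsClosing n a ℓ φ) {x y : Fin (2 * n)}
    (hxy : (finRotate (2 * n) * a).SameCycle x y) :
    SameVertex φ (swp n) (Sum.inl x) (Sum.inl y) := by
  obtain ⟨i, hi⟩ := hxy.exists_nat_pow_eq
  rw [← hi]
  clear hi
  induction i with
  | zero => exact sv_refl _
  | succ i ih =>
    rw [pow_succ', Perm.mul_apply]
    exact sv_trans ih (contour_same h hφ _)

/-- The path of arcs replacing the side `i`. -/
noncomputable def pth (a : Perm (Fin (2 * n))) (ℓ : Fin (2 * n) → ℤ) (i : Fin (2 * n)) :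
    List (Fin (2 * n) ⊕ Fin (2 * n)) :=
  if ℓ (finRotate (2 * n) i) = ℓ i + 1 then [Sum.inr (finRotate (2 * n) i)]
  else if ℓ (finRotate (2 * n) i) = ℓ i then [Sum.inl i, Sum.inr (finRotate (2 * n) i)]
  else [Sum.inl (finRotate (2 * n) (a i))]

lemma pth_length (i : Fin (2 * n)) : (pth a ℓ i).length ≤ 2 := by
  unfold pth
  split_ifs <;> simp

lemma lab_a (h : IsLU n a ℓ) (i : Fin (2 * n)) :
    ℓ (finRotate (2 * n) (a i)) = ℓ i ∧ ℓ (a i) = ℓ (finRotate (2 * n) i) := by
  refine ⟨h.lab i, ?_⟩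
  have := h.lab (a i)
  rw [(h.gluing i).1] at this
  exact this.symm

lemma pth_path (h : IsLU n a ℓ) (hφ : IsClosing n a ℓ φ) (i : Fin (2 * n)) :
    Path φ (swp n) (pth a ℓ i) (Sum.inl i) (Sum.inl (finRotate (2 * n) i)) := by
  have hend : SameVertex φ (swp n) (φ (Sum.inr (finRotate (2 * n) i)))
      (Sum.inl (finRotate (2 * n) i)) := sv_symm (sv_inl _)
  have hs := step_le h i
  obtain ⟨l1, l2⟩ := lab_a h i
  unfold pth
  split_ifs with h1 h2
  · refine ⟨?_, hend⟩
    refine sv_trans (contour_same h hφ i) ?_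
    have := sv_inr (φ := φ) (finRotate (2 * n) i)
    rw [hφ.up i h1] at this
    exact sv_symm this
  · refine ⟨sv_refl _, ?_, hend⟩
    have e1 := sv_inr (φ := φ) i
    have e2 := sv_inr (φ := φ) (finRotate (2 * n) i)
    rw [(hφ.flat i h2).1] at e2
    exact sv_trans (sv_symm e1) (sv_symm e2)
  · refine ⟨contour_same h hφ i, ?_⟩
    have h3 : ℓ (finRotate (2 * n) (a i)) = ℓ (a i) + 1 := by omega
    rw [hφ.up (a i) h3, (h.gluing i).1]
    exact sv_refl _

lemma flat_path (h : IsLU n a ℓ) (hφ : IsClosing n a ℓ φ) (m : List (Fin (2 * n)))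
    (i j : Fin (2 * n))
    (hc : List.IsChain (fun i j => (finRotate (2 * n) * a).SameCycle (finRotate (2 * n) i) j)
      (i :: (m ++ [j]))) :
    Path φ (swp n) ((i :: m).flatMap (pth a ℓ)) (Sum.inl i) (Sum.inl j) := by
  induction m generalizing i with
  | nil =>
    rw [List.nil_append, List.isChain_pair] at hc
    have := path_right (pth_path h hφ i) (sv_of_sameCycle h hφ hc)
    simpa using this
  | cons k m ih =>
    rw [List.cons_append, List.isChain_cons_cons] at hc
    rw [List.flatMap_cons]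
    exact path_append (path_right (pth_path h hφ i) (sv_of_sameCycle h hφ hc.1)) (ih k hc.2)

lemma flat_length (w : List (Fin (2 * n))) : (w.flatMap (pth a ℓ)).length ≤ 2 * w.length := by
  induction w with
  | nil => simp
  | cons i w ih =>
    rw [List.flatMap_cons, List.length_append, List.length_cons]
    have := pth_length (a := a) (ℓ := ℓ) i
    omega

end Closing

section Cocycle

variable {n : ℕ} {a : Perm (Fin (2 * n))} {ℓ : Fin (2 * n) → ℤ}
  {φ : Perm (Fin (2 * n) ⊕ Fin (2 * n))}

/-- `x` is the first corner, going backwards from `k`, whose label is `ℓ k - 1`. -/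
def IsFirst (ℓ : Fin (2 * n) → ℤ) (k x : Fin (2 * n)) : Prop :=
  ∃ t : ℕ, (((finRotate (2 * n))⁻¹) ^ t) k = x ∧ ℓ x = ℓ k - 1 ∧
    ∀ s < t, ℓ ((((finRotate (2 * n))⁻¹) ^ s) k) ≠ ℓ k - 1

lemma isFirst_unique {k x y : Fin (2 * n)} (h : IsFirst ℓ k x) (h' : IsFirst ℓ k y) : x = y := by
  obtain ⟨t, h1, h2, h3⟩ := h
  obtain ⟨t', h1', h2', h3'⟩ := h'
  rcases lt_trichotomy t t' with h | h | h
  · exact absurd (by rw [h1]; exact h2) (h3' t h)
  · rw [← h1, ← h1', h]
  · exact absurd (by rw [h1']; exact h2') (h3 t' h)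

open Classical in
/-- The potential at the successor. -/
noncomputable def Qf (ℓ : Fin (2 * n) → ℤ) (P : Fin (2 * n) → ZMod 2) (k : Fin (2 * n)) :
    ZMod 2 := if h : ∃ x, IsFirst ℓ k x then P h.choose else 0

lemma Qf_eq {P : Fin (2 * n) → ZMod 2} {k x : Fin (2 * n)} (h : IsFirst ℓ k x) :
    Qf ℓ P k = P x := by
  have hex : ∃ x, IsFirst ℓ k x := ⟨x, h⟩
  unfold Qf
  rw [dif_pos hex]
  congr 1
  exact isFirst_unique hex.choose_spec h

lemma Qf_shift {P : Fin (2 * n) → ZMod 2} {k m : Fin (2 * n)} {t : ℕ}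
    (hk : (((finRotate (2 * n))⁻¹) ^ t) k = m) (hl : ℓ k = ℓ m)
    (hne : ∀ s < t, ℓ ((((finRotate (2 * n))⁻¹) ^ s) k) ≠ ℓ k - 1) : Qf ℓ P k = Qf ℓ P m := by
  have key : IsFirst ℓ k = IsFirst ℓ m := by
    funext x
    apply propext
    have hadd : ∀ s, (((finRotate (2 * n))⁻¹) ^ (s + t)) k = (((finRotate (2 * n))⁻¹) ^ s) m := by
      intro s
      rw [pow_add, Perm.mul_apply, hk]
    constructor
    · rintro ⟨u, h1, h2, h3⟩
      have hut : t ≤ u := by
        by_contra hcon
        push Not at hcon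
        exact hne u hcon (by rw [h1]; exact h2)
      obtain ⟨c, rfl⟩ := Nat.exists_eq_add_of_le' hut
      refine ⟨c, ?_, ?_, ?_⟩
      · rw [← hadd, h1]
      · rw [h2, hl]
      · intro s hs
        rw [← hadd, ← hl]
        exact h3 (s + t) (by omega)
    · rintro ⟨u, h1, h2, h3⟩
      refine ⟨u + t, ?_, ?_, ?_⟩
      · rw [hadd, h1]
      · rw [h2, hl]
      · intro s hs
        rcases Nat.lt_or_ge s t with h4 | h4
        · exact hne s h4
        · obtain ⟨c, rfl⟩ := Nat.exists_eq_add_of_le' h4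
          rw [hadd, hl]
          exact h3 c (by omega)
  unfold Qf
  rw [key]

lemma inv_pow_rotate (s : ℕ) (i : Fin (2 * n)) :
    (((finRotate (2 * n))⁻¹) ^ (s + 1)) (finRotate (2 * n) i) =
      (((finRotate (2 * n))⁻¹) ^ s) i := by
  rw [pow_succ, Perm.mul_apply]
  congr 1
  exact Equiv.symm_apply_apply _ _

lemma inv_pow_pow {t s : ℕ} (hs : s ≤ t) (j : Fin (2 * n)) :
    (((finRotate (2 * n))⁻¹) ^ s) (((finRotate (2 * n)) ^ t) j) =
      ((finRotate (2 * n)) ^ (t - s)) j := by
  have : (finRotate (2 * n)) ^ t = (finRotate (2 * n)) ^ s * (finRotate (2 * n)) ^ (t - s) := by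
    rw [← pow_add]
    congr 1
    omega
  rw [this, Perm.mul_apply, inv_pow]
  simp

lemma Q_up {P : Fin (2 * n) → ZMod 2} {i : Fin (2 * n)}
    (h : ℓ (finRotate (2 * n) i) = ℓ i + 1) : Qf ℓ P (finRotate (2 * n) i) = P i := by
  apply Qf_eq
  refine ⟨1, ?_, by omega, ?_⟩
  · have := inv_pow_rotate 0 i
    simpa using this
  · intro s hs
    obtain rfl : s = 0 := by omega
    rw [pow_zero, Perm.one_apply]
    omega

lemma Q_flat {P : Fin (2 * n) → ZMod 2} {i : Fin (2 * n)}
    (h : ℓ (finRotate (2 * n) i) = ℓ i) : Qf ℓ P (finRotate (2 * n) i) = Qf ℓ P i := by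
  apply Qf_shift (t := 1) _ h
  · intro s hs
    obtain rfl : s = 0 := by omega
    rw [pow_zero, Perm.one_apply]
    omega
  · have := inv_pow_rotate 0 i
    simpa using this

lemma Q_match (hL : IsLU n a ℓ) {P : Fin (2 * n) → ZMod 2} {i j : Fin (2 * n)}
    (h : IsMatch n ℓ j i) :
    Qf ℓ P (finRotate (2 * n) i) = Qf ℓ P j ∧ Qf ℓ P i = P j := by
  obtain ⟨t, ht1, ht2, ht3, ht4⟩ := h
  have hback : ∀ s ≤ t, (((finRotate (2 * n))⁻¹) ^ s) i = ((finRotate (2 * n)) ^ (t - s)) j := by
    intro s hs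
    rw [← ht2, inv_pow_pow hs]
  constructor
  · apply Qf_shift (t := t + 1) _ ht3
    · intro s hs
      rcases Nat.eq_zero_or_pos s with h0 | h0
      · rw [h0, pow_zero, Perm.one_apply]
        omega
      · obtain ⟨c, rfl⟩ : ∃ c, s = c + 1 := ⟨s - 1, by omega⟩
        rw [inv_pow_rotate, hback c (by omega), ht3]
        have := ht4 (t - c) (by omega) (by omega)
        omega
    · rw [inv_pow_rotate, hback t le_rfl]
      simp
  · apply Qf_eq
    have h5 := step_le hL i
    have h6 := ht4 t ht1 le_rfl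
    rw [ht2] at h6
    refine ⟨t, ?_, by omega, ?_⟩
    · rw [hback t le_rfl]
      simp
    · intro s hs
      rw [hback s hs.le]
      have := ht4 (t - s) (by omega) (by omega)
      omega

/-- The cocycle. -/
noncomputable def zc (ℓ : Fin (2 * n) → ℤ) (P : Fin (2 * n) → ZMod 2) :
    Fin (2 * n) ⊕ Fin (2 * n) → ZMod 2 :=
  Sum.elim (fun k => P k + Qf ℓ P k) (fun k => P k + Qf ℓ P k)

lemma zc_inl (P : Fin (2 * n) → ZMod 2) (k : Fin (2 * n)) :
    zc ℓ P (Sum.inl k) = P k + Qf ℓ P k := rfl

lemma zc_inr (P : Fin (2 * n) → ZMod 2) (k : Fin (2 * n)) :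
    zc ℓ P (Sum.inr k) = P k + Qf ℓ P k := rfl

lemma zc_swp (P : Fin (2 * n) → ZMod 2) (d : Fin (2 * n) ⊕ Fin (2 * n)) :
    zc ℓ P (swp n d) = zc ℓ P d := by
  rcases d with k | k <;> rfl

lemma zc_face (h : IsLU n a ℓ) (hφ : IsClosing n a ℓ φ) {P f : Fin (2 * n) → ZMod 2}
    (hP : ∀ i, P (finRotate (2 * n) i) = P i + f i) (hf : ∀ i, f (a i) = f i)
    (d : Fin (2 * n) ⊕ Fin (2 * n)) :
    zc ℓ P d + zc ℓ P (φ d) + zc ℓ P (φ (φ d)) + zc ℓ P (φ (φ (φ d))) = 0 := by
  have two : (2 : ZMod 2) = 0 := by decide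
  have tri : ∀ k, ℓ (finRotate (2 * n) k) = ℓ k ∨ ℓ (finRotate (2 * n) k) = ℓ k - 1 ∨
      ℓ (finRotate (2 * n) k) = ℓ k + 1 := by
    intro k
    have := step_le h k
    omega
  have aflat : ∀ i, ℓ (finRotate (2 * n) i) = ℓ i → ℓ (finRotate (2 * n) (a i)) = ℓ (a i) := by
    intro i hi
    obtain ⟨l1, l2⟩ := lab_a h i
    omega
  have aup : ∀ i, ℓ (finRotate (2 * n) i) = ℓ i - 1 →
      ℓ (finRotate (2 * n) (a i)) = ℓ (a i) + 1 := by
    intro i hi
    obtain ⟨l1, l2⟩ := lab_a h i
    omega
  have adown : ∀ i, ℓ (finRotate (2 * n) i) = ℓ i + 1 →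
      ℓ (finRotate (2 * n) (a i)) = ℓ (a i) - 1 := by
    intro i hi
    obtain ⟨l1, l2⟩ := lab_a h i
    omega
  -- the flat faces
  have F1 : ∀ i, ℓ (finRotate (2 * n) i) = ℓ i →
      P (finRotate (2 * n) i) + Qf ℓ P (finRotate (2 * n) i) + (P i + Qf ℓ P i) = f i := by
    intro i hi
    rw [hP, Q_flat hi]
    linear_combination (P i + Qf ℓ P i) * two
  have F2 : ∀ i, ℓ (finRotate (2 * n) i) = ℓ i + 1 →
      P (finRotate (2 * n) i) + Qf ℓ P (finRotate (2 * n) i) = f i := by
    intro i hi
    rw [hP, Q_up hi]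
    linear_combination (P i) * two
  have F3 : ∀ i j, IsMatch n ℓ j i →
      P (finRotate (2 * n) i) + Qf ℓ P (finRotate (2 * n) i) + (P j + Qf ℓ P j) +
        (P i + Qf ℓ P i) = f i := by
    intro i j hij
    obtain ⟨q1, q2⟩ := Q_match h (P := P) hij
    rw [hP, q1, q2]
    linear_combination (P i + Qf ℓ P j + P j) * two
  rcases d with d | k
  · obtain ⟨i, rfl⟩ := (finRotate (2 * n)).surjective d
    rcases tri i with hi | hi | hi
    · have hi' := aflat i hi
      rw [(hφ.flat i hi).1, (hφ.flat i hi).2, (hφ.flat _ hi').1]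
      simp only [zc_inl, zc_inr]
      linear_combination F1 i hi + F1 _ hi' + hf i + f i * two
    · have hi' := aup i hi
      obtain ⟨j, hj⟩ := exists_match_down h hi
      rw [(hφ.mtch j i hj).1, (hφ.mtch j i hj).2, hφ.down i hi]
      simp only [zc_inl, zc_inr]
      linear_combination F3 i j hj + F2 _ hi' + hf i + f i * two
    · have hi' := adown i hi
      obtain ⟨j, hj⟩ := exists_match_down h hi'
      rw [hφ.up i hi, (hφ.mtch j _ hj).1, (hφ.mtch j _ hj).2]
      simp only [zc_inl, zc_inr]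
      linear_combination F3 _ j hj + F2 _ hi + hf i + f i * two
  · rcases tri k with hk | hk | hk
    · have hk' := aflat k hk
      rw [(hφ.flat k hk).2, (hφ.flat _ hk').1, (hφ.flat _ hk').2, (h.gluing k).1]
      simp only [zc_inl, zc_inr]
      linear_combination F1 k hk + F1 _ hk' + hf k + f k * two
    · have hk' := aup k hk
      obtain ⟨j, hj⟩ := exists_match_down h hk
      rw [hφ.down k hk, hφ.up _ hk', (h.gluing k).1, (hφ.mtch j k hj).1]
      simp only [zc_inl, zc_inr]
      linear_combination F3 k j hj + F2 _ hk' + hf k + f k * two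
    · obtain ⟨i, hi⟩ := exists_match_up h hk
      have hid : ℓ (finRotate (2 * n) i) = ℓ i - 1 := by
        obtain ⟨t, ht1, ht2, ht3, ht4⟩ := hi
        have h5 := step_le h i
        have h6 := ht4 t ht1 le_rfl
        rw [ht2] at h6
        omega
      have hi' := aup i hid
      rw [(hφ.mtch k i hi).2, hφ.down i hid, hφ.up _ hi', (h.gluing i).1]
      simp only [zc_inl, zc_inr]
      linear_combination F3 i k hi + F2 _ hi' + hf i + f i * two

lemma pth_zc (h : IsLU n a ℓ) {P f : Fin (2 * n) → ZMod 2}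
    (hP : ∀ i, P (finRotate (2 * n) i) = P i + f i) (hf : ∀ i, f (a i) = f i)
    (i : Fin (2 * n)) : ((pth a ℓ i).map (zc ℓ P)).sum = f i := by
  have two : (2 : ZMod 2) = 0 := by decide
  obtain ⟨l1, l2⟩ := lab_a h i
  have hs := step_le h i
  unfold pth
  split_ifs with h1 h2
  · simp only [List.map_cons, List.map_nil, List.sum_cons, List.sum_nil, zc_inr]
    rw [hP, Q_up h1]
    linear_combination (P i) * two
  · simp only [List.map_cons, List.map_nil, List.sum_cons, List.sum_nil, zc_inr, zc_inl]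
    rw [hP, Q_flat h2]
    linear_combination (P i + Qf ℓ P i) * two
  · simp only [List.map_cons, List.map_nil, List.sum_cons, List.sum_nil, zc_inl]
    rw [hP, Q_up (by omega), hf]
    linear_combination (P (a i)) * two

lemma flat_zc (h : IsLU n a ℓ) {P f : Fin (2 * n) → ZMod 2}
    (hP : ∀ i, P (finRotate (2 * n) i) = P i + f i) (hf : ∀ i, f (a i) = f i)
    (w : List (Fin (2 * n))) :
    ((w.flatMap (pth a ℓ)).map (zc ℓ P)).sum = (w.map f).sum := by
  induction w with
  | nil => simp
  | cons i w ih =>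
    rw [List.flatMap_cons, List.map_append, List.sum_append, ih, pth_zc h hP hf, List.map_cons,
      List.sum_cons]

lemma exists_pot {N : ℕ} (f : Fin N → ZMod 2) (hf : ∑ i, f i = 0) :
    ∃ P : Fin N → ZMod 2, ∀ i, P (finRotate N i) = P i + f i := by
  rcases N with _ | m
  · exact ⟨fun _ => 0, fun i => i.elim0⟩
  · refine ⟨fun k => ∑ i ∈ Finset.univ.filter (fun i => i < k), f i, fun i => ?_⟩
    rw [finRotate_apply]
    induction i using Fin.lastCases with
    | last =>
      rw [Fin.last_add_one]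
      have e1 : (Finset.univ.filter (fun i : Fin (m + 1) => i < 0)) = ∅ := by
        apply Finset.filter_false_of_mem
        intro i _
        exact not_lt.2 (Fin.zero_le i)
      beta_reduce
      rw [e1, Finset.sum_empty, add_comm, ← Finset.sum_insert (by simp), ← hf]
      apply Finset.sum_congr _ (fun _ _ => rfl)
      ext i
      simp only [Finset.mem_univ, Finset.mem_insert, Finset.mem_filter, true_and]
      rcases (Fin.le_last i).eq_or_lt with h | h
      · simp [h]
      · simp [h]
    | cast j =>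
      beta_reduce
      rw [add_comm (∑ i ∈ _, f i), ← Finset.sum_insert (by simp)]
      apply Finset.sum_congr _ (fun _ _ => rfl)
      ext i
      simp only [Finset.mem_univ, Finset.mem_insert, Finset.mem_filter, true_and]
      rw [Fin.coeSucc_eq_succ, Fin.lt_def, Fin.lt_def, Fin.ext_iff]
      simp only [Fin.val_succ, Fin.val_castSucc]
      omega

end Cocycle

end TopoAux

open TopoAux in
theorem topo {n : ℕ} {a : Perm (Fin (2 * n))} {ℓ : Fin (2 * n) → ℤ}
    (h : IsLU n a ℓ) {φ : Perm (Fin (2 * n) ⊕ Fin (2 * n))} (hφ : IsClosing n a ℓ φ) {M : ℕ}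
    (hw : OddWalkC n a M) :
    ∃ w : List (Fin (2 * n) ⊕ Fin (2 * n)), IsCycle φ (swp n) w ∧ w.length ≤ 2 * M ∧
      ¬ Contractible φ (swp n) (w : Cycle _) := by
  classical
  obtain ⟨w, hlen, hchain, e, hodd⟩ := hw
  set f : Fin (2 * n) → ZMod 2 := fun i => if (i = e ∨ i = a e) then 1 else 0 with hfdef
  have hne : e ≠ a e := fun h' => (h.gluing e).2 h'.symm
  have hfa : ∀ i, f (a i) = f i := by
    intro i
    have h1 : (a i = e ∨ a i = a e) ↔ (i = e ∨ i = a e) := by
      constructor
      · rintro (h' | h')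
        · right
          rw [← h', (h.gluing i).1]
        · left
          exact a.injective h'
      · rintro (h' | h')
        · right
          rw [h']
        · left
          rw [h', (h.gluing e).1]
    rw [hfdef]
    simp only [h1]
  have hfsum : ∑ i, f i = 0 := by
    have e1 : (Finset.univ.filter (fun i => i = e ∨ i = a e)) = {e, a e} := by
      ext i
      simp
    rw [hfdef, Finset.sum_boole, e1, Finset.card_pair hne]
    decide
  obtain ⟨P, hP⟩ := exists_pot f hfsum
  have hfw : (w.map f).sum = 1 := by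
    have e2 : ∀ l : List (Fin (2 * n)), (l.map f).sum =
        ((l.countP (fun i => decide (i = e ∨ i = a e)) : ℕ) : ZMod 2) := by
      intro l
      induction l with
      | nil => simp
      | cons i l ih =>
        rw [List.map_cons, List.sum_cons, ih, List.countP_cons]
        by_cases hi : i = e ∨ i = a e
        · simp only [hfdef, hi, decide_true, if_true]
          push_cast
          ring
        · simp only [hfdef, hi, decide_false, if_false, Bool.false_eq_true]
          simp
    rw [e2]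
    exact ZMod.natCast_eq_one_iff_odd.2 hodd
  cases w with
  | nil => simp at hfw
  | cons i m =>
    rw [Cycle.chain_coe_cons] at hchain
    have hpath := flat_path h hφ m i i hchain
    have hz := flat_zc h hP hfa (i :: m)
    rw [hfw] at hz
    have hα : ∀ d, swp n (swp n d) = d ∧ swp n d ≠ d := by
      intro d
      rcases d with k | k
      · exact ⟨rfl, fun h' => by cases h'⟩
      · exact ⟨rfl, fun h' => by cases h'⟩
    obtain ⟨l, h1, h2, h3⟩ := shortest (φ := φ) (α := swp n) hα (zc ℓ P) (zc_swp P) hpath hz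
    refine ⟨l, h1, ?_, ?_⟩
    · have h4 := flat_length (a := a) (ℓ := ℓ) (i :: m)
      omega
    · intro hc
      have h5 := cls_contractible (zc ℓ P) (zc_swp P) (zc_face h hφ hP hfa) hc
      rw [cls_coe, h3] at h5
      exact absurd h5 (by decide)

end Pool.Agent.Syst
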