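import Pool.Agent.Work.MP_e76ef6d3_pr.Relabel
import Pool.Agent.Work.MP_e76ef6d3_pr.Pointed
import Pool.Agent.Work.MP_e76ef6d3_pr.CmsCount
import Pool.Agent.Work.MP_e76ef6d3_pr.Topo
import Pool.Agent.Work.MP_e76ef6d3_pr.Corner
import Pool.Agent.Work.MP_e76ef6d3_pr.Numeric
import Pool.Agent.Work.MP_e76ef6d3_pr.Planar

/-! # Assembly -/

namespace Pool.Agent.Syst

open Equiv Filter Topology

/-- An odd closed walk of length at most `M` in the one-face map gives a short non-contractible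
cycle of the quadrangulation. -/
theorem syst_le_of_oddWalk {n M : ℕ} {a : Perm (Fin (2 * n))} {ℓ : Fin (2 * n) → ℤ}
    {ψ : Perm (Fin (2 * n) ⊕ Fin (2 * n))} {e : Fin (2 * n) ⊕ Fin (2 * n) ≃ Fin (4 * n)}
    {φ α : Perm (Fin (4 * n))} (h : IsLU n a ℓ) (hψ : IsClosing n a ℓ ψ)
    (hφ : ∀ x, φ (e x) = e (ψ x)) (hα : ∀ x, α (e x) = e (swp n x)) (hw : OddWalkC n a M) :
    syst φ α ≤ ((2 * M : ℕ) : ℕ∞) := by
  rw [syst_relabel e ψ (swp n) φ α hφ hα]
  obtain ⟨w, hw1, hw2, hw3⟩ := topo h hψ hw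
  unfold syst
  refine (iInf_le _ ⟨w, hw1, hw3⟩).trans ?_
  exact_mod_cast hw2

section

variable (n g : ℕ)

/-- Pairs `(φ, α)` with a property. -/
noncomputable def cardPairs (E : Perm (Fin (4 * n)) → Perm (Fin (4 * n)) → Prop) : ℕ :=
  Nat.card {x : Perm (Fin (4 * n)) × Perm (Fin (4 * n)) // IsBipQuad n g x.1 x.2 ∧ E x.1 x.2}

/-- Comparison with labelled one-face maps, upper bound. -/
theorem pairs_le (hn : 0 < n) (M : ℕ) [NeZero (2 * n)] :
    ((n + 2 - 2 * g : ℕ) : ℝ) * (2 * n) *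
      (Nat.card {x : Perm (Fin (4 * n)) × Perm (Fin (4 * n)) //
        IsBipQuad n g x.1 x.2 ∧ ((2 * M : ℕ) : ℕ∞) < syst x.1 x.2} : ℝ) ≤
      ((4 * n).factorial : ℝ) * GG (2 * n) M g (fun _ => 1) := by
  have h1 := pointed_count n g (fun φ α => ((2 * M : ℕ) : ℕ∞) < syst φ α)
  have h2 := cms_le (n := n) (g := g) hn (fun φ α => ((2 * M : ℕ) : ℕ∞) < syst φ α)
    (fun a => ¬ OddWalkC n a M) (by
      intro a ℓ ψ e φ α ha hψ hφ hα hE hw
      exact absurd (syst_le_of_oddWalk ha hψ hφ hα hw) (not_le.2 hE))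
  rw [h1] at h2
  rw [← GG_corner n g M hn]
  have h3 : (((n + 2 - 2 * g) * Nat.card {x : Perm (Fin (4 * n)) × Perm (Fin (4 * n)) //
        IsBipQuad n g x.1 x.2 ∧ ((2 * M : ℕ) : ℕ∞) < syst x.1 x.2} * (2 * n) : ℕ) : ℝ) ≤
      (((4 * n).factorial * Nat.card {x : Perm (Fin (2 * n)) × (Fin (2 * n) → ℤ) //
        IsLU n x.1 x.2 ∧ ncyc x.1 + 2 * g = n + 1 ∧ ¬ OddWalkC n x.1 M} : ℕ) : ℝ) := by
    exact_mod_cast h2
  push_cast at h3 ⊢
  linarith

/-- Comparison with labelled one-face maps, lower bound. -/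
theorem pairs_ge (hn : 0 < n) [NeZero (2 * n)] :
    ((4 * n).factorial : ℝ) * LL (2 * n) g (fun _ => 1) ≤
    ((n + 2 - 2 * g : ℕ) : ℝ) * (2 * n) *
      (Nat.card {x : Perm (Fin (4 * n)) × Perm (Fin (4 * n)) // IsBipQuad n g x.1 x.2} : ℝ) := by
  have h1 := pointed_count n g (fun _ _ => True)
  have h2 := cms_ge (n := n) (g := g) hn
  simp only [and_true] at h1
  rw [h1] at h2
  rw [← LL_corner n g hn]
  have h3 : (((4 * n).factorial * Nat.card {x : Perm (Fin (2 * n)) × (Fin (2 * n) → ℤ) //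
        IsLU n x.1 x.2 ∧ ncyc x.1 + 2 * g = n + 1} : ℕ) : ℝ) ≤
      (((n + 2 - 2 * g) * Nat.card {x : Perm (Fin (4 * n)) × Perm (Fin (4 * n)) //
        IsBipQuad n g x.1 x.2} * (2 * n) : ℕ) : ℝ) := by
    exact_mod_cast h2
  push_cast at h3 ⊢
  linarith

end

/-- Exponential tail for pairs `(φ, α)`. -/
theorem tail_pairs (θ δ : ℝ) (hθ : 0 < θ) (hδ : 0 < δ) :
    ∃ C c : ℝ, 0 < C ∧ 0 < c ∧ ∀ n : ℕ, 1 ≤ n → ∀ g M : ℕ, θ * n ≤ g → δ * n ≤ n - 2 * g →
      (Nat.card {x : Perm (Fin (4 * n)) × Perm (Fin (4 * n)) //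
        IsBipQuad n g x.1 x.2 ∧ (M : ℕ∞) < syst x.1 x.2} : ℝ) ≤
      C * Real.exp (-(c * min (M : ℝ) n)) *
        Nat.card {x : Perm (Fin (4 * n)) × Perm (Fin (4 * n)) // IsBipQuad n g x.1 x.2} := by
  obtain ⟨C, c, hC, hc, h⟩ := girth_tail θ δ hθ hδ
  refine ⟨C * Real.exp (c / 2), c / 2, by positivity, by positivity, fun n hn g M hg1 hg2 => ?_⟩
  have hn0 : 0 < n := hn
  have : NeZero (2 * n) := ⟨by omega⟩
  have h1 := h n hn g (M / 2) hg1 hg2
  have h2 := pairs_le n g hn0 (M / 2)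
  have h3 := pairs_ge n g hn0
  have hn0' : (0 : ℝ) < n := by exact_mod_cast hn0
  have hg : 2 * g ≤ n := by
    have : (2 * g : ℝ) ≤ n := by nlinarith
    exact_mod_cast this
  have hc' : (0 : ℝ) < ((n + 2 - 2 * g : ℕ) : ℝ) * (2 * n) := by
    have : 0 < n + 2 - 2 * g := by omega
    positivity
  have hf : (0 : ℝ) < ((4 * n).factorial : ℝ) := by positivity
  set E : ℝ := C * Real.exp (-(c * min (((M / 2 : ℕ)) : ℝ) n)) with hE
  have hE0 : 0 < E := by positivity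
  have h4 : ((4 * n).factorial : ℝ) * GG (2 * n) (M / 2) g (fun _ => 1) ≤
      E * (((4 * n).factorial : ℝ) * LL (2 * n) g (fun _ => 1)) := by
    have := mul_le_mul_of_nonneg_left h1 hf.le
    linarith
  have h5 := mul_le_mul_of_nonneg_left h3 hE0.le
  have h6 := (h2.trans h4).trans h5
  have h7 : (Nat.card {x : Perm (Fin (4 * n)) × Perm (Fin (4 * n)) //
        IsBipQuad n g x.1 x.2 ∧ ((2 * (M / 2) : ℕ) : ℕ∞) < syst x.1 x.2} : ℝ) ≤
      E * Nat.card {x : Perm (Fin (4 * n)) × Perm (Fin (4 * n)) // IsBipQuad n g x.1 x.2} := by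
    refine le_of_mul_le_mul_left ?_ hc'
    refine h6.trans (le_of_eq ?_)
    ring
  have h8 : Nat.card {x : Perm (Fin (4 * n)) × Perm (Fin (4 * n)) //
        IsBipQuad n g x.1 x.2 ∧ (M : ℕ∞) < syst x.1 x.2} ≤
      Nat.card {x : Perm (Fin (4 * n)) × Perm (Fin (4 * n)) //
        IsBipQuad n g x.1 x.2 ∧ ((2 * (M / 2) : ℕ) : ℕ∞) < syst x.1 x.2} := by
    apply Nat.card_le_card_of_injective
      (fun x => ⟨x.1, x.2.1, lt_of_le_of_lt (by exact_mod_cast Nat.mul_div_le M 2) x.2.2⟩)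
    intro x y hxy
    exact Subtype.ext (congrArg (fun z => z.1) hxy)
  have h9 : E ≤ C * Real.exp (c / 2) * Real.exp (-(c / 2 * min (M : ℝ) n)) := by
    rw [hE, mul_assoc, ← Real.exp_add]
    refine mul_le_mul_of_nonneg_left (Real.exp_le_exp.2 ?_) hC.le
    have h10 : (M : ℝ) ≤ 2 * ((M / 2 : ℕ) : ℝ) + 1 := by
      have : M ≤ 2 * (M / 2) + 1 := by omega
      exact_mod_cast this
    have h11 : min (M : ℝ) n ≤ 2 * min (((M / 2 : ℕ)) : ℝ) n + 1 := by
      rcases le_total (((M / 2 : ℕ)) : ℝ) n with h12 | h12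
      · rw [min_eq_left h12]
        exact (min_le_left _ _).trans h10
      · rw [min_eq_right h12]
        have : min (M : ℝ) n ≤ n := min_le_right _ _
        linarith
    nlinarith
  refine (show ((Nat.card {x : Perm (Fin (4 * n)) × Perm (Fin (4 * n)) //
        IsBipQuad n g x.1 x.2 ∧ (M : ℕ∞) < syst x.1 x.2} : ℕ) : ℝ) ≤ _ by exact_mod_cast h8).trans
      (h7.trans ?_)
  exact mul_le_mul_of_nonneg_right h9 (by positivity)

/-- There are bipartite quadrangulations with `n` faces and genus `g` as soon as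
`δ n ≤ n - 2 g` with `δ > 0`. -/
theorem pairs_pos {n g : ℕ} (hn : 0 < n) {δ : ℝ} (hδ : 0 < δ)
    (h : δ * n ≤ n - 2 * g) :
    0 < Nat.card {x : Perm (Fin (4 * n)) × Perm (Fin (4 * n)) // IsBipQuad n g x.1 x.2} := by
  have : NeZero (2 * n) := ⟨by omega⟩
  have hn0' : (0 : ℝ) < n := by exact_mod_cast hn
  have h1 := pairs_ge n g hn
  have h2 := LL_lower (N := 2 * n) g
  have h3 := uni_lower (N := 2 * n) (δ := min δ 1) g (lt_min hδ one_pos) (by
    have h4 : min δ 1 ≤ δ := min_le_left _ _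
    have h5 : min δ 1 ≤ 1 := min_le_right _ _
    rw [show 2 * n / 2 + 1 = n + 1 by omega]
    push_cast
    nlinarith)
  have h4 : (0 : ℝ) < ((Uni (2 * n) 0).card : ℝ) := by exact_mod_cast uni_zero_pos n hn
  have h5 : (0 : ℝ) < ((Uni (2 * n) g).card : ℝ) := by
    refine lt_of_lt_of_le ?_ h3
    have : 0 < min δ 1 := lt_min hδ one_pos
    positivity
  have h6 : (0 : ℝ) < LL (2 * n) g (fun _ => 1) := h5.trans_le h2
  have h7 : (0 : ℝ) < ((4 * n).factorial : ℝ) * LL (2 * n) g (fun _ => 1) := by positivity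
  have h8 := h7.trans_le h1
  by_contra h9
  have h10 : Nat.card {x : Perm (Fin (4 * n)) × Perm (Fin (4 * n)) // IsBipQuad n g x.1 x.2} = 0 := by
    omega
  rw [h10] at h8
  simp at h8

instance lab_finite (n g : ℕ) : Finite (Lab n g) := by
  unfold Lab
  infer_instance

instance rooted_finite (n g : ℕ) : Finite (RootedMaps n g) := by
  unfold RootedMaps
  infer_instance

theorem rooted_nonempty {n g : ℕ} (hn : 0 < n) {δ : ℝ} (hδ : 0 < δ)
    (h : δ * n ≤ n - 2 * g) : Nonempty (RootedMaps n g) := by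
  have h1 := pairs_pos hn hδ h
  obtain ⟨x⟩ := (Nat.card_pos_iff.1 h1).1
  exact ⟨Quotient.mk (labSetoid n g) ⟨(x.1.1, x.1.2, ⟨0, by omega⟩), x.2⟩⟩

/-- The probability that the systole of a uniform rooted bipartite quadrangulation with `n` faces
and genus `g` is larger than `M`. -/
noncomputable def probSyst (n g M : ℕ) : ℝ :=
  (Nat.card {q : RootedMaps n g // (M : ℕ∞) < q.syst} : ℝ) / Nat.card (RootedMaps n g)

theorem probSyst_nonneg (n g M : ℕ) : 0 ≤ probSyst n g M := by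
  unfold probSyst
  positivity

theorem probSyst_le_one (n g M : ℕ) : probSyst n g M ≤ 1 := by
  unfold probSyst
  apply div_le_one_of_le₀ _ (by positivity)
  exact_mod_cast Nat.card_le_card_of_injective (Subtype.val : {q : RootedMaps n g // (M : ℕ∞) < q.syst} → _)
    Subtype.val_injective

/-- Exponential tail of the systole, uniformly in the genus. -/
theorem tail_rooted (θ δ : ℝ) (hθ : 0 < θ) (hδ : 0 < δ) :
    ∃ C c : ℝ, 0 < C ∧ 0 < c ∧ ∀ n : ℕ, 1 ≤ n → ∀ g M : ℕ, θ * n ≤ g → δ * n ≤ n - 2 * g →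
      probSyst n g M ≤ C * Real.exp (-(c * min (M : ℝ) n)) := by
  obtain ⟨C, c, hC, hc, h⟩ := tail_pairs θ δ hθ hδ
  refine ⟨2 * C, c, by positivity, hc, fun n hn g M hg1 hg2 => ?_⟩
  have h1 := class_count n g M hn (C * Real.exp (-(c * min (M : ℝ) n))) (by positivity)
    (h n hn g M hg1 hg2)
  have h2 : Nonempty (RootedMaps n g) := rooted_nonempty hn hδ hg2
  have h3 : (0 : ℝ) < Nat.card (RootedMaps n g) := by exact_mod_cast Nat.card_pos
  unfold probSyst
  rw [div_le_iff₀ h3]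
  linarith

end Pool.Agent.Syst
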