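import Pool.Agent.Work.MP_e76ef6d3_pr.Labelled

/-!
# Analytic induction: `main_ineq` and `YY_bound`
-/

namespace Pool.Agent.Syst

open Equiv Filter Topology

section Uni

variable {N : ℕ}

namespace InductAux

/-! ### Linearity and monotonicity of the functionals -/

theorem LL_mono [NeZero N] (h : ℕ) {f g : (ℤ → ℕ) → ℝ} (hfg : ∀ ν, f ν ≤ g ν) :
    LL N h f ≤ LL N h g := by
  unfold LL
  exact Finset.sum_le_sum fun a _ => Finset.sum_le_sum fun μ _ => hfg _

theorem LL_add [NeZero N] (h : ℕ) (f g : (ℤ → ℕ) → ℝ) :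
    LL N h (fun ν => f ν + g ν) = LL N h f + LL N h g := by
  unfold LL
  simp only [Finset.sum_add_distrib]

theorem LL_smul [NeZero N] (h : ℕ) (c : ℝ) (f : (ℤ → ℕ) → ℝ) :
    LL N h (fun ν => c * f ν) = c * LL N h f := by
  unfold LL
  simp only [Finset.mul_sum]

theorem GG_mono [NeZero N] (M h : ℕ) {f g : (ℤ → ℕ) → ℝ} (hfg : ∀ ν, f ν ≤ g ν) :
    GG N M h f ≤ GG N M h g := by
  unfold GG
  refine Finset.sum_le_sum fun a _ => Finset.sum_le_sum fun μ _ => ?_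
  split_ifs
  · exact le_refl _
  · exact hfg _

theorem GG_add [NeZero N] (M h : ℕ) (f g : (ℤ → ℕ) → ℝ) :
    GG N M h (fun ν => f ν + g ν) = GG N M h f + GG N M h g := by
  unfold GG
  simp only [← Finset.sum_add_distrib]
  refine Finset.sum_congr rfl fun a _ => Finset.sum_congr rfl fun μ _ => ?_
  split_ifs <;> simp

theorem GG_smul [NeZero N] (M h : ℕ) (c : ℝ) (f : (ℤ → ℕ) → ℝ) :
    GG N M h (fun ν => c * f ν) = c * GG N M h f := by
  unfold GG
  simp only [Finset.mul_sum]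
  refine Finset.sum_congr rfl fun a _ => Finset.sum_congr rfl fun μ _ => ?_
  split_ifs <;> simp

theorem GG_le_LL [NeZero N] (M h : ℕ) {f : (ℤ → ℕ) → ℝ} (hf : ∀ ν, 0 ≤ f ν) :
    GG N M h f ≤ LL N h f := by
  unfold GG LL
  refine Finset.sum_le_sum fun a _ => Finset.sum_le_sum fun μ _ => ?_
  split_ifs
  · exact hf _
  · exact le_refl _

theorem LL_nonneg [NeZero N] (h : ℕ) {f : (ℤ → ℕ) → ℝ} (hf : ∀ ν, 0 ≤ f ν) :
    0 ≤ LL N h f := by
  unfold LL
  exact Finset.sum_nonneg fun a _ => Finset.sum_nonneg fun μ _ => hf _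

theorem Tr_mono {p : ℕ} {q q' : ℕ → ℝ} {f : (ℤ → ℕ) → ℝ}
    (hqq : ∀ k, q k ≤ q' k) (hf : ∀ ν, 0 ≤ f ν) (ν : ℤ → ℕ) :
    Tr N p q f ν ≤ Tr N p q' f ν := by
  unfold Tr
  refine Finset.sum_le_sum fun b _ => ?_
  have h1 : (0 : ℝ) ≤ ((ν b).choose (2 * p + 1) : ℝ) := by positivity
  exact mul_le_mul_of_nonneg_right (mul_le_mul_of_nonneg_right (hqq _) h1) (hf _)

theorem Tr_nonneg {p : ℕ} {q : ℕ → ℝ} {f : (ℤ → ℕ) → ℝ}
    (hq : ∀ k, 0 ≤ q k) (hf : ∀ ν, 0 ≤ f ν) (ν : ℤ → ℕ) : 0 ≤ Tr N p q f ν := by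
  unfold Tr
  refine Finset.sum_nonneg fun b _ => ?_
  exact mul_nonneg (mul_nonneg (hq _) (by positivity)) (hf _)

theorem Tr_add_q {p : ℕ} (q q' : ℕ → ℝ) (f : (ℤ → ℕ) → ℝ) (ν : ℤ → ℕ) :
    Tr N p (fun k => q k + q' k) f ν = Tr N p q f ν + Tr N p q' f ν := by
  unfold Tr
  rw [← Finset.sum_add_distrib]
  refine Finset.sum_congr rfl fun b _ => ?_
  ring

theorem Tr_smul_q {p : ℕ} (c : ℝ) (q : ℕ → ℝ) (f : (ℤ → ℕ) → ℝ) (ν : ℤ → ℕ) :
    Tr N p (fun k => c * q k) f ν = c * Tr N p q f ν := by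
  unfold Tr
  rw [Finset.mul_sum]
  refine Finset.sum_congr rfl fun b _ => ?_
  ring

theorem Tr_add_f {p : ℕ} (q : ℕ → ℝ) (f g : (ℤ → ℕ) → ℝ) :
    Tr N p q (fun ν => f ν + g ν) = fun ν => Tr N p q f ν + Tr N p q g ν := by
  funext ν
  unfold Tr
  rw [← Finset.sum_add_distrib]
  refine Finset.sum_congr rfl fun b _ => ?_
  ring

theorem Tr_smul_f {p : ℕ} (q : ℕ → ℝ) (c : ℝ) (f : (ℤ → ℕ) → ℝ) :
    Tr N p q (fun ν => c * f ν) = fun ν => c * Tr N p q f ν := by
  funext ν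
  unfold Tr
  rw [Finset.mul_sum]
  refine Finset.sum_congr rfl fun b _ => ?_
  ring

/-! ### The recursion of `YY` -/

theorem YY_zero [NeZero N] (K0 P0 : ℕ) (x : ℝ) (f : (ℤ → ℕ) → ℝ) :
    YY N K0 P0 x 0 f = LL N 0 f := by
  rw [YY]

theorem YY_rec [NeZero N] (K0 P0 : ℕ) (x : ℝ) (h : ℕ) (f : (ℤ → ℕ) → ℝ) :
    (2 * h : ℝ) * YY N K0 P0 x h f =
      if h = 0 then 0 else
      ∑ p ∈ Finset.Icc 1 h, YY N K0 P0 x (h - p) (Tr N p (qY N K0 P0 p x) f) := by
  rcases h with _ | h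
  · simp
  · rw [if_neg (Nat.succ_ne_zero h)]
    rw [YY]
    have e1 : (2 * ((h + 1 : ℕ) : ℝ)) * (1 / (2 * ((h : ℝ) + 1))) = 1 := by
      push_cast
      field_simp
    rw [← mul_assoc, e1, one_mul]
    have e2 : Finset.Icc 1 (h + 1) = (Finset.range (h + 1)).image (fun p => p + 1) := by
      ext p
      simp only [Finset.mem_Icc, Finset.mem_image, Finset.mem_range]
      constructor
      · rintro ⟨h1, h2⟩
        exact ⟨p - 1, by omega, by omega⟩
      · rintro ⟨a, ha, rfl⟩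
        omega
    rw [e2, Finset.sum_image (by intro a _ b _ hab; simpa using hab),
      ← Fin.sum_univ_eq_sum_range
        (fun p => YY N K0 P0 x (h + 1 - (p + 1)) (Tr N (p + 1) (qY N K0 P0 (p + 1) x) f))]
    refine Finset.sum_congr rfl fun p _ => ?_
    have e3 : h + 1 - (p.1 + 1) = h - p.1 := by omega
    simp only [e3]

/-- Induction form of the recursion. -/
theorem YY_succ [NeZero N] (K0 P0 : ℕ) (x : ℝ) {h : ℕ} (hh : h ≠ 0) (f : (ℤ → ℕ) → ℝ) :
    YY N K0 P0 x h f = (1 / (2 * h : ℝ)) *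
      ∑ p ∈ Finset.Icc 1 h, YY N K0 P0 x (h - p) (Tr N p (qY N K0 P0 p x) f) := by
  have h1 := YY_rec (N := N) K0 P0 x h f
  rw [if_neg hh] at h1
  have h2 : (0 : ℝ) < 2 * h := by
    have : (0 : ℝ) < h := by exact_mod_cast Nat.pos_of_ne_zero hh
    positivity
  rw [← h1]
  field_simp

theorem qY_nonneg {K0 P0 p : ℕ} {x : ℝ} (hx0 : 0 ≤ x) (k : ℕ) : 0 ≤ qY N K0 P0 p x k := by
  unfold qY
  split_ifs
  · exact hx0
  · exact zero_le_one

theorem qY_le_one {K0 P0 p : ℕ} {x : ℝ} (hx1 : x ≤ 1) (k : ℕ) : qY N K0 P0 p x k ≤ 1 := by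
  unfold qY
  split_ifs
  · exact hx1
  · exact le_refl _

theorem YY_add [NeZero N] (K0 P0 : ℕ) (x : ℝ) (h : ℕ) : ∀ f g : (ℤ → ℕ) → ℝ,
    YY N K0 P0 x h (fun ν => f ν + g ν) = YY N K0 P0 x h f + YY N K0 P0 x h g := by
  induction h using Nat.strong_induction_on with
  | _ h ih =>
    intro f g
    rcases Nat.eq_zero_or_pos h with rfl | hpos
    · simp only [YY_zero]
      exact LL_add 0 f g
    · have hh : h ≠ 0 := by omega
      rw [YY_succ K0 P0 x hh, YY_succ K0 P0 x hh, YY_succ K0 P0 x hh, ← mul_add,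
        ← Finset.sum_add_distrib]
      congr 1
      refine Finset.sum_congr rfl fun p hp => ?_
      rw [Finset.mem_Icc] at hp
      rw [Tr_add_f, ih (h - p) (by omega)]

theorem YY_smul [NeZero N] (K0 P0 : ℕ) (x : ℝ) (h : ℕ) (c : ℝ) : ∀ f : (ℤ → ℕ) → ℝ,
    YY N K0 P0 x h (fun ν => c * f ν) = c * YY N K0 P0 x h f := by
  induction h using Nat.strong_induction_on with
  | _ h ih =>
    intro f
    rcases Nat.eq_zero_or_pos h with rfl | hpos
    · simp only [YY_zero]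
      exact LL_smul 0 c f
    · have hh : h ≠ 0 := by omega
      have key : ∑ p ∈ Finset.Icc 1 h,
          YY N K0 P0 x (h - p) (Tr N p (qY N K0 P0 p x) (fun ν => c * f ν)) =
          c * ∑ p ∈ Finset.Icc 1 h, YY N K0 P0 x (h - p) (Tr N p (qY N K0 P0 p x) f) := by
        rw [Finset.mul_sum]
        refine Finset.sum_congr rfl fun p hp => ?_
        rw [Finset.mem_Icc] at hp
        rw [Tr_smul_f, ih (h - p) (by omega)]
      rw [YY_succ K0 P0 x hh, YY_succ K0 P0 x hh, key]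
      ring

theorem YY_nonneg [NeZero N] (K0 P0 : ℕ) {x : ℝ} (hx0 : 0 ≤ x) (h : ℕ) :
    ∀ f : (ℤ → ℕ) → ℝ, (∀ ν, 0 ≤ f ν) → 0 ≤ YY N K0 P0 x h f := by
  induction h using Nat.strong_induction_on with
  | _ h ih =>
    intro f hf
    rcases Nat.eq_zero_or_pos h with rfl | hpos
    · rw [YY_zero]
      exact LL_nonneg 0 hf
    · have hh : h ≠ 0 := by omega
      rw [YY_succ K0 P0 x hh]
      refine mul_nonneg (by positivity) (Finset.sum_nonneg fun p hp => ?_)
      rw [Finset.mem_Icc] at hp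
      exact ih (h - p) (by omega) _ (Tr_nonneg (fun k => qY_nonneg hx0 k) hf)

theorem YY_mono [NeZero N] (K0 P0 : ℕ) {x : ℝ} (hx0 : 0 ≤ x) (h : ℕ)
    {f g : (ℤ → ℕ) → ℝ} (hfg : ∀ ν, f ν ≤ g ν) :
    YY N K0 P0 x h f ≤ YY N K0 P0 x h g := by
  have h1 : g = fun ν => f ν + (g ν - f ν) := by
    funext ν
    ring
  have h2 := YY_nonneg (N := N) K0 P0 hx0 h (fun ν => g ν - f ν)
    (fun ν => sub_nonneg.mpr (hfg ν))
  rw [h1, YY_add]
  linarith

open Classical in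
/-- Indicator of the good steps. -/
noncomputable def qg (N K0 P0 p : ℕ) : ℕ → ℝ := fun k =>
  if p ≤ P0 ∧ 2 * (N / 2 + 1) ≤ K0 * k then 1 else 0

theorem qg_nonneg {K0 P0 p : ℕ} (k : ℕ) : 0 ≤ qg N K0 P0 p k := by
  unfold qg
  split_ifs
  · exact zero_le_one
  · exact le_refl _

theorem qY_eq {K0 P0 p : ℕ} {x : ℝ} (k : ℕ) :
    qY N K0 P0 p x k = x * qg N K0 P0 p k + (1 - qg N K0 P0 p k) := by
  unfold qY qg
  split_ifs <;> simp

theorem qG_eq {K0 P0 p : ℕ} (k : ℕ) :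
    qG N K0 k = (1 - (K0 : ℝ) / (2 * ((N / 2 + 1 : ℕ) : ℝ))) * qg N K0 P0 p k +
      qG N K0 k * (1 - qg N K0 P0 p k) := by
  unfold qG qg
  by_cases h1 : 2 * (N / 2 + 1) ≤ K0 * k
  · by_cases h2 : p ≤ P0
    · simp [h1, h2]
    · simp [h2]
  · simp [h1]

theorem qG_le_one {K0 : ℕ} (k : ℕ) : qG N K0 k ≤ 1 := by
  unfold qG
  split_ifs
  · have : (0 : ℝ) ≤ (K0 : ℝ) / (2 * ((N / 2 + 1 : ℕ) : ℝ)) := by positivity
    linarith
  · exact le_refl _

theorem rho_nonneg {K0 : ℕ} (hK0m : K0 ≤ 2 * (N / 2 + 1)) :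
    (0 : ℝ) ≤ 1 - (K0 : ℝ) / (2 * ((N / 2 + 1 : ℕ) : ℝ)) := by
  have h1 : (K0 : ℝ) ≤ 2 * ((N / 2 + 1 : ℕ) : ℝ) := by exact_mod_cast hK0m
  have h2 : (0 : ℝ) < 2 * ((N / 2 + 1 : ℕ) : ℝ) := by positivity
  rw [sub_nonneg, div_le_one h2]
  exact h1

theorem qG_nonneg {K0 : ℕ} (hK0m : K0 ≤ 2 * (N / 2 + 1)) (k : ℕ) : 0 ≤ qG N K0 k := by
  unfold qG
  split_ifs
  · exact rho_nonneg hK0m
  · exact zero_le_one

theorem qg_le_one {K0 P0 p : ℕ} (k : ℕ) : qg N K0 P0 p k ≤ 1 := by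
  unfold qg
  split_ifs
  · exact le_refl _
  · exact zero_le_one

end InductAux

open InductAux

theorem main_ineq [NeZero N] {K0 P0 M : ℕ} {x : ℝ} (hx0 : 0 < x) (hx1 : x ≤ 1)
    (hK0 : 1 ≤ K0) (hK0m : K0 ≤ 2 * (N / 2 + 1)) (hK : K0 ≤ M / 2 + 1) (K h : ℕ)
    (hV : K0 + 2 * h ≤ N / 2 + 1) (f : (ℤ → ℕ) → ℝ) (hf : ∀ ν, 0 ≤ f ν) :
    GG N M h f ≤ (1 - (K0 : ℝ) / (2 * ((N / 2 + 1 : ℕ) : ℝ))) ^ K * LL N h f +
      (x⁻¹) ^ K * YY N K0 P0 x h f := by
  obtain ⟨ρ, hρ⟩ : ∃ ρ : ℝ, ρ = 1 - (K0 : ℝ) / (2 * ((N / 2 + 1 : ℕ) : ℝ)) := ⟨_, rfl⟩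
  have hρ0 : 0 ≤ ρ := hρ ▸ rho_nonneg hK0m
  have hρ1 : ρ ≤ 1 := by
    have : (0 : ℝ) ≤ (K0 : ℝ) / (2 * ((N / 2 + 1 : ℕ) : ℝ)) := by positivity
    rw [hρ]
    linarith
  rw [← hρ]
  have hxi : 1 ≤ x⁻¹ := (one_le_inv₀ hx0).mpr hx1
  induction h using Nat.strong_induction_on generalizing K f with
  | _ h ih =>
    rcases Nat.eq_zero_or_pos h with rfl | hpos
    · -- h = 0
      rw [YY_zero]
      have h1 := GG_le_LL (N := N) M 0 hf
      have h2 := LL_nonneg (N := N) 0 hf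
      have h3 : 1 ≤ (x⁻¹) ^ K := one_le_pow₀ hxi
      have h4 : 0 ≤ ρ ^ K * LL N 0 f := mul_nonneg (pow_nonneg hρ0 K) h2
      nlinarith
    · rcases Nat.eq_zero_or_pos K with rfl | hKpos
      · have h1 := GG_le_LL (N := N) M h hf
        have h2 := YY_nonneg (N := N) K0 P0 hx0.le h f hf
        simpa using h1.trans (le_add_of_nonneg_right h2)
      · obtain ⟨K', rfl⟩ : ∃ K', K = K' + 1 := ⟨K - 1, by omega⟩
        have hh : h ≠ 0 := by omega
        have hh' : (0 : ℝ) < 2 * h := by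
          have : (0 : ℝ) < h := by exact_mod_cast hpos
          positivity
        have key : ∀ p ∈ Finset.Icc 1 h, GG N M (h - p) (Tr N p (qG N K0) f) ≤
            ρ ^ (K' + 1) * LL N (h - p) (Tr N p (fun _ => 1) f) +
            (x⁻¹) ^ (K' + 1) * YY N K0 P0 x (h - p) (Tr N p (qY N K0 P0 p x) f) := by
          intro p hp
          rw [Finset.mem_Icc] at hp
          have hlt : h - p < h := by omega
          have hV' : K0 + 2 * (h - p) ≤ N / 2 + 1 := by omega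
          -- good and bad parts
          obtain ⟨fg, hfg⟩ : ∃ fg : (ℤ → ℕ) → ℝ, fg = Tr N p (qg N K0 P0 p) f := ⟨_, rfl⟩
          obtain ⟨fb, hfb⟩ : ∃ fb : (ℤ → ℕ) → ℝ,
            fb = Tr N p (fun k => 1 - qg N K0 P0 p k) f := ⟨_, rfl⟩
          have hfg0 : ∀ ν, 0 ≤ fg ν := by
            intro ν
            rw [hfg]
            exact Tr_nonneg (fun k => qg_nonneg k) hf ν
          have hfb0 : ∀ ν, 0 ≤ fb ν := by
            intro ν
            rw [hfb]
            exact Tr_nonneg (fun k => sub_nonneg.mpr (qg_le_one k)) hf ν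
          have e1 : ∀ ν, Tr N p (qG N K0) f ν ≤ ρ * fg ν + fb ν := by
            intro ν
            rw [hfg, hfb, ← Tr_smul_q, ← Tr_add_q]
            refine Tr_mono (fun k => ?_) hf ν
            rw [qG_eq (P0 := P0) (p := p) k, ← hρ]
            have h1 := qG_le_one (N := N) (K0 := K0) k
            have h2 : 0 ≤ 1 - qg N K0 P0 p k := sub_nonneg.mpr (qg_le_one k)
            nlinarith
          have e2 : Tr N p (fun _ => 1) f = fun ν => fg ν + fb ν := by
            funext ν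
            rw [hfg, hfb, ← Tr_add_q]
            congr 1
            funext k
            ring
          have e3 : Tr N p (qY N K0 P0 p x) f = fun ν => x * fg ν + fb ν := by
            funext ν
            rw [hfg, hfb, ← Tr_smul_q, ← Tr_add_q]
            congr 1
            funext k
            exact qY_eq k
          rw [e2, e3, LL_add, YY_add, YY_smul]
          have g1 : GG N M (h - p) (Tr N p (qG N K0) f) ≤
              ρ * GG N M (h - p) fg + GG N M (h - p) fb := by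
            refine (GG_mono M (h - p) e1).trans (le_of_eq ?_)
            rw [GG_add, GG_smul]
          have g2 := ih (h - p) hlt K' hV' fg hfg0
          have g3 := ih (h - p) hlt (K' + 1) hV' fb hfb0
          have y1 := YY_nonneg (N := N) K0 P0 hx0.le (h - p) fg hfg0
          have i1 : 0 ≤ (x⁻¹) ^ K' := by positivity
          have i2 : (x⁻¹) ^ (K' + 1) * x = (x⁻¹) ^ K' := by
            rw [pow_succ, mul_assoc, inv_mul_cancel₀ hx0.ne', mul_one]
          calc GG N M (h - p) (Tr N p (qG N K0) f)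
              ≤ ρ * GG N M (h - p) fg + GG N M (h - p) fb := g1
            _ ≤ ρ * (ρ ^ K' * LL N (h - p) fg + (x⁻¹) ^ K' * YY N K0 P0 x (h - p) fg) +
                (ρ ^ (K' + 1) * LL N (h - p) fb +
                  (x⁻¹) ^ (K' + 1) * YY N K0 P0 x (h - p) fb) :=
                add_le_add (mul_le_mul_of_nonneg_left g2 hρ0) g3
            _ = ρ ^ (K' + 1) * (LL N (h - p) fg + LL N (h - p) fb) +
                (ρ * ((x⁻¹) ^ K' * YY N K0 P0 x (h - p) fg) +
                  (x⁻¹) ^ (K' + 1) * YY N K0 P0 x (h - p) fb) := by ring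
            _ ≤ ρ ^ (K' + 1) * (LL N (h - p) fg + LL N (h - p) fb) +
                ((x⁻¹) ^ K' * YY N K0 P0 x (h - p) fg +
                  (x⁻¹) ^ (K' + 1) * YY N K0 P0 x (h - p) fb) := by
                have := mul_le_mul_of_nonneg_right hρ1 (mul_nonneg i1 y1)
                linarith
            _ = ρ ^ (K' + 1) * (LL N (h - p) fg + LL N (h - p) fb) +
                (x⁻¹) ^ (K' + 1) * (x * YY N K0 P0 x (h - p) fg +
                  YY N K0 P0 x (h - p) fb) := by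
                rw [← i2]
                ring
        have hG := GG_rec (N := N) h (M := M) hK0 hK hV f hf
        have hsum := Finset.sum_le_sum key
        rw [Finset.sum_add_distrib, ← Finset.mul_sum, ← Finset.mul_sum, ← LL_rec] at hsum
        have hY := YY_rec (N := N) K0 P0 x h f
        rw [if_neg hh] at hY
        rw [← hY] at hsum
        have h5 := hG.trans hsum
        have h6 : (2 * h : ℝ) * GG N M h f ≤ (2 * h : ℝ) *
            (ρ ^ (K' + 1) * LL N h f + (x⁻¹) ^ (K' + 1) * YY N K0 P0 x h f) := by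
          refine h5.trans (le_of_eq ?_)
          ring
        exact le_of_mul_le_mul_left h6 hh'

namespace InductAux

/-! ### Profiles with bounded total -/

/-- The total of a profile. -/
noncomputable def tot (N : ℕ) (ν : ℤ → ℕ) : ℕ := ∑ b ∈ Finset.Icc (-(N : ℤ)) N, ν b

theorem prof_tot (s : Setoid (Fin N)) (μ : Fin N → ℤ) (hs : ∀ x y, s x y → μ x = μ y) :
    tot N (prof s μ) ≤ Nat.card (Quotient s) := by
  classical
  have _i1 : Finite (Quotient s) := Quotient.finite s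
  have _i2 : Fintype (Quotient s) := Fintype.ofFinite _
  unfold tot prof
  have h1 : ∀ b : ℤ, Nat.card {c : Quotient s // ∃ x, Quotient.mk s x = c ∧ μ x = b} =
      (Finset.univ.filter (fun c : Quotient s => ∃ x, Quotient.mk s x = c ∧ μ x = b)).card := by
    intro b
    rw [Nat.card_eq_fintype_card, Fintype.card_subtype]
  simp only [h1]
  rw [← Finset.card_biUnion]
  · rw [Nat.card_eq_fintype_card]
    exact Finset.card_le_univ _
  · intro b _ b' _ hbb
    refine Finset.disjoint_left.mpr ?_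
    intro c hc hc'
    simp only [Finset.mem_filter, Finset.mem_univ, true_and] at hc hc'
    obtain ⟨x, hx, hxb⟩ := hc
    obtain ⟨x', hx', hxb'⟩ := hc'
    apply hbb
    rw [← hxb, ← hxb']
    apply hs
    exact Quotient.exact (hx.trans hx'.symm)

theorem LL_zero_nonneg [NeZero N] {f : (ℤ → ℕ) → ℝ} (hf : ∀ ν, tot N ν ≤ N / 2 + 1 → 0 ≤ f ν) :
    0 ≤ LL N 0 f := by
  classical
  unfold LL
  refine Finset.sum_nonneg fun a ha => Finset.sum_nonneg fun μ hμ => hf _ ?_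
  unfold Uni at ha
  rw [Finset.mem_filter] at ha hμ
  have h1 := prof_tot (cyc a) μ hμ.2.1
  have h2 : ncyc a = N / 2 + 1 := by simpa using ha.2.2
  unfold ncyc at h2
  omega

theorem tot_sub {p : ℕ} {b : ℤ} {ν : ℤ → ℕ} {m : ℕ} (h : tot N ν ≤ m) :
    tot N (fun c => if c = b then ν c - 2 * p else ν c) ≤ m := by
  refine le_trans (Finset.sum_le_sum fun c _ => ?_) h
  split_ifs
  · exact Nat.sub_le _ _
  · exact le_refl _

theorem Tr_nonneg_on {p m : ℕ} {q : ℕ → ℝ} {f : (ℤ → ℕ) → ℝ}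
    (hq : ∀ k, 0 ≤ q k) (hf : ∀ ν, tot N ν ≤ m → 0 ≤ f ν) (ν : ℤ → ℕ) (hν : tot N ν ≤ m) :
    0 ≤ Tr N p q f ν := by
  unfold Tr
  refine Finset.sum_nonneg fun b _ => ?_
  exact mul_nonneg (mul_nonneg (hq _) (by positivity)) (hf _ (tot_sub hν))

theorem YY_nonneg_on [NeZero N] (K0 P0 : ℕ) {x : ℝ} (hx0 : 0 ≤ x) (h : ℕ) :
    ∀ f : (ℤ → ℕ) → ℝ, (∀ ν, tot N ν ≤ N / 2 + 1 → 0 ≤ f ν) → 0 ≤ YY N K0 P0 x h f := by
  induction h using Nat.strong_induction_on with
  | _ h ih =>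
    intro f hf
    rcases Nat.eq_zero_or_pos h with rfl | hpos
    · rw [YY_zero]
      exact LL_zero_nonneg hf
    · have hh : h ≠ 0 := by omega
      rw [YY_succ K0 P0 x hh]
      refine mul_nonneg (by positivity) (Finset.sum_nonneg fun p hp => ?_)
      rw [Finset.mem_Icc] at hp
      exact ih (h - p) (by omega) _ (Tr_nonneg_on (fun k => qY_nonneg hx0 k) hf)

theorem YY_mono_on [NeZero N] (K0 P0 : ℕ) {x : ℝ} (hx0 : 0 ≤ x) (h : ℕ)
    {f g : (ℤ → ℕ) → ℝ} (hfg : ∀ ν, tot N ν ≤ N / 2 + 1 → f ν ≤ g ν) :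
    YY N K0 P0 x h f ≤ YY N K0 P0 x h g := by
  have h1 : g = fun ν => f ν + (g ν - f ν) := by
    funext ν
    ring
  have h2 := YY_nonneg_on (N := N) K0 P0 hx0 h (fun ν => g ν - f ν)
    (fun ν hν => sub_nonneg.mpr (hfg ν hν))
  rw [h1, YY_add]
  linarith

/-! ### The bound for the transfer operator -/

theorem two_pow_le_fact (p : ℕ) : (2 : ℝ) ^ p ≤ ((2 * p + 1).factorial : ℝ) := by
  have h1 : 2 ^ p ≤ (2 * p + 1).factorial := by
    induction p with
    | zero => simp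
    | succ p ih =>
      have e : 2 * (p + 1) + 1 = (2 * p + 1) + 1 + 1 := by ring
      rw [e, Nat.factorial_succ, Nat.factorial_succ, pow_succ]
      have e1 : 2 ≤ (2 * p + 1 + 1 + 1) * (2 * p + 1 + 1) := by nlinarith
      calc 2 ^ p * 2 ≤ (2 * p + 1).factorial * ((2 * p + 1 + 1 + 1) * (2 * p + 1 + 1)) :=
            Nat.mul_le_mul ih e1
        _ = _ := by ring
  exact_mod_cast h1

theorem Tr_bound {K0 P0 p : ℕ} {x y : ℝ} (hx0 : 0 < x)
    (hy0 : 0 < y) (hy1 : y ≤ 1) (hK0 : 1 ≤ K0)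
    (h1 : x ≤ y ^ P0) (h2 : 4 ≤ y * (K0 : ℝ) ^ 2)
    (h3 : ∀ p : ℕ, P0 < p → (2 : ℝ) ^ p ≤ y ^ p * ((2 * p + 1).factorial : ℝ))
    (ν : ℤ → ℕ) (hν : tot N ν ≤ N / 2 + 1) :
    Tr N p (qY N K0 P0 p x) (fun _ => 1) ν ≤
      (y / 2) ^ p * ((N / 2 + 1 : ℕ) : ℝ) ^ (2 * p + 1) := by
  obtain ⟨m, hm⟩ : ∃ m : ℕ, m = N / 2 + 1 := ⟨_, rfl⟩
  rw [← hm] at hν ⊢
  have hF : (0 : ℝ) < ((2 * p + 1).factorial : ℝ) := by
    exact_mod_cast Nat.factorial_pos _
  have hm0 : (0 : ℝ) ≤ (m : ℝ) := by positivity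
  have hsum : (∑ b ∈ Finset.Icc (-(N : ℤ)) N, (ν b : ℝ)) ≤ m := by
    have : ((tot N ν : ℕ) : ℝ) ≤ (m : ℝ) := by exact_mod_cast hν
    simpa [tot] using this
  have hsingle : ∀ b ∈ Finset.Icc (-(N : ℤ)) N, ν b ≤ m := by
    intro b hb
    exact (Finset.single_le_sum (f := ν) (fun c _ => Nat.zero_le _) hb).trans hν
  -- pointwise bound with a weight `w`
  have main : ∀ w : ℝ, (∀ b ∈ Finset.Icc (-(N : ℤ)) N,
      qY N K0 P0 p x (ν b) * (ν b : ℝ) ^ (2 * p) ≤ w * (m : ℝ) ^ (2 * p)) →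
      0 ≤ w →
      Tr N p (qY N K0 P0 p x) (fun _ => 1) ν ≤
        w / ((2 * p + 1).factorial : ℝ) * (m : ℝ) ^ (2 * p + 1) := by
    intro w hw hw0
    unfold Tr
    calc ∑ b ∈ Finset.Icc (-(N : ℤ)) N,
          qY N K0 P0 p x (ν b) * ((ν b).choose (2 * p + 1) : ℝ) * 1
        ≤ ∑ b ∈ Finset.Icc (-(N : ℤ)) N,
          (w * (m : ℝ) ^ (2 * p) / ((2 * p + 1).factorial : ℝ)) * (ν b : ℝ) := by
          refine Finset.sum_le_sum fun b hb => ?_
          have c1 : ((ν b).choose (2 * p + 1) : ℝ) ≤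
              (ν b : ℝ) ^ (2 * p + 1) / ((2 * p + 1).factorial : ℝ) :=
            Nat.choose_le_pow_div _ _
          have c2 : 0 ≤ qY N K0 P0 p x (ν b) := qY_nonneg hx0.le _
          rw [mul_one]
          refine (mul_le_mul_of_nonneg_left c1 c2).trans ?_
          have c3 := mul_le_mul_of_nonneg_right (hw b hb)
            (show (0 : ℝ) ≤ (ν b : ℝ) / ((2 * p + 1).factorial : ℝ) by positivity)
          calc qY N K0 P0 p x (ν b) * ((ν b : ℝ) ^ (2 * p + 1) / ((2 * p + 1).factorial : ℝ))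
              = qY N K0 P0 p x (ν b) * (ν b : ℝ) ^ (2 * p) *
                ((ν b : ℝ) / ((2 * p + 1).factorial : ℝ)) := by ring
            _ ≤ w * (m : ℝ) ^ (2 * p) * ((ν b : ℝ) / ((2 * p + 1).factorial : ℝ)) := c3
            _ = (w * (m : ℝ) ^ (2 * p) / ((2 * p + 1).factorial : ℝ)) * (ν b : ℝ) := by ring
      _ = (w * (m : ℝ) ^ (2 * p) / ((2 * p + 1).factorial : ℝ)) *
          ∑ b ∈ Finset.Icc (-(N : ℤ)) N, (ν b : ℝ) := by rw [Finset.mul_sum]
      _ ≤ (w * (m : ℝ) ^ (2 * p) / ((2 * p + 1).factorial : ℝ)) * m :=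
          mul_le_mul_of_nonneg_left hsum (by positivity)
      _ = w / ((2 * p + 1).factorial : ℝ) * (m : ℝ) ^ (2 * p + 1) := by ring
  by_cases hp : p ≤ P0
  · have hyp : 0 < y ^ p := by positivity
    have hw : ∀ b ∈ Finset.Icc (-(N : ℤ)) N,
        qY N K0 P0 p x (ν b) * (ν b : ℝ) ^ (2 * p) ≤ y ^ p * (m : ℝ) ^ (2 * p) := by
      intro b hb
      have d1 : (ν b : ℝ) ≤ m := by exact_mod_cast hsingle b hb
      have d2 : (ν b : ℝ) ^ (2 * p) ≤ (m : ℝ) ^ (2 * p) :=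
        pow_le_pow_left₀ (by positivity) d1 _
      unfold qY
      split_ifs with hg
      · have d3 : x ≤ y ^ p := h1.trans (pow_le_pow_of_le_one hy0.le hy1 hp)
        exact mul_le_mul d3 d2 (by positivity) hyp.le
      · have d4 : ¬ (2 * (N / 2 + 1) ≤ K0 * ν b) := fun hc => hg ⟨hp, hc⟩
        rw [← hm] at d4
        push Not at d4
        have d5 : (K0 : ℝ) * (ν b : ℝ) ≤ 2 * m := by
          have : K0 * ν b ≤ 2 * m := d4.le
          exact_mod_cast this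
        rw [one_mul]
        have hK0' : (0 : ℝ) < K0 := by exact_mod_cast hK0
        have d6 : ((K0 : ℝ) * (ν b : ℝ)) ^ 2 ≤ (2 * m) ^ 2 :=
          pow_le_pow_left₀ (by positivity) d5 2
        have d7 : (ν b : ℝ) ^ 2 ≤ y * (m : ℝ) ^ 2 := by
          have e1 : 4 * (ν b : ℝ) ^ 2 ≤ y * (K0 : ℝ) ^ 2 * (ν b : ℝ) ^ 2 :=
            mul_le_mul_of_nonneg_right h2 (by positivity)
          have e2 : y * ((K0 : ℝ) * (ν b : ℝ)) ^ 2 ≤ y * (2 * m) ^ 2 :=
            mul_le_mul_of_nonneg_left d6 hy0.le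
          nlinarith
        calc (ν b : ℝ) ^ (2 * p) = ((ν b : ℝ) ^ 2) ^ p := by rw [pow_mul]
          _ ≤ (y * (m : ℝ) ^ 2) ^ p := pow_le_pow_left₀ (by positivity) d7 p
          _ = y ^ p * (m : ℝ) ^ (2 * p) := by rw [mul_pow, ← pow_mul]
    refine (main (y ^ p) hw hyp.le).trans ?_
    refine mul_le_mul_of_nonneg_right ?_ (by positivity)
    rw [div_pow]
    exact div_le_div_of_nonneg_left hyp.le (by positivity) (two_pow_le_fact p)
  · have hw : ∀ b ∈ Finset.Icc (-(N : ℤ)) N,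
        qY N K0 P0 p x (ν b) * (ν b : ℝ) ^ (2 * p) ≤ 1 * (m : ℝ) ^ (2 * p) := by
      intro b hb
      have d1 : (ν b : ℝ) ≤ m := by exact_mod_cast hsingle b hb
      have d2 : (ν b : ℝ) ^ (2 * p) ≤ (m : ℝ) ^ (2 * p) :=
        pow_le_pow_left₀ (by positivity) d1 _
      unfold qY
      rw [if_neg (fun hc => hp hc.1), one_mul, one_mul]
      exact d2
    refine (main 1 hw zero_le_one).trans ?_
    refine mul_le_mul_of_nonneg_right ?_ (by positivity)
    have d := h3 p (not_le.mp hp)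
    rw [div_pow, div_le_div_iff₀ hF (by positivity), one_mul]
    exact d

theorem sum_half (h : ℕ) : ∑ p ∈ Finset.Icc 1 h, (1 / 2 : ℝ) ^ p ≤ 1 := by
  have h1 : ∑ p ∈ Finset.Icc 1 h, (1 / 2 : ℝ) ^ p = 1 - (1 / 2 : ℝ) ^ h := by
    induction h with
    | zero => simp
    | succ h ih =>
      rw [Finset.sum_Icc_succ_top (by omega), ih, pow_succ]
      ring
  rw [h1]
  have : (0 : ℝ) ≤ (1 / 2 : ℝ) ^ h := by positivity
  linarith

end InductAux

theorem YY_bound [NeZero N] {K0 P0 : ℕ} {x y : ℝ} (hx0 : 0 < x) (hx1 : x ≤ 1)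
    (hy0 : 0 < y) (hy1 : y ≤ 1) (hK0 : 1 ≤ K0)
    (h1 : x ≤ y ^ P0) (h2 : 4 ≤ y * (K0 : ℝ) ^ 2)
    (h3 : ∀ p : ℕ, P0 < p → (2 : ℝ) ^ p ≤ y ^ p * ((2 * p + 1).factorial : ℝ)) (h : ℕ)
    (hh : h ≤ N / 2 + 1) :
    YY N K0 P0 x h (fun _ => 1) ≤
      LL N 0 (fun _ => 1) * (y * ((N / 2 + 1 : ℕ) : ℝ) ^ 3) ^ h / (h.factorial : ℝ) := by
  obtain ⟨m, hm⟩ : ∃ m : ℕ, m = N / 2 + 1 := ⟨_, rfl⟩
  have hL0 : 0 ≤ LL N 0 (fun _ => (1 : ℝ)) := LL_nonneg 0 (fun _ => zero_le_one)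
  have hTr := fun p ν hν => Tr_bound (N := N) (p := p) hx0 hy0 hy1 hK0 h1 h2 h3 ν hν
  rw [← hm] at hh hTr ⊢
  have hm1 : 1 ≤ m := by omega
  have hmR : (0 : ℝ) < m := by exact_mod_cast hm1
  induction h using Nat.strong_induction_on with
  | _ h ih =>
    rcases Nat.eq_zero_or_pos h with rfl | hpos
    · rw [YY_zero]
      simp
    · have hne : h ≠ 0 := by omega
      have hhR : (0 : ℝ) < h := by exact_mod_cast hpos
      rw [YY_succ K0 P0 x hne]
      have hfac : (0 : ℝ) < (h.factorial : ℝ) := by exact_mod_cast Nat.factorial_pos h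
      have key : ∀ p ∈ Finset.Icc 1 h,
          YY N K0 P0 x (h - p) (Tr N p (qY N K0 P0 p x) (fun _ => 1)) ≤
          (h * (LL N 0 (fun _ => 1) * (y * (m : ℝ) ^ 3) ^ h / (h.factorial : ℝ))) *
            (1 / 2 : ℝ) ^ p := by
        intro p hp
        rw [Finset.mem_Icc] at hp
        have a1 : YY N K0 P0 x (h - p) (Tr N p (qY N K0 P0 p x) (fun _ => 1)) ≤
            (y / 2) ^ p * (m : ℝ) ^ (2 * p + 1) * YY N K0 P0 x (h - p) (fun _ => 1) := by
          rw [← YY_smul]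
          refine YY_mono_on K0 P0 hx0.le (h - p) fun ν hν => ?_
          rw [mul_one]
          exact hTr p ν (by rw [hm]; exact hν)
        have a2 := ih (h - p) (by omega) (by omega)
        have a3 : (0 : ℝ) ≤ (y / 2) ^ p * (m : ℝ) ^ (2 * p + 1) := by positivity
        refine a1.trans ((mul_le_mul_of_nonneg_left a2 a3).trans ?_)
        -- factorials
        have b1 : (h - p).factorial * h.descFactorial p = h.factorial :=
          Nat.factorial_mul_descFactorial hp.2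
        have b2 : h.descFactorial p ≤ h * m ^ (p - 1) := by
          obtain ⟨p', rfl⟩ : ∃ p', p = p' + 1 := ⟨p - 1, by omega⟩
          obtain ⟨h', rfl⟩ : ∃ h', h = h' + 1 := ⟨h - 1, by omega⟩
          rw [Nat.succ_descFactorial_succ, Nat.add_sub_cancel]
          refine Nat.mul_le_mul_left _ ((Nat.descFactorial_le_pow _ _).trans ?_)
          exact Nat.pow_le_pow_left (by omega) _
        have b3 : (0 : ℝ) < ((h - p).factorial : ℝ) := by
          exact_mod_cast Nat.factorial_pos _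
        have b4 : (1 : ℝ) / ((h - p).factorial : ℝ) = (h.descFactorial p : ℝ) /
            (h.factorial : ℝ) := by
          rw [div_eq_div_iff b3.ne' hfac.ne', one_mul, mul_comm]
          exact_mod_cast b1.symm
        have b5 : (h.descFactorial p : ℝ) ≤ h * (m : ℝ) ^ (p - 1) := by exact_mod_cast b2
        have b6 : (0 : ℝ) ≤ (y / 2) ^ p * (m : ℝ) ^ (2 * p + 1) *
            (LL N 0 (fun _ => 1) * (y * (m : ℝ) ^ 3) ^ (h - p)) / (h.factorial : ℝ) := by
          positivity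
        calc (y / 2) ^ p * (m : ℝ) ^ (2 * p + 1) *
              (LL N 0 (fun _ => 1) * (y * (m : ℝ) ^ 3) ^ (h - p) / ((h - p).factorial : ℝ))
            = (y / 2) ^ p * (m : ℝ) ^ (2 * p + 1) *
              (LL N 0 (fun _ => 1) * (y * (m : ℝ) ^ 3) ^ (h - p)) *
                (1 / ((h - p).factorial : ℝ)) := by ring
          _ = ((y / 2) ^ p * (m : ℝ) ^ (2 * p + 1) *
              (LL N 0 (fun _ => 1) * (y * (m : ℝ) ^ 3) ^ (h - p)) / (h.factorial : ℝ)) *
                (h.descFactorial p : ℝ) := by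
              rw [b4]
              ring
          _ ≤ ((y / 2) ^ p * (m : ℝ) ^ (2 * p + 1) *
              (LL N 0 (fun _ => 1) * (y * (m : ℝ) ^ 3) ^ (h - p)) / (h.factorial : ℝ)) *
                (h * (m : ℝ) ^ (p - 1)) := mul_le_mul_of_nonneg_left b5 b6
          _ = (h * (LL N 0 (fun _ => 1) * (y * (m : ℝ) ^ 3) ^ h / (h.factorial : ℝ))) *
            (1 / 2 : ℝ) ^ p := by
              obtain ⟨p', rfl⟩ : ∃ p', p = p' + 1 := ⟨p - 1, by omega⟩
              obtain ⟨j, hj⟩ : ∃ j, h = j + (p' + 1) := ⟨h - (p' + 1), by omega⟩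
              have e1 : h - (p' + 1) = j := by omega
              have e2 : p' + 1 - 1 = p' := by omega
              rw [e1, e2]
              have e3 : (y * (m : ℝ) ^ 3) ^ h =
                  (y * (m : ℝ) ^ 3) ^ j * (y * (m : ℝ) ^ 3) ^ (p' + 1) := by
                rw [hj, pow_add]
              rw [e3, div_pow, mul_pow (y) ((m : ℝ) ^ 3) (p' + 1), ← pow_mul, div_pow]
              have e4 : (m : ℝ) ^ (3 * (p' + 1)) =
                  (m : ℝ) ^ (2 * (p' + 1) + 1) * (m : ℝ) ^ p' := by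
                rw [← pow_add]
                congr 1
                ring
              rw [e4]
              ring
      have hsum := Finset.sum_le_sum key
      rw [← Finset.mul_sum] at hsum
      have hT : 0 ≤ h * (LL N 0 (fun _ => (1 : ℝ)) * (y * (m : ℝ) ^ 3) ^ h /
          (h.factorial : ℝ)) := by positivity
      have hsum2 := hsum.trans (mul_le_mul_of_nonneg_left (sum_half h) hT)
      have hpos2 : (0 : ℝ) ≤ 1 / (2 * (h : ℝ)) := by positivity
      refine (mul_le_mul_of_nonneg_left hsum2 hpos2).trans ?_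
      have hT' : 0 ≤ LL N 0 (fun _ => (1 : ℝ)) * (y * (m : ℝ) ^ 3) ^ h /
          (h.factorial : ℝ) := by positivity
      have e5 : 1 / (2 * (h : ℝ)) * (h * (LL N 0 (fun _ => (1 : ℝ)) *
          (y * (m : ℝ) ^ 3) ^ h / (h.factorial : ℝ)) * 1) =
          (1 / 2) * (LL N 0 (fun _ => (1 : ℝ)) *
          (y * (m : ℝ) ^ 3) ^ h / (h.factorial : ℝ)) := by
        field_simp
      rw [e5]
      linarith

end Uni

end Pool.Agent.Syst
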