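import Pool.Agent.Work.MP_e76ef6d3_pr.Defs2

/-!
# Short closed walks after merging vertices: pigeonhole argument
-/

namespace Pool.Agent.Syst

open Equiv Filter Topology

section Uni

variable {N : ℕ}

namespace PigeonAux

/-- `w` is a path from the vertex of `x` to the vertex of `y`. -/
def PathL (a : Perm (Fin N)) : Fin N → List (Fin N) → Fin N → Prop
  | x, [], y => (sig a).SameCycle x y
  | x, i :: w, y => (sig a).SameCycle x i ∧ PathL a (a i) w y

lemma PathL.congr_left {a : Perm (Fin N)} {x x' y : Fin N} (h : (sig a).SameCycle x' x) :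
    ∀ {w : List (Fin N)}, PathL a x w y → PathL a x' w y
  | [], hw => h.trans hw
  | _ :: _, hw => ⟨h.trans hw.1, hw.2⟩

lemma PathL.congr_right {a : Perm (Fin N)} {y y' : Fin N} (h : (sig a).SameCycle y y') :
    ∀ {w : List (Fin N)} {x : Fin N}, PathL a x w y → PathL a x w y'
  | [], _, hw => Perm.SameCycle.trans hw h
  | _ :: _, _, hw => ⟨hw.1, PathL.congr_right h hw.2⟩

lemma PathL.append {a : Perm (Fin N)} {y z : Fin N} {v : List (Fin N)} :
    ∀ {w : List (Fin N)} {x : Fin N}, PathL a x w y → PathL a y v z → PathL a x (w ++ v) z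
  | [], _, hw, hv => PathL.congr_left hw hv
  | _ :: _, _, hw, hv => ⟨hw.1, PathL.append hw.2 hv⟩

lemma PathL.suffix {a : Perm (Fin N)} {y i : Fin N} {v : List (Fin N)} :
    ∀ {w : List (Fin N)} {x : Fin N}, PathL a x (w ++ i :: v) y → PathL a (a i) v y
  | [], _, hw => hw.2
  | _ :: _, _, hw => PathL.suffix (by exact hw.2)

lemma PathL.reverse {a : Perm (Fin N)} (ha : IsGluing a) {y : Fin N} :
    ∀ {w : List (Fin N)} {x : Fin N}, PathL a x w y → PathL a y (w.reverse.map a) x
  | [], _, hw => Perm.SameCycle.symm hw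
  | i :: w, x, hw => by
      have h1 : PathL a y (w.reverse.map a) (a i) := PathL.reverse ha hw.2
      have h2 : PathL a (a i) [a i] x := by
        refine ⟨Perm.SameCycle.refl _ _, ?_⟩
        show (sig a).SameCycle (a (a i)) x
        rw [(ha i).1]
        exact hw.1.symm
      have h3 := h1.append h2
      simpa using h3

lemma near_iff {a : Perm (Fin N)} {y : Fin N} : ∀ {r : ℕ} {x : Fin N},
    Near a r x y ↔ ∃ w : List (Fin N), w.length ≤ r ∧ PathL a x w y
  | 0, x => by
      constructor
      · intro h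
        exact ⟨[], by simp, h⟩
      · rintro ⟨w, hw, h⟩
        have : w = [] := by
          cases w with
          | nil => rfl
          | cons _ _ => simp at hw
        subst this
        exact h
  | r + 1, x => by
      constructor
      · rintro (h | ⟨i, hi, h⟩)
        · obtain ⟨w, hw, h'⟩ := near_iff.1 h
          exact ⟨w, by omega, h'⟩
        · obtain ⟨w, hw, h'⟩ := near_iff.1 h
          exact ⟨i :: w, by simpa using hw, hi, h'⟩
      · rintro ⟨w, hw, h⟩
        cases w with
        | nil => exact Or.inl (near_iff.2 ⟨[], by simp, h⟩)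
        | cons i w =>
            refine Or.inr ⟨i, h.1, near_iff.2 ⟨w, ?_, h.2⟩⟩
            simpa using hw

lemma near_mono {a : Perm (Fin N)} {x y : Fin N} {r s : ℕ} (hrs : r ≤ s) (h : Near a r x y) :
    Near a s x y := by
  obtain ⟨w, hw, h'⟩ := near_iff.1 h
  exact near_iff.2 ⟨w, hw.trans hrs, h'⟩

lemma near_symm {a : Perm (Fin N)} (ha : IsGluing a) {x y : Fin N} {r : ℕ}
    (h : Near a r x y) : Near a r y x := by
  obtain ⟨w, hw, h'⟩ := near_iff.1 h
  exact near_iff.2 ⟨w.reverse.map a, by simpa using hw, h'.reverse ha⟩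

lemma near_trans {a : Perm (Fin N)} {x y z : Fin N} {r s : ℕ}
    (h : Near a r x y) (h' : Near a s y z) : Near a (r + s) x z := by
  obtain ⟨w, hw, hp⟩ := near_iff.1 h
  obtain ⟨v, hv, hq⟩ := near_iff.1 h'
  exact near_iff.2 ⟨w ++ v, by simp only [List.length_append]; omega, hp.append hq⟩

lemma near_congr_right {a : Perm (Fin N)} {x y y' : Fin N} {r : ℕ}
    (hy : (sig a).SameCycle y y') (h : Near a r x y) : Near a r x y' := by
  obtain ⟨w, hw, h'⟩ := near_iff.1 h
  exact near_iff.2 ⟨w, hw, h'.congr_right hy⟩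

lemma near_step {a : Perm (Fin N)} {x y : Fin N} {r : ℕ}
    (h : Near a r x y) : Near a (r + 1) x (a y) := by
  have h1 : Near a 1 y (a y) := Or.inr ⟨y, Perm.SameCycle.refl _ _, Perm.SameCycle.refl _ _⟩
  exact near_trans h h1

lemma mins_eq {a : Perm (Fin N)} {x y : Fin N} (hx : x ∈ mins a) (hy : y ∈ mins a)
    (h : (sig a).SameCycle x y) : x = y := by
  classical
  simp only [mins, Finset.mem_filter, Finset.mem_univ, true_and] at hx hy
  exact le_antisymm (hx y h) (hy x h.symm)

lemma chain_of_path {a : Perm (Fin N)} {S : Finset (Fin N)} {y : Fin N} {i0 : Fin N}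
    (hend : mergeS a S y i0) :
    ∀ {w : List (Fin N)} {i : Fin N}, PathL a (a i) w y →
      List.IsChain (fun i j => mergeS a S (a i) j) (i :: (w ++ [i0]))
  | [], i, hw => by
      rw [List.nil_append, List.isChain_cons_cons]
      refine ⟨?_, List.isChain_singleton _⟩
      exact (mergeS a S).trans' (Or.inl hw) hend
  | j :: w, i, hw => by
      rw [List.cons_append, List.isChain_cons_cons]
      exact ⟨Or.inl hw.1, chain_of_path hend hw.2⟩

/-! ### Balls -/

lemma rotate_closed {T : Fin N → Prop} {x : Fin N} (hx : T x)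
    (hT : ∀ y, T y → T (finRotate N y)) (y : Fin N) : T y := by
  cases N with
  | zero => exact x.elim0
  | succ n =>
      have h1 : ∀ k : ℕ, T ⟨(x.val + k) % (n + 1), Nat.mod_lt _ n.succ_pos⟩ := by
        intro k
        induction k with
        | zero =>
            have h3 : (⟨(x.val + 0) % (n + 1), Nat.mod_lt _ n.succ_pos⟩ : Fin (n + 1)) = x := by
              apply Fin.ext
              simp [Nat.mod_eq_of_lt x.2]
            rw [h3]
            exact hx
        | succ k ih =>
            have h2 := hT _ ih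
            rw [finRotate_apply] at h2
            have h3 : (⟨(x.val + (k + 1)) % (n + 1), Nat.mod_lt _ n.succ_pos⟩ : Fin (n + 1)) =
                ⟨(x.val + k) % (n + 1), Nat.mod_lt _ n.succ_pos⟩ + 1 := by
              apply Fin.ext
              rw [Fin.val_add]
              show (x.val + (k + 1)) % (n + 1) =
                ((x.val + k) % (n + 1) + ((1 : Fin (n + 1)) : ℕ)) % (n + 1)
              rw [Fin.val_one', Nat.add_mod_mod, Nat.mod_add_mod]
              ring_nf
            rw [h3]
            exact h2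
      have h2 := h1 (y.val + (n + 1 - x.val))
      have h3 : (⟨(x.val + (y.val + (n + 1 - x.val))) % (n + 1), Nat.mod_lt _ n.succ_pos⟩ :
          Fin (n + 1)) = y := by
        apply Fin.ext
        show (x.val + (y.val + (n + 1 - x.val))) % (n + 1) = y.val
        have hx' := x.2
        have h4 : x.val + (y.val + (n + 1 - x.val)) = y.val + (n + 1) := by omega
        rw [h4, Nat.add_mod_right, Nat.mod_eq_of_lt y.2]
      rwa [h3] at h2

lemma near_all {a : Perm (Fin N)} (ha : IsGluing a) {x : Fin N} {r : ℕ}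
    (h : ∀ y, Near a (r + 1) x y → Near a r x y) (y : Fin N) : Near a r x y := by
  have h0 : Near a r x x := near_mono (Nat.zero_le r) (Perm.SameCycle.refl _ _)
  refine rotate_closed (T := fun y => Near a r x y) h0 ?_ y
  intro z hz
  have h1 : Near a r x (sig a z) := near_congr_right (Perm.SameCycle.refl _ _ |>.apply_right) hz
  have h2 := h _ (near_step h1)
  have h3 : a (sig a z) = finRotate N z := by
    show a (a (finRotate N z)) = finRotate N z
    exact (ha _).1
  rwa [h3] at h2

open Classical in
/-- The ball of radius `r` about the vertex of `x`. -/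
noncomputable def ball (a : Perm (Fin N)) (r : ℕ) (x : Fin N) : Finset (Fin N) :=
  (mins a).filter (fun y => Near a r x y)


lemma mem_ball {a : Perm (Fin N)} {r : ℕ} {x y : Fin N} :
    y ∈ ball a r x ↔ y ∈ mins a ∧ Near a r x y := by
  classical
  simp [ball]

/-- The minimal half-edge of the vertex of `x`. -/
lemma exists_min (a : Perm (Fin N)) (x : Fin N) : ∃ y ∈ mins a, (sig a).SameCycle x y := by
  classical
  have h1 : (Finset.univ.filter (fun y => (sig a).SameCycle x y)).Nonempty :=
    ⟨x, by simp [Perm.SameCycle.refl]⟩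
  obtain ⟨y, hy, hmin⟩ := Finset.exists_min_image _ id h1
  simp only [Finset.mem_filter, Finset.mem_univ, true_and, id] at hy hmin
  refine ⟨y, ?_, hy⟩
  simp only [mins, Finset.mem_filter, Finset.mem_univ, true_and]
  intro z hz
  exact hmin z (hy.trans hz)

lemma card_mins' (a : Perm (Fin N)) : (mins a).card = ncyc a := by
  classical
  unfold ncyc
  rw [← Nat.card_eq_finsetCard]
  apply Nat.card_congr
  refine Equiv.ofBijective (fun x => Quotient.mk (cyc a) x.1) ⟨?_, ?_⟩
  · rintro ⟨x, hx⟩ ⟨y, hy⟩ h
    have h' : (sig a).SameCycle x y := Quotient.exact h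
    exact Subtype.ext (mins_eq hx hy h')
  · intro c
    induction c using Quotient.inductionOn with
    | _ x =>
      obtain ⟨y, hy, hxy⟩ := exists_min a x
      exact ⟨⟨y, hy⟩, Quotient.sound (s := cyc a) hxy.symm⟩

lemma ball_card {a : Perm (Fin N)} (ha : IsGluing a) (x : Fin N) :
    ∀ r : ℕ, min (r + 1) (ncyc a) ≤ (ball a r x).card := by
  classical
  intro r
  induction r with
  | zero =>
      obtain ⟨y, hy, hxy⟩ := exists_min a x
      have h1 : y ∈ ball a 0 x := mem_ball.2 ⟨hy, hxy⟩
      have h2 : 1 ≤ (ball a 0 x).card := Finset.card_pos.2 ⟨y, h1⟩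
      exact (min_le_left _ _).trans (by simpa using h2)
  | succ r ih =>
      have hsub : ball a r x ⊆ ball a (r + 1) x := by
        intro y hy
        rw [mem_ball] at hy ⊢
        exact ⟨hy.1, near_mono (Nat.le_succ r) hy.2⟩
      by_cases heq : ball a (r + 1) x = ball a r x
      · have h1 : ∀ y, Near a (r + 1) x y → Near a r x y := by
          intro y hy
          obtain ⟨z, hz, hyz⟩ := exists_min a y
          have h2 : z ∈ ball a (r + 1) x := mem_ball.2 ⟨hz, near_congr_right hyz hy⟩
          rw [heq, mem_ball] at h2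
          exact near_congr_right hyz.symm h2.2
        have h2 : ball a (r + 1) x = mins a := by
          rw [heq]
          apply Finset.Subset.antisymm
          · intro y hy
            exact (mem_ball.1 hy).1
          · intro y hy
            exact mem_ball.2 ⟨hy, near_all ha h1 y⟩
        rw [h2, card_mins']
        exact min_le_right _ _
      · have h1 : (ball a r x).card < (ball a (r + 1) x).card :=
          Finset.card_lt_card (Finset.ssubset_iff_subset_ne.2 ⟨hsub, fun h => heq h.symm⟩)
        omega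

/-- Enough ordered close pairs. -/
lemma close_pairs {a : Perm (Fin N)} (ha : IsGluing a) {K0 M : ℕ}
    (hK0 : 1 ≤ K0) (hK : K0 ≤ M / 2 + 1) (hV : K0 ≤ ncyc a)
    (W : Finset (Fin N)) (P : Finset (Fin N × Fin N))
    (hP : ∀ x ∈ W, ∀ y ∈ W, x ≠ y → Near a M x y → (x, y) ∈ P) :
    (W.card : ℝ) ^ 2 * K0 ≤ ncyc a * (W.card + P.card) := by
  classical
  have hball : ∀ x : Fin N, ∃ C : Finset (Fin N), C ⊆ ball a (M / 2) x ∧ C.card = K0 := by
    intro x
    apply Finset.exists_subset_card_eq
    refine le_trans ?_ (ball_card ha x (M / 2))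
    exact le_min hK hV
  choose C hC hCc using hball
  let c : Fin N → ℕ := fun v => (W.filter (fun w => v ∈ C w)).card
  have hsum : ∑ v ∈ mins a, (c v : ℝ) = W.card * K0 := by
    have h1 : ∑ v ∈ mins a, c v = W.card * K0 := by
      have h2 : ∀ v ∈ mins a, c v = ∑ w ∈ W, if v ∈ C w then 1 else 0 := by
        intro v _
        simp only [c, Finset.card_filter]
      rw [Finset.sum_congr rfl h2, Finset.sum_comm]
      have h3 : ∀ w ∈ W, (∑ v ∈ mins a, if v ∈ C w then 1 else 0) = K0 := by
        intro w _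
        rw [← Finset.card_filter, ← hCc w]
        congr 1
        ext v
        simp only [Finset.mem_filter]
        constructor
        · intro h
          exact h.2
        · intro h
          exact ⟨(mem_ball.1 (hC w h)).1, h⟩
      rw [Finset.sum_congr rfl h3]
      simp
    exact_mod_cast h1
  have hsq : ∑ v ∈ mins a, (c v : ℝ) ^ 2 ≤ K0 * (W.card + P.card) := by
    have h1 : ∑ v ∈ mins a, (c v) ^ 2 ≤ K0 * (W.card + P.card) := by
      have h2 : ∀ v ∈ mins a, (c v) ^ 2 =
          ∑ q ∈ W ×ˢ W, if v ∈ C q.1 ∧ v ∈ C q.2 then 1 else 0 := by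
        intro v _
        rw [← Finset.card_filter, sq]
        simp only [c]
        rw [← Finset.card_product]
        congr 1
        ext q
        simp only [Finset.mem_filter, Finset.mem_product]
        tauto
      rw [Finset.sum_congr rfl h2, Finset.sum_comm]
      have h3 : ∀ q ∈ W ×ˢ W, (∑ v ∈ mins a, if v ∈ C q.1 ∧ v ∈ C q.2 then 1 else 0) ≤
          if q.1 = q.2 ∨ q ∈ P then K0 else 0 := by
        intro q hq
        rw [Finset.mem_product] at hq
        split_ifs with hcl
        · rw [← Finset.card_filter, ← hCc q.1]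
          apply Finset.card_le_card
          intro v hv
          exact (Finset.mem_filter.1 hv).2.1
        · push Not at hcl
          rw [← Finset.card_filter]
          rw [Nat.le_zero, Finset.card_eq_zero, Finset.filter_eq_empty_iff]
          rintro v hv ⟨h1, h2⟩
          apply hcl.2
          have h4 := (mem_ball.1 (hC _ h1)).2
          have h5 := (mem_ball.1 (hC _ h2)).2
          have h6 : Near a (M / 2 + M / 2) q.1 q.2 := near_trans h4 (near_symm ha h5)
          exact hP q.1 hq.1 q.2 hq.2 hcl.1 (near_mono (by omega) h6)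
      refine (Finset.sum_le_sum h3).trans ?_
      rw [← Finset.sum_filter, Finset.sum_const, smul_eq_mul, mul_comm]
      apply Nat.mul_le_mul_left
      have h4 : (W ×ˢ W).filter (fun q => q.1 = q.2 ∨ q ∈ P) ⊆
          (W.image (fun w => (w, w))) ∪ P := by
        intro q hq
        rw [Finset.mem_filter, Finset.mem_product] at hq
        rw [Finset.mem_union, Finset.mem_image]
        rcases hq.2 with h | h
        · left
          exact ⟨q.1, hq.1.1, Prod.ext rfl h⟩
        · right
          exact h
      refine (Finset.card_le_card h4).trans ((Finset.card_union_le _ _).trans ?_)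
      exact Nat.add_le_add_right Finset.card_image_le _
    exact_mod_cast h1
  have hcs : (∑ v ∈ mins a, (c v : ℝ)) ^ 2 ≤
      ((mins a).card : ℝ) * ∑ v ∈ mins a, (c v : ℝ) ^ 2 := by
    exact sq_sum_le_card_mul_sum_sq
  rw [hsum, card_mins'] at hcs
  have hV0 : (0 : ℝ) ≤ ncyc a := Nat.cast_nonneg _
  have h1 : ((W.card : ℝ) * K0) ^ 2 ≤ ncyc a * (K0 * (W.card + P.card)) :=
    hcs.trans (mul_le_mul_of_nonneg_left hsq hV0)
  have hK0' : (0 : ℝ) < K0 := by exact_mod_cast hK0
  have h2 : (K0 : ℝ) * ((W.card : ℝ) ^ 2 * K0) ≤ K0 * (ncyc a * (W.card + P.card)) := by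
    nlinarith
  exact le_of_mul_le_mul_left h2 hK0'

/-- Number of sets containing two given points. -/
lemma two_point (W : Finset (Fin N)) (q : ℕ) {x y : Fin N} (hx : x ∈ W) (hy : y ∈ W)
    (hxy : x ≠ y) :
    (W.card - 2).choose q ≤
      ((W.powersetCard (q + 2)).filter (fun S => x ∈ S ∧ y ∈ S)).card := by
  classical
  have h1 : ((W.erase x).erase y).card = W.card - 2 := by
    rw [Finset.card_erase_of_mem (Finset.mem_erase.2 ⟨hxy.symm, hy⟩),
      Finset.card_erase_of_mem hx]
    omega
  rw [← h1, ← Finset.card_powersetCard]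
  apply Finset.card_le_card_of_injOn (fun S => insert x (insert y S))
  · intro S hS
    rw [Finset.mem_coe, Finset.mem_powersetCard] at hS
    rw [Finset.mem_coe, Finset.mem_filter, Finset.mem_powersetCard]
    have hxS : x ∉ S := fun h => by
      have := hS.1 h
      simp at this
    have hyS : y ∉ S := fun h => by
      have := hS.1 h
      simp at this
    refine ⟨⟨?_, ?_⟩, by simp, by simp⟩
    · intro z hz
      rw [Finset.mem_insert, Finset.mem_insert] at hz
      rcases hz with rfl | rfl | hz
      · exact hx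
      · exact hy
      · exact Finset.mem_of_mem_erase (Finset.mem_of_mem_erase (hS.1 hz))
    · rw [Finset.card_insert_of_notMem, Finset.card_insert_of_notMem hyS, hS.2]
      rw [Finset.mem_insert]
      push Not
      exact ⟨hxy, hxS⟩
  · intro S hS S' hS' h
    rw [Finset.mem_coe, Finset.mem_powersetCard] at hS hS'
    have key : ∀ T : Finset (Fin N), T ⊆ (W.erase x).erase y →
        ((insert x (insert y T)).erase x).erase y = T := by
      intro T hT
      have hxT : x ∉ T := fun h => by
        have := hT h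
        simp at this
      have hyT : y ∉ T := fun h => by
        have := hT h
        simp at this
      rw [Finset.erase_insert, Finset.erase_insert hyT]
      rw [Finset.mem_insert]
      push Not
      exact ⟨hxy, hxT⟩
    have h' : insert x (insert y S) = insert x (insert y S') := h
    rw [← key S hS.1, ← key S' hS'.1, h']

lemma choose_two_step (k q : ℕ) (hk : 2 ≤ k) :
    k * (k - 1) * (k - 2).choose q = k.choose (q + 2) * ((q + 2) * (q + 1)) := by
  obtain ⟨j, rfl⟩ : ∃ j, k = j + 2 := ⟨k - 2, by omega⟩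
  have h1 : (j + 1) * j.choose q = (j + 1).choose (q + 1) * (q + 1) :=
    Nat.add_one_mul_choose_eq j q
  have h2 : (j + 2) * (j + 1).choose (q + 1) = (j + 2).choose (q + 2) * (q + 2) :=
    Nat.add_one_mul_choose_eq (j + 1) (q + 1)
  have h3 : j + 2 - 1 = j + 1 := rfl
  have h4 : j + 2 - 2 = j := rfl
  rw [h3, h4]
  calc (j + 2) * (j + 1) * j.choose q = (j + 2) * ((j + 1) * j.choose q) := by ring
    _ = ((j + 2) * (j + 1).choose (q + 1)) * (q + 1) := by rw [h1]; ring
    _ = _ := by rw [h2]; ring

end PigeonAux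

open PigeonAux

theorem near_oddWalk {a : Perm (Fin N)} (ha : IsGluing a) {S : Finset (Fin N)}
    (hS : S ⊆ mins a) {x y : Fin N} (hx : x ∈ S) (hy : y ∈ S) (hxy : x ≠ y) {M : ℕ}
    (h : Near a M x y) : OddWalk a (mergeS a S) M := by
  classical
  have hex : ∃ r, Near a r x y := ⟨M, h⟩
  let r := Nat.find hex
  have hr : Near a r x y := Nat.find_spec hex
  have hrM : r ≤ M := Nat.find_min' hex h
  have hmin : ∀ s, s < r → ¬ Near a s x y := fun s hs => Nat.find_min hex hs
  obtain ⟨w, hw, hp⟩ := near_iff.1 hr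
  cases w with
  | nil => exact absurd (mins_eq (hS hx) (hS hy) hp) hxy
  | cons i v =>
      have hlen : v.length + 1 ≤ r := by simpa using hw
      refine ⟨i :: v, by simpa using hlen.trans hrM, ?_, i, ?_⟩
      · rw [Cycle.chain_coe_cons]
        refine chain_of_path (y := y) ?_ hp.2
        exact Or.inr ⟨⟨y, hy, Perm.SameCycle.refl _ _⟩, ⟨x, hx, hp.1⟩⟩
      · have hc : v.countP (fun j => decide (j = i ∨ j = a i)) = 0 := by
          rw [List.countP_eq_zero]
          intro j hj hj'
          have hj'' : j = i ∨ j = a i := by simpa using hj'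
          obtain ⟨u, t, rfl⟩ := List.append_of_mem hj
          have h1 : PathL a (a j) t y := PathL.suffix hp.2
          have ht : t.length + 1 ≤ u.length + (t.length + 1) := by omega
          have hlen' : u.length + (t.length + 1) + 1 ≤ r := by simpa using hlen
          rcases hj'' with rfl | rfl
          · apply hmin (t.length + 1) (by omega)
            exact near_iff.2 ⟨j :: t, by simp, hp.1, h1⟩
          · rw [(ha i).1] at h1
            apply hmin t.length (by omega)
            exact near_iff.2 ⟨t, le_refl _, h1.congr_left hp.1⟩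
        rw [List.countP_cons, hc]
        simp

theorem oddWalk_merge {a : Perm (Fin N)} {S : Finset (Fin N)} {M : ℕ}
    (h : OddWalk a (cyc a) M) : OddWalk a (mergeS a S) M := by
  obtain ⟨w, hw, hc, e, he⟩ := h
  refine ⟨w, hw, ?_, e, he⟩
  exact Cycle.Chain.imp (fun i j hij => Or.inl hij) hc

open Classical in
theorem pigeon {a : Perm (Fin N)} (hN : 0 < N) (ha : IsGluing a) {K0 M p : ℕ}
    (hK0 : 1 ≤ K0) (hK : K0 ≤ M / 2 + 1) (hV : K0 ≤ ncyc a) (hm : ncyc a ≤ N / 2 + 1)
    (hp : 1 ≤ p) (W : Finset (Fin N)) (hW : W ⊆ mins a) :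
    (((W.powersetCard (2 * p + 1)).filter
        (fun S => ∀ x ∈ S, ∀ y ∈ S, x ≠ y → ¬ Near a M x y)).card : ℝ) ≤
      qG N K0 W.card * (W.card.choose (2 * p + 1) : ℝ) := by
  set k := W.card with hk
  set m := N / 2 + 1 with hmdef
  set Good := (W.powersetCard (2 * p + 1)).filter
        (fun S => ∀ x ∈ S, ∀ y ∈ S, x ≠ y → ¬ Near a M x y) with hGood
  set Bad := (W.powersetCard (2 * p + 1)).filter
        (fun S => ¬ ∀ x ∈ S, ∀ y ∈ S, x ≠ y → ¬ Near a M x y) with hBad
  have hGB : Good.card + Bad.card = k.choose (2 * p + 1) := by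
    rw [hGood, hBad, Finset.card_filter_add_card_filter_not, Finset.card_powersetCard]
  unfold qG
  split_ifs with hbig
  swap
  · rw [one_mul]
    have : Good.card ≤ k.choose (2 * p + 1) := by omega
    exact_mod_cast this
  have hm0 : (0 : ℝ) < (m : ℝ) := by
    have : 0 < m := by omega
    exact_mod_cast this
  have hk1 : 1 ≤ k := by
    by_contra hcon
    have : k = 0 := by omega
    rw [this] at hbig
    omega
  by_cases hk2 : k < 2
  · have h0 : k.choose (2 * p + 1) = 0 := Nat.choose_eq_zero_of_lt (by omega)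
    have hG0 : Good.card = 0 := by omega
    rw [hG0, h0]
    simp
  push Not at hk2
  -- ordered close pairs
  let P : Finset (Fin N × Fin N) := (W ×ˢ W).filter (fun q => q.1 ≠ q.2 ∧ Near a M q.1 q.2)
  have hP := close_pairs ha hK0 hK hV W P (by
    intro x hx y hy hxy hn
    simp only [P, Finset.mem_filter, Finset.mem_product]
    exact ⟨⟨hx, hy⟩, hxy, hn⟩)
  rw [← hk] at hP
  have hkR : (1 : ℝ) ≤ (k : ℝ) := by exact_mod_cast hk1
  have hP2 : (k : ℝ) ^ 2 * K0 ≤ m * (k + P.card) := by
    refine hP.trans ?_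
    apply mul_le_mul_of_nonneg_right
    · exact_mod_cast hm
    · positivity
  have hbigR : 2 * (m : ℝ) ≤ K0 * k := by exact_mod_cast hbig
  have hP3 : (k : ℝ) ^ 2 * K0 ≤ 2 * m * P.card := by
    have h1 : 2 * (m : ℝ) * k ≤ K0 * k * k := mul_le_mul_of_nonneg_right hbigR (by linarith)
    nlinarith
  -- double counting
  have hdc : P.card * (k - 2).choose (2 * p - 1) ≤ Bad.card * ((2 * p + 1) * (2 * p)) := by
    have h1 : ∀ q ∈ P, (k - 2).choose (2 * p - 1) ≤
        ((Bad).filter (fun S => q.1 ∈ S ∧ q.2 ∈ S)).card := by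
      intro q hq
      simp only [P, Finset.mem_filter, Finset.mem_product] at hq
      have h2 := two_point W (2 * p - 1) hq.1.1 hq.1.2 hq.2.1
      have h3 : 2 * p - 1 + 2 = 2 * p + 1 := by omega
      rw [h3, ← hk] at h2
      refine h2.trans (Finset.card_le_card ?_)
      intro S hS
      rw [Finset.mem_filter] at hS
      rw [Finset.mem_filter, hBad, Finset.mem_filter]
      refine ⟨⟨hS.1, ?_⟩, hS.2⟩
      intro hcon
      exact hcon q.1 hS.2.1 q.2 hS.2.2 hq.2.1 hq.2.2
    have h2 : P.card * (k - 2).choose (2 * p - 1) ≤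
        ∑ q ∈ P, ((Bad).filter (fun S => q.1 ∈ S ∧ q.2 ∈ S)).card := by
      rw [← smul_eq_mul, ← Finset.sum_const]
      exact Finset.sum_le_sum h1
    refine h2.trans ?_
    have h3 : ∑ q ∈ P, ((Bad).filter (fun S => q.1 ∈ S ∧ q.2 ∈ S)).card =
        ∑ S ∈ Bad, (P.filter (fun q => q.1 ∈ S ∧ q.2 ∈ S)).card := by
      simp only [Finset.card_filter]
      exact Finset.sum_comm
    rw [h3, ← smul_eq_mul, ← Finset.sum_const]
    apply Finset.sum_le_sum
    intro S hS
    rw [hBad, Finset.mem_filter, Finset.mem_powersetCard] at hS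
    have h4 : P.filter (fun q => q.1 ∈ S ∧ q.2 ∈ S) ⊆ S.offDiag := by
      intro q hq
      simp only [P, Finset.mem_filter, Finset.mem_product] at hq
      rw [Finset.mem_offDiag]
      exact ⟨hq.2.1, hq.2.2, hq.1.2.1⟩
    refine (Finset.card_le_card h4).trans ?_
    rw [Finset.offDiag_card, hS.1.2]
    have h5 : (2 * p + 1) * (2 * p + 1) - (2 * p + 1) = (2 * p + 1) * (2 * p) := by
      have : (2 * p + 1) * (2 * p + 1) = (2 * p + 1) * (2 * p) + (2 * p + 1) := by ring
      omega
    rw [h5]
  have hct := choose_two_step k (2 * p - 1) hk2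
  have h3 : 2 * p - 1 + 2 = 2 * p + 1 := by omega
  have h4 : 2 * p - 1 + 1 = 2 * p := by omega
  rw [h3, h4] at hct
  have hmain : P.card * k.choose (2 * p + 1) ≤ Bad.card * (k * (k - 1)) := by
    have h5 : P.card * k.choose (2 * p + 1) * ((2 * p + 1) * (2 * p)) ≤
        Bad.card * (k * (k - 1)) * ((2 * p + 1) * (2 * p)) := by
      calc P.card * k.choose (2 * p + 1) * ((2 * p + 1) * (2 * p))
          = P.card * (k.choose (2 * p + 1) * ((2 * p + 1) * (2 * p))) := by ring
        _ = P.card * (k * (k - 1) * (k - 2).choose (2 * p - 1)) := by rw [hct]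
        _ = (P.card * (k - 2).choose (2 * p - 1)) * (k * (k - 1)) := by ring
        _ ≤ (Bad.card * ((2 * p + 1) * (2 * p))) * (k * (k - 1)) :=
            Nat.mul_le_mul_right _ hdc
        _ = _ := by ring
    exact Nat.le_of_mul_le_mul_right h5 (by positivity)
  have hmain2 : P.card * k.choose (2 * p + 1) ≤ Bad.card * (k * k) :=
    hmain.trans (Nat.mul_le_mul_left _ (Nat.mul_le_mul_left _ (Nat.sub_le _ _)))
  have hmain3 : (P.card : ℝ) * (k.choose (2 * p + 1) : ℝ) ≤ Bad.card * ((k : ℝ) * k) := by
    exact_mod_cast hmain2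
  have hC0 : (0 : ℝ) ≤ (k.choose (2 * p + 1) : ℝ) := Nat.cast_nonneg _
  have h6 : (k : ℝ) ^ 2 * K0 * (k.choose (2 * p + 1) : ℝ) ≤
      2 * m * (Bad.card * ((k : ℝ) * k)) := by
    calc (k : ℝ) ^ 2 * K0 * (k.choose (2 * p + 1) : ℝ)
        ≤ 2 * m * P.card * (k.choose (2 * p + 1) : ℝ) := mul_le_mul_of_nonneg_right hP3 hC0
      _ = 2 * m * (P.card * (k.choose (2 * p + 1) : ℝ)) := by ring
      _ ≤ _ := mul_le_mul_of_nonneg_left hmain3 (by positivity)
  have h7 : (K0 : ℝ) * (k.choose (2 * p + 1) : ℝ) ≤ 2 * m * Bad.card := by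
    have h8 : (k : ℝ) ^ 2 * ((K0 : ℝ) * (k.choose (2 * p + 1) : ℝ)) ≤
        (k : ℝ) ^ 2 * (2 * m * Bad.card) := by nlinarith
    exact le_of_mul_le_mul_left h8 (by positivity)
  have h9 : (Good.card : ℝ) = (k.choose (2 * p + 1) : ℝ) - Bad.card := by
    have : (Good.card : ℝ) + Bad.card = (k.choose (2 * p + 1) : ℝ) := by exact_mod_cast hGB
    linarith
  have h10 : (K0 : ℝ) / (2 * m) * (k.choose (2 * p + 1) : ℝ) ≤ Bad.card := by
    rw [div_mul_eq_mul_div, div_le_iff₀ (by positivity)]
    linarith
  have h11 : ((N / 2 + 1 : ℕ) : ℝ) = (m : ℝ) := rfl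
  rw [h11, h9]
  linarith

end Uni

end Pool.Agent.Syst
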