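import Pool.Agent.Work.MP_e76ef6d3_pr.Chapuy
import Pool.Agent.Work.MP_e76ef6d3_pr.Pigeon

/-!
# Labelled one-face maps: recursions for the label profile functionals
-/

namespace Pool.Agent.Syst

open Equiv Filter Topology

namespace LabAux

variable {N : ℕ}

/-! ### Relabelling -/

theorem isLab_relabel [NeZero N] {ω : Perm (Fin N)} (hω : ω 0 = 0) (a : Perm (Fin N))
    (s : Setoid (Fin N)) (μ : Fin N → ℤ) :
    IsLab (ω * a * ω⁻¹) (s.comap (⇑ω⁻¹)) (μ ∘ ⇑ω⁻¹) ↔ IsLab a s μ := by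
  have h0 : ω⁻¹ 0 = 0 := by
    rw [Perm.inv_eq_iff_eq]; exact hω.symm
  unfold IsLab
  refine and_congr ?_ (and_congr ?_ ?_)
  · constructor
    · intro h x y hxy
      have := h (ω x) (ω y) (by
        show s (ω⁻¹ (ω x)) (ω⁻¹ (ω y))
        simpa using hxy)
      simpa using this
    · intro h x y hxy
      exact h _ _ hxy
  · constructor
    · intro h i
      have := h (ω i)
      simpa [Perm.mul_apply] using this
    · intro h i
      have := h (ω⁻¹ i)
      simpa [Perm.mul_apply] using this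
  · show μ (ω⁻¹ 0) = 0 ↔ μ 0 = 0
    rw [h0]

theorem mem_box_relabel (ω : Perm (Fin N)) (μ : Fin N → ℤ) :
    (μ ∘ ⇑ω⁻¹) ∈ Box N ↔ μ ∈ Box N := by
  unfold Box
  simp only [Fintype.mem_piFinset, Function.comp]
  constructor
  · intro h i
    have := h (ω i)
    simpa using this
  · intro h i
    exact h _

theorem prof_relabel (ω : Perm (Fin N)) (s : Setoid (Fin N)) (μ : Fin N → ℤ) :
    prof (s.comap (⇑ω⁻¹)) (μ ∘ ⇑ω⁻¹) = prof s μ := by
  funext b
  unfold prof
  refine Nat.card_congr (Equiv.subtypeEquiv (Quotient.congr (ω⁻¹ : Perm (Fin N))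
    (fun x y => Iff.rfl)) ?_)
  intro c
  induction c using Quotient.inductionOn with
  | h z =>
    constructor
    · rintro ⟨x, hx, hb⟩
      refine ⟨ω⁻¹ x, ?_, hb⟩
      rw [← hx]; rfl
    · rintro ⟨x, hx, hb⟩
      refine ⟨ω x, ?_, by simpa using hb⟩
      apply Quotient.sound
      have hx' : s x (ω⁻¹ z) := Quotient.exact hx
      show s (ω⁻¹ (ω x)) (ω⁻¹ z)
      simpa using hx'

theorem oddWalk_relabel_mp (ω : Perm (Fin N)) (a : Perm (Fin N)) (s : Setoid (Fin N)) (M : ℕ)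
    (h : OddWalk a s M) : OddWalk (ω * a * ω⁻¹) (s.comap (⇑ω⁻¹)) M := by
  obtain ⟨w, hl, hc, e, he⟩ := h
  refine ⟨w.map ω, by simpa using hl, ?_, ω e, ?_⟩
  · rw [← Cycle.map_coe, Cycle.chain_map]
    refine hc.imp ?_
    intro i j hij
    show s (ω⁻¹ ((ω * a * ω⁻¹) (ω i))) (ω⁻¹ (ω j))
    simpa [Perm.mul_apply] using hij
  · rw [List.countP_map]
    convert he using 3
    simp [Perm.mul_apply]

theorem oddWalk_relabel (ω : Perm (Fin N)) (a : Perm (Fin N)) (s : Setoid (Fin N)) (M : ℕ) :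
    OddWalk (ω * a * ω⁻¹) (s.comap (⇑ω⁻¹)) M ↔ OddWalk a s M := by
  constructor
  · intro h
    have := oddWalk_relabel_mp ω⁻¹ _ _ M h
    have e1 : ω⁻¹ * (ω * a * ω⁻¹) * (ω⁻¹)⁻¹ = a := by group
    have e2 : (s.comap (⇑ω⁻¹)).comap (⇑((ω⁻¹)⁻¹ : Perm (Fin N))) = s := by
      ext x y
      show s (ω⁻¹ ((ω⁻¹)⁻¹ x)) (ω⁻¹ ((ω⁻¹)⁻¹ y)) ↔ s x y
      simp
    rw [e1, e2] at this
    exact this
  · exact oddWalk_relabel_mp ω a s M

open Classical in
theorem sum_relabel [NeZero N] {ω : Perm (Fin N)} (hω : ω 0 = 0) (a : Perm (Fin N))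
    (s : Setoid (Fin N)) (f : (ℤ → ℕ) → ℝ) :
    ∑ μ ∈ (Box N).filter (IsLab (ω * a * ω⁻¹) (s.comap (⇑ω⁻¹))),
        f (prof (s.comap (⇑ω⁻¹)) μ) =
      ∑ μ ∈ (Box N).filter (IsLab a s), f (prof s μ) := by
  symm
  refine Finset.sum_equiv (Equiv.arrowCongr ω (Equiv.refl ℤ)) ?_ ?_
  · intro μ
    have : (Equiv.arrowCongr ω (Equiv.refl ℤ)) μ = μ ∘ ⇑ω⁻¹ := rfl
    rw [this, Finset.mem_filter, Finset.mem_filter, mem_box_relabel, isLab_relabel hω]
  · intro μ _
    have : (Equiv.arrowCongr ω (Equiv.refl ℤ)) μ = μ ∘ ⇑ω⁻¹ := rfl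
    rw [this, prof_relabel]

/-! ### Transversals -/

open Classical in
theorem prof_transversal (s : Setoid (Fin N)) (μ : Fin N → ℤ) (T : Finset (Fin N))
    (h1 : ∀ x, ∃ t ∈ T, s t x) (h2 : ∀ t ∈ T, ∀ t' ∈ T, s t t' → t = t')
    (hμ : ∀ x y, s x y → μ x = μ y) (c : ℤ) :
    prof s μ c = (T.filter (fun t => μ t = c)).card := by
  unfold prof
  rw [← Nat.card_eq_finsetCard]
  symm
  refine Nat.card_congr (Equiv.ofBijective
    (fun t : {x // x ∈ T.filter (fun t => μ t = c)} =>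
      (⟨Quotient.mk s t.1, t.1, rfl, (Finset.mem_filter.1 t.2).2⟩ :
        {c' : Quotient s // ∃ x, Quotient.mk s x = c' ∧ μ x = c})) ⟨?_, ?_⟩)
  · rintro ⟨t, ht⟩ ⟨t', ht'⟩ h
    have h' : Quotient.mk s t = Quotient.mk s t' := congrArg Subtype.val h
    exact Subtype.ext (h2 t (Finset.mem_filter.1 ht).1 t' (Finset.mem_filter.1 ht').1
      (Quotient.exact h'))
  · rintro ⟨q, x, rfl, hx⟩
    obtain ⟨t, ht, hts⟩ := h1 x
    refine ⟨⟨t, Finset.mem_filter.2 ⟨ht, ?_⟩⟩, ?_⟩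
    · rw [hμ t x hts, hx]
    · exact Subtype.ext (Quotient.sound hts)

theorem mins_exists (a : Perm (Fin N)) (x : Fin N) : ∃ t ∈ mins a, cyc a t x := by
  classical
  obtain ⟨t, ht, hmin⟩ := Finset.exists_min_image
    (Finset.univ.filter (fun y => (sig a).SameCycle y x)) id
    ⟨x, by simp [Perm.SameCycle.refl]⟩
  have ht' : (sig a).SameCycle t x := (Finset.mem_filter.1 ht).2
  refine ⟨t, ?_, ht'⟩
  unfold mins
  refine Finset.mem_filter.2 ⟨Finset.mem_univ _, fun y hy => hmin y ?_⟩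
  exact Finset.mem_filter.2 ⟨Finset.mem_univ _, hy.symm.trans ht'⟩

theorem mins_unique (a : Perm (Fin N)) {t t' : Fin N} (ht : t ∈ mins a) (ht' : t' ∈ mins a)
    (h : cyc a t t') : t = t' := by
  classical
  unfold mins at ht ht'
  have h1 := (Finset.mem_filter.1 ht).2 t' h
  have h2 := (Finset.mem_filter.1 ht').2 t (Perm.SameCycle.symm h)
  exact le_antisymm h1 h2

open Classical in
theorem prof_cyc (a : Perm (Fin N)) (μ : Fin N → ℤ) (hμ : ∀ x y, cyc a x y → μ x = μ y)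
    (c : ℤ) : prof (cyc a) μ c = ((mins a).filter (fun t => μ t = c)).card :=
  prof_transversal (cyc a) μ (mins a) (mins_exists a)
    (fun _ ht _ ht' h => mins_unique a ht ht' h) hμ c

theorem isLab_mergeS [NeZero N] (a : Perm (Fin N)) (S : Finset (Fin N)) (μ : Fin N → ℤ)
    {s0 : Fin N} (hs0 : s0 ∈ S) :
    IsLab a (mergeS a S) μ ↔ IsLab a (cyc a) μ ∧ ∀ x ∈ S, μ x = μ s0 := by
  unfold IsLab
  constructor
  · rintro ⟨h1, h2, h3⟩
    refine ⟨⟨fun x y hxy => h1 x y (Or.inl hxy), h2, h3⟩, fun x hx => h1 x s0 (Or.inr ?_)⟩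
    exact ⟨⟨x, hx, Perm.SameCycle.refl _ _⟩, ⟨s0, hs0, Perm.SameCycle.refl _ _⟩⟩
  · rintro ⟨⟨h1, h2, h3⟩, h4⟩
    refine ⟨?_, h2, h3⟩
    rintro x y (h | ⟨⟨s, hs, hsx⟩, ⟨t, ht, hty⟩⟩)
    · exact h1 x y h
    · rw [← h1 s x hsx, ← h1 t y hty, h4 s hs, h4 t ht]

open Classical in
theorem prof_mergeS [NeZero N] (a : Perm (Fin N)) (S : Finset (Fin N)) (hS : S ⊆ mins a)
    (μ : Fin N → ℤ) {p : ℕ} (hcard : S.card = 2 * p + 1) (b : ℤ)
    (hμ : IsLab a (cyc a) μ) (hb : ∀ x ∈ S, μ x = b) :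
    prof (mergeS a S) μ =
      fun c => if c = b then prof (cyc a) μ c - 2 * p else prof (cyc a) μ c := by
  obtain ⟨s0, hs0⟩ : S.Nonempty := Finset.card_pos.1 (by omega)
  have hlab : IsLab a (mergeS a S) μ :=
    (isLab_mergeS a S μ hs0).2 ⟨hμ, fun x hx => by rw [hb x hx, hb s0 hs0]⟩
  funext c
  have hT := prof_transversal (mergeS a S) μ (insert s0 (mins a \ S)) ?_ ?_ hlab.1 c
  · rw [hT, prof_cyc a μ hμ.1 c]
    by_cases hc : c = b
    · subst hc
      rw [if_pos rfl, Finset.filter_insert, if_pos (hb s0 hs0), Finset.card_insert_of_notMem]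
      · have hsub : S ⊆ (mins a).filter (fun t => μ t = c) := fun x hx =>
          Finset.mem_filter.2 ⟨hS hx, hb x hx⟩
        have : (mins a \ S).filter (fun t => μ t = c) =
            (mins a).filter (fun t => μ t = c) \ S := by
          ext x; simp only [Finset.mem_filter, Finset.mem_sdiff]; tauto
        rw [this, Finset.card_sdiff_of_subset hsub, hcard]
        have := Finset.card_le_card hsub
        omega
      · simp [hs0]
    · rw [if_neg hc, Finset.filter_insert, if_neg (by rw [hb s0 hs0]; exact fun h => hc h.symm)]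
      congr 1
      ext x
      simp only [Finset.mem_filter, Finset.mem_sdiff]
      constructor
      · rintro ⟨⟨h1, _⟩, h3⟩; exact ⟨h1, h3⟩
      · rintro ⟨h1, h3⟩
        exact ⟨⟨h1, fun hx => hc (by rw [← h3, hb x hx])⟩, h3⟩
  · intro x
    obtain ⟨t, ht, htx⟩ := mins_exists a x
    by_cases htS : t ∈ S
    · exact ⟨s0, Finset.mem_insert_self _ _, Or.inr ⟨⟨s0, hs0, Perm.SameCycle.refl _ _⟩,
        ⟨t, htS, htx⟩⟩⟩
    · exact ⟨t, Finset.mem_insert_of_mem (Finset.mem_sdiff.2 ⟨ht, htS⟩), Or.inl htx⟩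
  · have key : ∀ t ∈ mins a, (∃ s ∈ S, (sig a).SameCycle s t) → t ∈ S := by
      rintro t ht ⟨s, hs, hst⟩
      rw [← mins_unique a (hS hs) ht hst]; exact hs
    intro t ht t' ht' h
    rcases Finset.mem_insert.1 ht with rfl | ht1 <;> rcases Finset.mem_insert.1 ht' with rfl | ht1'
    · rfl
    · exfalso
      have hm := (Finset.mem_sdiff.1 ht1')
      rcases h with h | ⟨_, h⟩
      · exact hm.2 (key t' hm.1 ⟨t, hs0, h⟩)
      · exact hm.2 (key t' hm.1 h)
    · exfalso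
      have hm := (Finset.mem_sdiff.1 ht1)
      rcases h with h | ⟨h, _⟩
      · exact hm.2 (key t hm.1 ⟨t', hs0, h.symm⟩)
      · exact hm.2 (key t hm.1 h)
    · have hm := (Finset.mem_sdiff.1 ht1)
      have hm' := (Finset.mem_sdiff.1 ht1')
      rcases h with h | ⟨h, _⟩
      · exact mins_unique a hm.1 hm'.1 h
      · exact absurd (key t hm.1 h) hm.2

open Classical in
theorem term_eq [NeZero N] (a : Perm (Fin N)) {p : ℕ} (f : (ℤ → ℕ) → ℝ) (S : Finset (Fin N))
    (hS : S ∈ (mins a).powersetCard (2 * p + 1)) (μ : Fin N → ℤ) (hμB : μ ∈ Box N)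
    (hμ : IsLab a (cyc a) μ) :
    (if IsLab a (mergeS a S) μ then f (prof (mergeS a S) μ) else 0) =
      ∑ b ∈ Finset.Icc (-(N : ℤ)) N, if (∀ x ∈ S, μ x = b) then
        f (fun c => if c = b then prof (cyc a) μ c - 2 * p else prof (cyc a) μ c) else 0 := by
  obtain ⟨hS1, hS2⟩ := Finset.mem_powersetCard.1 hS
  obtain ⟨s0, hs0⟩ : S.Nonempty := Finset.card_pos.1 (by omega)
  by_cases h : IsLab a (mergeS a S) μ
  · rw [if_pos h]
    have h2 := ((isLab_mergeS a S μ hs0).1 h).2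
    rw [Finset.sum_eq_single (μ s0)]
    · rw [if_pos h2, prof_mergeS a S hS1 μ hS2 (μ s0) hμ h2]
    · intro b _ hb
      rw [if_neg]
      intro h3
      exact hb (h3 s0 hs0).symm
    · intro hn
      exfalso
      apply hn
      have := (Fintype.mem_piFinset.1 hμB) s0
      exact this
  · rw [if_neg h]
    symm
    apply Finset.sum_eq_zero
    intro b _
    rw [if_neg]
    intro h3
    exact h ((isLab_mergeS a S μ hs0).2 ⟨hμ, fun x hx => by rw [h3 x hx, h3 s0 hs0]⟩)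

open Classical in
theorem sum_merge [NeZero N] (a : Perm (Fin N)) (p : ℕ) (f : (ℤ → ℕ) → ℝ)
    (P : Finset (Fin N) → Prop) [DecidablePred P] :
    ∑ S ∈ ((mins a).powersetCard (2 * p + 1)).filter P,
      ∑ μ ∈ (Box N).filter (IsLab a (mergeS a S)), f (prof (mergeS a S) μ) =
    ∑ μ ∈ (Box N).filter (IsLab a (cyc a)), ∑ b ∈ Finset.Icc (-(N : ℤ)) N,
      (((((mins a).filter (fun t => μ t = b)).powersetCard (2 * p + 1)).filter P).card : ℝ) *
        f (fun c => if c = b then prof (cyc a) μ c - 2 * p else prof (cyc a) μ c) := by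
  have h1 : ∀ S ∈ ((mins a).powersetCard (2 * p + 1)).filter P,
      ∑ μ ∈ (Box N).filter (IsLab a (mergeS a S)), f (prof (mergeS a S) μ) =
      ∑ μ ∈ (Box N).filter (IsLab a (cyc a)),
        (if IsLab a (mergeS a S) μ then f (prof (mergeS a S) μ) else 0) := by
    intro S hS
    rw [← Finset.sum_filter, Finset.filter_filter]
    refine Finset.sum_congr ?_ (fun _ _ => rfl)
    ext μ
    simp only [Finset.mem_filter]
    obtain ⟨hS1, hS2⟩ := Finset.mem_powersetCard.1 (Finset.mem_filter.1 hS).1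
    obtain ⟨s0, hs0⟩ : S.Nonempty := Finset.card_pos.1 (by omega)
    constructor
    · rintro ⟨h1, h2⟩
      exact ⟨h1, ((isLab_mergeS a S μ hs0).1 h2).1, h2⟩
    · rintro ⟨h1, _, h2⟩
      exact ⟨h1, h2⟩
  rw [Finset.sum_congr rfl h1, Finset.sum_comm]
  refine Finset.sum_congr rfl (fun μ hμ => ?_)
  obtain ⟨hμB, hμL⟩ := Finset.mem_filter.1 hμ
  rw [Finset.sum_congr rfl (fun S hS => term_eq a f S (Finset.mem_filter.1 hS).1 μ hμB hμL),
    Finset.sum_comm]
  refine Finset.sum_congr rfl (fun b _ => ?_)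
  rw [← Finset.sum_filter, Finset.sum_const, nsmul_eq_mul]
  congr 3
  ext S
  simp only [Finset.mem_filter, Finset.mem_powersetCard]
  constructor
  · rintro ⟨⟨⟨h1, h2⟩, h3⟩, h4⟩
    exact ⟨⟨fun x hx => Finset.mem_filter.2 ⟨h1 hx, h4 x hx⟩, h2⟩, h3⟩
  · rintro ⟨⟨h1, h2⟩, h3⟩
    exact ⟨⟨⟨fun x hx => (Finset.mem_filter.1 (h1 hx)).1, h2⟩, h3⟩,
      fun x hx => (Finset.mem_filter.1 (h1 hx)).2⟩

end LabAux

open LabAux

variable {N : ℕ}

theorem LL_rec [NeZero N] (h : ℕ) (f : (ℤ → ℕ) → ℝ) :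
    (2 * h : ℝ) * LL N h f = ∑ p ∈ Finset.Icc 1 h, LL N (h - p) (Tr N p (fun _ => 1) f) := by
  classical
  unfold LL
  rw [chapuy h (fun a s => ∑ μ ∈ (Box N).filter (IsLab a s), f (prof s μ))
    (fun ω hω a s => sum_relabel hω a s f)]
  refine Finset.sum_congr rfl (fun p _ => Finset.sum_congr rfl (fun a _ => ?_))
  have h1 := sum_merge a p f (fun _ => True)
  rw [Finset.filter_true] at h1
  refine h1.trans (Finset.sum_congr rfl (fun μ hμ => ?_))
  unfold Tr
  refine Finset.sum_congr rfl (fun b _ => ?_)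
  rw [Finset.filter_true, Finset.card_powersetCard,
    prof_cyc a μ (Finset.mem_filter.1 hμ).2.1 b, one_mul]

theorem GG_rec [NeZero N] (h : ℕ) {K0 M : ℕ} (hK0 : 1 ≤ K0) (hK : K0 ≤ M / 2 + 1)
    (hV : K0 + 2 * h ≤ N / 2 + 1) (f : (ℤ → ℕ) → ℝ) (hf : ∀ ν, 0 ≤ f ν) :
    (2 * h : ℝ) * GG N M h f ≤ ∑ p ∈ Finset.Icc 1 h, GG N M (h - p) (Tr N p (qG N K0) f) := by
  classical
  have hGG : ∀ (h : ℕ) (f : (ℤ → ℕ) → ℝ), GG N M h f = ∑ a ∈ Uni N h,
      if OddWalk a (cyc a) M then 0 else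
        ∑ μ ∈ (Box N).filter (IsLab a (cyc a)), f (prof (cyc a) μ) := by
    intro h f
    unfold GG
    refine Finset.sum_congr rfl (fun a _ => ?_)
    by_cases ho : OddWalk a (cyc a) M
    · simp [ho]
    · simp [ho]
  rw [hGG, chapuy h (fun a s => if OddWalk a s M then 0 else
    ∑ μ ∈ (Box N).filter (IsLab a s), f (prof s μ)) (fun ω hω a s => by
      simp only [oddWalk_relabel, sum_relabel hω])]
  refine Finset.sum_le_sum (fun p hp => ?_)
  rw [hGG]
  refine Finset.sum_le_sum (fun a ha => ?_)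
  by_cases ho : OddWalk a (cyc a) M
  · rw [if_pos ho]
    apply le_of_eq
    apply Finset.sum_eq_zero
    intro S _
    rw [if_pos (oddWalk_merge ho)]
  · rw [if_neg ho]
    have ha' : IsGluing a ∧ ncyc a + 2 * (h - p) = N / 2 + 1 := by
      unfold Uni at ha
      exact (Finset.mem_filter.1 ha).2
    have hp' := Finset.mem_Icc.1 hp
    set P : Finset (Fin N) → Prop := fun S => ∀ x ∈ S, ∀ y ∈ S, x ≠ y → ¬ Near a M x y with hP
    have h0 : ∀ (s : Setoid (Fin N)) (g : (ℤ → ℕ) → ℝ), (∀ ν, 0 ≤ g ν) →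
        0 ≤ ∑ μ ∈ (Box N).filter (IsLab a s), g (prof s μ) :=
      fun s g hg => Finset.sum_nonneg (fun μ _ => hg _)
    calc ∑ S ∈ (mins a).powersetCard (2 * p + 1),
          (if OddWalk a (mergeS a S) M then 0 else
            ∑ μ ∈ (Box N).filter (IsLab a (mergeS a S)), f (prof (mergeS a S) μ))
        ≤ ∑ S ∈ (mins a).powersetCard (2 * p + 1), (if P S then
            ∑ μ ∈ (Box N).filter (IsLab a (mergeS a S)), f (prof (mergeS a S) μ) else 0) := by
          refine Finset.sum_le_sum (fun S hS => ?_)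
          by_cases hPS : P S
          · rw [if_pos hPS]
            split_ifs
            · exact h0 _ f hf
            · exact le_refl _
          · rw [if_neg hPS]
            rw [hP] at hPS
            push Not at hPS
            obtain ⟨x, hx, y, hy, hxy, hn⟩ := hPS
            rw [if_pos (near_oddWalk ha'.1 (Finset.mem_powersetCard.1 hS).1 hx hy hxy hn)]
      _ = ∑ S ∈ ((mins a).powersetCard (2 * p + 1)).filter P,
            ∑ μ ∈ (Box N).filter (IsLab a (mergeS a S)), f (prof (mergeS a S) μ) := by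
          rw [Finset.sum_filter]
      _ = _ := sum_merge a p f P
      _ ≤ _ := by
          refine Finset.sum_le_sum (fun μ hμ => ?_)
          unfold Tr
          refine Finset.sum_le_sum (fun b _ => ?_)
          refine mul_le_mul_of_nonneg_right ?_ (hf _)
          rw [prof_cyc a μ (Finset.mem_filter.1 hμ).2.1 b]
          have hpg := pigeon (M := M) (p := p) (Nat.pos_of_ne_zero (NeZero.ne N)) ha'.1 hK0 hK
            (by omega) (by omega) hp'.1 ((mins a).filter (fun t => μ t = b))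
            (Finset.filter_subset _ _)
          refine le_trans (le_of_eq ?_) hpg
          congr 2

end Pool.Agent.Syst
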