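import Pool.Agent.Work.MP_e76ef6d3_pr.Defs2

/-!
# The slicing / gluing step (Chapuy)
-/

namespace Pool.Agent.Syst

open Equiv Filter Topology

namespace StepAux

variable {N : ℕ}

theorem rot_val (z : Fin N) : (finRotate N z).val = if z.val + 1 = N then 0 else z.val + 1 := by
  cases N with
  | zero => exact z.elim0
  | succ n =>
    rw [coe_finRotate]
    by_cases h : z = Fin.last n
    · subst h; simp
    · have h1 : z.val ≠ n := fun h2 => h (Fin.ext h2)
      rw [if_neg h, if_neg (by omega)]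

theorem blk_val {x1 x2 x3 : Fin N} (h12 : x1 < x2) (h23 : x2 < x3) (z : Fin N) :
    (blk x1 x2 x3 z).val = if x2.1 < z.1 ∧ z.1 ≤ x3.1 then z.1 - (x2.1 - x1.1)
          else if x1.1 < z.1 ∧ z.1 ≤ x2.1 then z.1 + (x3.1 - x2.1) else z.1 := by
  have h : x1.1 < x2.1 ∧ x2.1 < x3.1 := ⟨h12, h23⟩
  unfold blk
  rw [dif_pos h]
  rfl

/-- The three-cycle `x1 → x2 → x3 → x1`. -/
def c3 (x1 x2 x3 : Fin N) : Perm (Fin N) := swap x1 x2 * swap x2 x3

theorem c3_1 {x1 x2 x3 : Fin N} (h12 : x1 ≠ x2) (h13 : x1 ≠ x3) : c3 x1 x2 x3 x1 = x2 := by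
  simp [c3, Perm.mul_apply, swap_apply_of_ne_of_ne h12 h13]

theorem c3_2 {x1 x2 x3 : Fin N} (h13 : x1 ≠ x3) (h23 : x2 ≠ x3) : c3 x1 x2 x3 x2 = x3 := by
  simp [c3, Perm.mul_apply, swap_apply_of_ne_of_ne h13.symm h23.symm]

theorem c3_3 (x1 x2 x3 : Fin N) : c3 x1 x2 x3 x3 = x1 := by
  simp [c3, Perm.mul_apply]

theorem c3_ne {x1 x2 x3 z : Fin N} (h1 : z ≠ x1) (h2 : z ≠ x2) (h3 : z ≠ x3) :
    c3 x1 x2 x3 z = z := by
  simp [c3, Perm.mul_apply, swap_apply_of_ne_of_ne h2 h3, swap_apply_of_ne_of_ne h1 h2]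

theorem rot_blk {x1 x2 x3 : Fin N} (h12 : x1 < x2) (h23 : x2 < x3) (z : Fin N) :
    finRotate N (blk x1 x2 x3 z) = blk x1 x2 x3 (finRotate N (c3 x1 x2 x3 z)) := by
  have e12 : x1.1 < x2.1 := h12
  have e23 : x2.1 < x3.1 := h23
  have n3 := x3.2
  have nz := z.2
  by_cases hz1 : z = x1
  · subst hz1
    rw [c3_1 (ne_of_lt h12) (ne_of_lt (h12.trans h23))]
    apply Fin.ext
    rw [rot_val, blk_val h12 h23, blk_val h12 h23, rot_val]
    split_ifs <;> omega
  by_cases hz2 : z = x2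
  · subst hz2
    rw [c3_2 (ne_of_lt (h12.trans h23)) (ne_of_lt h23)]
    apply Fin.ext
    rw [rot_val, blk_val h12 h23, blk_val h12 h23, rot_val]
    split_ifs <;> omega
  by_cases hz3 : z = x3
  · subst hz3
    rw [c3_3]
    apply Fin.ext
    rw [rot_val, blk_val h12 h23, blk_val h12 h23, rot_val]
    split_ifs <;> omega
  rw [c3_ne hz1 hz2 hz3]
  have k1 : z.1 ≠ x1.1 := fun h => hz1 (Fin.ext h)
  have k2 : z.1 ≠ x2.1 := fun h => hz2 (Fin.ext h)
  have k3 : z.1 ≠ x3.1 := fun h => hz3 (Fin.ext h)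
  apply Fin.ext
  rw [rot_val, blk_val h12 h23, blk_val h12 h23, rot_val]
  split_ifs <;> omega

theorem rot_mul_blk {x1 x2 x3 : Fin N} (h12 : x1 < x2) (h23 : x2 < x3) :
    finRotate N * blk x1 x2 x3 = blk x1 x2 x3 * (finRotate N * c3 x1 x2 x3) := by
  ext z
  simp only [Perm.mul_apply, rot_blk h12 h23]

theorem sig_conj {x1 x2 x3 : Fin N} (h12 : x1 < x2) (h23 : x2 < x3) (a : Perm (Fin N)) :
    sig (blk x1 x2 x3 * a * (blk x1 x2 x3)⁻¹) =
      blk x1 x2 x3 * (sig a * c3 x1 x2 x3) * (blk x1 x2 x3)⁻¹ := by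
  have h := rot_mul_blk h12 h23
  unfold sig
  have h' : (blk x1 x2 x3)⁻¹ * finRotate N = finRotate N * c3 x1 x2 x3 * (blk x1 x2 x3)⁻¹ := by
    rw [inv_mul_eq_iff_eq_mul, ← mul_assoc, ← h, mul_assoc, mul_inv_cancel, mul_one]
  rw [mul_assoc (blk x1 x2 x3 * a), h']
  simp only [mul_assoc]

/-! ### Permutations: walks -/

section Walk

variable {α : Type*}

theorem inv_of_sameCycle [Finite α] {σ : Perm α} {A : α → Prop} (hA : ∀ z, A z → A (σ z))
    {x z : α} (hx : A x) (h : σ.SameCycle x z) : A z := by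
  obtain ⟨i, -, hi⟩ := h.exists_pow_eq'
  rw [← hi]
  clear hi
  induction i with
  | zero => simpa using hx
  | succ i ih => rw [pow_succ', Perm.mul_apply]; exact hA _ ih

/-- Walk along `s` from `x` through the `σ`-cycle of `p`. -/
theorem reach [Finite α] {σ s : Perm α} {x p : α} (hx : s x = σ p)
    (hs : ∀ z, σ.SameCycle p z → z ≠ p → s z = σ z) {z : α} (hz : σ.SameCycle p z) :
    ∃ j, 0 < j ∧ (s ^ j) x = z ∧ ∀ i, 0 < i → i ≤ j → σ.SameCycle p ((s ^ i) x) := by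
  classical
  obtain ⟨j0, hj0, -, hj0'⟩ := hz.exists_pow_eq''
  have hex : ∃ j, 0 < j ∧ (σ ^ j) p = z := ⟨j0, hj0, hj0'⟩
  set j := Nat.find hex with hj
  obtain ⟨hjpos, hjz⟩ : 0 < j ∧ (σ ^ j) p = z := Nat.find_spec hex
  have hmin : ∀ i, 0 < i → i < j → (σ ^ i) p ≠ p := by
    intro i hi hij h
    have h1 : (σ ^ (j - i)) p = z := by
      have : (σ ^ (j - i)) ((σ ^ i) p) = z := by
        rw [← Perm.mul_apply, ← pow_add, Nat.sub_add_cancel hij.le, hjz]
      rwa [h] at this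
    exact Nat.find_min hex (m := j - i) (by omega) ⟨by omega, h1⟩
  have hpow : ∀ i, 0 < i → i ≤ j → (s ^ i) x = (σ ^ i) p := by
    intro i
    induction i with
    | zero => intro h; omega
    | succ i ih =>
      intro _ hij
      rcases Nat.eq_zero_or_pos i with h0 | h0
      · subst h0; simpa using hx
      · rw [pow_succ', Perm.mul_apply, ih h0 (by omega), pow_succ', Perm.mul_apply]
        exact hs _ ⟨i, rfl⟩ (hmin i h0 (by omega))
  refine ⟨j, hjpos, by rw [hpow j hjpos le_rfl, hjz], fun i hi hij => ?_⟩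
  rw [hpow i hi hij]
  exact ⟨i, rfl⟩

end Walk

/-! ### Merging three cycles -/

section Merge

variable {σ s : Perm (Fin N)} {x1 x2 x3 : Fin N}

theorem s1 (hs : s = σ * c3 x1 x2 x3) (h12 : x1 ≠ x2) (h13 : x1 ≠ x3) : s x1 = σ x2 := by
  rw [hs, Perm.mul_apply, c3_1 h12 h13]

theorem s2 (hs : s = σ * c3 x1 x2 x3) (h13 : x1 ≠ x3) (h23 : x2 ≠ x3) : s x2 = σ x3 := by
  rw [hs, Perm.mul_apply, c3_2 h13 h23]

theorem s3 (hs : s = σ * c3 x1 x2 x3) : s x3 = σ x1 := by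
  rw [hs, Perm.mul_apply, c3_3]

theorem sne (hs : s = σ * c3 x1 x2 x3) {z : Fin N} (h1 : z ≠ x1) (h2 : z ≠ x2) (h3 : z ≠ x3) :
    s z = σ z := by
  rw [hs, Perm.mul_apply, c3_ne h1 h2 h3]

/-- The three cycles are pairwise distinct. -/
structure Dist (σ : Perm (Fin N)) (x1 x2 x3 : Fin N) : Prop where
  h12 : ¬ σ.SameCycle x1 x2
  h13 : ¬ σ.SameCycle x1 x3
  h23 : ¬ σ.SameCycle x2 x3

theorem Dist.ne12 (d : Dist σ x1 x2 x3) : x1 ≠ x2 := fun h => d.h12 (h ▸ Perm.SameCycle.refl _ _)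
theorem Dist.ne13 (d : Dist σ x1 x2 x3) : x1 ≠ x3 := fun h => d.h13 (h ▸ Perm.SameCycle.refl _ _)
theorem Dist.ne23 (d : Dist σ x1 x2 x3) : x2 ≠ x3 := fun h => d.h23 (h ▸ Perm.SameCycle.refl _ _)

/-- From `x1`, the merged cycle runs through the cycle of `x2` up to `x2`. -/
theorem reach12 (d : Dist σ x1 x2 x3) (hs : s = σ * c3 x1 x2 x3) {z : Fin N}
    (hz : σ.SameCycle x2 z) :
    ∃ j, 0 < j ∧ (s ^ j) x1 = z ∧ ∀ i, 0 < i → i ≤ j → σ.SameCycle x2 ((s ^ i) x1) := by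
  refine reach (s1 hs d.ne12 d.ne13) ?_ hz
  intro w hw hw2
  refine sne hs ?_ hw2 ?_
  · rintro rfl; exact d.h12 hw.symm
  · rintro rfl; exact d.h23 hw

theorem reach23 (d : Dist σ x1 x2 x3) (hs : s = σ * c3 x1 x2 x3) {z : Fin N}
    (hz : σ.SameCycle x3 z) :
    ∃ j, 0 < j ∧ (s ^ j) x2 = z ∧ ∀ i, 0 < i → i ≤ j → σ.SameCycle x3 ((s ^ i) x2) := by
  refine reach (s2 hs d.ne13 d.ne23) ?_ hz
  intro w hw hw2
  refine sne hs ?_ ?_ hw2
  · rintro rfl; exact d.h13 hw.symm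
  · rintro rfl; exact d.h23 hw.symm

theorem same12 (d : Dist σ x1 x2 x3) (hs : s = σ * c3 x1 x2 x3) : s.SameCycle x1 x2 := by
  obtain ⟨j, -, hj, -⟩ := reach12 d hs (Perm.SameCycle.refl σ x2)
  exact ⟨j, by simpa using hj⟩

theorem same23 (d : Dist σ x1 x2 x3) (hs : s = σ * c3 x1 x2 x3) : s.SameCycle x2 x3 := by
  obtain ⟨j, -, hj, -⟩ := reach23 d hs (Perm.SameCycle.refl σ x3)
  exact ⟨j, by simpa using hj⟩

theorem same_step (d : Dist σ x1 x2 x3) (hs : s = σ * c3 x1 x2 x3) (z : Fin N) :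
    s.SameCycle z (σ z) := by
  have h12 := same12 d hs
  have h23 := same23 d hs
  have key : ∀ w, s.SameCycle w (s w) := fun w => ⟨1, by simp⟩
  by_cases h1 : z = x1
  · subst h1
    rw [← s3 hs]
    exact (h12.trans h23).trans (key _)
  by_cases h2 : z = x2
  · subst h2
    rw [← s1 hs d.ne12 d.ne13]
    exact h12.symm.trans (key _)
  by_cases h3 : z = x3
  · subst h3
    rw [← s2 hs d.ne13 d.ne23]
    exact h23.symm.trans (key _)
  rw [← sne hs h1 h2 h3]
  exact key _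

theorem same_of_same (d : Dist σ x1 x2 x3) (hs : s = σ * c3 x1 x2 x3) {u v : Fin N}
    (h : σ.SameCycle u v) : s.SameCycle u v := by
  refine inv_of_sameCycle (A := fun v => s.SameCycle u v) ?_ (Perm.SameCycle.refl _ _) h
  intro z hz
  exact hz.trans (same_step d hs z)

end Merge

theorem merge_iff {a : Perm (Fin N)} {x1 x2 x3 : Fin N} (d : Dist (sig a) x1 x2 x3)
    (u v : Fin N) :
    (sig a * c3 x1 x2 x3).SameCycle u v ↔ mergeS a {x1, x2, x3} u v := by
  constructor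
  · intro h
    refine inv_of_sameCycle (A := fun v => mergeS a {x1, x2, x3} u v) ?_
      ((mergeS a {x1, x2, x3}).refl u) h
    intro z hz
    refine (mergeS a {x1, x2, x3}).trans hz ?_
    by_cases h1 : z = x1
    · subst h1
      rw [s1 rfl d.ne12 d.ne13]
      refine Or.inr ⟨⟨z, by simp, Perm.SameCycle.refl _ _⟩, ⟨x2, by simp, ⟨1, by simp⟩⟩⟩
    by_cases h2 : z = x2
    · subst h2
      rw [s2 rfl d.ne13 d.ne23]
      refine Or.inr ⟨⟨z, by simp, Perm.SameCycle.refl _ _⟩, ⟨x3, by simp, ⟨1, by simp⟩⟩⟩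
    by_cases h3 : z = x3
    · subst h3
      rw [s3 rfl]
      refine Or.inr ⟨⟨z, by simp, Perm.SameCycle.refl _ _⟩, ⟨x1, by simp, ⟨1, by simp⟩⟩⟩
    rw [sne rfl h1 h2 h3]
    exact Or.inl ⟨1, by simp⟩
  · have h12 := same12 d rfl
    have h23 := same23 d rfl
    rintro (h | ⟨⟨t, ht, htu⟩, ⟨t', ht', htv⟩⟩)
    · exact same_of_same d rfl h
    · have h1 : ∀ t ∈ ({x1, x2, x3} : Finset (Fin N)),
          (sig a * c3 x1 x2 x3).SameCycle x1 t := by
        intro t ht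
        simp only [Finset.mem_insert, Finset.mem_singleton] at ht
        rcases ht with rfl | rfl | rfl
        · exact Perm.SameCycle.refl _ _
        · exact h12
        · exact h12.trans h23
      exact ((h1 t ht).trans (same_of_same d rfl htu)).symm.trans
        ((h1 t' ht').trans (same_of_same d rfl htv))

/-! ### Splitting one cycle -/

section Split

variable {σ s : Perm (Fin N)} {x1 x2 x3 : Fin N}

/-- Walking from `x1` along `s` one first meets `x2` (after `k2` steps) and then `x3` (after `k3`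
steps). -/
structure Ord (s : Perm (Fin N)) (x1 x2 x3 : Fin N) (k2 k3 : ℕ) : Prop where
  pos : 0 < k2
  lt : k2 < k3
  e2 : (s ^ k2) x1 = x2
  e3 : (s ^ k3) x1 = x3
  ne13 : x1 ≠ x3
  min3 : ∀ j, 0 < j → j < k3 → (s ^ j) x1 ≠ x3

theorem Ord.ne1 {k2 k3 : ℕ} (o : Ord s x1 x2 x3 k2 k3) {j : ℕ} (h0 : 0 < j) (h1 : j < k3) :
    (s ^ j) x1 ≠ x1 := by
  intro h
  refine o.min3 (k3 - j) (by omega) (by omega) ?_
  have h2 : (s ^ (k3 - j)) ((s ^ j) x1) = x3 := by
    rw [← Perm.mul_apply, ← pow_add, Nat.sub_add_cancel h1.le, o.e3]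
  rwa [h] at h2

theorem Ord.ne2 {k2 k3 : ℕ} (o : Ord s x1 x2 x3 k2 k3) {j : ℕ} (h0 : 0 < j) (h1 : j < k3)
    (h2 : j ≠ k2) : (s ^ j) x1 ≠ x2 := by
  intro h
  rw [← o.e2] at h
  rcases Nat.lt_or_gt_of_ne h2 with h3 | h3
  · have h4 : (s ^ j) ((s ^ (k2 - j)) x1) = (s ^ j) x1 := by
      rw [← Perm.mul_apply, ← pow_add, Nat.add_sub_cancel' h3.le, h]
    exact o.ne1 (j := k2 - j) (by omega) (by have := o.lt; omega) ((s ^ j).injective h4)
  · have h4 : (s ^ k2) ((s ^ (j - k2)) x1) = (s ^ k2) x1 := by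
      rw [← Perm.mul_apply, ← pow_add, Nat.add_sub_cancel' h3.le, h]
    exact o.ne1 (j := j - k2) (by omega) (by omega) ((s ^ k2).injective h4)

theorem Ord.ne12 {k2 k3 : ℕ} (o : Ord s x1 x2 x3 k2 k3) : x1 ≠ x2 := by
  rw [← o.e2]; exact (o.ne1 o.pos o.lt).symm

theorem Ord.ne23 {k2 k3 : ℕ} (o : Ord s x1 x2 x3 k2 k3) : x2 ≠ x3 := by
  rw [← o.e2]; exact o.min3 _ o.pos o.lt

theorem Ord.cycle2 {k2 k3 : ℕ} (o : Ord s x1 x2 x3 k2 k3) (hs : s = σ * c3 x1 x2 x3) {z : Fin N}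
    (hz : σ.SameCycle x2 z) : ∃ j, 0 < j ∧ j ≤ k2 ∧ (s ^ j) x1 = z := by
  refine inv_of_sameCycle (A := fun z => ∃ j, 0 < j ∧ j ≤ k2 ∧ (s ^ j) x1 = z) ?_
    ⟨k2, o.pos, le_rfl, o.e2⟩ hz
  rintro w ⟨j, h0, h1, rfl⟩
  rcases Nat.lt_or_ge j k2 with h2 | h2
  · refine ⟨j + 1, by omega, by omega, ?_⟩
    rw [pow_succ', Perm.mul_apply]
    have := o.lt
    exact sne hs (o.ne1 h0 (by omega)) (o.ne2 h0 (by omega) (by omega)) (o.min3 j h0 (by omega))
  · have h3 : j = k2 := by omega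
    subst h3
    refine ⟨1, by omega, by omega, ?_⟩
    rw [o.e2, pow_one, s1 hs o.ne12 o.ne13]

theorem Ord.cycle3 {k2 k3 : ℕ} (o : Ord s x1 x2 x3 k2 k3) (hs : s = σ * c3 x1 x2 x3) {z : Fin N}
    (hz : σ.SameCycle x3 z) : ∃ j, k2 < j ∧ j ≤ k3 ∧ (s ^ j) x1 = z := by
  refine inv_of_sameCycle (A := fun z => ∃ j, k2 < j ∧ j ≤ k3 ∧ (s ^ j) x1 = z) ?_
    ⟨k3, o.lt, le_rfl, o.e3⟩ hz
  rintro w ⟨j, h0, h1, rfl⟩
  rcases Nat.lt_or_ge j k3 with h2 | h2
  · refine ⟨j + 1, by omega, by omega, ?_⟩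
    rw [pow_succ', Perm.mul_apply]
    exact sne hs (o.ne1 (by omega) (by omega)) (o.ne2 (by omega) (by omega) (by omega))
      (o.min3 j (by omega) (by omega))
  · have h3 : j = k3 := by omega
    subst h3
    refine ⟨k2 + 1, by omega, by have := o.lt; omega, ?_⟩
    rw [o.e3, pow_succ', Perm.mul_apply, o.e2, s2 hs o.ne13 o.ne23]

/-- Splitting refines. -/
theorem Ord.refine {k2 k3 : ℕ} (o : Ord s x1 x2 x3 k2 k3) (hs : s = σ * c3 x1 x2 x3)
    {u v : Fin N} (h : σ.SameCycle u v) : s.SameCycle u v := by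
  have e2 : s.SameCycle x1 x2 := ⟨k2, by simpa using o.e2⟩
  have e3 : s.SameCycle x1 x3 := ⟨k3, by simpa using o.e3⟩
  have key : ∀ w, s.SameCycle w (s w) := fun w => ⟨1, by simp⟩
  refine inv_of_sameCycle (A := fun v => s.SameCycle u v) ?_ (Perm.SameCycle.refl _ _) h
  intro z hz
  refine hz.trans ?_
  by_cases h1 : z = x1
  · subst h1
    rw [← s3 hs]
    exact e3.trans (key _)
  by_cases h2 : z = x2
  · subst h2
    rw [← s1 hs o.ne12 o.ne13]
    exact e2.symm.trans (key _)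
  by_cases h3 : z = x3
  · subst h3
    rw [← s2 hs o.ne13 o.ne23]
    exact (e3.symm.trans e2).trans (key _)
  rw [← sne hs h1 h2 h3]
  exact key _

end Split

/-! ### Gluing -/

section Glue

variable {a : Perm (Fin N)} {x1 x2 x3 : Fin N}

theorem mem_mins {x : Fin N} : x ∈ mins a ↔ ∀ y, (sig a).SameCycle x y → x ≤ y := by
  classical
  simp [mins]

theorem mem_DT {x : Fin N} : x ∈ DT a ↔ x ≤ (sig a)⁻¹ x := by
  classical
  simp [DT]

theorem mem_TT {x : Fin N} : x ∈ TT a ↔ x ∈ DT a ∧ x ∉ mins a := by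
  classical
  simp [TT]

theorem lt23 (h : GlueOK a x1 x2 x3) : x2 < x3 := h.2.2.2.2.2 x3 (Perm.SameCycle.refl _ _)
theorem lt12 (h : GlueOK a x1 x2 x3) : x1 < x2 := h.2.2.2.2.1

theorem dist_of_glueOK (h : GlueOK a x1 x2 x3) : Dist (sig a) x1 x2 x3 := by
  obtain ⟨-, h1, h2, -, h12, hall⟩ := h
  rw [mem_mins] at h1 h2
  refine ⟨fun h => ?_, fun h => ?_, fun h => ?_⟩
  · exact absurd (h2 _ h.symm) (not_le.mpr h12)
  · exact absurd (hall _ h.symm) (not_lt.mpr h12.le)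
  · exact absurd (hall _ h.symm) (lt_irrefl _)

theorem isGluing_conj (ha : IsGluing a) (g : Perm (Fin N)) : IsGluing (g * a * g⁻¹) := by
  have key : ∀ z, (g * a * g⁻¹) (g z) = g (a z) := by
    intro z
    simp [Perm.mul_apply]
  intro d
  obtain ⟨z, rfl⟩ := g.surjective d
  obtain ⟨h1, h2⟩ := ha z
  rw [key, key, h1]
  exact ⟨rfl, fun h => h2 (g.injective h)⟩

theorem sig_inv_conj (h12 : x1 < x2) (h23 : x2 < x3) (z : Fin N) :
    (sig (blk x1 x2 x3 * a * (blk x1 x2 x3)⁻¹))⁻¹ (blk x1 x2 x3 z) =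
      blk x1 x2 x3 ((sig a * c3 x1 x2 x3)⁻¹ z) := by
  rw [sig_conj h12 h23]
  simp [Perm.mul_apply, mul_inv_rev]

theorem sameCycle_blk (h12 : x1 < x2) (h23 : x2 < x3) (u v : Fin N) :
    (sig (blk x1 x2 x3 * a * (blk x1 x2 x3)⁻¹)).SameCycle u v ↔
      (sig a * c3 x1 x2 x3).SameCycle ((blk x1 x2 x3)⁻¹ u) ((blk x1 x2 x3)⁻¹ v) := by
  rw [sig_conj h12 h23, Perm.sameCycle_conj]

theorem blk_x1 (h12 : x1 < x2) (h23 : x2 < x3) : blk x1 x2 x3 x1 = x1 := by
  apply Fin.ext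
  have e12 : x1.1 < x2.1 := h12
  rw [blk_val h12 h23]
  split_ifs <;> omega

theorem blk_x2 (h12 : x1 < x2) (h23 : x2 < x3) : blk x1 x2 x3 x2 = x3 := by
  apply Fin.ext
  have e12 : x1.1 < x2.1 := h12
  have e23 : x2.1 < x3.1 := h23
  rw [blk_val h12 h23]
  split_ifs <;> omega

theorem blk_x3_val (h12 : x1 < x2) (h23 : x2 < x3) :
    (blk x1 x2 x3 x3).val = x3.1 - (x2.1 - x1.1) := by
  have e12 : x1.1 < x2.1 := h12
  have e23 : x2.1 < x3.1 := h23
  rw [blk_val h12 h23]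
  split_ifs <;> omega

theorem x1_le_blk (h12 : x1 < x2) (h23 : x2 < x3) (z : Fin N) :
    x1 ≤ blk x1 x2 x3 z ↔ x1 ≤ z := by
  have e12 : x1.1 < x2.1 := h12
  have e23 : x2.1 < x3.1 := h23
  rw [Fin.le_def, Fin.le_def, blk_val h12 h23]
  split_ifs <;> omega

theorem s_inv_x3 (h : GlueOK a x1 x2 x3) :
    blk x1 x2 x3 x3 ≤ blk x1 x2 x3 ((sig a * c3 x1 x2 x3)⁻¹ x3) := by
  have h12 := lt12 h
  have h23 := lt23 h
  have d := dist_of_glueOK h
  have hD := mem_DT.mp h.2.2.2.1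
  set u := (sig a)⁻¹ x3 with hu
  have hu' : sig a u = x3 := by simp [hu]
  have hsame : (sig a).SameCycle x3 u := ⟨-1, by simp [hu]⟩
  have hu1 : u ≠ x1 := by rintro h; rw [h] at hsame; exact d.h13 hsame.symm
  have hu2 : u ≠ x2 := by rintro h; rw [h] at hsame; exact d.h23 hsame.symm
  have e12 : x1.1 < x2.1 := h12
  have e23 : x2.1 < x3.1 := h23
  by_cases hu3 : u = x3
  · have h1 : (sig a * c3 x1 x2 x3)⁻¹ x3 = x2 := by
      rw [Perm.inv_eq_iff_eq, Perm.mul_apply, c3_2 d.ne13 d.ne23, ← hu3, hu', hu3]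
    rw [h1, Fin.le_def, blk_x3_val h12 h23, blk_x2 h12 h23]
    omega
  · have h1 : (sig a * c3 x1 x2 x3)⁻¹ x3 = u := by
      rw [Perm.inv_eq_iff_eq, Perm.mul_apply, c3_ne hu1 hu2 hu3, hu']
    rw [h1, Fin.le_def, blk_x3_val h12 h23, blk_val h12 h23]
    have h2 : x3.1 ≤ u.1 := hD
    have h3 : u.1 ≠ x3.1 := fun h => hu3 (Fin.ext h)
    split_ifs <;> omega

theorem merged_ge (h : GlueOK a x1 x2 x3) {u : Fin N}
    (hu : (sig a * c3 x1 x2 x3).SameCycle x3 u) : x1 ≤ u := by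
  have d := dist_of_glueOK h
  obtain ⟨-, h1, h2, -, h12, hall⟩ := h
  rw [mem_mins] at h1 h2
  have h3 := (merge_iff d x3 u).mp hu
  rcases h3 with h3 | ⟨-, ⟨t, ht, htu⟩⟩
  · exact h12.le.trans (hall u h3).le
  · simp only [Finset.mem_insert, Finset.mem_singleton] at ht
    rcases ht with rfl | rfl | rfl
    · exact h1 u htu
    · exact h12.le.trans (h2 u htu)
    · exact h12.le.trans (hall u htu).le

end Glue

/-! ### Counting the classes -/

theorem card_merge {a : Perm (Fin N)} {x1 x2 x3 : Fin N} (d : Dist (sig a) x1 x2 x3) :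
    Nat.card (Quotient (cyc a)) = Nat.card (Quotient (mergeS a {x1, x2, x3})) + 2 := by
  classical
  have : Finite (Quotient (cyc a)) := Quotient.finite _
  have : Fintype (Quotient (cyc a)) := Fintype.ofFinite _
  set q2 : Quotient (cyc a) := Quotient.mk (cyc a) x2 with hq2
  set q3 : Quotient (cyc a) := Quotient.mk (cyc a) x3 with hq3
  set q1 : Quotient (cyc a) := Quotient.mk (cyc a) x1 with hq1
  have hne : q2 ≠ q3 := fun h => d.h23 (Quotient.exact h)
  have hne12 : q1 ≠ q2 := fun h => d.h12 (Quotient.exact h)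
  have hne13 : q1 ≠ q3 := fun h => d.h13 (Quotient.exact h)
  have hcard : Nat.card (Quotient (cyc a)) =
      Nat.card {q : Quotient (cyc a) // q ∉ ({q2, q3} : Finset (Quotient (cyc a)))} + 2 := by
    rw [Nat.card_eq_fintype_card, Nat.card_eq_fintype_card]
    have h1 := Fintype.card_subtype_compl (fun q : Quotient (cyc a) => q ∈ ({q2, q3} : Finset _))
    have h2 : Fintype.card {q : Quotient (cyc a) // q ∈ ({q2, q3} : Finset _)} = 2 := by
      rw [Fintype.card_coe, Finset.card_pair hne]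
    have h3 := Fintype.card_subtype_le (fun q : Quotient (cyc a) => q ∈ ({q2, q3} : Finset _))
    rw [h2] at h1 h3
    rw [h1]
    omega
  rw [hcard]
  congr 1
  refine Nat.card_congr (Equiv.ofBijective (fun q => Quotient.map' (s₁ := cyc a)
    (s₂ := mergeS a {x1, x2, x3}) id (fun u v h => Or.inl h) q.1) ⟨?_, ?_⟩)
  · rintro ⟨p, hp⟩ ⟨q, hq⟩ h
    induction p using Quotient.inductionOn with
    | h u =>
    induction q using Quotient.inductionOn with
    | h v =>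
    have hm : mergeS a {x1, x2, x3} u v := Quotient.exact h
    apply Subtype.ext
    apply Quotient.sound
    simp only [Finset.mem_insert, Finset.mem_singleton, not_or] at hp hq
    rcases hm with hm | ⟨⟨t, ht, htu⟩, ⟨t', ht', htv⟩⟩
    · exact hm
    · simp only [Finset.mem_insert, Finset.mem_singleton] at ht ht'
      have hu : (sig a).SameCycle x1 u := by
        rcases ht with rfl | rfl | rfl
        · exact htu
        · exact absurd (Quotient.sound htu.symm) hp.1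
        · exact absurd (Quotient.sound htu.symm) hp.2
      have hv : (sig a).SameCycle x1 v := by
        rcases ht' with rfl | rfl | rfl
        · exact htv
        · exact absurd (Quotient.sound htv.symm) hq.1
        · exact absurd (Quotient.sound htv.symm) hq.2
      exact hu.symm.trans hv
  · intro q
    induction q using Quotient.inductionOn with
    | h z =>
    by_cases hz : (sig a).SameCycle x2 z ∨ (sig a).SameCycle x3 z
    · refine ⟨⟨q1, by simp [hne12, hne13]⟩, ?_⟩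
      apply Quotient.sound
      refine Or.inr ⟨⟨x1, by simp, Perm.SameCycle.refl _ _⟩, ?_⟩
      rcases hz with hz | hz
      · exact ⟨x2, by simp, hz⟩
      · exact ⟨x3, by simp, hz⟩
    · refine ⟨⟨Quotient.mk (cyc a) z, ?_⟩, rfl⟩
      simp only [Finset.mem_insert, Finset.mem_singleton, not_or]
      refine ⟨fun h => hz (Or.inl ?_), fun h => hz (Or.inr ?_)⟩
      · exact Perm.SameCycle.symm (Quotient.exact h)
      · exact Perm.SameCycle.symm (Quotient.exact h)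

theorem card_comap {s : Setoid (Fin N)} (g : Perm (Fin N)) :
    Nat.card (Quotient (s.comap g)) = Nat.card (Quotient s) := by
  refine Nat.card_congr (Equiv.ofBijective (Quotient.map' (s₁ := s.comap g) (s₂ := s) g
    (fun u v h => h)) ⟨?_, ?_⟩)
  · intro p q h
    induction p using Quotient.inductionOn with
    | h u =>
    induction q using Quotient.inductionOn with
    | h v =>
    exact Quotient.sound (Quotient.exact h : s (g u) (g v))
  · intro q
    induction q using Quotient.inductionOn with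
    | h z => exact ⟨Quotient.mk _ (g⁻¹ z), by
        show Quotient.mk s (g (g⁻¹ z)) = _
        simp⟩

end StepAux

open StepAux

variable {N : ℕ}

theorem glue_step {a : Perm (Fin N)} {x1 x2 x3 : Fin N} (h : GlueOK a x1 x2 x3) :
    IsGluing (blk x1 x2 x3 * a * (blk x1 x2 x3)⁻¹) ∧
    blk x1 x2 x3 x3 ∈ TT (blk x1 x2 x3 * a * (blk x1 x2 x3)⁻¹) ∧
    cyc (blk x1 x2 x3 * a * (blk x1 x2 x3)⁻¹) =
      (mergeS a {x1, x2, x3}).comap (⇑(blk x1 x2 x3)⁻¹) ∧
    ncyc a = ncyc (blk x1 x2 x3 * a * (blk x1 x2 x3)⁻¹) + 2 ∧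
    (∀ y, (sig (blk x1 x2 x3 * a * (blk x1 x2 x3)⁻¹)).SameCycle (blk x1 x2 x3 x3) y → x1 ≤ y) ∧
    (sig (blk x1 x2 x3 * a * (blk x1 x2 x3)⁻¹)).SameCycle (blk x1 x2 x3 x3) x1 := by
  have h12 := lt12 h
  have h23 := lt23 h
  have d := dist_of_glueOK h
  have hcyc : cyc (blk x1 x2 x3 * a * (blk x1 x2 x3)⁻¹) =
      (mergeS a {x1, x2, x3}).comap (⇑(blk x1 x2 x3)⁻¹) := by
    ext u v
    exact (sameCycle_blk h12 h23 u v).trans (merge_iff d _ _)
  have hsame : (sig (blk x1 x2 x3 * a * (blk x1 x2 x3)⁻¹)).SameCycle (blk x1 x2 x3 x3) x1 := by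
    rw [sameCycle_blk h12 h23]
    have e1 : (blk x1 x2 x3)⁻¹ x1 = x1 := by
      rw [Perm.inv_eq_iff_eq, blk_x1 h12 h23]
    rw [e1]
    simpa using ((same12 d rfl).trans (same23 d rfl)).symm
  have hge : ∀ y, (sig (blk x1 x2 x3 * a * (blk x1 x2 x3)⁻¹)).SameCycle (blk x1 x2 x3 x3) y →
      x1 ≤ y := by
    intro y hy
    rw [sameCycle_blk h12 h23] at hy
    have h1 := merged_ge h (u := (blk x1 x2 x3)⁻¹ y) (by simpa using hy)
    have h2 := (x1_le_blk h12 h23 _).mpr h1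
    simpa using h2
  refine ⟨isGluing_conj h.1 _, ?_, hcyc, ?_, hge, hsame⟩
  · rw [mem_TT, mem_DT]
    refine ⟨?_, ?_⟩
    · rw [sig_inv_conj h12 h23]
      exact s_inv_x3 h
    · intro hm
      have h1 := mem_mins.mp hm x1 hsame
      have e12 : x1.1 < x2.1 := h12
      have e23 : x2.1 < x3.1 := h23
      rw [Fin.le_def, blk_x3_val h12 h23] at h1
      omega
  · unfold ncyc
    rw [hcyc, card_comap, card_merge d]

namespace StepAux

theorem conj_pow_apply {β s τ : Perm (Fin N)} (h : τ = β * s * β⁻¹) (j : ℕ) (z : Fin N) :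
    (τ ^ j) (β z) = β ((s ^ j) z) := by
  rw [h, conj_pow]
  simp [Perm.mul_apply]

theorem slice_aux {b : Perm (Fin N)} (hb : IsGluing b) {y m : Fin N} (hmy : m < y)
    (hyD : y ≤ (sig b)⁻¹ y) (hmin : ∀ z, (sig b).SameCycle m z → m ≤ z) {k2 k3 : ℕ}
    (h2 : 0 < k2) (h23' : k2 < k3) (e3 : ((sig b) ^ k3) m = y)
    (min3 : ∀ j, 0 < j → j < k3 → ((sig b) ^ j) m ≠ y)
    (hw : y < ((sig b) ^ k2) m)
    (hwmin : ∀ j, 0 < j → j < k3 → y < ((sig b) ^ j) m → ((sig b) ^ k2) m ≤ ((sig b) ^ j) m) :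
    ∃ (a : Perm (Fin N)) (x1 x2 x3 : Fin N), GlueOK a x1 x2 x3 ∧
      b = blk x1 x2 x3 * a * (blk x1 x2 x3)⁻¹ ∧ y = blk x1 x2 x3 x3 := by
  set τ := sig b with hτ
  set w := (τ ^ k2) m with hwdef
  have vmy : m.1 < y.1 := hmy
  have vyw : y.1 < w.1 := hw
  obtain ⟨x2, hx2⟩ : ∃ x2 : Fin N, x2.1 = m.1 + (w.1 - y.1) :=
    ⟨⟨m.1 + (w.1 - y.1), by have := w.2; omega⟩, rfl⟩
  have h12 : m < x2 := by rw [Fin.lt_def]; omega
  have h23 : x2 < w := by rw [Fin.lt_def]; omega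
  have v12 : m.1 < x2.1 := h12
  have v23 : x2.1 < w.1 := h23
  set β := blk m x2 w with hβ
  have β1 : β m = m := blk_x1 h12 h23
  have β2 : β x2 = w := blk_x2 h12 h23
  have β3 : β w = y := by
    apply Fin.ext
    rw [hβ, blk_x3_val h12 h23]
    omega
  set a := β⁻¹ * b * β with ha
  have hba : b = β * a * β⁻¹ := by rw [ha]; group
  set s := sig a * c3 m x2 w with hs
  have hτs : τ = β * s * β⁻¹ := by
    rw [hτ, hs, hβ, ← sig_conj h12 h23, ← hβ, ← hba]
  have hpow : ∀ j, (τ ^ j) m = β ((s ^ j) m) := by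
    intro j
    have := conj_pow_apply hτs j m
    rwa [β1] at this
  have o : Ord s m x2 w k2 k3 := by
    refine ⟨h2, h23', ?_, ?_, ne_of_lt (h12.trans h23), ?_⟩
    · apply β.injective
      rw [← hpow, β2]
    · apply β.injective
      rw [← hpow, e3, β3]
    · intro j h0 h1 h
      apply min3 j h0 h1
      rw [hpow, h, β3]
  have hsame : ∀ j, τ.SameCycle m ((τ ^ j) m) := fun j => ⟨j, rfl⟩
  -- the key comparison
  have key : ∀ j, 0 < j → j < k3 → j ≠ k2 → x2 < (s ^ j) m := by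
    intro j h0 h1 hj
    set z := (s ^ j) m with hz
    have hzτ : β z = (τ ^ j) m := (hpow j).symm
    have g1 : m ≤ β z := by rw [hzτ]; exact hmin _ (hsame j)
    have g2 : β z ≠ m := by
      intro h
      apply o.ne1 h0 h1
      apply β.injective
      rw [← hz, h, β1]
    have g3 : β z ≠ w := by
      intro h
      apply o.ne2 h0 h1 hj
      apply β.injective
      rw [← hz, h, β2]
    have g4 : y < β z → w ≤ β z := by
      intro h
      rw [hzτ] at h ⊢
      exact hwmin j h0 h1 h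
    have g1' : m.1 ≤ (β z).1 := g1
    have g2' : (β z).1 ≠ m.1 := fun h => g2 (Fin.ext h)
    have g3' : (β z).1 ≠ w.1 := fun h => g3 (Fin.ext h)
    have g4' : y.1 < (β z).1 → w.1 ≤ (β z).1 := g4
    have hv := blk_val h12 h23 z
    rw [← hβ] at hv
    rw [hv] at g1' g2' g3' g4'
    rw [Fin.lt_def]
    split_ifs at g1' g2' g3' g4' <;> omega
  have hk3 : 0 < k3 := by omega
  refine ⟨a, m, x2, w, ⟨?_, ?_, ?_, ?_, h12, ?_⟩, hba, β3.symm⟩
  · have := isGluing_conj hb β⁻¹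
    rwa [inv_inv] at this
  · rw [mem_mins]
    intro z hz
    have h1 := o.refine hs hz
    have h3 : τ.SameCycle m (β z) := by
      rw [hτs, Perm.sameCycle_conj]
      have e1 : β⁻¹ m = m := by rw [Perm.inv_eq_iff_eq, β1]
      rw [e1]
      simpa using h1
    have h4 := hmin _ h3
    rw [hβ] at h4
    exact (x1_le_blk h12 h23 z).mp h4
  · rw [mem_mins]
    intro z hz
    obtain ⟨j, h0, h1, rfl⟩ := o.cycle2 hs hz
    rcases eq_or_ne j k2 with rfl | hj
    · rw [o.e2]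
    · exact (key j h0 (by omega) hj).le
  · rw [mem_DT]
    have h1 : (sig a)⁻¹ w = c3 m x2 w (s⁻¹ w) := by
      rw [hs]
      simp [Perm.mul_apply, mul_inv_rev]
    have h3 : s⁻¹ w = (s ^ (k3 - 1)) m := by
      rw [Perm.inv_eq_iff_eq, ← Perm.mul_apply, ← pow_succ', Nat.sub_add_cancel hk3, o.e3]
    rw [h1, h3]
    rcases eq_or_ne (k3 - 1) k2 with hj | hj
    · rw [hj, o.e2, c3_2 (ne_of_lt (h12.trans h23)) (ne_of_lt h23)]
    · have hpos : 0 < k3 - 1 := by omega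
      rw [c3_ne (o.ne1 hpos (by omega)) (o.ne2 hpos (by omega) hj) (o.min3 _ hpos (by omega))]
      have h4 := key (k3 - 1) hpos (by omega) hj
      set z := (s ^ (k3 - 1)) m with hz
      have hzτ : β z = (τ ^ (k3 - 1)) m := (hpow _).symm
      have h5 : (τ ^ (k3 - 1)) m = τ⁻¹ y := by
        rw [Perm.eq_inv_iff_eq, ← Perm.mul_apply, ← pow_succ', Nat.sub_add_cancel hk3, e3]
      have g1 : y ≤ β z := by rw [hzτ, h5]; exact hyD
      have g2 : β z ≠ y := by rw [hzτ]; exact min3 _ hpos (by omega)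
      have g3 : w ≤ β z := by
        rw [hzτ]
        refine hwmin _ hpos (by omega) ?_
        rw [← hzτ]
        exact lt_of_le_of_ne g1 g2.symm
      have hv := blk_val h12 h23 z
      rw [← hβ] at hv
      have g3' : w.1 ≤ (β z).1 := g3
      have h4' : x2.1 < z.1 := h4
      rw [hv] at g3'
      rw [Fin.le_def]
      split_ifs at g3' <;> omega
  · intro z hz
    obtain ⟨j, h0, h1, rfl⟩ := o.cycle3 hs hz
    rcases eq_or_ne j k3 with rfl | hj
    · rw [o.e3]; exact h23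
    · exact key j (by omega) (by omega) (by omega)

theorem walk23 {a : Perm (Fin N)} {x1 x2 x3 : Fin N} (d : Dist (sig a) x1 x2 x3) {j : ℕ}
    (h0 : 0 < j) (hj : ∀ i, 0 < i → i ≤ j → ((sig a * c3 x1 x2 x3) ^ i) x1 ≠ x3) :
    (sig a).SameCycle x2 (((sig a * c3 x1 x2 x3) ^ j) x1) ∨
      (sig a).SameCycle x3 (((sig a * c3 x1 x2 x3) ^ j) x1) := by
  set s := sig a * c3 x1 x2 x3 with hs
  induction j with
  | zero => omega
  | succ j ih =>
    rcases Nat.eq_zero_or_pos j with h | h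
    · subst h
      left
      rw [zero_add, pow_one, s1 hs d.ne12 d.ne13]
      exact ⟨1, by simp⟩
    · have ih' := ih h (fun i h1 h2 => hj i h1 (by omega))
      have hne := hj j h (by omega)
      rw [pow_succ', Perm.mul_apply]
      set z := (s ^ j) x1 with hz
      have step : ∀ p : Fin N, (sig a).SameCycle p z → (sig a).SameCycle p (sig a z) :=
        fun p hp => hp.trans ⟨1, by simp⟩
      rcases ih' with h1 | h1
      · have n1 : z ≠ x1 := by
          intro h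
          rw [h] at h1
          exact d.h12 h1.symm
        by_cases n2 : z = x2
        · right
          rw [n2, s2 hs d.ne13 d.ne23]
          exact ⟨1, by simp⟩
        · left
          rw [sne hs n1 n2 hne]
          exact step _ h1
      · have n1 : z ≠ x1 := by
          intro h
          rw [h] at h1
          exact d.h13 h1.symm
        have n2 : z ≠ x2 := by
          intro h
          rw [h] at h1
          exact d.h23 h1.symm
        right
        rw [sne hs n1 n2 hne]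
        exact step _ h1

theorem char_exists {a : Perm (Fin N)} {x1 x2 x3 : Fin N} (h : GlueOK a x1 x2 x3) :
    ∃ j, 0 < j ∧ ((sig (blk x1 x2 x3 * a * (blk x1 x2 x3)⁻¹)) ^ j) x1 = x3 ∧
      ∀ i, 0 < i → i ≤ j →
        ((sig (blk x1 x2 x3 * a * (blk x1 x2 x3)⁻¹)) ^ i) x1 ≠ blk x1 x2 x3 x3 := by
  have h12 := lt12 h
  have h23 := lt23 h
  have d := dist_of_glueOK h
  have hpow : ∀ j, ((sig (blk x1 x2 x3 * a * (blk x1 x2 x3)⁻¹)) ^ j) x1 =
      blk x1 x2 x3 (((sig a * c3 x1 x2 x3) ^ j) x1) := by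
    intro j
    have := conj_pow_apply (sig_conj h12 h23 a) j x1
    rwa [blk_x1 h12 h23] at this
  obtain ⟨j, h0, hj, hi⟩ := reach12 d rfl (Perm.SameCycle.refl (sig a) x2)
  refine ⟨j, h0, ?_, ?_⟩
  · rw [hpow, hj, blk_x2 h12 h23]
  · intro i hi0 hij hc
    rw [hpow] at hc
    have h1 := (blk x1 x2 x3).injective hc
    have h2 := hi i hi0 hij
    rw [h1] at h2
    exact d.h23 h2

theorem char_min {a : Perm (Fin N)} {x1 x2 x3 : Fin N} (h : GlueOK a x1 x2 x3) {j : ℕ}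
    (h0 : 0 < j) (hj : ∀ i, 0 < i → i ≤ j →
        ((sig (blk x1 x2 x3 * a * (blk x1 x2 x3)⁻¹)) ^ i) x1 ≠ blk x1 x2 x3 x3)
    (hlt : blk x1 x2 x3 x3 < ((sig (blk x1 x2 x3 * a * (blk x1 x2 x3)⁻¹)) ^ j) x1) :
    x3 ≤ ((sig (blk x1 x2 x3 * a * (blk x1 x2 x3)⁻¹)) ^ j) x1 := by
  have h12 := lt12 h
  have h23 := lt23 h
  have d := dist_of_glueOK h
  have hpow : ∀ j, ((sig (blk x1 x2 x3 * a * (blk x1 x2 x3)⁻¹)) ^ j) x1 =
      blk x1 x2 x3 (((sig a * c3 x1 x2 x3) ^ j) x1) := by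
    intro j
    have := conj_pow_apply (sig_conj h12 h23 a) j x1
    rwa [blk_x1 h12 h23] at this
  rw [hpow] at hlt ⊢
  have h1 := walk23 d h0 (fun i hi0 hij hc => hj i hi0 hij (by rw [hpow, hc]))
  set z := ((sig a * c3 x1 x2 x3) ^ j) x1 with hz
  have h2 : x2 ≤ z := by
    rcases h1 with h1 | h1
    · exact mem_mins.mp h.2.2.1 z h1
    · exact (h.2.2.2.2.2 z h1).le
  have v12 : x1.1 < x2.1 := h12
  have v23 : x2.1 < x3.1 := h23
  have v2 : x2.1 ≤ z.1 := h2
  rw [Fin.lt_def, blk_x3_val h12 h23, blk_val h12 h23] at hlt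
  rw [Fin.le_def, blk_val h12 h23]
  split_ifs at hlt ⊢ <;> omega

end StepAux

theorem slice_step {b : Perm (Fin N)} (hb : IsGluing b) {y : Fin N} (hy : y ∈ TT b) :
    ∃ (a : Perm (Fin N)) (x1 x2 x3 : Fin N), GlueOK a x1 x2 x3 ∧
      b = blk x1 x2 x3 * a * (blk x1 x2 x3)⁻¹ ∧ y = blk x1 x2 x3 x3 := by
  classical
  rw [mem_TT, mem_DT] at hy
  obtain ⟨hyD, hyM⟩ := hy
  obtain ⟨m, hm, hmmin⟩ := Finset.exists_min_image
    (Finset.univ.filter (fun z => (sig b).SameCycle y z)) id ⟨y, Finset.mem_filter.mpr ⟨Finset.mem_univ _, Perm.SameCycle.refl _ _⟩⟩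
  simp only [Finset.mem_filter, Finset.mem_univ, true_and, id] at hm hmmin
  have hmy : m < y := by
    rw [mem_mins] at hyM
    push Not at hyM
    obtain ⟨z, hz1, hz2⟩ := hyM
    exact lt_of_le_of_lt (hmmin z hz1) hz2
  have hmin : ∀ z, (sig b).SameCycle m z → m ≤ z := fun z hz => hmmin z (hm.trans hz)
  obtain ⟨k0, hk0, -, hk0'⟩ := hm.symm.exists_pow_eq''
  have hex : ∃ k, 0 < k ∧ ((sig b) ^ k) m = y := ⟨k0, hk0, hk0'⟩
  obtain ⟨hk3, e3⟩ := Nat.find_spec hex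
  set k3 := Nat.find hex with hk3def
  have min3 : ∀ j, 0 < j → j < k3 → ((sig b) ^ j) m ≠ y := fun j h0 h1 h =>
    Nat.find_min hex h1 ⟨h0, h⟩
  have hpred : ((sig b) ^ (k3 - 1)) m = (sig b)⁻¹ y := by
    rw [Perm.eq_inv_iff_eq, ← Perm.mul_apply, ← pow_succ', Nat.sub_add_cancel hk3, e3]
  have hk3' : 0 < k3 - 1 := by
    rcases Nat.eq_zero_or_pos (k3 - 1) with h | h
    · rw [h, pow_zero, Perm.one_apply] at hpred
      rw [← hpred] at hyD
      exact absurd hyD (not_le.mpr hmy)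
    · exact h
  have hlt : y < ((sig b) ^ (k3 - 1)) m :=
    lt_of_le_of_ne (by rw [hpred]; exact hyD) (min3 _ hk3' (by omega)).symm
  obtain ⟨k2, hk2, hk2min⟩ := Finset.exists_min_image
    ((Finset.Ioo 0 k3).filter (fun j => y < ((sig b) ^ j) m)) (fun j => ((sig b) ^ j) m)
    ⟨k3 - 1, by simp only [Finset.mem_filter, Finset.mem_Ioo]; exact ⟨⟨hk3', by omega⟩, hlt⟩⟩
  simp only [Finset.mem_filter, Finset.mem_Ioo] at hk2 hk2min
  exact slice_aux hb hmy hyD hmin hk2.1.1 hk2.1.2 e3 min3 hk2.2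
    (fun j h0 h1 h2 => hk2min j ⟨⟨h0, h1⟩, h2⟩)

theorem glue_inj {a a' : Perm (Fin N)} {x1 x2 x3 x1' x2' x3' : Fin N}
    (h : GlueOK a x1 x2 x3) (h' : GlueOK a' x1' x2' x3')
    (hb : blk x1 x2 x3 * a * (blk x1 x2 x3)⁻¹ = blk x1' x2' x3' * a' * (blk x1' x2' x3')⁻¹)
    (hy : blk x1 x2 x3 x3 = blk x1' x2' x3' x3') :
    a = a' ∧ x1 = x1' ∧ x2 = x2' ∧ x3 = x3' := by
  obtain ⟨-, -, -, -, hge, hsame⟩ := glue_step h
  obtain ⟨-, -, -, -, hge', hsame'⟩ := glue_step h'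
  have e1 : x1 = x1' := by
    apply le_antisymm
    · apply hge
      rw [hb, hy]
      exact hsame'
    · apply hge'
      rw [← hb, ← hy]
      exact hsame
  subst e1
  have v12 : x1.1 < x2.1 := lt12 h
  have v23 : x2.1 < x3.1 := lt23 h
  have v12' : x1.1 < x2'.1 := lt12 h'
  have v23' : x2'.1 < x3'.1 := lt23 h'
  have hy3 := blk_x3_val (lt12 h) (lt23 h)
  have hy3' := blk_x3_val (lt12 h') (lt23 h')
  have hltx : blk x1 x2 x3 x3 < x3 := by rw [Fin.lt_def, hy3]; omega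
  have hltx' : blk x1 x2' x3' x3' < x3' := by rw [Fin.lt_def, hy3']; omega
  have e3 : x3 = x3' := by
    apply le_antisymm
    · obtain ⟨j, h0, hj, hi⟩ := char_exists h'
      rw [← hb, ← hy] at hi
      rw [← hb] at hj
      have h1 := char_min h h0 hi (by rw [hj, hy]; exact hltx')
      rwa [hj] at h1
    · obtain ⟨j, h0, hj, hi⟩ := char_exists h
      rw [hb, hy] at hi
      rw [hb] at hj
      have h1 := char_min h' h0 hi (by rw [hj, ← hy]; exact hltx)
      rwa [hj] at h1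
  subst e3
  have e2 : x2 = x2' := by
    apply Fin.ext
    rw [hy] at hy3
    rw [hy3'] at hy3
    omega
  subst e2
  refine ⟨?_, rfl, rfl, rfl⟩
  have h1 := mul_right_cancel hb
  exact mul_left_cancel h1

end Pool.Agent.Syst
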